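import Pool.Agent.Helper81.FZ.Defs

set_option autoImplicit false

namespace Pool.Agent.Helper81.FZ

open Finset

universe u v

variable {α : Type u} {β : Type v}

theorem IsM.mono {σ τ : Finset (α × β)} (h : IsM σ) (hτ : τ ⊆ σ) : IsM τ :=
  fun e he e' he' hh => h e (hτ he) e' (hτ he') hh

open Classical in
theorem IsM.insert {σ : Finset (α × β)} (h : IsM σ) {a : α} {b : β} (ha : FrA σ a) (hb : FrB σ b) :
    IsM (insert (a, b) σ) := by
  intro e he e' he' hh
  rcases Finset.mem_insert.1 he with rfl | he1 <;> rcases Finset.mem_insert.1 he' with rfl | he2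
  · rfl
  · rcases hh with hh | hh
    · exact absurd hh.symm (ha _ he2)
    · exact absurd hh.symm (hb _ he2)
  · rcases hh with hh | hh
    · exact absurd hh (ha _ he1)
    · exact absurd hh (hb _ he1)
  · exact h e he1 e' he2 hh

theorem IsM.card_le_left [Fintype α] {σ : Finset (α × β)} (h : IsM σ) :
    σ.card ≤ Fintype.card α := by
  classical
  have h1 : (σ.image Prod.fst).card = σ.card :=
    Finset.card_image_of_injOn (fun e he e' he' hh => h e he e' he' (Or.inl hh))
  rw [← h1]
  exact Finset.card_le_univ _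

theorem IsM.card_le_right [Fintype β] {σ : Finset (α × β)} (h : IsM σ) :
    σ.card ≤ Fintype.card β := by
  classical
  have h1 : (σ.image Prod.snd).card = σ.card :=
    Finset.card_image_of_injOn (fun e he e' he' hh => h e he e' he' (Or.inr hh))
  rw [← h1]
  exact Finset.card_le_univ _

theorem trunc_apply (K : Type*) [Field K] (t : ℕ) (F : Finset (α × β) → K) (σ : Finset (α × β)) :
    trunc K α β t F σ = if σ.card ≤ t then F σ else 0 := rfl

/-- truncation maps `Co s` to `Co t` -/
theorem trunc_mem (K : Type*) [Field K] [Fintype α] [Fintype β] {s t : ℕ} (hts : t ≤ s)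
    (F : Finset (α × β) → K) (hF : F ∈ Co K α β s) : trunc K α β t F ∈ Co K α β t := by
  classical
  obtain ⟨h1, h2⟩ := hF
  refine ⟨fun σ hσ => ?_, fun σ hσ hc => ⟨fun a ha => ?_, fun b hb => ?_⟩⟩
  · rw [trunc_apply]
    split_ifs with h
    · exact h1 σ (fun h' => hσ ⟨h'.1, h⟩)
    · rfl
  · simp only [trunc_apply]
    rw [if_pos hc.le, ← (h2 σ hσ (lt_of_lt_of_le hc hts)).1 a ha]
    refine Finset.sum_congr rfl fun b _ => ?_
    rw [if_pos ((Finset.card_insert_le _ _).trans hc)]
  · simp only [trunc_apply]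
    rw [if_pos hc.le, ← (h2 σ hσ (lt_of_lt_of_le hc hts)).2 b hb]
    refine Finset.sum_congr rfl fun a _ => ?_
    rw [if_pos ((Finset.card_insert_le _ _).trans hc)]

section equiv

variable {α' : Type*} {β' : Type*}

theorem isM_map_iff (e : α ≃ α') (f : β ≃ β') (σ : Finset (α × β)) :
    IsM (σ.map (Equiv.prodCongr e f).toEmbedding) ↔ IsM σ := by
  constructor
  · intro h x hx y hy hh
    have := h (e x.1, f x.2) (Finset.mem_map.2 ⟨x, hx, rfl⟩) (e y.1, f y.2)
      (Finset.mem_map.2 ⟨y, hy, rfl⟩) (by simpa using hh)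
    simp only [Prod.mk.injEq, EmbeddingLike.apply_eq_iff_eq] at this
    exact Prod.ext this.1 this.2
  · intro h x0 hx0 y0 hy0 hh
    obtain ⟨x, hx, rfl⟩ := Finset.mem_map.1 hx0
    obtain ⟨y, hy, rfl⟩ := Finset.mem_map.1 hy0
    rw [h x hx y hy (by simpa using hh)]

theorem frA_map_iff (e : α ≃ α') (f : β ≃ β') (σ : Finset (α × β)) (a : α) :
    FrA (σ.map (Equiv.prodCongr e f).toEmbedding) (e a) ↔ FrA σ a := by
  constructor
  · intro h x hx hxa
    exact h (e x.1, f x.2) (Finset.mem_map.2 ⟨x, hx, rfl⟩) (by simp [hxa])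
  · intro h x0 hx0 hxa
    obtain ⟨x, hx, rfl⟩ := Finset.mem_map.1 hx0
    exact h x hx (by simpa using hxa)

theorem frB_map_iff (e : α ≃ α') (f : β ≃ β') (σ : Finset (α × β)) (b : β) :
    FrB (σ.map (Equiv.prodCongr e f).toEmbedding) (f b) ↔ FrB σ b := by
  constructor
  · intro h x hx hxa
    exact h (e x.1, f x.2) (Finset.mem_map.2 ⟨x, hx, rfl⟩) (by simp [hxa])
  · intro h x0 hx0 hxa
    obtain ⟨x, hx, rfl⟩ := Finset.mem_map.1 hx0
    exact h x hx (by simpa using hxa)

theorem Co_equiv_aux (K : Type*) [Field K] [Fintype α] [Fintype β]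
    [Fintype α'] [Fintype β'] (e : α ≃ α') (f : β ≃ β') (s : ℕ) (F : Finset (α' × β') → K)
    (hF : F ∈ Co K α' β' s) :
    (fun σ : Finset (α × β) => F (σ.map (Equiv.prodCongr e f).toEmbedding)) ∈ Co K α β s := by
  classical
  obtain ⟨h1, h2⟩ := hF
  refine ⟨fun σ hσ => ?_, fun σ hσ hc => ?_⟩
  · apply h1
    rw [isM_map_iff, Finset.card_map]
    exact hσ
  · have h3 := h2 _ ((isM_map_iff e f σ).2 hσ) (by rw [Finset.card_map]; exact hc)
    refine ⟨fun a ha => ?_, fun b hb => ?_⟩
    · beta_reduce
      rw [← h3.1 (e a) ((frA_map_iff e f σ a).2 ha)]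
      refine Finset.sum_bij (fun b _ => f b) ?_ ?_ ?_ ?_
      · intro b hb
        simp only [Finset.mem_filter, Finset.mem_univ, true_and] at hb ⊢
        exact (frB_map_iff e f σ b).2 hb
      · intro b _ b' _ h
        exact f.injective h
      · intro b hb
        simp only [Finset.mem_filter, Finset.mem_univ, true_and] at hb
        refine ⟨f.symm b, ?_, by simp⟩
        simp only [Finset.mem_filter, Finset.mem_univ, true_and]
        rw [← frB_map_iff e f]
        simpa using hb
      · intro b _
        rw [Finset.map_insert]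
        rfl
    · beta_reduce
      rw [← h3.2 (f b) ((frB_map_iff e f σ b).2 hb)]
      refine Finset.sum_bij (fun a _ => e a) ?_ ?_ ?_ ?_
      · intro a ha
        simp only [Finset.mem_filter, Finset.mem_univ, true_and] at ha ⊢
        exact (frA_map_iff e f σ a).2 ha
      · intro b _ b' _ h
        exact e.injective h
      · intro b hb
        simp only [Finset.mem_filter, Finset.mem_univ, true_and] at hb
        refine ⟨e.symm b, ?_, by simp⟩
        simp only [Finset.mem_filter, Finset.mem_univ, true_and]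
        rw [← frA_map_iff e f]
        simpa using hb
      · intro b _
        rw [Finset.map_insert]
        rfl

end equiv

/-- transport along bijections -/
theorem Co_equiv (K : Type*) [Field K] [Fintype α] [Fintype β] {α' : Type*} {β' : Type*}
    [Fintype α'] [Fintype β'] (e : α ≃ α') (f : β ≃ β') (s : ℕ) (F : Finset (α' × β') → K) :
    (fun σ : Finset (α × β) => F (σ.map (Equiv.prodCongr e f).toEmbedding)) ∈ Co K α β s ↔
      F ∈ Co K α' β' s := by
  constructor
  · intro h
    have h2 := Co_equiv_aux K e.symm f.symm s _ h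
    have h3 : (fun σ : Finset (α' × β') => F ((σ.map (Equiv.prodCongr e.symm f.symm).toEmbedding).map
        (Equiv.prodCongr e f).toEmbedding)) = F := by
      funext σ
      congr 1
      rw [Finset.map_map]
      ext ⟨x, y⟩
      simp
    rw [h3] at h2
    exact h2
  · exact Co_equiv_aux K e f s F

theorem isM_swap_iff (σ : Finset (β × α)) :
    IsM (σ.map (Equiv.prodComm β α).toEmbedding) ↔ IsM σ := by
  constructor
  · intro h x hx y hy hh
    have := h (x.2, x.1) (Finset.mem_map.2 ⟨x, hx, rfl⟩) (y.2, y.1)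
      (Finset.mem_map.2 ⟨y, hy, rfl⟩) (hh.symm)
    simp only [Prod.mk.injEq] at this
    exact Prod.ext this.2 this.1
  · intro h x0 hx0 y0 hy0 hh
    obtain ⟨x, hx, rfl⟩ := Finset.mem_map.1 hx0
    obtain ⟨y, hy, rfl⟩ := Finset.mem_map.1 hy0
    rw [h x hx y hy (by simpa [or_comm] using hh)]

theorem frA_swap_iff (σ : Finset (β × α)) (a : α) :
    FrA (σ.map (Equiv.prodComm β α).toEmbedding) a ↔ FrB σ a := by
  constructor
  · intro h x hx hxa
    exact h (x.2, x.1) (Finset.mem_map.2 ⟨x, hx, rfl⟩) hxa
  · intro h x0 hx0 hxa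
    obtain ⟨x, hx, rfl⟩ := Finset.mem_map.1 hx0
    exact h x hx (by simpa using hxa)

theorem frB_swap_iff (σ : Finset (β × α)) (b : β) :
    FrB (σ.map (Equiv.prodComm β α).toEmbedding) b ↔ FrA σ b := by
  constructor
  · intro h x hx hxa
    exact h (x.2, x.1) (Finset.mem_map.2 ⟨x, hx, rfl⟩) hxa
  · intro h x0 hx0 hxa
    obtain ⟨x, hx, rfl⟩ := Finset.mem_map.1 hx0
    exact h x hx (by simpa using hxa)

theorem Co_swap_aux (K : Type*) [Field K] [Fintype α] [Fintype β] (s : ℕ)
    (F : Finset (α × β) → K) (hF : F ∈ Co K α β s) :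
    (fun σ : Finset (β × α) => F (σ.map (Equiv.prodComm β α).toEmbedding)) ∈ Co K β α s := by
  classical
  obtain ⟨h1, h2⟩ := hF
  refine ⟨fun σ hσ => ?_, fun σ hσ hc => ?_⟩
  · apply h1
    rw [isM_swap_iff, Finset.card_map]
    exact hσ
  · have h3 := h2 _ ((isM_swap_iff σ).2 hσ) (by rw [Finset.card_map]; exact hc)
    refine ⟨fun a ha => ?_, fun b hb => ?_⟩
    · beta_reduce
      rw [← h3.2 a ((frB_swap_iff σ a).2 ha)]
      refine Finset.sum_congr ?_ fun b _ => ?_
      · ext b
        simp only [Finset.mem_filter, Finset.mem_univ, true_and]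
        exact (frA_swap_iff σ b).symm
      · rw [Finset.map_insert]
        rfl
    · beta_reduce
      rw [← h3.1 b ((frA_swap_iff σ b).2 hb)]
      refine Finset.sum_congr ?_ fun b _ => ?_
      · ext b
        simp only [Finset.mem_filter, Finset.mem_univ, true_and]
        exact (frB_swap_iff σ b).symm
      · rw [Finset.map_insert]
        rfl

/-- transposition -/
theorem Co_swap (K : Type*) [Field K] [Fintype α] [Fintype β] (s : ℕ)
    (F : Finset (α × β) → K) :
    (fun σ : Finset (β × α) => F (σ.map (Equiv.prodComm β α).toEmbedding)) ∈ Co K β α s ↔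
      F ∈ Co K α β s := by
  constructor
  · intro h
    have h2 := Co_swap_aux K s _ h
    have h3 : (fun σ : Finset (α × β) => F ((σ.map (Equiv.prodComm α β).toEmbedding).map
        (Equiv.prodComm β α).toEmbedding)) = F := by
      funext σ
      congr 1
      rw [Finset.map_map]
      ext ⟨x, y⟩
      simp
    rw [h3] at h2
    exact h2
  · exact Co_swap_aux K s F

/-- `dim Co_s ≤ ∑_{j ≤ s} dim NM_j` -/
theorem finrank_Co_le (K : Type*) [Field K] [Fintype α] [Fintype β] (s : ℕ) :
    Module.finrank K (Co K α β s) ≤ ∑ j ∈ range (s + 1), Module.finrank K (NM K α β j) := by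
  classical
  induction s with
  | zero =>
    rw [Finset.sum_range_one]
    have : Co K α β 0 = NM K α β 0 := by
      ext F
      exact ⟨fun h => ⟨h, fun σ hσ => absurd hσ (Nat.not_lt_zero _)⟩, fun h => h.1⟩
    rw [this]
  | succ s ih =>
    rw [Finset.sum_range_succ]
    refine le_trans ?_ (Nat.add_le_add_right ih _)
    set T := (trunc K α β s).domRestrict (Co K α β (s + 1)) with hT
    have h1 := LinearMap.finrank_range_add_finrank_ker T
    have h2 : Module.finrank K (LinearMap.range T) ≤ Module.finrank K (Co K α β s) := by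
      apply Submodule.finrank_mono
      rintro _ ⟨F, rfl⟩
      exact trunc_mem K (Nat.le_succ s) F.1 F.2
    have h3 : Module.finrank K (LinearMap.ker T) ≤ Module.finrank K (NM K α β (s + 1)) := by
      let φ : LinearMap.ker T →ₗ[K] NM K α β (s + 1) :=
        { toFun := fun F => ⟨F.1.1, F.1.2, fun σ hσ => by
            have h4 : T F.1 = 0 := F.2
            have h5 := congrFun h4 σ
            have h6 : T F.1 σ = if σ.card ≤ s then F.1.1 σ else 0 := rfl
            rw [h6, if_pos (Nat.lt_succ_iff.1 hσ)] at h5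
            exact h5⟩
          map_add' := fun F G => rfl
          map_smul' := fun c F => rfl }
      apply LinearMap.finrank_le_finrank_of_injective (f := φ)
      intro F G hFG
      apply Subtype.ext
      apply Subtype.ext
      exact congrArg (fun x : NM K α β (s + 1) => x.1) hFG
    omega

end Pool.Agent.Helper81.FZ
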