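import Pool.Agent.Helper81.FZ.EBbasic

set_option autoImplicit false

namespace Pool.Agent.Helper81.FZ

open Finset

private theorem bk_congr {ι : Type*} (x : ℝ) (C : Finset ι) (φ ψ : Finset ι → ℝ)
    (h : ∀ Z ⊆ C, φ Z = ψ Z) : EB x C φ = EB x C ψ := by
  unfold EB
  exact Finset.sum_congr rfl fun Z hZ => by rw [h Z (mem_powerset.1 hZ)]

private theorem bk_empty {ι : Type*} (x : ℝ) (φ : Finset ι → ℝ) :
    EB x (∅ : Finset ι) φ = φ ∅ := by
  simp [EB]

private theorem bk_union {ι : Type*} [DecidableEq ι] (x : ℝ) (C D : Finset ι) (h : Disjoint C D)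
    (φ : Finset ι → ℝ) :
    EB x (C ∪ D) φ = EB x C (fun Z => EB x D (fun W => φ (Z ∪ W))) := by
  induction D using Finset.induction_on generalizing φ with
  | empty =>
    simp only [Finset.union_empty]
    apply bk_congr
    intro Z _
    rw [bk_empty, Finset.union_empty]
  | insert d D hd ih =>
    rw [Finset.disjoint_insert_right] at h
    have hdC : d ∉ C ∪ D := by
      rw [Finset.mem_union]; tauto
    rw [Finset.union_insert, EB_insert _ _ _ hdC, ih h.2, ih h.2]
    simp only [EB_insert x D d hd, EB_add, EB_mul, Finset.union_insert]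

private def nxJ (I J w : Bool) : Bool := !I && (J || w)

private def nxI (I J w : Bool) : Bool := !J && (I || w)

private def rJ (I W : Finset ℕ) (j : Bool) : ℕ → Bool
  | 0 => j
  | i + 1 => nxJ (decide (i ∈ I)) (rJ I W j i) (decide (i ∈ W))

private def rI (I W : Finset ℕ) (j : Bool) (m : ℕ) : Finset ℕ :=
  (range m).filter (fun i => nxI (decide (i ∈ I)) (rJ I W j i) (decide (i ∈ W)) = true)

private theorem rJ_congr {I I' W W' : Finset ℕ} (j : Bool) (m : ℕ)
    (hI : ∀ i < m, (i ∈ I ↔ i ∈ I')) (hW : ∀ i < m, (i ∈ W ↔ i ∈ W')) :
    rJ I W j m = rJ I' W' j m := by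
  induction m with
  | zero => rfl
  | succ m ih =>
    have h1 := ih (fun i hi => hI i (by omega)) (fun i hi => hW i (by omega))
    simp only [rJ, h1, decide_eq_decide.2 (hI m (by omega)), decide_eq_decide.2 (hW m (by omega))]

private theorem rI_congr {I I' W W' : Finset ℕ} (j : Bool) (m : ℕ)
    (hI : ∀ i < m, (i ∈ I ↔ i ∈ I')) (hW : ∀ i < m, (i ∈ W ↔ i ∈ W')) :
    rI I W j m = rI I' W' j m := by
  unfold rI
  apply Finset.filter_congr
  intro i hi
  rw [mem_range] at hi
  rw [rJ_congr j i (fun l hl => hI l (by omega)) (fun l hl => hW l (by omega)),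
    decide_eq_decide.2 (hI i hi), decide_eq_decide.2 (hW i hi)]

private theorem rI_succ (I W : Finset ℕ) (j : Bool) (m : ℕ) :
    rI I W j (m + 1) = if nxI (decide (m ∈ I)) (rJ I W j m) (decide (m ∈ W)) = true
      then insert m (rI I W j m) else rI I W j m := by
  unfold rI
  rw [Finset.range_add_one, Finset.filter_insert]

/-- one row preserves the product measure -/
private theorem row_lemma (x a b : ℝ) (h : a * b = x * (1 - a) * (1 - b)) (m : ℕ)
    (G : Finset ℕ → Bool → ℝ) :
    EB x (range m) (fun W =>
      b * EB a (range m) (fun I => G (rI I W true m) (rJ I W true m)) +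
      (1 - b) * EB a (range m) (fun I => G (rI I W false m) (rJ I W false m))) =
    b * EB a (range m) (fun I => G I true) + (1 - b) * EB a (range m) (fun I => G I false) := by
  induction m generalizing G with
  | zero => simp [bk_empty, rI, rJ]
  | succ m ih =>
    -- the averaged function
    set G' : Finset ℕ → Bool → ℝ := fun S v =>
      x * (a * G (if v then S else insert m S) false +
        (1 - a) * G (if v then S else insert m S) true) +
      (1 - x) * (a * G (if v then S else insert m S) false + (1 - a) * G S v) with hG'
    have key : ∀ j : Bool, ∀ W ⊆ range m, ∀ I ⊆ range m,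
        x * (a * G (rI (insert m I) (insert m W) j (m + 1)) (rJ (insert m I) (insert m W) j (m + 1))
          + (1 - a) * G (rI I (insert m W) j (m + 1)) (rJ I (insert m W) j (m + 1))) +
        (1 - x) * (a * G (rI (insert m I) W j (m + 1)) (rJ (insert m I) W j (m + 1))
          + (1 - a) * G (rI I W j (m + 1)) (rJ I W j (m + 1))) =
        G' (rI I W j m) (rJ I W j m) := by
      intro j W hW I hI
      have hmW : m ∉ W := fun hm => by simpa using hW hm
      have hmI : m ∉ I := fun hm => by simpa using hI hm
      have e1 : ∀ I : Finset ℕ, ∀ i < m, (i ∈ insert m I ↔ i ∈ I) := by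
        intro I i hi
        rw [Finset.mem_insert]
        constructor
        · rintro (h | h)
          · omega
          · exact h
        · exact Or.inr
      have e2 : ∀ I : Finset ℕ, ∀ i < m, (i ∈ I ↔ i ∈ I) := fun _ _ _ => Iff.rfl
      simp only [rI_succ, rJ]
      rw [rJ_congr j m (e1 I) (e1 W), rJ_congr j m (e2 I) (e1 W), rJ_congr j m (e1 I) (e2 W),
        rI_congr j m (e1 I) (e1 W), rI_congr j m (e2 I) (e1 W), rI_congr j m (e1 I) (e2 W)]
      simp only [Finset.mem_insert_self, decide_true, hmW, hmI, decide_false, hG']
      cases rJ I W j m <;> simp [nxI, nxJ]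
    have hm : m ∉ range m := Finset.notMem_range_self
    have lhs : EB x (range (m + 1)) (fun W =>
        b * EB a (range (m + 1)) (fun I => G (rI I W true (m + 1)) (rJ I W true (m + 1))) +
        (1 - b) * EB a (range (m + 1)) (fun I => G (rI I W false (m + 1)) (rJ I W false (m + 1))))
        = EB x (range m) (fun W =>
          b * EB a (range m) (fun I => G' (rI I W true m) (rJ I W true m)) +
          (1 - b) * EB a (range m) (fun I => G' (rI I W false m) (rJ I W false m))) := by
      simp only [Finset.range_add_one, EB_insert _ _ _ hm]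
      rw [← EB_mul, ← EB_mul, ← EB_add]
      apply bk_congr
      intro W hW
      have h1 : ∀ j : Bool, EB a (range m) (fun I => G' (rI I W j m) (rJ I W j m)) =
          x * (a * EB a (range m) (fun I => G (rI (insert m I) (insert m W) j (m + 1))
              (rJ (insert m I) (insert m W) j (m + 1)))
            + (1 - a) * EB a (range m) (fun I => G (rI I (insert m W) j (m + 1))
              (rJ I (insert m W) j (m + 1)))) +
          (1 - x) * (a * EB a (range m) (fun I => G (rI (insert m I) W j (m + 1))
              (rJ (insert m I) W j (m + 1)))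
            + (1 - a) * EB a (range m) (fun I => G (rI I W j (m + 1)) (rJ I W j (m + 1)))) := by
        intro j
        rw [← bk_congr a (range m) _ _ (fun I hI => key j W hW I hI)]
        simp only [EB_add, EB_mul]
      rw [h1 true, h1 false]
      ring
    rw [lhs, ih G']
    simp only [Finset.range_add_one, EB_insert _ _ _ hm]
    simp only [hG', EB_add, EB_mul]
    simp only [if_true, Bool.false_eq_true, if_false]
    set p := EB a (range m) (fun I => G I true)
    set q := EB a (range m) (fun I => G I false)
    set r := EB a (range m) (fun I => G (insert m I) true)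
    set s := EB a (range m) (fun I => G (insert m I) false)
    linear_combination (q - r) * h

private def HH (m : ℕ) (Z : Finset (ℕ × ℕ)) (I J : Finset ℕ) : ℕ → Finset ℕ
  | 0 => I
  | n + 1 => rI (HH m Z I J n) ((range m).filter fun i => (i, n) ∈ Z) (decide (n ∈ J)) m

private theorem HH_congr {m : ℕ} {Z Z' : Finset (ℕ × ℕ)} {I J J' : Finset ℕ} (n : ℕ)
    (hZ : ∀ i, ∀ j < n, ((i, j) ∈ Z ↔ (i, j) ∈ Z')) (hJ : ∀ j < n, (j ∈ J ↔ j ∈ J')) :
    HH m Z I J n = HH m Z' I J' n := by
  induction n with
  | zero => rfl
  | succ n ih =>
    simp only [HH]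
    rw [ih (fun i j hj => hZ i j (by omega)) (fun j hj => hJ j (by omega)),
      decide_eq_decide.2 (hJ n (by omega))]
    congr 1
    apply Finset.filter_congr
    intro i _
    exact hZ i n (by omega)

private theorem law (m : ℕ) (x a b : ℝ) (h : a * b = x * (1 - a) * (1 - b)) (n : ℕ)
    (φ : Finset ℕ → ℝ) :
    EB x (range m ×ˢ range n) (fun Z => EB a (range m) (fun I => EB b (range n) (fun J =>
      φ (HH m Z I J n)))) = EB a (range m) φ := by
  induction n generalizing φ with
  | zero => simp [bk_empty, HH]
  | succ n ih =>
    let e : ℕ ↪ ℕ × ℕ := ⟨fun i => (i, n), fun i j hij => by simpa using hij⟩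
    have he : ∀ (W : Finset ℕ) (i j : ℕ), (i, j) ∈ W.map e ↔ i ∈ W ∧ j = n := by
      intro W i j
      rw [mem_map]
      constructor
      · rintro ⟨i', h1, h2⟩
        have h3 : (i', n) = (i, j) := h2
        rw [Prod.mk.injEq] at h3
        exact ⟨h3.1 ▸ h1, h3.2.symm⟩
      · rintro ⟨h1, h2⟩
        exact ⟨i, h1, by rw [h2]; rfl⟩
    have hset : range m ×ˢ range (n + 1) = (range m ×ˢ range n) ∪ (range m).map e := by
      ext ⟨i, j⟩
      rw [mem_union, he]
      simp only [mem_product, mem_range]
      omega
    have hdis : Disjoint (range m ×ˢ range n) ((range m).map e) := by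
      rw [Finset.disjoint_left]
      rintro ⟨i, j⟩ h1 h2
      rw [he] at h2
      simp only [mem_product, mem_range] at h1 h2
      omega
    rw [hset, bk_union x _ _ hdis]
    simp only [EB_map]
    have hn : n ∉ range n := Finset.notMem_range_self
    -- rewrite the integrand
    have step : ∀ Z ⊆ range m ×ˢ range n, ∀ W ⊆ range m,
        EB a (range m) (fun I => EB b (range (n + 1)) (fun J =>
          φ (HH m (Z ∪ W.map e) I J (n + 1)))) =
        EB a (range m) (fun I => EB b (range n) (fun J =>
          b * φ (rI (HH m Z I J n) W true m) + (1 - b) * φ (rI (HH m Z I J n) W false m))) := by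
      intro Z hZ W hW
      apply bk_congr
      intro I _
      rw [Finset.range_add_one, EB_insert _ _ _ hn, EB_add, EB_mul, EB_mul]
      have hrow : (range m).filter (fun i => (i, n) ∈ Z ∪ W.map e) = W := by
        ext i
        rw [mem_filter, mem_union, he]
        simp only [mem_range, and_true]
        constructor
        · rintro ⟨_, h1 | h1⟩
          · have := hZ h1
            simp at this
          · exact h1
        · intro h1
          exact ⟨by simpa using hW h1, Or.inr h1⟩
      have hH : ∀ J J' : Finset ℕ, (∀ j < n, (j ∈ J ↔ j ∈ J')) →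
          HH m (Z ∪ W.map e) I J n = HH m Z I J' n := by
        intro J J' hJ
        apply HH_congr n _ hJ
        intro i j hj
        rw [mem_union, he]
        constructor
        · rintro (h1 | ⟨_, h1⟩)
          · exact h1
          · omega
        · exact Or.inl
      congr 1
      · congr 1
        apply bk_congr
        intro J hJ
        simp only [HH]
        rw [hrow, hH (insert n J) J (fun j hj => by
          rw [Finset.mem_insert]
          constructor
          · rintro (h1 | h1)
            · omega
            · exact h1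
          · exact Or.inr)]
        simp
      · congr 1
        apply bk_congr
        intro J hJ
        have hnJ : n ∉ J := fun hm => by simpa using hJ hm
        simp only [HH]
        rw [hrow, hH J J (fun j hj => Iff.rfl)]
        simp [hnJ]
    have s1 : EB x (range m ×ˢ range n) (fun Z => EB x (range m) (fun W =>
        EB a (range m) (fun I => EB b (range (n + 1)) (fun J =>
          φ (HH m (Z ∪ W.map e) I J (n + 1)))))) =
        EB x (range m ×ˢ range n) (fun Z => EB x (range m) (fun W =>
        EB a (range m) (fun I => EB b (range n) (fun J =>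
          b * φ (rI (HH m Z I J n) W true m) + (1 - b) * φ (rI (HH m Z I J n) W false m))))) := by
      apply bk_congr
      intro Z hZ
      apply bk_congr
      intro W hW
      exact step Z hZ W hW
    rw [s1, EB_comm]
    have s2 : ∀ W : Finset ℕ, EB x (range m ×ˢ range n) (fun Z =>
        EB a (range m) (fun I => EB b (range n) (fun J =>
          b * φ (rI (HH m Z I J n) W true m) + (1 - b) * φ (rI (HH m Z I J n) W false m)))) =
        b * EB a (range m) (fun I => φ (rI I W true m)) +
        (1 - b) * EB a (range m) (fun I => φ (rI I W false m)) := by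
      intro W
      simp only [EB_add, EB_mul]
      rw [ih (fun H => φ (rI H W true m)), ih (fun H => φ (rI H W false m))]
    simp only [s2]
    have := row_lemma x a b h m (fun S _ => φ S)
    rw [this]
    ring

private def bn (b : Bool) : ℕ := if b then 1 else 0

private theorem LP_formula (m : ℕ) (Z : Finset (ℕ × ℕ)) (I J : Finset ℕ) (n : ℕ) :
    ∀ i ≤ m, LP (ind2 Z) (ind1 I) (ind1 J) i n =
      ∑ l ∈ range n, ind1 J l + ∑ l ∈ range i, ind1 (HH m Z I J n) l := by
  induction n with
  | zero =>
    intro i hi
    induction i with
    | zero => simp [LP]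
    | succ i ih =>
      rw [LP, ih (by omega)]
      simp [HH, Finset.sum_range_succ]
  | succ n ihn =>
    set W := (range m).filter fun i => (i, n) ∈ Z with hW
    set H := HH m Z I J n with hH
    -- vertical increments
    have main : ∀ i ≤ m, LP (ind2 Z) (ind1 I) (ind1 J) i (n + 1) =
        LP (ind2 Z) (ind1 I) (ind1 J) i n + bn (rJ H W (decide (n ∈ J)) i) ∧
        LP (ind2 Z) (ind1 I) (ind1 J) i (n + 1) =
        ∑ l ∈ range (n + 1), ind1 J l + ∑ l ∈ range i, ind1 (HH m Z I J (n + 1)) l := by
      intro i hi
      induction i with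
      | zero =>
        have h0 : LP (ind2 Z) (ind1 I) (ind1 J) 0 (n + 1) =
            LP (ind2 Z) (ind1 I) (ind1 J) 0 n + ind1 J n := by
          cases n <;> simp [LP]
        have h1 : ind1 J n = bn (rJ H W (decide (n ∈ J)) 0) := by
          by_cases hn : n ∈ J <;> simp [ind1, bn, rJ, hn]
        refine ⟨by rw [h0, h1], ?_⟩
        rw [h0, ihn 0 (by omega), Finset.sum_range_succ]
        simp
      | succ i ih =>
        obtain ⟨ih1, ih2⟩ := ih (by omega)
        have hLi := ihn i (by omega)
        have hLi1 := ihn (i + 1) (by omega)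
        have hL : LP (ind2 Z) (ind1 I) (ind1 J) (i + 1) n =
            LP (ind2 Z) (ind1 I) (ind1 J) i n + bn (decide (i ∈ H)) := by
          rw [hLi1, hLi, Finset.sum_range_succ]
          have : ind1 H i = bn (decide (i ∈ H)) := by
            by_cases hn : i ∈ H <;> simp [ind1, bn, hn]
          rw [this]
          ring
        have hω : ind2 Z i n = bn (decide (i ∈ W)) := by
          by_cases hn : (i, n) ∈ Z
          · have : i ∈ W := by
              rw [hW, mem_filter, mem_range]; exact ⟨by omega, hn⟩
            simp [ind2, bn, hn, this]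
          · have : i ∉ W := by
              rw [hW, mem_filter]; tauto
            simp [ind2, bn, hn, this]
        have hrec : LP (ind2 Z) (ind1 I) (ind1 J) (i + 1) (n + 1) =
            max (max (LP (ind2 Z) (ind1 I) (ind1 J) i (n + 1))
              (LP (ind2 Z) (ind1 I) (ind1 J) (i + 1) n))
              (LP (ind2 Z) (ind1 I) (ind1 J) i n + ind2 Z i n) := by
          rw [LP]
        have hmem : ind1 (HH m Z I J (n + 1)) i =
            bn (nxI (decide (i ∈ H)) (rJ H W (decide (n ∈ J)) i) (decide (i ∈ W))) := by
          have h1 : HH m Z I J (n + 1) = rI H W (decide (n ∈ J)) m := rfl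
          rw [h1]
          have h2 : i ∈ rI H W (decide (n ∈ J)) m ↔
              nxI (decide (i ∈ H)) (rJ H W (decide (n ∈ J)) i) (decide (i ∈ W)) = true := by
            unfold rI
            rw [mem_filter, mem_range]
            constructor
            · exact fun h => h.2
            · exact fun h => ⟨by omega, h⟩
          unfold ind1 bn
          simp only [h2]
        rw [hrec, ih1, hL, hω]
        constructor
        · rw [rJ]
          rcases rJ H W (decide (n ∈ J)) i <;> rcases decide (i ∈ H) <;>
            rcases decide (i ∈ W) <;> simp [bn, nxJ]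
        · rw [Finset.sum_range_succ _ i, ← add_assoc, ← ih2, ih1, hmem]
          rcases rJ H W (decide (n ∈ J)) i <;> rcases decide (i ∈ H) <;>
            rcases decide (i ∈ W) <;> simp [bn, nxI]
    exact fun i hi => (main i hi).2

private theorem sum_ind1 (m : ℕ) (S : Finset ℕ) (hS : S ⊆ range m) :
    ∑ l ∈ range m, ind1 S l = S.card := by
  unfold ind1
  rw [Finset.sum_boole]
  have : (range m).filter (fun i => i ∈ S) = S := by
    ext i
    rw [mem_filter]
    exact ⟨fun h => h.2, fun h => ⟨hS h, h⟩⟩
  rw [this]
  simp

/-- Burke property of the strict-strict Bernoulli last passage model with stationary boundary -/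
theorem burke (m n : ℕ) (x a b : ℝ) (h : a * b = x * (1 - a) * (1 - b)) :
    EB x (range m ×ˢ range n) (fun Z => EB a (range m) (fun I => EB b (range n) (fun J =>
      (LP (ind2 Z) (ind1 I) (ind1 J) m n : ℝ)))) = m * a + n * b := by
  have h1 : EB x (range m ×ˢ range n) (fun Z => EB a (range m) (fun I => EB b (range n) (fun J =>
      (LP (ind2 Z) (ind1 I) (ind1 J) m n : ℝ)))) =
      EB x (range m ×ˢ range n) (fun Z => EB a (range m) (fun I => EB b (range n) (fun J =>
      (J.card : ℝ) + ((fun S : Finset ℕ => (∑ l ∈ range m, (ind1 S l : ℝ))) (HH m Z I J n))))) := by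
    apply bk_congr
    intro Z _
    apply bk_congr
    intro I _
    apply bk_congr
    intro J hJ
    rw [LP_formula m Z I J n m le_rfl, sum_ind1 n J hJ]
    push_cast
    rfl
  rw [h1]
  simp only [EB_add]
  rw [law m x a b h n (fun S : Finset ℕ => (∑ l ∈ range m, (ind1 S l : ℝ)))]
  simp only [EB_card, EB_const, card_range]
  have h2 : EB a (range m) (fun S : Finset ℕ => (∑ l ∈ range m, (ind1 S l : ℝ))) =
      EB a (range m) (fun S => (S.card : ℝ)) := by
    apply bk_congr
    intro S hS
    rw [← sum_ind1 m S hS]
    push_cast
    rfl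
  rw [h2, EB_card, card_range]
  ring

end Pool.Agent.Helper81.FZ
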