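import Pool.Agent.Helper81.FZ.LPdef

set_option autoImplicit false

namespace Pool.Agent.Helper81.FZ

open Finset

theorem chain_le_L0 {Z S : Finset (ℕ × ℕ)} (h : S ⊆ Z) (hS : SChain S) : S.card ≤ L0 Z := by
  classical
  unfold L0
  exact Finset.le_sup (f := Finset.card) (Finset.mem_filter.2 ⟨Finset.mem_powerset.2 h, hS⟩)

theorem SChain_empty : SChain (∅ : Finset (ℕ × ℕ)) := by
  intro x hx
  simp at hx

theorem SChain.mono {S T : Finset (ℕ × ℕ)} (hS : SChain S) (h : T ⊆ S) : SChain T :=
  fun x hx y hy hxy => hS x (h hx) y (h hy) hxy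

theorem exists_chain_L0 (Z : Finset (ℕ × ℕ)) : ∃ S ⊆ Z, SChain S ∧ S.card = L0 Z := by
  classical
  have hne : (Z.powerset.filter SChain).Nonempty :=
    ⟨∅, Finset.mem_filter.2 ⟨Finset.mem_powerset.2 (Finset.empty_subset _), SChain_empty⟩⟩
  obtain ⟨S, hS, h⟩ := Finset.exists_mem_eq_sup _ hne Finset.card
  rw [Finset.mem_filter, Finset.mem_powerset] at hS
  refine ⟨S, hS.1, hS.2, ?_⟩
  unfold L0
  exact h.symm

theorem L0_mono {Z W : Finset (ℕ × ℕ)} (h : Z ⊆ W) : L0 Z ≤ L0 W := by
  obtain ⟨S, hS, hc, he⟩ := exists_chain_L0 Z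
  rw [← he]
  exact chain_le_L0 (hS.trans h) hc

theorem L0_le_erase (Z : Finset (ℕ × ℕ)) (c : ℕ × ℕ) : L0 Z ≤ L0 (Z.erase c) + 1 := by
  obtain ⟨S, hS, hc, he⟩ := exists_chain_L0 Z
  rw [← he]
  have h1 : (S.erase c).card ≤ L0 (Z.erase c) :=
    chain_le_L0 (Finset.erase_subset_erase c hS) (hc.mono (Finset.erase_subset c S))
  have h2 := Finset.pred_card_le_card_erase (s := S) (a := c)
  omega

theorem L0_le_card (Z : Finset (ℕ × ℕ)) : L0 Z ≤ Z.card := by
  obtain ⟨S, hS, hc, he⟩ := exists_chain_L0 Z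
  rw [← he]
  exact Finset.card_le_card hS

/-- number of critical cells -/
theorem sum_erase_le (Z : Finset (ℕ × ℕ)) :
    ∑ c ∈ Z, (L0 Z - L0 (Z.erase c)) ≤ L0 Z := by
  obtain ⟨S, hS, hc, he⟩ := exists_chain_L0 Z
  calc ∑ c ∈ Z, (L0 Z - L0 (Z.erase c)) ≤ ∑ c ∈ Z, (if c ∈ S then 1 else 0) := by
        refine Finset.sum_le_sum fun c _ => ?_
        split_ifs with h
        · have := L0_le_erase Z c
          omega
        · have h1 : S ⊆ Z.erase c := fun x hx =>
            Finset.mem_erase.2 ⟨fun hxc => h (hxc ▸ hx), hS hx⟩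
          have := chain_le_L0 h1 hc
          omega
    _ = (Z.filter fun c => c ∈ S).card := by
        rw [Finset.card_filter]
    _ ≤ S.card := Finset.card_le_card fun c hc => (Finset.mem_filter.1 hc).2
    _ = L0 Z := he

/-- adding a top cell -/
theorem L0_add_cell {T T' : Finset (ℕ × ℕ)} (c : ℕ × ℕ) (h : T' ⊆ T) (hc : c ∈ T)
    (hlt : ∀ x ∈ T', x.1 < c.1 ∧ x.2 < c.2) : L0 T' + 1 ≤ L0 T := by
  obtain ⟨S, hS, hch, he⟩ := exists_chain_L0 T'
  have hcS : c ∉ S := fun hcc => absurd (hlt c (hS hcc)).1 (lt_irrefl _)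
  have h1 : SChain (insert c S) := by
    intro x hx y hy hxy
    rw [Finset.mem_insert] at hx hy
    rcases hx with hx | hx <;> rcases hy with hy | hy
    · exact absurd (hx.trans hy.symm) hxy
    · right
      rw [hx]
      exact hlt y (hS hy)
    · left
      rw [hy]
      exact hlt x (hS hx)
    · exact hch x hx y hy hxy
  have h2 : insert c S ⊆ T := Finset.insert_subset hc (hS.trans h)
  have h3 := chain_le_L0 h2 h1
  rw [Finset.card_insert_of_notMem hcS, he] at h3
  exact h3

theorem L0_succ_succ_le (Z : Finset (ℕ × ℕ)) (m n : ℕ) :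
    L0 (Z ∩ (range (m + 1) ×ˢ range (n + 1))) ≤
      max (max (L0 (Z ∩ (range m ×ˢ range (n + 1)))) (L0 (Z ∩ (range (m + 1) ×ˢ range n))))
        (L0 (Z ∩ (range m ×ˢ range n)) + ind2 Z m n) := by
  classical
  obtain ⟨S, hS, hch, he⟩ := exists_chain_L0 (Z ∩ (range (m + 1) ×ˢ range (n + 1)))
  rw [← he]
  have hmem : ∀ x ∈ S, x ∈ Z ∧ x.1 < m + 1 ∧ x.2 < n + 1 := by
    intro x hx
    have := hS hx
    simpa [Finset.mem_inter, Finset.mem_product] using this
  by_cases hmn : (m, n) ∈ S
  · refine le_max_of_le_right ?_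
    have hZ : ind2 Z m n = 1 := by
      unfold ind2
      rw [if_pos (hmem _ hmn).1]
    rw [hZ]
    have h1 : S.erase (m, n) ⊆ Z ∩ (range m ×ˢ range n) := by
      intro x hx
      rw [Finset.mem_erase] at hx
      have hx2 := hmem x hx.2
      have hx3 := hch x hx.2 (m, n) hmn hx.1
      simp only [Finset.mem_inter, Finset.mem_product, Finset.mem_range]
      simp only at hx3
      refine ⟨hx2.1, ?_, ?_⟩ <;> omega
    have h2 := chain_le_L0 h1 (hch.mono (Finset.erase_subset _ _))
    rw [Finset.card_erase_of_mem hmn] at h2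
    omega
  · refine le_max_of_le_left ?_
    by_cases hm : ∃ x ∈ S, x.1 = m
    · obtain ⟨x, hx, hxm⟩ := hm
      refine le_max_of_le_right ?_
      refine chain_le_L0 (fun y hy => ?_) hch
      have hy2 := hmem y hy
      have hx2 := hmem x hx
      have hxn : x.2 < n := by
        rcases lt_or_ge x.2 n with h | h
        · exact h
        · exfalso
          apply hmn
          have h3 : x.2 = n := by omega
          have h4 : x = (m, n) := Prod.ext hxm h3
          exact h4 ▸ hx
      simp only [Finset.mem_inter, Finset.mem_product, Finset.mem_range]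
      refine ⟨hy2.1, hy2.2.1, ?_⟩
      by_cases hyx : y = x
      · rw [hyx]
        exact hxn
      · have := hch y hy x hx hyx
        omega
    · refine le_max_of_le_left ?_
      refine chain_le_L0 (fun y hy => ?_) hch
      have hy2 := hmem y hy
      simp only [Finset.mem_inter, Finset.mem_product, Finset.mem_range]
      have hy3 : y.1 ≠ m := fun h => hm ⟨y, hy, h⟩
      refine ⟨hy2.1, ?_, hy2.2.2⟩
      omega

theorem le_L0_succ_succ (Z : Finset (ℕ × ℕ)) (m n : ℕ) (P : ℕ × ℕ → Prop) [DecidablePred P]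
    (hP : P (m, n)) :
    L0 ((Z ∩ (range m ×ˢ range n)).filter P) + ind2 Z m n ≤
      L0 ((Z ∩ (range (m + 1) ×ˢ range (n + 1))).filter P) := by
  classical
  have hsub : (Z ∩ (range m ×ˢ range n)).filter P ⊆
      (Z ∩ (range (m + 1) ×ˢ range (n + 1))).filter P := by
    intro x hx
    simp only [Finset.mem_filter, Finset.mem_inter, Finset.mem_product, Finset.mem_range] at hx ⊢
    refine ⟨⟨hx.1.1, ?_, ?_⟩, hx.2⟩ <;> omega
  by_cases h : (m, n) ∈ Z
  · have h1 : ind2 Z m n = 1 := by
      unfold ind2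
      rw [if_pos h]
    rw [h1]
    refine L0_add_cell (m, n) hsub ?_ ?_
    · simp only [Finset.mem_filter, Finset.mem_inter, Finset.mem_product, Finset.mem_range]
      exact ⟨⟨h, by omega, by omega⟩, hP⟩
    · intro x hx
      simp only [Finset.mem_filter, Finset.mem_inter, Finset.mem_product, Finset.mem_range] at hx
      exact hx.1.2
  · have h1 : ind2 Z m n = 0 := by
      unfold ind2
      rw [if_neg h]
    rw [h1]
    exact L0_mono hsub

theorem L0_empty : L0 (∅ : Finset (ℕ × ℕ)) = 0 := by
  have := L0_le_card ∅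
  simpa using this

/-- `LP` with empty axes is the longest chain -/
theorem LP_eq_L0 (Z : Finset (ℕ × ℕ)) (m n : ℕ) :
    LP (ind2 Z) (fun _ => 0) (fun _ => 0) m n = L0 (Z ∩ (range m ×ˢ range n)) := by
  classical
  induction h : m + n using Nat.strong_induction_on generalizing m n with
  | _ N ih =>
    match m, n with
    | 0, 0 => simp [LP, L0_empty]
    | i + 1, 0 =>
      have := ih (i + 0) (by omega) i 0 rfl
      rw [LP, this]
      simp [L0_empty]
    | 0, j + 1 =>
      have := ih (0 + j) (by omega) 0 j rfl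
      rw [LP, this]
      simp [L0_empty]
    | i + 1, j + 1 =>
      have h1 := ih (i + (j + 1)) (by omega) i (j + 1) rfl
      have h2 := ih (i + 1 + j) (by omega) (i + 1) j rfl
      have h3 := ih (i + j) (by omega) i j rfl
      rw [LP, h1, h2, h3]
      apply le_antisymm
      · refine max_le (max_le (L0_mono ?_) (L0_mono ?_)) ?_
        · intro x hx
          simp only [Finset.mem_inter, Finset.mem_product, Finset.mem_range] at hx ⊢
          refine ⟨hx.1, ?_, ?_⟩ <;> omega
        · intro x hx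
          simp only [Finset.mem_inter, Finset.mem_product, Finset.mem_range] at hx ⊢
          refine ⟨hx.1, ?_, ?_⟩ <;> omega
        · have := le_L0_succ_succ Z i j (fun _ => True) trivial
          simpa using this
      · exact L0_succ_succ_le Z i j

theorem L0_map (Z : Finset (ℕ × ℕ)) (f : ℕ × ℕ ↪ ℕ × ℕ)
    (hf : ∀ x y : ℕ × ℕ, (((f x).1 < (f y).1 ∧ (f x).2 < (f y).2) ∨
      ((f y).1 < (f x).1 ∧ (f y).2 < (f x).2)) ↔
      ((x.1 < y.1 ∧ x.2 < y.2) ∨ (y.1 < x.1 ∧ y.2 < x.2))) : L0 (Z.map f) = L0 Z := by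
  classical
  have key : ∀ S : Finset (ℕ × ℕ), SChain (S.map f) ↔ SChain S := by
    intro S
    constructor
    · intro h x hx y hy hxy
      rw [← hf]
      exact h (f x) (Finset.mem_map_of_mem f hx) (f y) (Finset.mem_map_of_mem f hy)
        (fun he => hxy (f.injective he))
    · intro h x hx y hy hxy
      rw [Finset.mem_map] at hx hy
      obtain ⟨x', hx', rfl⟩ := hx
      obtain ⟨y', hy', rfl⟩ := hy
      rw [hf]
      exact h x' hx' y' hy' (fun he => hxy (by rw [he]))
  apply le_antisymm
  · obtain ⟨S, hS, hch, he⟩ := exists_chain_L0 (Z.map f)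
    obtain ⟨S', hS', rfl⟩ := Finset.subset_map_iff.1 hS
    rw [← he, Finset.card_map]
    exact chain_le_L0 hS' ((key S').1 hch)
  · obtain ⟨S, hS, hch, he⟩ := exists_chain_L0 Z
    rw [← he, ← Finset.card_map f]
    exact chain_le_L0 (Finset.map_subset_map.2 hS) ((key S).2 hch)

/-- translation invariance -/
theorem L0_translate (Z : Finset (ℕ × ℕ)) (i : ℕ) :
    L0 (Z.map ⟨fun x => (x.1 + i, x.2), fun x y h => by simpa [Prod.ext_iff] using h⟩) = L0 Z := by
  apply L0_map
  intro x y
  simp

/-- symmetry -/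
theorem L0_swap (Z : Finset (ℕ × ℕ)) : L0 (Z.map (Equiv.prodComm ℕ ℕ).toEmbedding) = L0 Z := by
  apply L0_map
  intro x y
  simp only [Equiv.coe_toEmbedding, Equiv.prodComm_apply, Prod.fst_swap, Prod.snd_swap]
  tauto

theorem LP_mono (ω : ℕ → ℕ → ℕ) (I J I' J' : ℕ → ℕ) (hI : ∀ i, I i ≤ I' i) (hJ : ∀ j, J j ≤ J' j)
    (m n : ℕ) : LP ω I J m n ≤ LP ω I' J' m n := by
  induction h : m + n using Nat.strong_induction_on generalizing m n with
  | _ N ih =>
    match m, n with
    | 0, 0 => simp [LP]
    | i + 1, 0 =>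
      have := ih (i + 0) (by omega) i 0 rfl
      rw [LP, LP]
      exact add_le_add this (hI i)
    | 0, j + 1 =>
      have := ih (0 + j) (by omega) 0 j rfl
      rw [LP, LP]
      exact add_le_add this (hJ j)
    | i + 1, j + 1 =>
      have h1 := ih (i + (j + 1)) (by omega) i (j + 1) rfl
      have h2 := ih (i + 1 + j) (by omega) (i + 1) j rfl
      have h3 := ih (i + j) (by omega) i j rfl
      rw [LP, LP]
      exact max_le_max (max_le_max h1 h2) (Nat.add_le_add_right h3 _)

theorem LP_left (ω : ℕ → ℕ → ℕ) (I J : ℕ → ℕ) (m : ℕ) :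
    LP ω I J m 0 = ∑ i' ∈ range m, I i' := by
  induction m with
  | zero => simp [LP]
  | succ k ih => rw [LP, ih, Finset.sum_range_succ]

theorem LP_bot (ω : ℕ → ℕ → ℕ) (I J : ℕ → ℕ) (n : ℕ) :
    LP ω I J 0 n = ∑ j' ∈ range n, J j' := by
  induction n with
  | zero => simp [LP]
  | succ k ih => rw [LP, ih, Finset.sum_range_succ]

open Classical in
/-- exit points -/
theorem exit_le (Z : Finset (ℕ × ℕ)) (I J : ℕ → ℕ) (m n : ℕ) :
    LP (ind2 Z) I J m n ≤
      max ((range (m + 1)).sup fun i => ∑ i' ∈ range i, I i' +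
          L0 ((Z ∩ (range m ×ˢ range n)).filter fun x => i ≤ x.1))
        ((range (n + 1)).sup fun j => ∑ j' ∈ range j, J j' +
          L0 ((Z ∩ (range m ×ˢ range n)).filter fun x => j ≤ x.2)) := by
  -- monotonicity of the two suprema
  have monoA : ∀ m n m' n' : ℕ, m ≤ m' → n ≤ n' →
      ((range (m + 1)).sup fun i => ∑ i' ∈ range i, I i' +
          L0 ((Z ∩ (range m ×ˢ range n)).filter fun x => i ≤ x.1)) ≤
      ((range (m' + 1)).sup fun i => ∑ i' ∈ range i, I i' +
          L0 ((Z ∩ (range m' ×ˢ range n')).filter fun x => i ≤ x.1)) := by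
    intro m n m' n' hm hn
    refine Finset.sup_le fun i hi => ?_
    rw [Finset.mem_range] at hi
    refine le_trans ?_ (Finset.le_sup (f := fun i => ∑ i' ∈ range i, I i' +
          L0 ((Z ∩ (range m' ×ˢ range n')).filter fun x => i ≤ x.1))
          (Finset.mem_range.2 (show i < m' + 1 by omega)))
    refine Nat.add_le_add_left (L0_mono ?_) _
    intro x hx
    simp only [Finset.mem_filter, Finset.mem_inter, Finset.mem_product, Finset.mem_range] at hx ⊢
    refine ⟨⟨hx.1.1, ?_, ?_⟩, hx.2⟩ <;> omega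
  have monoB : ∀ m n m' n' : ℕ, m ≤ m' → n ≤ n' →
      ((range (n + 1)).sup fun j => ∑ j' ∈ range j, J j' +
          L0 ((Z ∩ (range m ×ˢ range n)).filter fun x => j ≤ x.2)) ≤
      ((range (n' + 1)).sup fun j => ∑ j' ∈ range j, J j' +
          L0 ((Z ∩ (range m' ×ˢ range n')).filter fun x => j ≤ x.2)) := by
    intro m n m' n' hm hn
    refine Finset.sup_le fun i hi => ?_
    rw [Finset.mem_range] at hi
    refine le_trans ?_ (Finset.le_sup (f := fun j => ∑ j' ∈ range j, J j' +
          L0 ((Z ∩ (range m' ×ˢ range n')).filter fun x => j ≤ x.2))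
          (Finset.mem_range.2 (show i < n' + 1 by omega)))
    refine Nat.add_le_add_left (L0_mono ?_) _
    intro x hx
    simp only [Finset.mem_filter, Finset.mem_inter, Finset.mem_product, Finset.mem_range] at hx ⊢
    refine ⟨⟨hx.1.1, ?_, ?_⟩, hx.2⟩ <;> omega
  induction h : m + n using Nat.strong_induction_on generalizing m n with
  | _ N ih =>
    match m, n with
    | 0, n =>
      rw [LP_bot]
      refine le_max_of_le_right ?_
      refine le_trans ?_ (Finset.le_sup (f := fun j => ∑ j' ∈ range j, J j' +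
          L0 ((Z ∩ (range 0 ×ˢ range n)).filter fun x => j ≤ x.2))
          (Finset.mem_range.2 (show n < n + 1 by omega)))
      exact Nat.le_add_right _ _
    | m, 0 =>
      rw [LP_left]
      refine le_max_of_le_left ?_
      refine le_trans ?_ (Finset.le_sup (f := fun i => ∑ i' ∈ range i, I i' +
          L0 ((Z ∩ (range m ×ˢ range 0)).filter fun x => i ≤ x.1))
          (Finset.mem_range.2 (show m < m + 1 by omega)))
      exact Nat.le_add_right _ _
    | i + 1, j + 1 =>
      have h1 := ih (i + (j + 1)) (by omega) i (j + 1) rfl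
      have h2 := ih (i + 1 + j) (by omega) (i + 1) j rfl
      have h3 := ih (i + j) (by omega) i j rfl
      rw [LP]
      refine max_le (max_le ?_ ?_) ?_
      · exact h1.trans (max_le_max (monoA _ _ _ _ (by omega) (by omega))
          (monoB _ _ _ _ (by omega) (by omega)))
      · exact h2.trans (max_le_max (monoA _ _ _ _ (by omega) (by omega))
          (monoB _ _ _ _ (by omega) (by omega)))
      · rcases le_max_iff.1 h3 with h4 | h4
        · refine le_max_of_le_left ?_
          obtain ⟨k, hk, hke⟩ := Finset.exists_mem_eq_sup (range (i + 1))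
            (Finset.nonempty_range_iff.2 (by omega)) (fun i' => ∑ i'' ∈ range i', I i'' +
              L0 ((Z ∩ (range i ×ˢ range j)).filter fun x => i' ≤ x.1))
          rw [hke] at h4
          rw [Finset.mem_range] at hk
          refine le_trans ?_ (Finset.le_sup (f := fun i' => ∑ i'' ∈ range i', I i'' +
            L0 ((Z ∩ (range (i + 1) ×ˢ range (j + 1))).filter fun x => i' ≤ x.1))
            (Finset.mem_range.2 (show k < i + 1 + 1 by omega)))
          have h5 := le_L0_succ_succ Z i j (fun x => k ≤ x.1) (by simp only; omega)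
          omega
        · refine le_max_of_le_right ?_
          obtain ⟨k, hk, hke⟩ := Finset.exists_mem_eq_sup (range (j + 1))
            (Finset.nonempty_range_iff.2 (by omega)) (fun j' => ∑ j'' ∈ range j', J j'' +
              L0 ((Z ∩ (range i ×ˢ range j)).filter fun x => j' ≤ x.2))
          rw [hke] at h4
          rw [Finset.mem_range] at hk
          refine le_trans ?_ (Finset.le_sup (f := fun j' => ∑ j'' ∈ range j', J j'' +
            L0 ((Z ∩ (range (i + 1) ×ˢ range (j + 1))).filter fun x => j' ≤ x.2))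
            (Finset.mem_range.2 (show k < j + 1 + 1 by omega)))
          have h5 := le_L0_succ_succ Z i j (fun x => k ≤ x.2) (by simp only; omega)
          omega

end Pool.Agent.Helper81.FZ
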