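import Pool.Agent.Helper81.FZ.YoungC

set_option autoImplicit false

namespace Pool.Agent.Helper81.FZ

open Finset

theorem addr_apply (l : ℕ →₀ ℕ) (g i : ℕ) : addr l g i = l i + if i = 0 then g else 0 := by
  unfold addr
  rw [Finsupp.add_apply, Finsupp.single_apply]
  congr 1
  by_cases h : i = 0
  · simp [h]
  · simp [h, Ne.symm h]

theorem sum_cnt {n : ℕ} (r : Fin n → ℕ) {K : ℕ} (hK : ∀ l, r l < K) :
    ∑ i ∈ range K, cnt r i = n := by
  have h := Finset.card_eq_sum_card_fiberwise (f := r) (s := univ) (t := range K)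
    (fun l _ => by simpa using hK l)
  simp only [cnt_bridge]
  unfold Helper68.FZ.cnt
  rw [← h]
  simp

theorem cnt_zero_of_stdPair {n q s : ℕ} {rA : Fin (n + q) → ℕ} {rB : Fin n → ℕ}
    (h : ∀ i, 1 ≤ i → cnt rA i = cnt rB i) : cnt rA 0 = cnt rB 0 + q := by
  obtain ⟨K, hK⟩ : ∃ K, (∀ l, rA l < K + 1) ∧ (∀ l, rB l < K + 1) := by
    refine ⟨univ.sup rA + univ.sup rB, fun l => ?_, fun l => ?_⟩
    · have := Finset.le_sup (f := rA) (Finset.mem_univ l)
      omega
    · have := Finset.le_sup (f := rB) (Finset.mem_univ l)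
      omega
  have h1 := sum_cnt rA hK.1
  have h2 := sum_cnt rB hK.2
  rw [Finset.sum_range_succ'] at h1 h2
  have h3 : ∑ k ∈ range K, cnt rA (k + 1) = ∑ k ∈ range K, cnt rB (k + 1) :=
    Finset.sum_congr rfl fun k _ => h (k + 1) (by omega)
  omega

theorem stdPair_iff {n q s : ℕ} {rA : Fin (n + q) → ℕ} {rB : Fin n → ℕ} :
    StdPair (n + q) n s rA rB ↔ ∃ l ∈ Shp n, l 0 + s = n ∧
      (Ballot rA ∧ ∀ i, cnt rA i = addr l q i) ∧ (Ballot rB ∧ ∀ i, cnt rB i = l i) := by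
  constructor
  · rintro ⟨h1, h2, h3, h4⟩
    have h5 := cnt_zero_of_stdPair (s := s) h3
    have hc : ∀ i, cnt rB i = Helper68.FZ.content rB i := by
      intro i
      rw [Helper68.FZ.content_apply, cnt_bridge]
    refine ⟨Helper68.FZ.content rB, mem_Shp_of_ballot h2 hc, ?_, ⟨h1, fun i => ?_⟩, h2, hc⟩
    · rw [← hc]
      omega
    · rw [addr_apply, ← hc]
      by_cases hi : i = 0
      · rw [hi, if_pos rfl, h5]
      · rw [if_neg hi, h3 i (by omega), add_zero]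
  · rintro ⟨l, -, h1, ⟨h2, h3⟩, h4, h5⟩
    refine ⟨h2, h4, fun i hi => ?_, ?_⟩
    · rw [h3, h5, addr_apply, if_neg (by omega), add_zero]
    · rw [h3, addr_apply, if_pos rfl]
      omega

theorem card_biUnion_BW (n q : ℕ) (S : Finset (ℕ →₀ ℕ)) (hS : S ⊆ Shp n) :
    (S.biUnion fun l => Helper68.FZ.BW (n + q) (addr l q) ×ˢ Helper68.FZ.BW n l).card =
      ∑ l ∈ S, fN n l * fN (n + q) (addr l q) := by
  classical
  rw [Finset.card_biUnion]
  · refine Finset.sum_congr rfl fun l hl => ?_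
    rw [Finset.card_product, fN_eq_card (hS hl), fN_eq_card (addr_mem n q l (hS hl)), mul_comm]
  · intro l hl l' hl' hne
    rw [Function.onFun, Finset.disjoint_left]
    rintro ⟨rA, rB⟩ h1 h2
    rw [Finset.mem_product, mem_BW_iff (hS hl)] at h1
    rw [Finset.mem_product, mem_BW_iff (hS hl')] at h2
    apply hne
    ext i
    rw [← h1.2.2 i, ← h2.2.2 i]

/-- standard pairs in terms of numbers of tableaux -/
theorem nSP_eq (n q s : ℕ) : nSP (n + q) n s =
    ∑ l ∈ (Shp n).filter (fun l => l 0 + s = n), fN n l * fN (n + q) (addr l q) := by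
  classical
  rw [← card_biUnion_BW n q _ (Finset.filter_subset _ _)]
  unfold nSP
  refine Nat.subtype_card _ ?_
  rintro ⟨rA, rB⟩
  rw [Finset.mem_biUnion, stdPair_iff]
  constructor
  · rintro ⟨l, hl, h⟩
    rw [Finset.mem_filter] at hl
    rw [Finset.mem_product, mem_BW_iff hl.1, mem_BW_iff (addr_mem n q l hl.1)] at h
    exact ⟨l, hl.1, hl.2, h⟩
  · rintro ⟨l, hl, h1, h2⟩
    refine ⟨l, Finset.mem_filter.2 ⟨hl, h1⟩, ?_⟩
    rw [Finset.mem_product, mem_BW_iff hl, mem_BW_iff (addr_mem n q l hl)]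
    exact h2

theorem nSPg_eq (n q s g : ℕ) : nSPg (n + q) n s g =
    ∑ l ∈ (Shp n).filter (fun l => l 0 + s = n ∧ l 1 + g ≤ l 0),
      fN n l * fN (n + q) (addr l q) := by
  classical
  rw [← card_biUnion_BW n q _ (Finset.filter_subset _ _)]
  unfold nSPg
  refine Nat.subtype_card _ ?_
  rintro ⟨rA, rB⟩
  rw [Finset.mem_biUnion, stdPair_iff]
  constructor
  · rintro ⟨l, hl, h⟩
    rw [Finset.mem_filter] at hl
    rw [Finset.mem_product, mem_BW_iff hl.1, mem_BW_iff (addr_mem n q l hl.1)] at h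
    refine ⟨⟨l, hl.1, hl.2.1, h⟩, ?_⟩
    show cnt rB 1 + g ≤ cnt rB 0
    rw [h.2.2, h.2.2]
    exact hl.2.2
  · rintro ⟨⟨l, hl, h1, h2⟩, h3⟩
    have h3' : cnt rB 1 + g ≤ cnt rB 0 := h3
    rw [h2.2.2, h2.2.2] at h3'
    refine ⟨l, Finset.mem_filter.2 ⟨hl, h1, h3'⟩, ?_⟩
    rw [Finset.mem_product, mem_BW_iff hl, mem_BW_iff (addr_mem n q l hl)]
    exact h2

theorem row_le {n : ℕ} {l : ℕ →₀ ℕ} (hl : l ∈ Shp n) : l 0 ≤ n := by
  rw [Shp_eq_Y, Helper29.Yng.mem_Y] at hl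
  exact hl.2 ▸ Helper29.Yng.le_sz l 0

/-- sum over the first row length -/
theorem sum_by_row {n M : ℕ} (hM : n ≤ M) (S : Finset (ℕ →₀ ℕ)) (hS : S ⊆ Shp n)
    (G : (ℕ →₀ ℕ) → ℕ) :
    ∑ s ∈ range (M + 1), ∑ l ∈ S.filter (fun l => l 0 + s = n), G l = ∑ l ∈ S, G l := by
  classical
  rw [← Finset.sum_fiberwise_of_maps_to (s := S) (t := range (M + 1)) (g := fun l => n - l 0)]
  · refine Finset.sum_congr rfl fun s _ => ?_
    refine Finset.sum_congr ?_ fun _ _ => rfl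
    ext l
    rw [Finset.mem_filter, Finset.mem_filter]
    constructor
    · rintro ⟨h1, h2⟩
      exact ⟨h1, by omega⟩
    · rintro ⟨h1, h2⟩
      have := row_le (hS h1)
      exact ⟨h1, by omega⟩
  · intro l _
    rw [Finset.mem_range]
    omega

theorem sum_nSP (n q : ℕ) : ∑ s ∈ range (n + 1), nSP (n + q) n s =
    ∑ l ∈ Shp n, fN n l * fN (n + q) (addr l q) := by
  simp only [nSP_eq]
  exact sum_by_row le_rfl _ (Finset.Subset.refl _) _

theorem sub_mem_Shp {n g : ℕ} {m : ℕ →₀ ℕ} (hm : m ∈ Shp (n + g)) (h : m 1 + g ≤ m 0) :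
    ∃ l ∈ Shp n, addr l g = m := by
  rw [Shp_eq_Y] at hm
  refine ⟨m - Helper29.Yng.z g, ?_, ?_⟩
  · rw [Shp_eq_Y]
    exact Helper29.Yng.sub_s_mem hm (by omega)
  · exact Helper29.Yng.sub_s_add (by omega)

theorem gap_addr {n g : ℕ} {l : ℕ →₀ ℕ} (hl : l ∈ Shp n) : addr l g 1 + g ≤ addr l g 0 := by
  rw [addr_apply, addr_apply, if_neg (by omega), if_pos rfl]
  rw [mem_Shp] at hl
  have := hl.1 (show 0 ≤ 1 by omega)
  omega

/-- partitions with gap at least `g` are `ν + g e₁` -/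
theorem sum_nSPg (n q g : ℕ) : ∑ s ∈ range (n + g + 1), nSPg (n + g + q) (n + g) s g =
    ∑ l ∈ Shp n, fN (n + g) (addr l g) * fN (n + g + q) (addr l (g + q)) := by
  classical
  simp only [nSPg_eq]
  have h1 : ∀ s, (Shp (n + g)).filter (fun l => l 0 + s = n + g ∧ l 1 + g ≤ l 0) =
      ((Shp (n + g)).filter (fun l => l 1 + g ≤ l 0)).filter (fun l => l 0 + s = n + g) := by
    intro s
    rw [Finset.filter_filter]
    refine Finset.filter_congr fun l _ => ?_
    exact and_comm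
  simp only [h1]
  rw [sum_by_row le_rfl _ (Finset.filter_subset _ _)]
  have h2 : (Shp (n + g)).filter (fun l => l 1 + g ≤ l 0) = (Shp n).image (fun l => addr l g) := by
    ext m
    rw [Finset.mem_filter, Finset.mem_image]
    constructor
    · rintro ⟨hm, h⟩
      obtain ⟨l, hl, rfl⟩ := sub_mem_Shp hm h
      exact ⟨l, hl, rfl⟩
    · rintro ⟨l, hl, rfl⟩
      exact ⟨addr_mem n g l hl, gap_addr hl⟩
  rw [h2, Finset.sum_image (fun x _ y _ h => addr_injective g h)]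
  refine Finset.sum_congr rfl fun l _ => ?_
  have h3 : addr (addr l g) q = addr l (g + q) := by
    unfold addr
    rw [add_assoc, ← Finsupp.single_add]
  rw [h3]

end Pool.Agent.Helper81.FZ
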