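import Pool.Agent.Helper81.FZ.Count

set_option autoImplicit false

/-!
The counting statements in the notation of `Helper29.Yng`.
-/

namespace Pool.Agent.Helper81.FZ

open Finset

theorem term_eq {n q : ℕ} {l : ℕ →₀ ℕ} (hl : l ∈ Shp n) :
    fN n l * fN (n + q) (addr l q) =
      Helper29.Yng.f l * Helper29.Yng.f (l + Finsupp.single 0 q) := by
  rw [fN_eq_f hl, fN_eq_f (addr_mem n q l hl)]
  rfl

theorem nSP_eqY (n q s : ℕ) : nSP (n + q) n s =
    ∑ l ∈ (Helper29.Yng.Y n).filter (fun l => l 0 + s = n),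
      Helper29.Yng.f l * Helper29.Yng.f (l + Finsupp.single 0 q) := by
  rw [nSP_eq, ← Shp_eq_Y]
  exact Finset.sum_congr rfl fun l hl => term_eq (Finset.mem_filter.1 hl).1

theorem nSPg_eqY (n q s g : ℕ) : nSPg (n + q) n s g =
    ∑ l ∈ (Helper29.Yng.Y n).filter (fun l => l 0 + s = n ∧ l 1 + g ≤ l 0),
      Helper29.Yng.f l * Helper29.Yng.f (l + Finsupp.single 0 q) := by
  rw [nSPg_eq, ← Shp_eq_Y]
  exact Finset.sum_congr rfl fun l hl => term_eq (Finset.mem_filter.1 hl).1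

theorem sum_sqY (n : ℕ) : ∑ l ∈ Helper29.Yng.Y n, Helper29.Yng.f l ^ 2 = n.factorial := by
  rw [← sum_sq n, ← Shp_eq_Y]
  exact Finset.sum_congr rfl fun l hl => by rw [fN_eq_f hl]

/-- the total is at most `√(N! (N+q)!)` -/
theorem total_leY (n q : ℕ) : ∑ l ∈ Helper29.Yng.Y n,
    (Helper29.Yng.f l : ℝ) * Helper29.Yng.f (l + Finsupp.single 0 q) ≤
    Real.sqrt (n.factorial * (n + q).factorial) := by
  refine le_trans (le_of_eq ?_) (total_le n q)
  rw [← Shp_eq_Y]
  refine Finset.sum_congr rfl fun l hl => ?_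
  rw [fN_eq_f hl, fN_eq_f (addr_mem n q l hl)]
  rfl

theorem sum_nSPY (n q : ℕ) : ∑ s ∈ range (n + 1), nSP (n + q) n s =
    ∑ l ∈ Helper29.Yng.Y n, Helper29.Yng.f l * Helper29.Yng.f (l + Finsupp.single 0 q) := by
  rw [sum_nSP, ← Shp_eq_Y]
  exact Finset.sum_congr rfl fun l hl => term_eq hl

theorem sum_nSPgY (n q g : ℕ) : ∑ s ∈ range (n + 1), nSPg (n + q) n s g =
    ∑ l ∈ (Helper29.Yng.Y n).filter (fun l => l 1 + g ≤ l 0),
      Helper29.Yng.f l * Helper29.Yng.f (l + Finsupp.single 0 q) := by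
  classical
  simp only [nSPg_eq]
  have h1 : ∀ s, (Shp n).filter (fun l => l 0 + s = n ∧ l 1 + g ≤ l 0) =
      ((Shp n).filter (fun l => l 1 + g ≤ l 0)).filter (fun l => l 0 + s = n) := by
    intro s
    rw [Finset.filter_filter]
    refine Finset.filter_congr fun l _ => ?_
    exact and_comm
  simp only [h1]
  rw [sum_by_row le_rfl _ (Finset.filter_subset _ _), ← Shp_eq_Y]
  exact Finset.sum_congr rfl fun l hl => term_eq (Finset.mem_filter.1 hl).1

end Pool.Agent.Helper81.FZ
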