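import Mathlib

/-!
Consistent functions on partial matchings (dual of the window modules of the onto functional
pigeonhole principle), ballot words, numbers of standard tableaux.
-/

set_option autoImplicit false

namespace Pool.Agent.Helper81.FZ

open Finset

universe u v

section matchings

variable {α : Type u} {β : Type v}

/-- `σ` is a partial matching -/
def IsM (σ : Finset (α × β)) : Prop :=
  ∀ e ∈ σ, ∀ e' ∈ σ, (e.1 = e'.1 ∨ e.2 = e'.2) → e = e'

/-- `a` is free in `σ` -/
def FrA (σ : Finset (α × β)) (a : α) : Prop := ∀ e ∈ σ, e.1 ≠ a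

/-- `b` is free in `σ` -/
def FrB (σ : Finset (α × β)) (b : β) : Prop := ∀ e ∈ σ, e.2 ≠ b

end matchings

section co

open Classical in
/-- consistent functions of degree `s` : functions on matchings of size `≤ s` all of whose
marginals agree. -/
def Co (K : Type*) [Field K] (α : Type u) (β : Type v) [Fintype α] [Fintype β] (s : ℕ) :
    Submodule K (Finset (α × β) → K) where
  carrier := {F | (∀ σ, ¬ (IsM σ ∧ σ.card ≤ s) → F σ = 0) ∧
    ∀ σ, IsM σ → σ.card < s →
      (∀ a, FrA σ a → ∑ b with FrB σ b, F (insert (a, b) σ) = F σ) ∧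
      (∀ b, FrB σ b → ∑ a with FrA σ a, F (insert (a, b) σ) = F σ)}
  add_mem' := by
    rintro F G ⟨h1, h2⟩ ⟨h3, h4⟩
    refine ⟨fun σ hσ => by simp [h1 σ hσ, h3 σ hσ], fun σ hσ hc => ⟨fun a ha => ?_, fun b hb => ?_⟩⟩
    · simp [Finset.sum_add_distrib, (h2 σ hσ hc).1 a ha, (h4 σ hσ hc).1 a ha]
    · simp [Finset.sum_add_distrib, (h2 σ hσ hc).2 b hb, (h4 σ hσ hc).2 b hb]
  zero_mem' := by
    refine ⟨fun σ hσ => rfl, fun σ hσ hc => ⟨fun a ha => by simp, fun b hb => by simp⟩⟩
  smul_mem' := by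
    rintro c F ⟨h1, h2⟩
    refine ⟨fun σ hσ => by simp [h1 σ hσ], fun σ hσ hc => ⟨fun a ha => ?_, fun b hb => ?_⟩⟩
    · simp [← Finset.mul_sum, (h2 σ hσ hc).1 a ha]
    · simp [← Finset.mul_sum, (h2 σ hσ hc).2 b hb]

/-- functions on matchings of size `s` with zero marginals -/
def NM (K : Type*) [Field K] (α : Type u) (β : Type v) [Fintype α] [Fintype β] (s : ℕ) :
    Submodule K (Finset (α × β) → K) where
  carrier := {F | F ∈ Co K α β s ∧ ∀ σ, σ.card < s → F σ = 0}
  add_mem' := by
    rintro F G ⟨h1, h2⟩ ⟨h3, h4⟩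
    exact ⟨add_mem h1 h3, fun σ hσ => by simp [h2 σ hσ, h4 σ hσ]⟩
  zero_mem' := ⟨zero_mem _, fun σ hσ => rfl⟩
  smul_mem' := by
    rintro c F ⟨h1, h2⟩
    exact ⟨Submodule.smul_mem _ _ h1, fun σ hσ => by simp [h2 σ hσ]⟩

/-- truncation of a function to matchings of size `≤ t` -/
def trunc (K : Type*) [Field K] (α : Type u) (β : Type v) (t : ℕ) :
    (Finset (α × β) → K) →ₗ[K] (Finset (α × β) → K) where
  toFun F := fun σ => if σ.card ≤ t then F σ else 0
  map_add' F G := by ext σ; by_cases h : σ.card ≤ t <;> simp [h]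
  map_smul' c F := by ext σ; by_cases h : σ.card ≤ t <;> simp [h]

end co

section mass

variable {α : Type u} {β : Type v}

/-- the graph of a bijection between finite subsets -/
noncomputable def gr {X : Finset α} {Y : Finset β} (g : {x // x ∈ X} ≃ {y // y ∈ Y}) :
    Finset (α × β) := by
  classical
  exact Finset.univ.image (fun x : {x // x ∈ X} => ((x : α), ((g x : {y // y ∈ Y}) : β)))

open Classical in
/-- the mass a signed measure on bijections `X ≃ Y` gives to the bijections containing `τ` -/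
noncomputable def mass {K : Type*} [Field K] {X : Finset α} {Y : Finset β}
    (nu : ({x // x ∈ X} ≃ {y // y ∈ Y}) → K) (τ : Finset (α × β)) : K :=
  ∑ g, if τ ⊆ gr g then nu g else 0

end mass

section words

variable {α : Type u} {β : Type v} [Fintype α] [Fintype β]

open Classical in
/-- number of letters in row `i` -/
noncomputable def cnt (r : α → ℕ) (i : ℕ) : ℕ := (Finset.univ.filter fun a => r a = i).card

/-- `σ` matches the rows `≥ 1` of `rA` and `rB` completely -/
def RM (rA : α → ℕ) (rB : β → ℕ) (σ : Finset (α × β)) : Prop :=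
  IsM σ ∧ (∀ e ∈ σ, rA e.1 = rB e.2 ∧ 1 ≤ rA e.1) ∧ (∀ a, 1 ≤ rA a → ¬ FrA σ a) ∧
    (∀ b, 1 ≤ rB b → ¬ FrB σ b)

open Classical in
/-- sum of a function over the row matchings -/
noncomputable def ev {K : Type*} [Field K] (rA : α → ℕ) (rB : β → ℕ)
    (F : Finset (α × β) → K) : K :=
  ∑ σ with RM rA rB σ, F σ

/-- number of letters of row `i` among the first `k` letters -/
def pre {n : ℕ} (r : Fin n → ℕ) (k i : ℕ) : ℕ :=
  (Finset.univ.filter fun a : Fin n => (a : ℕ) < k ∧ r a = i).card

/-- ballot words = standard tableaux (`r a` is the row of the letter `a`) -/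
def Ballot {n : ℕ} (r : Fin n → ℕ) : Prop := ∀ k i, pre r k (i + 1) ≤ pre r k i

/-- standard pairs -/
def StdPair (m n s : ℕ) (rA : Fin m → ℕ) (rB : Fin n → ℕ) : Prop :=
  Ballot rA ∧ Ballot rB ∧ (∀ i, 1 ≤ i → cnt rA i = cnt rB i) ∧ cnt rA 0 + s = m

/-- number of standard pairs -/
noncomputable def nSP (m n s : ℕ) : ℕ :=
  Nat.card {p : (Fin m → ℕ) × (Fin n → ℕ) // StdPair m n s p.1 p.2}

/-- number of standard pairs with gap at least `g` (on the side of the holes) -/
noncomputable def nSPg (m n s g : ℕ) : ℕ :=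
  Nat.card {p : (Fin m → ℕ) × (Fin n → ℕ) // StdPair m n s p.1 p.2 ∧ cnt p.2 1 + g ≤ cnt p.2 0}

/-- partitions of `n` -/
noncomputable def Shp (n : ℕ) : Finset (ℕ →₀ ℕ) := by
  classical
  exact (Finset.finsuppAntidiag (Finset.range n) n).filter (fun l => Antitone l)

/-- number of standard tableaux (ballot words) of shape `l` -/
noncomputable def fN (n : ℕ) (l : ℕ →₀ ℕ) : ℕ :=
  Nat.card {r : Fin n → ℕ // Ballot r ∧ ∀ i, cnt r i = l i}

/-- add `j` boxes to the first row -/
noncomputable def addr (l : ℕ →₀ ℕ) (j : ℕ) : ℕ →₀ ℕ := l + Finsupp.single 0 j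

/-- length of the longest increasing subsequence -/
noncomputable def lis {n : ℕ} (w : Equiv.Perm (Fin n)) : ℕ := by
  classical
  exact (Finset.univ.filter (fun S : Finset (Fin n) => StrictMonoOn w (S : Set (Fin n)))).sup
    Finset.card

/-- mean of the first row under the Plancherel measure -/
noncomputable def aM (n : ℕ) : ℝ := (∑ l ∈ Shp n, (l 0 : ℝ) * (fN n l : ℝ) ^ 2) / n.factorial

end words

end Pool.Agent.Helper81.FZ
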