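import Pool.Agent.Helper81.FZ.Basic
import Pool.Agent.Helper41.FZ.Bridge

set_option autoImplicit false

namespace Pool.Agent.Helper81.FZ

open Finset

universe u v

/-- existence of a degree `D` design -/
def Des (p m n D : ℕ) [Fact p.Prime] : Prop :=
  ∃ h ∈ Co (ZMod p) (Fin m) (Fin n) D, h ∅ = 1

/-- size of the smallest design used -/
def mk (p : ℕ) : ℕ → ℕ
  | 0 => 0
  | k + 1 => (p + 2) * mk p k + p ^ k

theorem two_mk (p k : ℕ) : 2 * mk p k + p ^ k = (p + 2) ^ k := by
  induction k with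
  | zero => simp [mk]
  | succ k ih =>
    rw [pow_succ (p + 2), ← ih, pow_succ]
    simp only [mk]
    ring

theorem mk_le (p k : ℕ) : mk p k ≤ (p + 2) ^ k := by
  have := two_mk p k
  omega

theorem le_mk (p k : ℕ) (hp : 2 ≤ p) : 2 ^ k - 1 ≤ mk p k := by
  have h : 2 ^ k ≤ mk p k + 1 := by
    induction k with
    | zero => simp
    | succ k ih =>
      have h1 : 0 < p ^ k := Nat.pow_pos (by omega)
      have h2 : 2 * mk p k ≤ (p + 2) * mk p k := Nat.mul_le_mul_right _ (by omega)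
      rw [pow_succ]
      simp only [mk]
      omega
  omega

theorem Des_of_card (p m n D : ℕ) [Fact p.Prime] (α : Type*) (β : Type*) [Fintype α] [Fintype β]
    (hα : Fintype.card α = m) (hβ : Fintype.card β = n)
    (h : ∃ h ∈ Co (ZMod p) α β D, h ∅ = 1) : Des p m n D := by
  obtain ⟨F, hF, h1⟩ := h
  subst hα hβ
  refine ⟨_, (Co_equiv (ZMod p) (Fintype.equivFin α).symm (Fintype.equivFin β).symm D F).2 hF, ?_⟩
  beta_reduce
  rw [Finset.map_empty, h1]

theorem Des_zero (p : ℕ) [Fact p.Prime] : Des p 1 0 0 := by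
  classical
  refine ⟨fun σ => if σ = ∅ then 1 else 0, ⟨fun σ hσ => ?_, fun σ hσ hc => ?_⟩, by simp⟩
  · beta_reduce
    rw [if_neg]
    rintro rfl
    exact hσ ⟨fun e he => by simp at he, by simp⟩
  · exact absurd hc (Nat.not_lt_zero _)

theorem Des_succ (p m n D : ℕ) [Fact p.Prime] (h : Des p m n D) : Des p (m + 1) (n + 1) D := by
  classical
  obtain ⟨F, hF, h1⟩ := h
  have hF' := (H41.FZ.co_iff D F).2 hF
  -- the constant function on the extra pair
  have hG : (fun σ : Finset (Fin 1 × Fin 1) => if σ.card ≤ D then (1 : ZMod p) else 0) ∈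
      H41.FZ.Co (ZMod p) (Fin 1) (Fin 1) D := by
    have hsub : ∀ x y : Fin 1 × Fin 1, x = y := fun x y => Subsingleton.elim _ _
    refine ⟨fun σ hσ => absurd (fun e _ e' _ _ => hsub e e') hσ, fun σ hσ => ?_,
      fun σ hσ hc a ha => ?_, fun σ hσ hc b hb => ?_⟩
    · beta_reduce
      rw [if_neg (not_le.2 hσ)]
    · beta_reduce
      rw [Fin.sum_univ_one, if_pos ((Finset.card_insert_le _ _).trans hc), if_pos hc.le]
    · beta_reduce
      rw [Fin.sum_univ_one, if_pos ((Finset.card_insert_le _ _).trans hc), if_pos hc.le]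
  have key := H41.FZ.prod2_mem_Co hF' hG
  refine Des_of_card p (m + 1) (n + 1) D (Fin m ⊕ Fin 1) (Fin n ⊕ Fin 1) (by simp) (by simp) ?_
  obtain ⟨H, hH, hH1⟩ := key
  refine ⟨H, (H41.FZ.co_iff D H).1 hH, ?_⟩
  rw [hH1, h1]
  simp

end Pool.Agent.Helper81.FZ
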