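import Pool.Agent.Helper81.FZ.Upper
import Pool.Agent.Helper81.FZ.Count

set_option autoImplicit false

namespace Pool.Agent.Helper81.FZ

open Finset

universe u v

open Classical in
/-- the graph of a bijection -/
noncomputable def grf {α : Type u} {β : Type v} [Fintype α] (g : α ≃ β) : Finset (α × β) :=
  Finset.univ.image (fun x : α => (x, g x))

open Classical in
/-- marginals of size `≤ s` of a signed measure on bijections -/
noncomputable def Phi (K : Type*) [Field K] {α : Type u} {β : Type v} [Fintype α] [Fintype β]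
    (s : ℕ) (nu : (α ≃ β) → K) : Finset (α × β) → K :=
  fun σ => if σ.card ≤ s then ∑ g, (if σ ⊆ grf g then nu g else 0) else 0

set_option linter.unusedSectionVars false

section aux

variable {α : Type u} {β : Type v} [Fintype α] [Fintype β]

theorem mem_grf (g : α ≃ β) (e : α × β) : e ∈ grf g ↔ g e.1 = e.2 := by
  classical
  unfold grf
  simp only [mem_image, mem_univ, true_and]
  constructor
  · rintro ⟨x, rfl⟩
    rfl
  · intro h
    exact ⟨e.1, Prod.ext rfl h⟩

theorem isM_grf (g : α ≃ β) : IsM (grf g) := by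
  intro e he e' he' h
  rw [mem_grf] at he he'
  rcases h with h | h
  · exact Prod.ext h (by rw [← he, ← he', h])
  · exact Prod.ext (g.injective (by rw [he, he', h])) h

theorem card_grf (g : α ≃ β) : (grf g).card = Fintype.card α := by
  classical
  unfold grf
  rw [card_image_of_injective _ (fun x y h => (Prod.ext_iff.1 h).1), card_univ]

theorem grf_subset_iff (g g' : α ≃ β) : grf g ⊆ grf g' ↔ g' = g := by
  constructor
  · intro h
    ext x
    have h1 : (x, g x) ∈ grf g := by rw [mem_grf]
    have h2 := h h1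
    rw [mem_grf] at h2
    exact h2
  · rintro rfl
    exact Subset.refl _

variable (K : Type*) [Field K]

theorem Phi_mem_Co (s : ℕ) (nu : (α ≃ β) → K) : Phi K s nu ∈ Co K α β s := by
  classical
  refine ⟨fun σ hσ => ?_, fun σ hσ hc => ⟨fun a ha => ?_, fun b hb => ?_⟩⟩
  · unfold Phi
    split_ifs with h
    · refine sum_eq_zero fun g _ => ?_
      rw [if_neg]
      intro hsub
      exact hσ ⟨(isM_grf g).mono hsub, h⟩
    · rfl
  · unfold Phi
    rw [if_pos hc.le, sum_congr rfl (fun b _ => if_pos ((card_insert_le _ _).trans hc)), sum_comm]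
    refine sum_congr rfl fun g _ => ?_
    by_cases hg : σ ⊆ grf g
    · rw [if_pos hg, sum_eq_single (g a)]
      · rw [if_pos]
        rw [insert_subset_iff, mem_grf]
        exact ⟨rfl, hg⟩
      · intro b _ hb
        rw [if_neg]
        rw [insert_subset_iff, mem_grf]
        exact fun h => hb h.1.symm
      · intro hnot
        exfalso
        apply hnot
        rw [mem_filter]
        refine ⟨mem_univ _, fun e he h => ?_⟩
        have h2 := hg he
        rw [mem_grf] at h2
        exact ha e he (g.injective (by rw [h2, h]))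
    · rw [if_neg hg]
      refine sum_eq_zero fun b _ => ?_
      rw [if_neg]
      intro h
      exact hg ((subset_insert _ _).trans h)
  · unfold Phi
    rw [if_pos hc.le, sum_congr rfl (fun a _ => if_pos ((card_insert_le _ _).trans hc)), sum_comm]
    refine sum_congr rfl fun g _ => ?_
    by_cases hg : σ ⊆ grf g
    · rw [if_pos hg, sum_eq_single (g.symm b)]
      · rw [if_pos]
        rw [insert_subset_iff, mem_grf]
        exact ⟨g.apply_symm_apply b, hg⟩
      · intro a _ ha
        rw [if_neg]
        rw [insert_subset_iff, mem_grf]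
        intro h
        have h9 : g a = b := h.1
        exact ha (by rw [← h9, g.symm_apply_apply])
      · intro hnot
        exfalso
        apply hnot
        rw [mem_filter]
        refine ⟨mem_univ _, fun e he h => ?_⟩
        have h2 := hg he
        rw [mem_grf] at h2
        exact hb e he (by rw [← h2, h]; exact g.apply_symm_apply b)
    · rw [if_neg hg]
      refine sum_eq_zero fun a _ => ?_
      rw [if_neg]
      intro h
      exact hg ((subset_insert _ _).trans h)

/-- `Phi` as a linear map -/
noncomputable def PhiL (s : ℕ) : ((α ≃ β) → K) →ₗ[K] (Finset (α × β) → K) where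
  toFun nu := Phi K s nu
  map_add' f g := by
    funext σ
    simp only [Phi, Pi.add_apply]
    split_ifs with h
    · rw [← sum_add_distrib]
      refine sum_congr rfl fun x _ => ?_
      split_ifs <;> simp
    · simp
  map_smul' c f := by
    funext σ
    simp only [Phi, Pi.smul_apply, smul_eq_mul, RingHom.id_apply]
    split_ifs with h
    · rw [mul_sum]
      refine sum_congr rfl fun x _ => ?_
      split_ifs <;> simp
    · simp

theorem PhiL_apply (s : ℕ) (nu : (α ≃ β) → K) : PhiL K s nu = Phi K s nu := rfl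

theorem trunc_Phi {s t : ℕ} (hts : t ≤ s) (nu : (α ≃ β) → K) :
    trunc K α β t (Phi K s nu) = Phi K t nu := by
  funext σ
  simp only [trunc, LinearMap.coe_mk, AddHom.coe_mk, Phi]
  by_cases h : σ.card ≤ t
  · rw [if_pos h, if_pos h, if_pos (h.trans hts)]
  · rw [if_neg h, if_neg h]

/-- the filtration of the space of signed measures -/
noncomputable def AA (α : Type u) (β : Type v) [Fintype α] [Fintype β] :
    ℕ → Submodule K ((α ≃ β) → K)
  | 0 => ⊤
  | s + 1 => LinearMap.ker (PhiL K s)

theorem AA_succ_le (s : ℕ) : AA K α β (s + 1) ≤ AA K α β s := by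
  cases s with
  | zero => exact le_top
  | succ s =>
    intro nu hnu
    have h1 : Phi K (s + 1) nu = 0 := hnu
    change Phi K s nu = 0
    rw [← trunc_Phi K (Nat.le_succ s) nu, h1, map_zero]

theorem map_AA_le (s : ℕ) : (AA K α β s).map (PhiL K s) ≤ NM K α β s := by
  rintro _ ⟨nu, hnu, rfl⟩
  refine ⟨Phi_mem_Co K s nu, fun σ hσ => ?_⟩
  cases s with
  | zero => exact absurd hσ (Nat.not_lt_zero _)
  | succ s =>
    have h1 : Phi K s nu = 0 := hnu
    have h2 := congrFun h1 σ
    rw [← trunc_Phi K (Nat.le_succ s) nu] at h2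
    simp only [trunc, LinearMap.coe_mk, AddHom.coe_mk, Pi.zero_apply] at h2
    rw [if_pos (Nat.lt_succ_iff.1 hσ)] at h2
    exact h2

theorem finrank_AA (s : ℕ) : Module.finrank K (AA K α β s) =
    Module.finrank K ((AA K α β s).map (PhiL K s)) + Module.finrank K (AA K α β (s + 1)) := by
  have h := LinearMap.finrank_range_add_finrank_ker ((PhiL K s).domRestrict (AA K α β s))
  rw [LinearMap.range_domRestrict] at h
  rw [← h]
  congr 1
  have hk : LinearMap.ker ((PhiL K s).domRestrict (AA K α β s)) =
      Submodule.comap (AA K α β s).subtype (AA K α β (s + 1)) := by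
    ext x
    rfl
  rw [hk]
  exact LinearEquiv.finrank_eq (Submodule.comapSubtypeEquivOfLe (AA_succ_le K s))

theorem finrank_total (t : ℕ) : Module.finrank K ((α ≃ β) → K) =
    ∑ j ∈ range t, Module.finrank K ((AA K α β j).map (PhiL K j)) +
      Module.finrank K (AA K α β t) := by
  induction t with
  | zero =>
    rw [range_zero, sum_empty, zero_add]
    exact (finrank_top K ((α ≃ β) → K)).symm
  | succ t ih => rw [ih, sum_range_succ, add_assoc, ← finrank_AA K t]

theorem finrank_range_PhiL (t : ℕ) :
    Module.finrank K (LinearMap.range (PhiL K t : ((α ≃ β) → K) →ₗ[K] (Finset (α × β) → K))) =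
      ∑ j ∈ range (t + 1), Module.finrank K ((AA K α β j).map (PhiL K j)) := by
  have h1 := LinearMap.finrank_range_add_finrank_ker
    (PhiL K t : ((α ≃ β) → K) →ₗ[K] (Finset (α × β) → K))
  have h2 := finrank_total (α := α) (β := β) K (t + 1)
  have h3 : AA K α β (t + 1) = LinearMap.ker (PhiL K t) := rfl
  rw [h3] at h2
  omega

theorem AA_top_eq_bot (s : ℕ) (hs : Fintype.card α ≤ s) : AA K α β (s + 1) = ⊥ := by
  classical
  rw [eq_bot_iff]
  intro nu hnu
  have h1 : Phi K s nu = 0 := hnu
  rw [Submodule.mem_bot]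
  funext g
  have h2 := congrFun h1 (grf g)
  simp only [Phi, Pi.zero_apply] at h2
  rw [if_pos (by rw [card_grf]; exact hs), sum_eq_single g] at h2
  · rw [if_pos (Subset.refl _)] at h2
    exact h2
  · intro g' _ hg'
    rw [if_neg]
    rw [grf_subset_iff]
    exact hg'
  · intro h
    exact absurd (mem_univ _) h

end aux

theorem finrank_map_le_nSP (K : Type*) [Field K] (n j : ℕ) :
    Module.finrank K ((AA K (Fin n) (Fin n) j).map (PhiL K j)) ≤ nSP n n j :=
  (Submodule.finrank_mono (map_AA_le K j)).trans (finrank_NM_le K n n j)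

theorem addr_zero (l : ℕ →₀ ℕ) : addr l 0 = l := by
  unfold addr
  rw [Finsupp.single_zero, add_zero]

/-- dimension of the space of functions of degree `≤ t` on the symmetric group -/
theorem finrank_Phi_le (K : Type*) [Field K] (n t : ℕ) :
    Module.finrank K (Submodule.span K (Set.range (Phi K (α := Fin n) (β := Fin n) t))) ≤
      ∑ l ∈ (Shp n).filter (fun l => n ≤ l 0 + t), fN n l ^ 2 := by
  have hspan : Submodule.span K (Set.range (Phi K (α := Fin n) (β := Fin n) t)) =
      LinearMap.range (PhiL K t : ((Fin n ≃ Fin n) → K) →ₗ[K] (Finset (Fin n × Fin n) → K)) := by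
    have : Set.range (Phi K (α := Fin n) (β := Fin n) t) =
        ((LinearMap.range (PhiL K t : ((Fin n ≃ Fin n) → K) →ₗ[K]
          (Finset (Fin n × Fin n) → K)) : Submodule K (Finset (Fin n × Fin n) → K)) :
            Set (Finset (Fin n × Fin n) → K)) := by
      ext F
      rfl
    rw [this, Submodule.span_eq]
  rw [hspan, finrank_range_PhiL]
  refine (sum_le_sum fun j _ => finrank_map_le_nSP K n j).trans ?_
  have h1 : ∀ j ∈ range (t + 1), nSP n n j =
      ∑ l ∈ Shp n, if l 0 + j = n then fN n l ^ 2 else 0 := by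
    intro j _
    have := nSP_eq n 0 j
    rw [add_zero] at this
    rw [this, sum_filter]
    refine sum_congr rfl fun l _ => ?_
    rw [addr_zero, sq]
  rw [sum_congr rfl h1, sum_comm, sum_filter]
  refine sum_le_sum fun l _ => ?_
  by_cases hl : n ≤ l 0 + t
  · rw [if_pos hl]
    by_cases hl2 : l 0 ≤ n
    · rw [sum_eq_single (n - l 0)]
      · rw [if_pos (by omega)]
      · intro j _ hj
        rw [if_neg (by omega)]
      · intro h
        exact absurd (mem_range.2 (by omega)) h
    · rw [sum_eq_zero]
      · exact Nat.zero_le _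
      · intro j _
        rw [if_neg (by omega)]
  · rw [if_neg hl, sum_eq_zero]
    intro j hj
    rw [mem_range] at hj
    rw [if_neg (by omega)]

theorem map_AA_eq (K : Type*) [Field K] (n s : ℕ) (hs : s ≤ n) :
    (AA K (Fin n) (Fin n) s).map (PhiL K s) = NM K (Fin n) (Fin n) s := by
  have h1 := finrank_total (α := Fin n) (β := Fin n) K (n + 1)
  rw [AA_top_eq_bot K n (by rw [Fintype.card_fin]), finrank_bot, add_zero] at h1
  have h2 : Module.finrank K ((Fin n ≃ Fin n) → K) = n.factorial := by
    rw [Module.finrank_fintype_fun_eq_card, Fintype.card_perm, Fintype.card_fin]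
  have h3 : ∑ j ∈ range (n + 1), nSP n n j = n.factorial := by
    have := sum_nSP n 0
    rw [← sum_sq n]
    simp only [add_zero] at this
    rw [this]
    refine sum_congr rfl fun l _ => ?_
    rw [addr_zero, sq]
  have h4 : ∀ j ∈ range (n + 1), Module.finrank K ((AA K (Fin n) (Fin n) j).map (PhiL K j)) ≤
      nSP n n j := fun j _ => finrank_map_le_nSP K n j
  have h5 := (sum_eq_sum_iff_of_le h4).1 (by rw [← h1, h2, h3]) s (mem_range.2 (by omega))
  refine Submodule.eq_of_le_of_finrank_le (map_AA_le K s) ?_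
  rw [h5]
  exact finrank_NM_le K n n s

theorem square_fin (K : Type*) [Field K] (n s : ℕ) (hs : s ≤ n)
    (F : Finset (Fin n × Fin n) → K) (hF : F ∈ Co K (Fin n) (Fin n) s) :
    ∃ nu : (Fin n ≃ Fin n) → K, Phi K s nu = F := by
  induction s generalizing F with
  | zero =>
    have h1 : F ∈ NM K (Fin n) (Fin n) 0 := ⟨hF, fun σ hσ => absurd hσ (Nat.not_lt_zero _)⟩
    rw [← map_AA_eq K n 0 hs] at h1
    obtain ⟨nu, _, hnu⟩ := h1
    exact ⟨nu, hnu⟩
  | succ s ih =>
    obtain ⟨nu, hnu⟩ := ih (by omega) (trunc K (Fin n) (Fin n) s F)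
      (trunc_mem K (Nat.le_succ s) F hF)
    have h1 : F - Phi K (s + 1) nu ∈ NM K (Fin n) (Fin n) (s + 1) := by
      refine ⟨sub_mem hF (Phi_mem_Co K (s + 1) nu), fun σ hσ => ?_⟩
      have h2 := congrFun hnu σ
      rw [← trunc_Phi K (Nat.le_succ s) nu] at h2
      simp only [trunc, LinearMap.coe_mk, AddHom.coe_mk] at h2
      rw [if_pos (Nat.lt_succ_iff.1 hσ), if_pos (Nat.lt_succ_iff.1 hσ)] at h2
      rw [Pi.sub_apply, h2, sub_self]
    rw [← map_AA_eq K n (s + 1) hs] at h1
    obtain ⟨nu', _, hnu'⟩ := h1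
    refine ⟨nu + nu', ?_⟩
    have h3 : PhiL K (s + 1) (nu + nu') = PhiL K (s + 1) nu + PhiL K (s + 1) nu' := map_add _ _ _
    rw [hnu'] at h3
    simp only [PhiL_apply] at h3
    rw [h3, add_sub_cancel]

/-- square completeness -/
theorem square_complete (K : Type*) [Field K] (α : Type u) (β : Type v) [Fintype α] [Fintype β]
    (hαβ : Fintype.card α = Fintype.card β) (s : ℕ) (hs : s ≤ Fintype.card β)
    (F : Finset (α × β) → K) (hF : F ∈ Co K α β s) : ∃ nu : (α ≃ β) → K, Phi K s nu = F := by
  classical
  obtain ⟨n, hn⟩ : ∃ n, Fintype.card β = n := ⟨_, rfl⟩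
  rw [hn] at hαβ hs
  obtain ⟨e⟩ : Nonempty (Fin n ≃ α) := ⟨(Fintype.equivFinOfCardEq hαβ).symm⟩
  obtain ⟨f⟩ : Nonempty (Fin n ≃ β) := ⟨(Fintype.equivFinOfCardEq hn).symm⟩
  have h1 := (Co_equiv K e f s F).2 hF
  obtain ⟨nu, hnu⟩ := square_fin K n s hs _ h1
  refine ⟨fun g => nu ((e.trans g).trans f.symm), ?_⟩
  funext τ
  have h2 := congrFun hnu (τ.map (Equiv.prodCongr e.symm f.symm).toEmbedding)
  have hid : ∀ x, (Equiv.prodCongr e f) ((Equiv.prodCongr e.symm f.symm) x) = x := by
    rintro ⟨a, b⟩
    simp
  have h3 : (τ.map (Equiv.prodCongr e.symm f.symm).toEmbedding).map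
      (Equiv.prodCongr e f).toEmbedding = τ := by
    ext x
    simp only [mem_map, Equiv.coe_toEmbedding]
    constructor
    · rintro ⟨y, ⟨z, hz, rfl⟩, rfl⟩
      rw [hid]
      exact hz
    · intro hx
      exact ⟨_, ⟨x, hx, rfl⟩, hid x⟩
  rw [h3] at h2
  rw [← h2]
  unfold Phi
  rw [card_map]
  by_cases hc : τ.card ≤ s
  · rw [if_pos hc, if_pos hc]
    refine Finset.sum_bij' (fun g _ => (e.trans g).trans f.symm)
      (fun g _ => (e.symm.trans g).trans f) (fun _ _ => by simp) (fun _ _ => by simp)
      (fun g _ => by ext x; simp) (fun g _ => by ext x; simp) ?_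
    intro g _
    have h5 : τ ⊆ grf g ↔
        τ.map (Equiv.prodCongr e.symm f.symm).toEmbedding ⊆ grf ((e.trans g).trans f.symm) := by
      constructor
      · intro h x hx
        rw [mem_map] at hx
        obtain ⟨⟨y1, y2⟩, hy, rfl⟩ := hx
        have := h hy
        rw [mem_grf] at this ⊢
        have h8 : g y1 = y2 := this
        simp [h8]
      · intro h y hy
        obtain ⟨y1, y2⟩ := y
        have := h (mem_map_of_mem _ hy)
        rw [mem_grf] at this ⊢
        simpa using this
    by_cases h6 : τ ⊆ grf g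
    · rw [if_pos h6, if_pos (h5.1 h6)]
    · rw [if_neg h6, if_neg (fun h => h6 (h5.2 h))]
  · rw [if_neg hc, if_neg hc]

end Pool.Agent.Helper81.FZ
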