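import Pool.Agent.Helper81.FZ.DesA
import Pool.Agent.Helper81.FZ.Square

set_option autoImplicit false

namespace Pool.Agent.Helper81.FZ

open Finset

theorem mem_grf41 {α : Type*} {β : Type*} [Fintype α] (g : α ≃ β) (e : α × β) :
    e ∈ grf g ↔ g e.1 = e.2 := by
  classical
  obtain ⟨a, b⟩ := e
  unfold grf
  simp only [Finset.mem_image, Finset.mem_univ, true_and, Prod.mk.injEq]
  constructor
  · rintro ⟨x, rfl, rfl⟩; rfl
  · rintro rfl; exact ⟨a, rfl, rfl⟩

open Classical in
/-- honest signed measures on bijections are consistent to every order -/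
theorem honest_mem_Co {K : Type*} [Field K] {α : Type*} {β : Type*} [Fintype α] [Fintype β]
    (nu : (α ≃ β) → K) (S : ℕ) (hS : Fintype.card α ≤ S) :
    (fun σ : Finset (α × β) => ∑ g : α ≃ β, (if σ ⊆ grf g then nu g else 0)) ∈ Co K α β S := by
  rw [← H41.FZ.co_iff]
  refine ⟨fun σ hσ => ?_, fun σ hσ => ?_, fun σ hσ hc a ha => ?_, fun σ hσ hc b hb => ?_⟩
  · refine Finset.sum_eq_zero fun g _ => ?_
    rw [if_neg]
    intro hsub'
    apply hσ
    intro e he e' he' hh
    have h1 := (mem_grf41 g e).1 (hsub' he)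
    have h2 := (mem_grf41 g e').1 (hsub' he')
    rcases hh with hh | hh
    · exact Prod.ext hh (by rw [← h1, ← h2, hh])
    · refine Prod.ext (g.injective ?_) hh
      rw [h1, h2, hh]
  · refine Finset.sum_eq_zero fun g _ => ?_
    rw [if_neg]
    intro hsub'
    have h1 := Finset.card_le_card hsub'
    have h2 : (grf g).card ≤ Fintype.card α := by
      unfold grf
      exact Finset.card_image_le
    omega
  · rw [Finset.sum_comm]
    refine Finset.sum_congr rfl fun g _ => ?_
    by_cases hg : σ ⊆ grf g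
    · rw [if_pos hg, Finset.sum_eq_single (g a)]
      · rw [if_pos]
        rw [Finset.insert_subset_iff, mem_grf41]
        exact ⟨rfl, hg⟩
      · intro b _ hb
        rw [if_neg]
        rw [Finset.insert_subset_iff, mem_grf41]
        rintro ⟨h1, -⟩
        exact hb h1.symm
      · intro h
        exact absurd (Finset.mem_univ _) h
    · rw [if_neg hg]
      refine Finset.sum_eq_zero fun b _ => ?_
      rw [if_neg]
      rw [Finset.insert_subset_iff]
      exact fun h => hg h.2
  · rw [Finset.sum_comm]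
    refine Finset.sum_congr rfl fun g _ => ?_
    by_cases hg : σ ⊆ grf g
    · rw [if_pos hg, Finset.sum_eq_single (g.symm b)]
      · rw [if_pos]
        rw [Finset.insert_subset_iff, mem_grf41]
        exact ⟨by simp, hg⟩
      · intro a _ ha
        rw [if_neg]
        rw [Finset.insert_subset_iff, mem_grf41]
        rintro ⟨h1, -⟩
        exact ha ((Equiv.eq_symm_apply g).2 h1)
      · intro h
        exact absurd (Finset.mem_univ _) h
    · rw [if_neg hg]
      refine Finset.sum_eq_zero fun b _ => ?_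
      rw [if_neg]
      rw [Finset.insert_subset_iff]
      exact fun h => hg h.2

/-- the doubling step -/
theorem Des_double (p m q D : ℕ) [Fact p.Prime] (hD : D ≤ m) (h : Des p (m + q) m D) :
    Des p ((p + 2) * m + q + p * q) ((p + 2) * m + q) (2 * D + 1) := by
  classical
  obtain ⟨F, hF, h1⟩ := h
  have hF' := (H41.FZ.co_iff D F).2 hF
  have hcard : Fintype.card (Fin (m + q) ⊕ Fin m) = Fintype.card (Fin m ⊕ Fin (m + q)) := by
    simp only [Fintype.card_sum, Fintype.card_fin]; omega
  have hSC : ∀ F ∈ H41.FZ.Co (ZMod p) (Fin (m + q) ⊕ Fin m) (Fin m ⊕ Fin (m + q)) D,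
      ∃ S, 2 * D < S ∧ ∃ G ∈ H41.FZ.Co (ZMod p) (Fin (m + q) ⊕ Fin m) (Fin m ⊕ Fin (m + q)) S,
      ∀ σ, σ.card ≤ D → G σ = F σ := by
    intro F hF
    obtain ⟨nu, hnu⟩ := square_complete (ZMod p) (Fin (m + q) ⊕ Fin m) (Fin m ⊕ Fin (m + q))
      hcard D (by simp only [Fintype.card_sum, Fintype.card_fin]; omega) F
      ((H41.FZ.co_iff D F).1 hF)
    refine ⟨2 * D + 1 + (2 * m + q), by omega, _, (H41.FZ.co_iff _ _).2 (honest_mem_Co nu _ ?_),
      fun σ hσ => ?_⟩
    · simp only [Fintype.card_sum, Fintype.card_fin]; omega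
    · rw [← hnu]
      unfold Phi
      rw [if_pos hσ]
  have key := H41.FZ.design_step (K := ZMod p) (J := Fin (p + 1)) (p := p) (by simp) hSC hF' h1
  refine Des_of_card p _ _ _ ((Fin (p + 1) × Fin (m + q)) ⊕ Fin m)
    ((Fin (p + 1) × Fin m) ⊕ Fin (m + q)) ?_ ?_ ?_
  · simp only [Fintype.card_sum, Fintype.card_prod, Fintype.card_fin]; ring
  · simp only [Fintype.card_sum, Fintype.card_prod, Fintype.card_fin]; ring
  · obtain ⟨H, hH, hH1⟩ := key
    exact ⟨H, (H41.FZ.co_iff _ H).1 hH, hH1⟩

end Pool.Agent.Helper81.FZ
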