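import Pool.Agent.Helper81.FZ.DesB

set_option autoImplicit false

namespace Pool.Agent.Helper81.FZ

open Finset

theorem Des_mk0 (p k : ℕ) [hp : Fact p.Prime] : Des p (mk p k + p ^ k) (mk p k) (2 ^ k - 1) := by
  induction k with
  | zero => exact Des_zero p
  | succ k ih =>
    have h := Des_double p (mk p k) (p ^ k) (2 ^ k - 1) (le_mk p k hp.out.two_le) ih
    have e1 : mk p (k + 1) + p ^ (k + 1) = (p + 2) * mk p k + p ^ k + p * p ^ k := by
      simp only [mk]
      rw [pow_succ]
      ring
    have e2 : 2 ^ (k + 1) - 1 = 2 * (2 ^ k - 1) + 1 := by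
      have : 0 < 2 ^ k := Nat.pow_pos (by norm_num)
      rw [pow_succ]
      omega
    rw [e1, e2]
    exact h

theorem Des_mk (p k n : ℕ) [Fact p.Prime] (hn : mk p k ≤ n) : Des p (n + p ^ k) n (2 ^ k - 1) := by
  induction n, hn using Nat.le_induction with
  | base => exact Des_mk0 p k
  | succ n _ ih =>
    have := Des_succ p _ _ _ ih
    rw [show n + 1 + p ^ k = n + p ^ k + 1 by ring]
    exact this

end Pool.Agent.Helper81.FZ
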