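import Pool.Agent.Helper81.FZ.ELe

set_option autoImplicit false

namespace Pool.Agent.Helper81.FZ

open Finset

namespace ELowerAux

/-- positive normalised functionals, with a support predicate -/
structure IsExp {Ω : Type*} (P : Ω → Prop) (E : (Ω → ℝ) → ℝ) : Prop where
  mono : ∀ f g : Ω → ℝ, (∀ ω, P ω → f ω ≤ g ω) → E f ≤ E g
  add : ∀ f g : Ω → ℝ, E (fun ω => f ω + g ω) = E f + E g
  smul : ∀ (c : ℝ) (f : Ω → ℝ), E (fun ω => c * f ω) = c * E f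
  const : ∀ c : ℝ, E (fun _ => c) = c

section
variable {Ω : Type*} {P : Ω → Prop} {E : (Ω → ℝ) → ℝ}

theorem IsExp.sum (h : IsExp P E) {κ : Type*} (s : Finset κ) (f : κ → Ω → ℝ) :
    E (fun ω => ∑ k ∈ s, f k ω) = ∑ k ∈ s, E (f k) := by
  classical
  induction s using Finset.induction_on with
  | empty => simpa using h.const 0
  | insert a s ha ih =>
    simp only [Finset.sum_insert ha]
    rw [h.add, ih]

theorem IsExp.pos_part (h : IsExp P E) (X : Ω → ℝ) (μ v V c : ℝ)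
    (hv : E (fun ω => (X ω - μ) ^ 2) ≤ v) (hc : 0 < c) (hV : c ≤ V - μ) :
    E (fun ω => max (X ω - V) 0) ≤ v / (4 * c) := by
  have h1 : ∀ ω, max (X ω - V) 0 ≤ (1 / (4 * c)) * (X ω - μ) ^ 2 := by
    intro ω
    apply max_le
    · have h2 : X ω - V ≤ (X ω - μ) - c := by linarith
      refine h2.trans ?_
      rw [div_mul_eq_mul_div, one_mul, le_div_iff₀ (by positivity)]
      nlinarith [sq_nonneg (X ω - μ - 2 * c)]
    · positivity
  calc E (fun ω => max (X ω - V) 0) ≤ E (fun ω => (1 / (4 * c)) * (X ω - μ) ^ 2) :=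
        h.mono _ _ (fun ω _ => h1 ω)
    _ = (1 / (4 * c)) * E (fun ω => (X ω - μ) ^ 2) := h.smul _ _
    _ ≤ _ := by
      rw [div_mul_eq_mul_div, one_mul]
      exact div_le_div_of_nonneg_right hv (by positivity)

theorem sqrt_bound (T g : ℝ) (hT : 0 < T) (hg : 0 ≤ g) (hg1 : g ≤ T ^ 4) :
    Real.sqrt (1 / T ^ 4 * (T ^ 4 - g) * T ^ 4) ≤
      T ^ 2 * (1 - (g / T ^ 4) / 2 - (g / T ^ 4) ^ 2 / 8) := by
  have hT4 : (0 : ℝ) < T ^ 4 := by positivity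
  set u := g / T ^ 4 with hu
  have hu0 : 0 ≤ u := by positivity
  have hu1 : u ≤ 1 := by rw [hu, div_le_one hT4]; exact hg1
  have hgu : g = u * T ^ 4 := by rw [hu]; field_simp
  have h1 : 1 / T ^ 4 * (T ^ 4 - g) * T ^ 4 = (T ^ 2) ^ 2 * (1 - u) := by
    rw [hgu]; field_simp
  rw [h1]
  apply Real.sqrt_le_iff.2
  constructor
  · have : u ^ 2 ≤ 1 := by nlinarith
    have : 0 ≤ 1 - u / 2 - u ^ 2 / 8 := by linarith
    positivity
  · have h2 : 1 - u ≤ (1 - u / 2 - u ^ 2 / 8) ^ 2 := by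
      have h3 : (1 - u / 2 - u ^ 2 / 8) ^ 2 = 1 - u + u ^ 3 / 8 + u ^ 4 / 64 := by ring
      rw [h3]
      have : 0 ≤ u ^ 3 / 8 + u ^ 4 / 64 := by positivity
      linarith
    rw [mul_pow]
    exact mul_le_mul_of_nonneg_left h2 (by positivity)

/-- the grid -/
noncomputable def grid (T s k : ℕ) : ℕ := ⌈((k : ℝ) * (T : ℝ) ^ 4) / (32 * (s : ℝ) ^ 2)⌉₊

theorem grid_end (T s : ℕ) (hs : 1 ≤ s) : grid T s (32 * s ^ 2) = T ^ 4 := by
  unfold grid
  have hs' : (0 : ℝ) < s := by exact_mod_cast hs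
  have : (((32 * s ^ 2 : ℕ) : ℝ) * (T : ℝ) ^ 4) / (32 * (s : ℝ) ^ 2) = ((T ^ 4 : ℕ) : ℝ) := by
    push_cast
    field_simp
  rw [this, Nat.ceil_natCast]

theorem grid_start (T s : ℕ) (hs : 1 ≤ s) : grid T s (32 * s) = ⌈(T : ℝ) ^ 4 / s⌉₊ := by
  unfold grid
  have hs' : (0 : ℝ) < s := by exact_mod_cast hs
  congr 1
  push_cast
  field_simp

theorem grid_le (T s k : ℕ) (hs : 1 ≤ s) (hk : k ≤ 32 * s ^ 2) : grid T s k ≤ T ^ 4 := by
  rw [← grid_end T s hs]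
  unfold grid
  apply Nat.ceil_mono
  have hk' : (k : ℝ) ≤ ((32 * s ^ 2 : ℕ) : ℝ) := by exact_mod_cast hk
  gcongr

theorem grid_find (g : ℕ → ℕ) (k₀ n i : ℕ) (h1 : g k₀ < i) (h2 : i ≤ g (k₀ + n)) :
    ∃ k ∈ Ico k₀ (k₀ + n), g k ≤ i ∧ i ≤ g (k + 1) := by
  induction n with
  | zero => simp at h2; omega
  | succ n ih =>
    by_cases h3 : i ≤ g (k₀ + n)
    · obtain ⟨k, hk, hk1⟩ := ih h3
      refine ⟨k, ?_, hk1⟩
      rw [mem_Ico] at hk ⊢
      omega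
    · refine ⟨k₀ + n, ?_, by omega, h2⟩
      rw [mem_Ico]
      omega

theorem axis (h : IsExp P E) (T s : ℕ) (hs : 1 ≤ s) (hT : 32 * s ^ 2 ≤ T ^ 4)
    (A S : ℕ → Ω → ℝ)
    (hA : ∀ ω i j, P ω → i ≤ j → A j ω ≤ A i ω)
    (hS : ∀ ω i j, P ω → i ≤ j → S i ω ≤ S j ω)
    (hEA : ∀ i ≤ T ^ 4, E (A i) ≤ 2 * Real.sqrt (1 / (T : ℝ) ^ 4 * ((T : ℝ) ^ 4 - i) * (T : ℝ) ^ 4))
    (hVA : ∀ i ≤ T ^ 4, E (fun ω => (A i ω - E (A i)) ^ 2) ≤ 2 * (T : ℝ) ^ 2)
    (hES : ∀ i ≤ T ^ 4, E (S i) = i / ((T : ℝ) ^ 2 + 1))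
    (hVS : ∀ i ≤ T ^ 4, E (fun ω => (S i ω - E (S i)) ^ 2) ≤ (T : ℝ) ^ 2) :
    ∃ R : Ω → ℝ, (∀ ω, 0 ≤ R ω) ∧
      (∀ ω i, P ω → i ≤ T ^ 4 → S i ω + A i ω ≤
        max (S ⌈(T : ℝ) ^ 4 / s⌉₊ ω + A 0 ω) (2 * (T : ℝ) ^ 2 - (T : ℝ) ^ 2 / (8 * (s : ℝ) ^ 2))
          + R ω) ∧ E R ≤ 768 * (s : ℝ) ^ 4 := by
  have hs' : (0 : ℝ) < s := by exact_mod_cast hs
  have hs1 : (1 : ℝ) ≤ s := by exact_mod_cast hs
  have hT' : 32 * (s : ℝ) ^ 2 ≤ (T : ℝ) ^ 4 := by exact_mod_cast hT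
  have hTpos : (0 : ℝ) < T := by
    rcases Nat.eq_zero_or_pos T with h0 | h0
    · subst h0
      have : (0 : ℝ) < (s : ℝ) ^ 2 := by positivity
      norm_num at hT'
      nlinarith
    · exact_mod_cast h0
  set V : ℝ := 2 * (T : ℝ) ^ 2 - (T : ℝ) ^ 2 / (8 * (s : ℝ) ^ 2) with hVdef
  set g := grid T s with hg
  refine ⟨fun ω => ∑ k ∈ Ico (32 * s) (32 * s ^ 2), max (S (g (k + 1)) ω + A (g k) ω - V) 0,
    ?_, ?_, ?_⟩
  · intro ω
    exact Finset.sum_nonneg fun k _ => le_max_right _ _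
  · intro ω i hP hi
    have hR0 : 0 ≤ ∑ k ∈ Ico (32 * s) (32 * s ^ 2), max (S (g (k + 1)) ω + A (g k) ω - V) 0 :=
      Finset.sum_nonneg fun k _ => le_max_right _ _
    by_cases h1 : i ≤ g (32 * s)
    · have h2 : S i ω ≤ S ⌈(T : ℝ) ^ 4 / s⌉₊ ω := by
        apply hS ω _ _ hP
        rwa [hg, grid_start T s hs] at h1
      have h3 : A i ω ≤ A 0 ω := hA ω _ _ hP (Nat.zero_le _)
      have h4 := le_max_left (S ⌈(T : ℝ) ^ 4 / s⌉₊ ω + A 0 ω) V
      linarith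
    · push Not at h1
      have h32 : 32 * s ≤ 32 * s ^ 2 := by nlinarith
      obtain ⟨n, hn⟩ := Nat.exists_eq_add_of_le h32
      have h2 : i ≤ g (32 * s + n) := by
        rw [← hn, hg, grid_end T s hs]
        exact hi
      obtain ⟨k, hk, hk1, hk2⟩ := grid_find g (32 * s) n i h1 h2
      rw [← hn] at hk
      have h3 : S i ω ≤ S (g (k + 1)) ω := hS ω _ _ hP hk2
      have h4 : A i ω ≤ A (g k) ω := hA ω _ _ hP hk1
      have h5 : max (S (g (k + 1)) ω + A (g k) ω - V) 0 ≤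
          ∑ k ∈ Ico (32 * s) (32 * s ^ 2), max (S (g (k + 1)) ω + A (g k) ω - V) 0 :=
        Finset.single_le_sum (f := fun k => max (S (g (k + 1)) ω + A (g k) ω - V) 0)
          (fun k _ => le_max_right _ _) hk
      have h6 := le_max_left (S (g (k + 1)) ω + A (g k) ω - V) 0
      have h7 := le_max_right (S ⌈(T : ℝ) ^ 4 / s⌉₊ ω + A 0 ω) V
      linarith
  · rw [h.sum]
    have hterm : ∀ k ∈ Ico (32 * s) (32 * s ^ 2),
        E (fun ω => max (S (g (k + 1)) ω + A (g k) ω - V) 0) ≤ 24 * (s : ℝ) ^ 2 := by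
      intro k hk
      rw [mem_Ico] at hk
      have hgk : g k ≤ T ^ 4 := grid_le T s k hs (by omega)
      have hgk1 : g (k + 1) ≤ T ^ 4 := grid_le T s (k + 1) hs (by omega)
      have hc : (0 : ℝ) < (T : ℝ) ^ 2 / (16 * (s : ℝ) ^ 2) := by positivity
      have hv : E (fun ω => (S (g (k + 1)) ω + A (g k) ω - (E (S (g (k + 1))) + E (A (g k)))) ^ 2)
          ≤ 6 * (T : ℝ) ^ 2 := by
        have h1 := hVA (g k) hgk
        have h2 := hVS (g (k + 1)) hgk1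
        calc E (fun ω => (S (g (k + 1)) ω + A (g k) ω - (E (S (g (k + 1))) + E (A (g k)))) ^ 2)
            ≤ E (fun ω => 2 * (S (g (k + 1)) ω - E (S (g (k + 1)))) ^ 2 +
                2 * (A (g k) ω - E (A (g k))) ^ 2) := by
              apply h.mono
              intro ω _
              nlinarith [sq_nonneg ((S (g (k + 1)) ω - E (S (g (k + 1)))) -
                (A (g k) ω - E (A (g k))))]
          _ = 2 * E (fun ω => (S (g (k + 1)) ω - E (S (g (k + 1)))) ^ 2) +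
                2 * E (fun ω => (A (g k) ω - E (A (g k))) ^ 2) := by
              rw [h.add, h.smul, h.smul]
          _ ≤ _ := by linarith
      have hV : (T : ℝ) ^ 2 / (16 * (s : ℝ) ^ 2) ≤ V - (E (S (g (k + 1))) + E (A (g k))) := by
        have h1 := hEA (g k) hgk
        have h2 := sqrt_bound (T : ℝ) (g k) hTpos (by positivity) (by exact_mod_cast hgk)
        have h3 := hES (g (k + 1)) hgk1
        have hT4 : (0 : ℝ) < (T : ℝ) ^ 4 := by positivity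
        have hT2 : (0 : ℝ) < (T : ℝ) ^ 2 := by positivity
        set u : ℝ := (g k : ℝ) / (T : ℝ) ^ 4 with hu
        set w : ℝ := (g (k + 1) : ℝ) / (T : ℝ) ^ 4 with hw
        have hu1 : (k : ℝ) / (32 * (s : ℝ) ^ 2) ≤ u := by
          rw [hu, le_div_iff₀ hT4]
          have := Nat.le_ceil (((k : ℝ) * (T : ℝ) ^ 4) / (32 * (s : ℝ) ^ 2))
          calc (k : ℝ) / (32 * (s : ℝ) ^ 2) * (T : ℝ) ^ 4
              = ((k : ℝ) * (T : ℝ) ^ 4) / (32 * (s : ℝ) ^ 2) := by ring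
            _ ≤ _ := this
        have hw1 : w ≤ ((k : ℝ) + 1) / (32 * (s : ℝ) ^ 2) + 1 / (T : ℝ) ^ 4 := by
          rw [hw, div_le_iff₀ hT4]
          have := (Nat.ceil_lt_add_one (a := (((k + 1 : ℕ) : ℝ) * (T : ℝ) ^ 4) /
            (32 * (s : ℝ) ^ 2)) (by positivity)).le
          calc ((g (k + 1) : ℕ) : ℝ) ≤ (((k + 1 : ℕ) : ℝ) * (T : ℝ) ^ 4) /
                (32 * (s : ℝ) ^ 2) + 1 := this
            _ = _ := by push_cast; field_simp
        have hinv : 1 / (T : ℝ) ^ 4 ≤ 1 / (32 * (s : ℝ) ^ 2) := by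
          apply one_div_le_one_div_of_le (by positivity) hT'
        have hwu : w - u ≤ 1 / (16 * (s : ℝ) ^ 2) := by
          have : ((k : ℝ) + 1) / (32 * (s : ℝ) ^ 2) = (k : ℝ) / (32 * (s : ℝ) ^ 2) +
            1 / (32 * (s : ℝ) ^ 2) := by ring
          have h16 : 1 / (16 * (s : ℝ) ^ 2) = 1 / (32 * (s : ℝ) ^ 2) + 1 / (32 * (s : ℝ) ^ 2) := by
            field_simp; norm_num
          rw [h16]
          linarith
        have hus : 1 / (s : ℝ) ≤ u := by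
          refine le_trans ?_ hu1
          have hk' : (32 : ℝ) * s ≤ k := by exact_mod_cast hk.1
          rw [div_le_div_iff₀ hs' (by positivity)]
          nlinarith
        have hu2 : 1 / (s : ℝ) ^ 2 ≤ u ^ 2 := by
          have : (1 / (s : ℝ)) ^ 2 ≤ u ^ 2 := by gcongr
          rwa [one_div_pow] at this
        have hES' : E (S (g (k + 1))) ≤ (T : ℝ) ^ 2 * w := by
          rw [h3, hw]
          have : (T : ℝ) ^ 2 * ((g (k + 1) : ℝ) / (T : ℝ) ^ 4) = (g (k + 1) : ℝ) / (T : ℝ) ^ 2 := by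
            field_simp
          rw [this]
          apply div_le_div_of_nonneg_left (by positivity) hT2
          linarith
        have key : E (S (g (k + 1))) + E (A (g k)) ≤
            2 * (T : ℝ) ^ 2 + (T : ℝ) ^ 2 * (w - u) - (T : ℝ) ^ 2 * (u ^ 2 / 4) := by
          nlinarith
        have e1 : (T : ℝ) ^ 2 * (w - u) ≤ (T : ℝ) ^ 2 * (1 / (16 * (s : ℝ) ^ 2)) := by gcongr
        have e2 : (T : ℝ) ^ 2 * (1 / (s : ℝ) ^ 2 / 4) ≤ (T : ℝ) ^ 2 * (u ^ 2 / 4) := by gcongr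
        have e3 : (T : ℝ) ^ 2 * (1 / (16 * (s : ℝ) ^ 2)) = (T : ℝ) ^ 2 / (s : ℝ) ^ 2 / 16 := by
          field_simp
        have e4 : (T : ℝ) ^ 2 * (1 / (s : ℝ) ^ 2 / 4) = (T : ℝ) ^ 2 / (s : ℝ) ^ 2 / 4 := by
          field_simp
        have e5 : (T : ℝ) ^ 2 / (16 * (s : ℝ) ^ 2) = (T : ℝ) ^ 2 / (s : ℝ) ^ 2 / 16 := by
          field_simp
        have e6 : (T : ℝ) ^ 2 / (8 * (s : ℝ) ^ 2) = (T : ℝ) ^ 2 / (s : ℝ) ^ 2 / 8 := by
          field_simp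
        rw [hVdef, e5, e6]
        rw [e3] at e1
        rw [e4] at e2
        linarith
      have hpp := h.pos_part (fun ω => S (g (k + 1)) ω + A (g k) ω) _ _ V _ hv hc hV
      refine hpp.trans (le_of_eq ?_)
      field_simp
      norm_num
    calc ∑ k ∈ Ico (32 * s) (32 * s ^ 2), E (fun ω => max (S (g (k + 1)) ω + A (g k) ω - V) 0)
        ≤ ∑ k ∈ Ico (32 * s) (32 * s ^ 2), 24 * (s : ℝ) ^ 2 := Finset.sum_le_sum hterm
      _ = ((32 * s ^ 2 - 32 * s : ℕ) : ℝ) * (24 * (s : ℝ) ^ 2) := by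
          rw [Finset.sum_const, Nat.card_Ico, nsmul_eq_mul]
      _ ≤ ((32 * s ^ 2 : ℕ) : ℝ) * (24 * (s : ℝ) ^ 2) := by
          have : ((32 * s ^ 2 - 32 * s : ℕ) : ℝ) ≤ ((32 * s ^ 2 : ℕ) : ℝ) := by
            exact_mod_cast Nat.sub_le _ _
          gcongr
      _ = 768 * (s : ℝ) ^ 4 := by push_cast; ring

end

theorem EB_congr {ι : Type*} (x : ℝ) (C : Finset ι) (φ ψ : Finset ι → ℝ)
    (h : ∀ Z ⊆ C, φ Z = ψ Z) : EB x C φ = EB x C ψ := by
  unfold EB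
  apply Finset.sum_congr rfl
  intro Z hZ
  rw [h Z (Finset.mem_powerset.1 hZ)]

/-- the joint expectation -/
noncomputable def E3 (m : ℕ) (x a : ℝ) (f : Finset (ℕ × ℕ) × Finset ℕ × Finset ℕ → ℝ) : ℝ :=
  EB x (range m ×ˢ range m) (fun Z => EB a (range m) (fun I => EB a (range m)
    (fun J => f (Z, I, J))))

def P3 (m : ℕ) (ω : Finset (ℕ × ℕ) × Finset ℕ × Finset ℕ) : Prop :=
  ω.1 ⊆ range m ×ˢ range m ∧ ω.2.1 ⊆ range m ∧ ω.2.2 ⊆ range m

theorem isExp_E3 (m : ℕ) (x a : ℝ) (hx : 0 ≤ x) (hx1 : x ≤ 1) (ha : 0 ≤ a) (ha1 : a ≤ 1) :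
    IsExp (P3 m) (E3 m x a) where
  mono := by
    intro f g h
    apply EB_mono x hx hx1
    intro Z hZ
    apply EB_mono a ha ha1
    intro I hI
    apply EB_mono a ha ha1
    intro J hJ
    exact h _ ⟨hZ, hI, hJ⟩
  add := by
    intro f g
    unfold E3
    simp only [EB_add]
  smul := by
    intro c f
    unfold E3
    simp only [EB_mul]
  const := by
    intro c
    unfold E3
    simp only [EB_const]

theorem E3_fst (m : ℕ) (x a : ℝ) (f : Finset (ℕ × ℕ) → ℝ) :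
    E3 m x a (fun ω => f ω.1) = EB x (range m ×ˢ range m) f := by
  unfold E3
  simp only [EB_const]

theorem E3_I (m : ℕ) (x a : ℝ) (f : Finset ℕ → ℝ) :
    E3 m x a (fun ω => f ω.2.1) = EB a (range m) f := by
  unfold E3
  simp only [EB_const]

theorem E3_J (m : ℕ) (x a : ℝ) (f : Finset ℕ → ℝ) :
    E3 m x a (fun ω => f ω.2.2) = EB a (range m) f := by
  unfold E3
  simp only [EB_const]

/-- partial sums of the axis variables -/
noncomputable def SI (i : ℕ) (I : Finset ℕ) : ℝ := ((∑ i' ∈ range i, ind1 I i' : ℕ) : ℝ)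

theorem SI_eq (i : ℕ) (I : Finset ℕ) : SI i I = ((I ∩ range i).card : ℝ) := by
  unfold SI ind1
  rw [Finset.sum_boole]
  congr 1
  simp only [Nat.cast_id]
  congr 1
  ext y
  simp only [mem_filter, mem_range, mem_inter]
  tauto

theorem SI_mono (I : Finset ℕ) {i j : ℕ} (h : i ≤ j) : SI i I ≤ SI j I := by
  unfold SI
  have : ∑ i' ∈ range i, ind1 I i' ≤ ∑ i' ∈ range j, ind1 I i' :=
    Finset.sum_le_sum_of_subset (Finset.range_mono h)
  exact_mod_cast this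

theorem E_SI (m i : ℕ) (a : ℝ) (hi : i ≤ m) : EB a (range m) (SI i) = a * i := by
  have h1 : EB a (range m) (SI i) =
      EB a (range m) (fun I => (fun J : Finset ℕ => (J.card : ℝ)) (I ∩ range i)) :=
    EB_congr _ _ _ _ (fun Z _ => SI_eq i Z)
  rw [h1, EB_inter a (range m) (range i) (Finset.range_mono hi)
    (fun J : Finset ℕ => (J.card : ℝ)), EB_card, card_range]

theorem V_SI (m i : ℕ) (a : ℝ) (hi : i ≤ m) :
    EB a (range m) (fun I => (SI i I - a * i) ^ 2) = a * (1 - a) * i := by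
  have h1 : EB a (range m) (fun I => (SI i I - a * i) ^ 2) =
      EB a (range m) (fun I => (fun J : Finset ℕ => ((J.card : ℝ) - a * (range i).card) ^ 2)
        (I ∩ range i)) := by
    apply EB_congr
    intro Z _
    simp only [SI_eq, card_range]
  rw [h1, EB_inter a (range m) (range i) (Finset.range_mono hi)
    (fun J : Finset ℕ => ((J.card : ℝ) - a * (range i).card) ^ 2), EB_var_card, card_range]

/-- longest chain to the right of `i` -/
noncomputable def A1 (i : ℕ) (Z : Finset (ℕ × ℕ)) : ℝ := (L0 (Z.filter fun y => i ≤ y.1) : ℝ)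

noncomputable def A2 (i : ℕ) (Z : Finset (ℕ × ℕ)) : ℝ := (L0 (Z.filter fun y => i ≤ y.2) : ℝ)

theorem A1_anti (Z : Finset (ℕ × ℕ)) {i j : ℕ} (h : i ≤ j) : A1 j Z ≤ A1 i Z := by
  unfold A1
  have : L0 (Z.filter fun y => j ≤ y.1) ≤ L0 (Z.filter fun y => i ≤ y.1) := by
    apply L0_mono
    intro y hy
    rw [mem_filter] at hy ⊢
    exact ⟨hy.1, h.trans hy.2⟩
  exact_mod_cast this

theorem A2_anti (Z : Finset (ℕ × ℕ)) {i j : ℕ} (h : i ≤ j) : A2 j Z ≤ A2 i Z := by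
  unfold A2
  have : L0 (Z.filter fun y => j ≤ y.2) ≤ L0 (Z.filter fun y => i ≤ y.2) := by
    apply L0_mono
    intro y hy
    rw [mem_filter] at hy ⊢
    exact ⟨hy.1, h.trans hy.2⟩
  exact_mod_cast this

theorem A1_zero (Z : Finset (ℕ × ℕ)) : A1 0 Z = (L0 Z : ℝ) := by
  unfold A1
  simp

theorem A2_zero (Z : Finset (ℕ × ℕ)) : A2 0 Z = (L0 Z : ℝ) := by
  unfold A2
  simp

theorem swapC (m : ℕ) : (range m ×ˢ range m).map (Equiv.prodComm ℕ ℕ).toEmbedding =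
    range m ×ˢ range m := by
  ext y
  simp only [mem_map, mem_product, mem_range, Equiv.coe_toEmbedding, Equiv.prodComm_apply]
  constructor
  · rintro ⟨z, hz, rfl⟩
    exact ⟨hz.2, hz.1⟩
  · intro h
    exact ⟨y.swap, ⟨h.2, h.1⟩, Prod.swap_swap y⟩

theorem A2_swap (i : ℕ) (Z : Finset (ℕ × ℕ)) :
    A2 i (Z.map (Equiv.prodComm ℕ ℕ).toEmbedding) = A1 i Z := by
  unfold A1 A2
  rw [Finset.filter_map]
  rw [L0_swap]
  rfl

theorem EB_swap (m : ℕ) (x : ℝ) (φ : Finset (ℕ × ℕ) → ℝ) :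
    EB x (range m ×ˢ range m) φ =
      EB x (range m ×ˢ range m) (fun Z => φ (Z.map (Equiv.prodComm ℕ ℕ).toEmbedding)) := by
  rw [← EB_map, swapC]

theorem V_A1 (m i : ℕ) (x : ℝ) (hx : 0 ≤ x) (hx1 : x ≤ 1) :
    EB x (range m ×ˢ range m) (fun Z => (A1 i Z - EB x (range m ×ˢ range m) (A1 i)) ^ 2) ≤
      EB x (range m ×ˢ range m) (A1 i) := by
  set C := range m ×ˢ range m with hC
  set C' := C.filter (fun y => i ≤ y.1) with hC'
  have hsub : C' ⊆ C := Finset.filter_subset _ _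
  have hA : ∀ Z ⊆ C, A1 i Z = (L0 (Z ∩ C') : ℝ) := by
    intro Z hZ
    unfold A1
    congr 2
    ext y
    simp only [hC', mem_filter, mem_inter]
    constructor
    · rintro ⟨h1, h2⟩
      exact ⟨h1, hZ h1, h2⟩
    · rintro ⟨h1, _, h2⟩
      exact ⟨h1, h2⟩
  have h1 : EB x C (A1 i) = EB x C' (fun Z => (L0 Z : ℝ)) := by
    rw [EB_congr x C (A1 i) (fun Z => (fun W : Finset (ℕ × ℕ) => (L0 W : ℝ)) (Z ∩ C')) hA,
      EB_inter x C C' hsub (fun W : Finset (ℕ × ℕ) => (L0 W : ℝ))]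
  have h2 : EB x C (fun Z => (A1 i Z - EB x C (A1 i)) ^ 2) =
      EB x C' (fun Z => ((L0 Z : ℝ) - EB x C (A1 i)) ^ 2) := by
    rw [EB_congr x C _ (fun Z => (fun W : Finset (ℕ × ℕ) =>
      ((L0 W : ℝ) - EB x C (A1 i)) ^ 2) (Z ∩ C')) (fun Z hZ => by rw [hA Z hZ]),
      EB_inter x C C' hsub (fun W : Finset (ℕ × ℕ) => ((L0 W : ℝ) - EB x C (A1 i)) ^ 2)]
  rw [h2, h1]
  exact var_L0 C' x hx hx1

theorem exit_real (m : ℕ) (Z : Finset (ℕ × ℕ)) (I J : Finset ℕ) (hZ : Z ⊆ range m ×ˢ range m) :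
    (∃ i ≤ m, (LP (ind2 Z) (ind1 I) (ind1 J) m m : ℝ) ≤ SI i I + A1 i Z) ∨
      (∃ i ≤ m, (LP (ind2 Z) (ind1 I) (ind1 J) m m : ℝ) ≤ SI i J + A2 i Z) := by
  have h := exit_le Z (ind1 I) (ind1 J) m m
  rw [Finset.inter_eq_left.2 hZ] at h
  rcases le_max_iff.1 h with h | h
  · left
    obtain ⟨i, hi, hi2⟩ := Finset.exists_mem_eq_sup (range (m + 1)) ⟨0, by simp⟩
      (fun i => ∑ i' ∈ range i, ind1 I i' + L0 (Z.filter fun x => i ≤ x.1))
    rw [hi2] at h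
    refine ⟨i, by rw [mem_range] at hi; omega, ?_⟩
    unfold SI A1
    exact_mod_cast h
  · right
    obtain ⟨i, hi, hi2⟩ := Finset.exists_mem_eq_sup (range (m + 1)) ⟨0, by simp⟩
      (fun i => ∑ i' ∈ range i, ind1 J i' + L0 (Z.filter fun x => i ≤ x.2))
    rw [hi2] at h
    refine ⟨i, by rw [mem_range] at hi; omega, ?_⟩
    unfold SI A2
    exact_mod_cast h

theorem main_s (T s : ℕ) (hs : 200 ≤ s) (hT : s ^ 4 ≤ T) :
    2 * (T : ℝ) ^ 2 - (T : ℝ) ^ 2 / (8 * (s : ℝ) ^ 2) - 48 * (s : ℝ) ^ 2 -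
      2 * (T : ℝ) ^ 2 / s - 2 ≤
      EB (1 / (T : ℝ) ^ 4) (range (T ^ 4) ×ˢ range (T ^ 4)) (fun Z => (L0 Z : ℝ)) := by
  have hs1 : 1 ≤ s := by omega
  have hs' : (200 : ℝ) ≤ s := by exact_mod_cast hs
  have hspos : (0 : ℝ) < s := by linarith
  have hT' : (s : ℝ) ^ 4 ≤ T := by exact_mod_cast hT
  have hTpos : (0 : ℝ) < T := lt_of_lt_of_le (by positivity) hT'
  have hTnat : 0 < T := by exact_mod_cast hTpos
  have hT1 : (1 : ℝ) ≤ T := by exact_mod_cast hTnat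
  have hT4s : 32 * s ^ 2 ≤ T ^ 4 := by
    have h1 : s ^ 4 ≤ T ^ 4 := hT.trans (Nat.le_self_pow (by norm_num) T)
    have h2 : 32 * s ^ 2 ≤ s ^ 4 := by nlinarith [Nat.mul_le_mul hs hs, sq_nonneg s]
    exact h2.trans h1
  set x : ℝ := 1 / (T : ℝ) ^ 4 with hx
  set a : ℝ := 1 / ((T : ℝ) ^ 2 + 1) with ha
  set m : ℕ := T ^ 4 with hm
  have hmr : (m : ℝ) = (T : ℝ) ^ 4 := by rw [hm]; push_cast; ring
  have hx0 : 0 < x := by positivity
  have hx1 : x ≤ 1 := by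
    rw [hx, div_le_one (by positivity)]
    exact one_le_pow₀ hT1
  have ha0 : 0 ≤ a := by positivity
  have ha1 : a ≤ 1 := by
    rw [ha, div_le_one (by positivity)]
    nlinarith [sq_nonneg (T : ℝ)]
  have hE := isExp_E3 m x a hx0.le hx1 ha0 ha1
  set E := E3 m x a with hEdef
  -- means and variances
  have hsqrt : ∀ i : ℕ, i ≤ m → Real.sqrt (x * ((m : ℝ) - i) * m) ≤ (T : ℝ) ^ 2 := by
    intro i hi
    apply Real.sqrt_le_iff.2
    refine ⟨by positivity, ?_⟩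
    have h1 : x * ((m : ℝ) - i) * m = (m : ℝ) - i := by
      rw [hx, hmr]; field_simp
    rw [h1, hmr]
    have : (0 : ℝ) ≤ i := by positivity
    nlinarith
  have hEA1 : ∀ i ≤ m, EB x (range m ×ˢ range m) (A1 i) ≤
      2 * Real.sqrt (x * ((m : ℝ) - i) * m) := fun i hi => E_L0_Ico_le i m m hi x hx0 hx1
  have hA2A1 : ∀ i, EB x (range m ×ˢ range m) (A2 i) = EB x (range m ×ˢ range m) (A1 i) := by
    intro i
    rw [EB_swap]
    exact EB_congr _ _ _ _ (fun Z _ => A2_swap i Z)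
  have hVA1 : ∀ i ≤ m, EB x (range m ×ˢ range m)
      (fun Z => (A1 i Z - EB x (range m ×ˢ range m) (A1 i)) ^ 2) ≤ 2 * (T : ℝ) ^ 2 := by
    intro i hi
    have h1 := V_A1 m i x hx0.le hx1
    have h2 := hEA1 i hi
    have h3 := hsqrt i hi
    linarith
  have hVA2 : ∀ i ≤ m, EB x (range m ×ˢ range m)
      (fun Z => (A2 i Z - EB x (range m ×ˢ range m) (A2 i)) ^ 2) ≤ 2 * (T : ℝ) ^ 2 := by
    intro i hi
    rw [hA2A1, EB_swap]
    refine le_trans (le_of_eq ?_) (hVA1 i hi)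
    exact EB_congr _ _ _ _ (fun Z _ => by rw [A2_swap])
  have haT : ∀ i : ℕ, i ≤ m → a * (1 - a) * i ≤ (T : ℝ) ^ 2 := by
    intro i hi
    have hi' : (i : ℝ) ≤ (T : ℝ) ^ 4 := by rw [← hmr]; exact_mod_cast hi
    have hi0 : (0 : ℝ) ≤ i := by positivity
    have h1 : a * (1 - a) * i ≤ a * i := by
      have : a * (1 - a) ≤ a := by nlinarith
      exact mul_le_mul_of_nonneg_right this hi0
    have h2 : a * i ≤ a * (T : ℝ) ^ 4 := mul_le_mul_of_nonneg_left hi' ha0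
    have h3 : a * (T : ℝ) ^ 4 ≤ (T : ℝ) ^ 2 := by
      rw [ha, div_mul_eq_mul_div, one_mul, div_le_iff₀ (by positivity)]
      nlinarith [sq_nonneg (T : ℝ)]
    linarith
  -- the two axes
  obtain ⟨R1, hR10, hR1, hER1⟩ := axis hE T s hs1 hT4s (fun i ω => A1 i ω.1)
    (fun i ω => SI i ω.2.1) (fun ω i j _ hij => A1_anti _ hij) (fun ω i j _ hij => SI_mono _ hij)
    (by
      intro i hi
      have := hEA1 i hi
      rw [hEdef, E3_fst m x a (A1 i)]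
      rwa [hmr, hx] at this)
    (by
      intro i hi
      rw [hEdef, E3_fst m x a (A1 i), E3_fst m x a
        (fun Z => (A1 i Z - EB x (range m ×ˢ range m) (A1 i)) ^ 2)]
      exact hVA1 i hi)
    (by
      intro i hi
      rw [hEdef, E3_I m x a (SI i), E_SI m i a hi, ha]
      ring)
    (by
      intro i hi
      rw [hEdef, E3_I m x a (SI i), E3_I m x a (fun I => (SI i I - EB a (range m) (SI i)) ^ 2),
        E_SI m i a hi, V_SI m i a hi]
      exact haT i hi)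
  obtain ⟨R2, hR20, hR2, hER2⟩ := axis hE T s hs1 hT4s (fun i ω => A2 i ω.1)
    (fun i ω => SI i ω.2.2) (fun ω i j _ hij => A2_anti _ hij) (fun ω i j _ hij => SI_mono _ hij)
    (by
      intro i hi
      have := hEA1 i hi
      rw [hEdef, E3_fst m x a (A2 i), hA2A1]
      rwa [hmr, hx] at this)
    (by
      intro i hi
      rw [hEdef, E3_fst m x a (A2 i), E3_fst m x a
        (fun Z => (A2 i Z - EB x (range m ×ˢ range m) (A2 i)) ^ 2)]
      exact hVA2 i hi)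
    (by
      intro i hi
      rw [hEdef, E3_J m x a (SI i), E_SI m i a hi, ha]
      ring)
    (by
      intro i hi
      rw [hEdef, E3_J m x a (SI i), E3_J m x a (fun I => (SI i I - EB a (range m) (SI i)) ^ 2),
        E_SI m i a hi, V_SI m i a hi]
      exact haT i hi)
  set V : ℝ := 2 * (T : ℝ) ^ 2 - (T : ℝ) ^ 2 / (8 * (s : ℝ) ^ 2) with hVdef
  set i₀ : ℕ := ⌈(T : ℝ) ^ 4 / s⌉₊ with hi₀
  have hi₀m : i₀ ≤ m := by
    have := grid_le T s (32 * s) hs1 (by nlinarith)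
    rwa [grid_start T s hs1] at this
  -- the comparison functional
  let W : Finset (ℕ × ℕ) × Finset ℕ × Finset ℕ → ℝ :=
    fun ω => (L0 ω.1 : ℝ) + SI i₀ ω.2.1 + SI i₀ ω.2.2
  have hSI0 : ∀ I, 0 ≤ SI i₀ I := fun I => by unfold SI; positivity
  have hpt : ∀ ω, P3 m ω → (LP (ind2 ω.1) (ind1 ω.2.1) (ind1 ω.2.2) m m : ℝ) ≤
      V + max (W ω - V) 0 + R1 ω + R2 ω := by
    intro ω hω
    have hmax : ∀ r : ℝ, r ≤ W ω → max r V ≤ V + max (W ω - V) 0 := by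
      intro r hr
      apply max_le
      · have := le_max_left (W ω - V) 0
        linarith
      · have := le_max_right (W ω - V) 0
        linarith
    rcases exit_real m ω.1 ω.2.1 ω.2.2 hω.1 with ⟨i, hi, h⟩ | ⟨i, hi, h⟩
    · have h1 := hR1 ω i hω hi
      have h2 := hR20 ω
      have h3 := hmax (SI i₀ ω.2.1 + A1 0 ω.1) (by
        rw [A1_zero]
        have := hSI0 ω.2.2
        simp only [W]
        linarith)
      linarith
    · have h1 := hR2 ω i hω hi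
      have h2 := hR10 ω
      have h3 := hmax (SI i₀ ω.2.2 + A2 0 ω.1) (by
        rw [A2_zero]
        have := hSI0 ω.2.1
        simp only [W]
        linarith)
      linarith
  -- Burke
  have hburke : E (fun ω => (LP (ind2 ω.1) (ind1 ω.2.1) (ind1 ω.2.2) m m : ℝ)) =
      m * a + m * a := by
    apply burke m m x a a
    rw [hx, ha]
    field_simp
    ring
  have hlow : 2 * (T : ℝ) ^ 2 - 2 ≤ m * a + m * a := by
    rw [hmr, ha]
    have : (T : ℝ) ^ 2 - 1 ≤ (T : ℝ) ^ 4 * (1 / ((T : ℝ) ^ 2 + 1)) := by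
      rw [mul_one_div, le_div_iff₀ (by positivity)]
      nlinarith
    linarith
  have hup : m * a + m * a ≤ V + E (fun ω => max (W ω - V) 0) + 768 * (s : ℝ) ^ 4 +
      768 * (s : ℝ) ^ 4 := by
    rw [← hburke]
    refine (hE.mono _ _ hpt).trans ?_
    rw [hE.add, hE.add, hE.add, hE.const]
    linarith
  have hs4 : 1536 * (s : ℝ) ^ 4 + 2 ≤ (T : ℝ) ^ 2 / (16 * (s : ℝ) ^ 2) := by
    rw [le_div_iff₀ (by positivity)]
    have h1 : ((s : ℝ) ^ 4) ^ 2 ≤ (T : ℝ) ^ 2 := by gcongr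
    have h2 : (40000 : ℝ) ≤ (s : ℝ) ^ 2 := by nlinarith
    have h3 : (40000 : ℝ) * (s : ℝ) ^ 6 ≤ (s : ℝ) ^ 2 * (s : ℝ) ^ 6 := by gcongr
    have h4 : (s : ℝ) ^ 2 ≤ (s : ℝ) ^ 6 := pow_le_pow_right₀ (by linarith) (by norm_num)
    nlinarith
  have hpos : (T : ℝ) ^ 2 / (16 * (s : ℝ) ^ 2) ≤ E (fun ω => max (W ω - V) 0) := by
    have e5 : (T : ℝ) ^ 2 / (16 * (s : ℝ) ^ 2) = (T : ℝ) ^ 2 / (s : ℝ) ^ 2 / 16 := by
      field_simp
    have e6 : (T : ℝ) ^ 2 / (8 * (s : ℝ) ^ 2) = (T : ℝ) ^ 2 / (s : ℝ) ^ 2 / 8 := by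
      field_simp
    rw [e5] at hs4 ⊢
    rw [e6] at hVdef
    linarith
  -- variance of W
  have hEW : E W = EB x (range m ×ˢ range m) (fun Z => (L0 Z : ℝ)) + a * i₀ + a * i₀ := by
    have h1 : E W = E (fun ω => (L0 ω.1 : ℝ)) + E (fun ω => SI i₀ ω.2.1) +
        E (fun ω => SI i₀ ω.2.2) := by
      simp only [W]
      rw [hE.add, hE.add]
    rw [h1, hEdef, E3_fst m x a (fun Z => (L0 Z : ℝ)), E3_I m x a (SI i₀), E3_J m x a (SI i₀),
      E_SI m i₀ a hi₀m]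
  have hvar : E (fun ω => (W ω - E W) ^ 2) ≤ 12 * (T : ℝ) ^ 2 := by
    set L := EB x (range m ×ˢ range m) (fun Z => (L0 Z : ℝ)) with hL
    have hLA : EB x (range m ×ˢ range m) (A1 0) = L :=
      EB_congr _ _ _ _ (fun Z _ => A1_zero Z)
    have h0 := hVA1 0 (Nat.zero_le _)
    rw [hLA] at h0
    have h0' : EB x (range m ×ˢ range m) (fun Z => ((L0 Z : ℝ) - L) ^ 2) ≤ 2 * (T : ℝ) ^ 2 := by
      refine le_trans (le_of_eq ?_) h0
      exact EB_congr _ _ _ _ (fun Z _ => by rw [A1_zero])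
    calc E (fun ω => (W ω - E W) ^ 2)
        ≤ E (fun ω => 3 * ((L0 ω.1 : ℝ) - L) ^ 2 + 3 * (SI i₀ ω.2.1 - a * i₀) ^ 2 +
            3 * (SI i₀ ω.2.2 - a * i₀) ^ 2) := by
          apply hE.mono
          intro ω _
          rw [hEW]
          simp only [W]
          nlinarith [sq_nonneg (((L0 ω.1 : ℝ) - L) - (SI i₀ ω.2.1 - a * i₀)),
            sq_nonneg (((L0 ω.1 : ℝ) - L) - (SI i₀ ω.2.2 - a * i₀)),
            sq_nonneg ((SI i₀ ω.2.1 - a * i₀) - (SI i₀ ω.2.2 - a * i₀))]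
      _ = 3 * EB x (range m ×ˢ range m) (fun Z => ((L0 Z : ℝ) - L) ^ 2) +
            3 * (a * (1 - a) * i₀) + 3 * (a * (1 - a) * i₀) := by
          rw [hE.add, hE.add, hE.smul, hE.smul, hE.smul, hEdef,
            E3_fst m x a (fun Z => ((L0 Z : ℝ) - L) ^ 2),
            E3_I m x a (fun I => (SI i₀ I - a * i₀) ^ 2),
            E3_J m x a (fun I => (SI i₀ I - a * i₀) ^ 2), V_SI m i₀ a hi₀m]
      _ ≤ _ := by
          have := haT i₀ hi₀m
          linarith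
  have hWV : V - 48 * (s : ℝ) ^ 2 ≤ E W := by
    by_contra hcon
    push Not at hcon
    have hz : 48 * (s : ℝ) ^ 2 < V - E W := by linarith
    have hz0 : 0 < V - E W := lt_trans (by positivity) hz
    have h1 := hE.pos_part W (E W) _ V (V - E W) hvar hz0 le_rfl
    have h2 : 12 * (T : ℝ) ^ 2 / (4 * (V - E W)) < (T : ℝ) ^ 2 / (16 * (s : ℝ) ^ 2) := by
      rw [div_lt_div_iff₀ (by positivity) (by positivity)]
      have hT2 : (0 : ℝ) < (T : ℝ) ^ 2 := by positivity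
      nlinarith
    linarith
  have hai : a * i₀ ≤ (T : ℝ) ^ 2 / s + 1 := by
    have h1 : (i₀ : ℝ) ≤ (T : ℝ) ^ 4 / s + 1 := (Nat.ceil_lt_add_one (by positivity)).le
    have h2 : a * i₀ ≤ a * ((T : ℝ) ^ 4 / s + 1) := mul_le_mul_of_nonneg_left h1 ha0
    have h3 : a * ((T : ℝ) ^ 4 / s) ≤ (T : ℝ) ^ 2 / s := by
      rw [ha, div_mul_div_comm, one_mul]
      rw [div_le_div_iff₀ (by positivity) hspos]
      have : (0 : ℝ) ≤ (T : ℝ) ^ 2 * s := by positivity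
      nlinarith
    nlinarith
  have e7 : 2 * (T : ℝ) ^ 2 / s = 2 * ((T : ℝ) ^ 2 / s) := by ring
  rw [e7]
  rw [hEW] at hWV
  linarith

end ELowerAux

/-- lower bound for the mean of the longest chain: `x = T⁻⁴`, `m = T⁴`, `θ = T²`, `a/(1-a) = T⁻²` -/
theorem E_L0_ge : ∃ C : ℝ, 0 < C ∧ ∃ T₀ : ℕ, ∀ T : ℕ, T₀ ≤ T →
    2 * (T : ℝ) ^ 2 - C * (T : ℝ) ^ (7 / 4 : ℝ) ≤
      EB (1 / (T : ℝ) ^ 4) (range (T ^ 4) ×ˢ range (T ^ 4)) (fun Z => (L0 Z : ℝ)) := by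
  refine ⟨100, by norm_num, 200 ^ 4, ?_⟩
  intro T hT
  have hT0 : (200 : ℝ) ^ 4 ≤ T := by exact_mod_cast hT
  set u : ℝ := (T : ℝ) ^ (1 / 4 : ℝ) with hu
  have hTnn : (0 : ℝ) ≤ T := by positivity
  have hu0 : 0 ≤ u := by positivity
  have hu4 : u ^ 4 = T := by
    rw [hu, ← Real.rpow_natCast, ← Real.rpow_mul hTnn]
    norm_num
  have hu7 : (T : ℝ) ^ (7 / 4 : ℝ) = u ^ 7 := by
    rw [hu, ← Real.rpow_natCast, ← Real.rpow_mul hTnn]
    norm_num
  have hu200 : (200 : ℝ) ≤ u := by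
    by_contra hcon
    push Not at hcon
    have : u ^ 4 < 200 ^ 4 := by gcongr
    rw [hu4] at this
    linarith
  set s : ℕ := ⌊u⌋₊ with hs
  have hsu : (s : ℝ) ≤ u := Nat.floor_le hu0
  have hsu1 : u < s + 1 := Nat.lt_floor_add_one u
  have hs200 : 200 ≤ s := Nat.le_floor (by exact_mod_cast hu200)
  have hs200' : (200 : ℝ) ≤ s := by exact_mod_cast hs200
  have hsT : s ^ 4 ≤ T := by
    have : (s : ℝ) ^ 4 ≤ T := by
      rw [← hu4]
      gcongr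
    exact_mod_cast this
  refine le_trans ?_ (ELowerAux.main_s T s hs200 hsT)
  rw [hu7, ← hu4]
  have hspos : (0 : ℝ) < s := by linarith
  have hus : u ≤ 2 * s := by linarith
  have h1 : (u ^ 4) ^ 2 / (8 * (s : ℝ) ^ 2) ≤ u ^ 7 := by
    rw [div_le_iff₀ (by positivity)]
    have h2 : u ≤ 8 * (s : ℝ) ^ 2 := by nlinarith
    calc (u ^ 4) ^ 2 = u ^ 7 * u := by ring
      _ ≤ u ^ 7 * (8 * (s : ℝ) ^ 2) := by gcongr
  have h2 : 2 * (u ^ 4) ^ 2 / s ≤ 4 * u ^ 7 := by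
    rw [div_le_iff₀ hspos]
    calc 2 * (u ^ 4) ^ 2 = 2 * u ^ 7 * u := by ring
      _ ≤ 2 * u ^ 7 * (2 * s) := by gcongr
      _ = 4 * u ^ 7 * s := by ring
  have hu1 : (1 : ℝ) ≤ u := by linarith
  have h3 : (s : ℝ) ^ 2 ≤ u ^ 7 := by
    calc (s : ℝ) ^ 2 ≤ u ^ 2 := by gcongr
      _ ≤ u ^ 7 := pow_le_pow_right₀ hu1 (by norm_num)
  have h4 : (1 : ℝ) ≤ u ^ 7 := one_le_pow₀ hu1
  linarith

end Pool.Agent.Helper81.FZ
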