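import Pool.Agent.Helper81.FZ.YoungB
import Pool.Agent.Helper29.Frege.Geo

set_option autoImplicit false

namespace Pool.Agent.Helper81.FZ

open Finset

/-- The branching rule for a sum over shapes of size `n + 1`. -/
theorem sum_Shp_succ (n : ℕ) (G : (ℕ →₀ ℕ) → ℝ) :
    ∑ m ∈ Shp (n + 1), G m * (fN (n + 1) m : ℝ) =
      ∑ l ∈ Shp n, ∑ i ∈ Helper29.Yng.A l, G (l + Finsupp.single i 1) * (fN n l : ℝ) := by
  classical
  have h0 := Helper29.Yng.pair_sum n (fun l i => G (l + Finsupp.single i 1) * (fN n l : ℝ))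
  rw [← Shp_eq_Y, ← Shp_eq_Y] at h0
  rw [h0]
  refine Finset.sum_congr rfl fun m hm => ?_
  have hm' : m ∈ Helper29.Yng.Y (n + 1) := by rw [← Shp_eq_Y]; exact hm
  have hm2 := Helper29.Yng.mem_Y.1 hm'
  have h1 : (fN (n + 1) m : ℝ) = ∑ i ∈ Helper29.Yng.R m, (fN n (m - Helper29.Yng.e i) : ℝ) := by
    rw [fN_eq_f hm, Helper29.Yng.f_rec hm2.1 (by rw [hm2.2]; omega), Nat.cast_sum]
    refine Finset.sum_congr rfl fun i hi => ?_
    have h2 : m - Helper29.Yng.e i ∈ Shp n := by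
      rw [Shp_eq_Y, Helper29.Yng.mem_Y]
      have h3 := Helper29.Yng.sz_down hm2.1 hi
      have h4 := hm2.2
      exact ⟨hm2.1.down hi, by omega⟩
    rw [fN_eq_f h2]
  rw [h1, Finset.mul_sum]
  refine Finset.sum_congr rfl fun i hi => ?_
  have h3 : m - Helper29.Yng.e i + Finsupp.single i 1 = m :=
    Helper29.Yng.sub_add_e (Helper29.Yng.one_le_of_R hm2.1 hi)
  rw [h3]

theorem fN_up_A (n : ℕ) (l : ℕ →₀ ℕ) (hl : l ∈ Shp n) :
    ∑ i ∈ Helper29.Yng.A l, (fN (n + 1) (l + Finsupp.single i 1) : ℝ) = (n + 1) * fN n l := by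
  have hY : l ∈ Helper29.Yng.Y n := by rw [← Shp_eq_Y]; exact hl
  have hY' := Helper29.Yng.mem_Y.1 hY
  have h3 := Helper29.Yng.up_sum n l hY'.1 hY'.2
  rw [fN_eq_f hl, ← h3]
  refine Finset.sum_congr rfl fun i hi => ?_
  rw [fN_eq_f (add_single_mem_Shp hl hi)]

theorem sum_sq_real (n : ℕ) : ∑ l ∈ Shp n, (fN n l : ℝ) ^ 2 = n.factorial := by
  induction n with
  | zero =>
    rw [Shp_eq_Y, Helper29.Yng.Y_zero, Finset.sum_singleton, fN_zero]
    simp
  | succ n ih =>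
    have h1 := sum_Shp_succ n (fun m => (fN (n + 1) m : ℝ))
    have h2 : ∑ m ∈ Shp (n + 1), (fN (n + 1) m : ℝ) ^ 2 =
        ∑ m ∈ Shp (n + 1), (fN (n + 1) m : ℝ) * (fN (n + 1) m : ℝ) := by
      refine Finset.sum_congr rfl fun m _ => ?_
      ring
    rw [h2, h1]
    have h3 : ∀ l ∈ Shp n, ∑ i ∈ Helper29.Yng.A l,
        (fN (n + 1) (l + Finsupp.single i 1) : ℝ) * (fN n l : ℝ) =
        (n + 1) * (fN n l : ℝ) ^ 2 := by
      intro l hl
      rw [← Finset.sum_mul, fN_up_A n l hl]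
      ring
    rw [Finset.sum_congr rfl h3, ← Finset.mul_sum, ih, Nat.factorial_succ]
    push_cast
    ring

theorem sum_sq (n : ℕ) : ∑ l ∈ Shp n, fN n l ^ 2 = n.factorial := by
  exact_mod_cast sum_sq_real n

/-- Plancherel growth of the first row -/
theorem aM_succ (n : ℕ) : aM (n + 1) - aM n =
    (∑ l ∈ Shp n, (fN n l : ℝ) * fN (n + 1) (addr l 1)) / (n + 1).factorial := by
  have h1 := sum_Shp_succ n (fun m => (m 0 : ℝ) * (fN (n + 1) m : ℝ))
  have h2 : ∑ m ∈ Shp (n + 1), (m 0 : ℝ) * (fN (n + 1) m : ℝ) ^ 2 =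
      ∑ m ∈ Shp (n + 1), (m 0 : ℝ) * (fN (n + 1) m : ℝ) * (fN (n + 1) m : ℝ) := by
    refine Finset.sum_congr rfl fun m _ => ?_
    ring
  have h3 : ∀ l ∈ Shp n, ∑ i ∈ Helper29.Yng.A l,
      (((l + Finsupp.single i 1 : ℕ →₀ ℕ) 0 : ℕ) : ℝ) * (fN (n + 1) (l + Finsupp.single i 1) : ℝ) *
        (fN n l : ℝ) = (n + 1) * ((l 0 : ℝ) * (fN n l : ℝ) ^ 2) +
          (fN n l : ℝ) * fN (n + 1) (addr l 1) := by
    intro l hl
    have hY : l ∈ Helper29.Yng.Y n := by rw [← Shp_eq_Y]; exact hl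
    have hY' := Helper29.Yng.mem_Y.1 hY
    have h0 : 0 ∈ Helper29.Yng.A l := by
      rw [Helper29.Yng.mem_A hY'.1]
      exact Or.inl rfl
    have h4 : ∀ i ∈ Helper29.Yng.A l,
        (((l + Finsupp.single i 1 : ℕ →₀ ℕ) 0 : ℕ) : ℝ) *
          (fN (n + 1) (l + Finsupp.single i 1) : ℝ) * (fN n l : ℝ) =
        (l 0 : ℝ) * (fN n l : ℝ) * (fN (n + 1) (l + Finsupp.single i 1) : ℝ) +
          if i = 0 then (fN n l : ℝ) * fN (n + 1) (addr l 1) else 0 := by
      intro i _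
      by_cases hi : i = 0
      · subst hi
        rw [if_pos rfl, Finsupp.add_apply, Finsupp.single_eq_same]
        unfold addr
        push_cast
        ring
      · rw [if_neg hi, Finsupp.add_apply, Finsupp.single_eq_of_ne (by omega)]
        push_cast
        ring
    rw [Finset.sum_congr rfl h4, Finset.sum_add_distrib, ← Finset.mul_sum, fN_up_A n l hl,
      Finset.sum_ite_eq' _ _ _, if_pos h0]
    ring
  have h5 : ∑ m ∈ Shp (n + 1), (m 0 : ℝ) * (fN (n + 1) m : ℝ) ^ 2 =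
      (n + 1) * ∑ l ∈ Shp n, (l 0 : ℝ) * (fN n l : ℝ) ^ 2 +
        ∑ l ∈ Shp n, (fN n l : ℝ) * fN (n + 1) (addr l 1) := by
    rw [h2, h1, Finset.sum_congr rfl h3, Finset.sum_add_distrib, ← Finset.mul_sum]
  have hf : ((n + 1).factorial : ℝ) = (n + 1) * (n.factorial : ℝ) := by
    rw [Nat.factorial_succ]
    push_cast
    ring
  have hn : (n.factorial : ℝ) ≠ 0 := by
    exact_mod_cast Nat.factorial_ne_zero n
  have hn1 : ((n : ℝ) + 1) ≠ 0 := by positivity
  unfold aM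
  rw [h5, hf]
  field_simp
  ring

/-- partitions with first row at least `g` longer -/
theorem addr_mem (n g : ℕ) (l : ℕ →₀ ℕ) (hl : l ∈ Shp n) : addr l g ∈ Shp (n + g) := by
  rw [Shp_eq_Y] at *
  exact Helper29.Yng.add_s_mem hl

theorem addr_injective (g : ℕ) : Function.Injective fun l : ℕ →₀ ℕ => addr l g := by
  intro l l' h
  unfold addr at h
  exact add_right_cancel h

/-- the total is at most `√(N! (N+q)!)` -/
theorem total_le (n q : ℕ) : ∑ l ∈ Shp n, (fN n l : ℝ) * fN (n + q) (addr l q) ≤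
    Real.sqrt (n.factorial * (n + q).factorial) := by
  classical
  apply Real.le_sqrt_of_sq_le
  have h1 := Finset.sum_mul_sq_le_sq_mul_sq (Shp n) (fun l => (fN n l : ℝ))
    (fun l => (fN (n + q) (addr l q) : ℝ))
  refine h1.trans ?_
  rw [sum_sq_real]
  refine mul_le_mul_of_nonneg_left ?_ (by positivity)
  rw [← sum_sq_real (n + q)]
  have h2 : ∑ l ∈ Shp n, (fN (n + q) (addr l q) : ℝ) ^ 2 =
      ∑ m ∈ (Shp n).image (fun l => addr l q), (fN (n + q) m : ℝ) ^ 2 := by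
    rw [Finset.sum_image]
    intro x _ y _ h
    exact addr_injective q h
  rw [h2]
  refine Finset.sum_le_sum_of_subset_of_nonneg ?_ fun _ _ _ => by positivity
  intro m hm
  rw [Finset.mem_image] at hm
  obtain ⟨l, hl, rfl⟩ := hm
  exact addr_mem n q l hl

end Pool.Agent.Helper81.FZ
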