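import Pool.Agent.Helper81.FZ.AMLower
import Pool.Agent.Helper81.FZ.YoungC

set_option autoImplicit false

namespace Pool.Agent.Helper81.FZ

open Finset

namespace GapAux

theorem sum_blocks (f : ℕ → ℝ) (k J : ℕ) :
    ∑ j ∈ range J, ∑ i ∈ range k, f (j * k + i) = ∑ x ∈ range (J * k), f x := by
  induction J with
  | zero => simp
  | succ J ih =>
    rw [Finset.sum_range_succ, ih, Nat.succ_mul, Finset.sum_range_add]

/-- a good window -/
theorem exists_window (r : ℕ → ℝ) (hr : ∀ n, 0 ≤ r n) (C c : ℝ) (hC : 0 < C) (hc : 0 < c)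
    (hsum : ∀ M : ℕ, 1 ≤ M → ∑ n ∈ range M, r (M + n) ≤ C * (2 * M : ℝ) ^ (1 - c : ℝ)) :
    ∃ δ : ℝ, 0 < δ ∧ ∃ M₀ : ℕ, ∀ M : ℕ, M₀ ≤ M → ∀ k : ℕ, (k : ℝ) ≤ (M : ℝ) ^ δ →
      ∃ n, M ≤ n ∧ n + k ≤ 2 * M ∧ ∑ i ∈ range k, Real.sqrt (2 * r (n + i)) ≤ 1 / 8 := by
  refine ⟨min (c / 4) 1, lt_min (by positivity) one_pos, max 1 ⌈(512 * C) ^ (2 / c : ℝ)⌉₊, ?_⟩
  intro M hM k hk
  have hM1 : 1 ≤ M := le_trans (le_max_left _ _) hM
  have hM2 : (512 * C) ^ (2 / c : ℝ) ≤ (M : ℝ) :=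
    Nat.ceil_le.1 (le_trans (le_max_right _ _) hM)
  have hMr : (1 : ℝ) ≤ M := by exact_mod_cast hM1
  have hMp : (0 : ℝ) < M := by linarith
  rcases Nat.eq_zero_or_pos k with rfl | hkpos
  · exact ⟨M, le_rfl, by omega, by simp⟩
  have hk1 : (k : ℝ) ≤ (M : ℝ) ^ (c / 4 : ℝ) :=
    hk.trans (Real.rpow_le_rpow_of_exponent_le hMr (min_le_left _ _))
  have hk2 : k ≤ M := by
    have : (k : ℝ) ≤ (M : ℝ) ^ (1 : ℝ) :=
      hk.trans (Real.rpow_le_rpow_of_exponent_le hMr (min_le_right _ _))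
    rw [Real.rpow_one] at this
    exact_mod_cast this
  have hJ1 : 1 ≤ M / k := (Nat.one_le_div_iff hkpos).2 hk2
  have hJk : M / k * k ≤ M := Nat.div_mul_le_self M k
  have hlt : M < (M / k + 1) * k := by
    have := Nat.lt_div_mul_add (a := M) hkpos
    rw [Nat.succ_mul]; exact this
  have hle : M ≤ 2 * (M / k) * k := by nlinarith
  set J := M / k with hJ
  have hJr : (0 : ℝ) < J := by exact_mod_cast hJ1
  have hkr : (0 : ℝ) < k := by exact_mod_cast hkpos
  have hS := hsum M hM1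
  set S := C * (2 * M : ℝ) ^ (1 - c : ℝ) with hSdef
  have hS0 : 0 ≤ S := by positivity
  have h1 : ∑ j ∈ range J, ∑ i ∈ range k, r (M + (j * k + i)) ≤ S := by
    rw [sum_blocks (fun x => r (M + x)) k J]
    refine le_trans ?_ hS
    apply Finset.sum_le_sum_of_subset_of_nonneg
    · exact Finset.range_subset_range.2 hJk
    · intro i _ _
      exact hr _
  have h2 : ∃ j ∈ range J, ∑ i ∈ range k, r (M + (j * k + i)) ≤ S / J := by
    apply Finset.exists_le_of_sum_le (f := fun j => ∑ i ∈ range k, r (M + (j * k + i)))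
      (g := fun _ => S / J) ⟨0, Finset.mem_range.2 (by omega)⟩
    rw [Finset.sum_const, Finset.card_range, nsmul_eq_mul, mul_div_cancel₀ _ hJr.ne']
    exact h1
  obtain ⟨j, hj, h3⟩ := h2
  have hjJ : j + 1 ≤ J := Finset.mem_range.1 hj
  have hjk : (j + 1) * k ≤ J * k := Nat.mul_le_mul_right k hjJ
  refine ⟨M + j * k, Nat.le_add_right _ _, by nlinarith, ?_⟩
  have h4 : (∑ i ∈ range k, Real.sqrt (2 * r (M + j * k + i))) ^ 2 ≤ (1 / 8) ^ 2 := by
    refine (sq_sum_le_card_mul_sum_sq).trans ?_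
    rw [Finset.card_range]
    have e1 : ∑ i ∈ range k, Real.sqrt (2 * r (M + j * k + i)) ^ 2 =
        2 * ∑ i ∈ range k, r (M + (j * k + i)) := by
      rw [Finset.mul_sum]
      apply Finset.sum_congr rfl
      intro i _
      rw [Real.sq_sqrt (by linarith [hr (M + j * k + i)]), add_assoc]
    rw [e1]
    have e2 : S / J ≤ 2 * k * S / M := by
      rw [div_le_div_iff₀ hJr hMp]
      have : (M : ℝ) ≤ 2 * J * k := by exact_mod_cast hle
      nlinarith
    have e3 : (k : ℝ) * (2 * ∑ i ∈ range k, r (M + (j * k + i))) ≤ k * (2 * (2 * k * S / M)) := by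
      apply mul_le_mul_of_nonneg_left _ hkr.le
      linarith
    refine e3.trans ?_
    have e4 : (k : ℝ) * (2 * (2 * k * S / M)) = 8 * C * k ^ 2 * (2 * M : ℝ) ^ (-c : ℝ) := by
      rw [hSdef, sub_eq_add_neg, Real.rpow_add (by positivity), Real.rpow_one]
      field_simp
      ring
    rw [e4]
    have e5 : (k : ℝ) ^ 2 ≤ (M : ℝ) ^ (c / 2 : ℝ) := by
      have : ((M : ℝ) ^ (c / 4 : ℝ)) ^ 2 = (M : ℝ) ^ (c / 2 : ℝ) := by
        rw [← Real.rpow_natCast, ← Real.rpow_mul hMp.le]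
        congr 1
        push_cast
        ring
      rw [← this]
      exact pow_le_pow_left₀ hkr.le hk1 2
    have e6 : (2 * M : ℝ) ^ (-c : ℝ) ≤ (M : ℝ) ^ (-c : ℝ) := by
      apply Real.rpow_le_rpow_of_nonpos hMp (by linarith) (by linarith)
    have e7 : 8 * C * k ^ 2 * (2 * M : ℝ) ^ (-c : ℝ) ≤
        8 * C * ((M : ℝ) ^ (c / 2 : ℝ) * (M : ℝ) ^ (-c : ℝ)) := by
      rw [mul_assoc (8 * C)]
      apply mul_le_mul_of_nonneg_left _ (by positivity)
      apply mul_le_mul e5 e6 (by positivity) (by positivity)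
    refine e7.trans ?_
    rw [← Real.rpow_add hMp]
    have e8 : c / 2 + -c = -(c / 2) := by ring
    rw [e8, Real.rpow_neg hMp.le]
    have e9 : 512 * C ≤ (M : ℝ) ^ (c / 2 : ℝ) := by
      have : ((512 * C) ^ (2 / c : ℝ)) ^ (c / 2 : ℝ) = 512 * C := by
        rw [← Real.rpow_mul (by positivity)]
        have : (2 / c * (c / 2) : ℝ) = 1 := by field_simp
        rw [this, Real.rpow_one]
      rw [← this]
      exact Real.rpow_le_rpow (by positivity) hM2 (by positivity)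
    have e10 : 0 < (M : ℝ) ^ (c / 2 : ℝ) := by positivity
    rw [← div_eq_mul_inv, div_le_iff₀ e10]
    linarith
  exact le_of_sq_le_sq h4 (by norm_num)

/-- normalised correlation -/
noncomputable def rho (n : ℕ) : ℝ :=
  (∑ l ∈ Shp n, (fN n l : ℝ) * fN (n + 1) (addr l 1)) /
    Real.sqrt (n.factorial * (n + 1).factorial)

theorem rho_le (n : ℕ) : rho n ≤ 1 := by
  unfold rho
  apply div_le_one_of_le₀ (total_le n 1) (Real.sqrt_nonneg _)

theorem rho_nonneg (n : ℕ) : 0 ≤ rho n := by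
  unfold rho
  positivity

theorem aM_succ' (n : ℕ) : aM (n + 1) - aM n = rho n / Real.sqrt (n + 1) := by
  rw [aM_succ]
  unfold rho
  rw [div_div, ← Real.sqrt_mul (by positivity)]
  congr 1
  have h : ((n.factorial : ℝ) * (n + 1).factorial * (n + 1)) = ((n + 1).factorial : ℝ) ^ 2 := by
    rw [Nat.factorial_succ]; push_cast; ring
  rw [h, Real.sqrt_sq (by positivity)]

theorem aM_zero : aM 0 = 0 := by
  unfold aM
  rw [Finset.sum_eq_zero]
  · simp
  · intro l hl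
    have := (mem_Shp 0 l).1 hl
    rw [this.2.2 0 le_rfl]
    simp

theorem inv_sqrt_le (n : ℕ) : 1 / Real.sqrt (n + 1) ≤ 2 * Real.sqrt (n + 1) - 2 * Real.sqrt n := by
  have h1 : 0 < Real.sqrt ((n : ℝ) + 1) := Real.sqrt_pos.2 (by positivity)
  have h0 : 0 ≤ Real.sqrt (n : ℝ) := Real.sqrt_nonneg _
  have e1 : Real.sqrt ((n : ℝ) + 1) ^ 2 = n + 1 := Real.sq_sqrt (by positivity)
  have e0 : Real.sqrt (n : ℝ) ^ 2 = n := Real.sq_sqrt (by positivity)
  rw [div_le_iff₀ h1]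
  nlinarith [sq_nonneg (Real.sqrt ((n : ℝ) + 1) - Real.sqrt (n : ℝ))]

theorem aM_le (n : ℕ) : aM n ≤ 2 * Real.sqrt n := by
  induction n with
  | zero => simp [aM_zero]
  | succ n ih =>
    have h := aM_succ' n
    have h1 : rho n / Real.sqrt (n + 1) ≤ 1 / Real.sqrt (n + 1) :=
      div_le_div_of_nonneg_right (rho_le n) (Real.sqrt_nonneg _)
    have h2 := inv_sqrt_le n
    push_cast
    linarith

theorem sum_rho (C c : ℝ)
    (h : ∀ n : ℕ, 1 ≤ n → 2 * Real.sqrt n - C * (n : ℝ) ^ (1 / 2 - c : ℝ) ≤ aM n) (M : ℕ)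
    (hM : 1 ≤ M) :
    ∑ n ∈ range M, (1 - rho (M + n)) ≤ C * (2 * M : ℝ) ^ (1 - c : ℝ) := by
  have hM0 : (0 : ℝ) < M := by exact_mod_cast hM
  -- telescoping
  have key : ∀ m : ℕ, ∑ n ∈ range m, (1 - rho (M + n)) / Real.sqrt ((M + n : ℕ) + 1) ≤
      (2 * Real.sqrt ((M + m : ℕ) : ℝ) - 2 * Real.sqrt M) - (aM (M + m) - aM M) := by
    intro m
    induction m with
    | zero => simp
    | succ m ih =>
      rw [Finset.sum_range_succ]
      have h1 := aM_succ' (M + m)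
      have h2 := inv_sqrt_le (M + m)
      have h3 : M + (m + 1) = M + m + 1 := by ring
      rw [h3, sub_div]
      have h4 : ((M + m + 1 : ℕ) : ℝ) = ((M + m : ℕ) : ℝ) + 1 := by push_cast; ring
      rw [h4]
      linarith
  have h1 := key M
  have h2 : M + M = 2 * M := by ring
  rw [h2] at h1
  have h3 := h (2 * M) (by omega)
  have h4 := aM_le M
  have h5 : ∑ n ∈ range M, (1 - rho (M + n)) / Real.sqrt ((M + n : ℕ) + 1) ≤
      C * ((2 * M : ℕ) : ℝ) ^ (1 / 2 - c : ℝ) := by linarith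
  have h6 : ∑ n ∈ range M, (1 - rho (M + n)) / Real.sqrt (2 * M) ≤
      ∑ n ∈ range M, (1 - rho (M + n)) / Real.sqrt ((M + n : ℕ) + 1) := by
    apply Finset.sum_le_sum
    intro n hn
    have hn' := Finset.mem_range.1 hn
    apply div_le_div_of_nonneg_left
    · linarith [rho_le (M + n)]
    · apply Real.sqrt_pos.2; positivity
    · apply Real.sqrt_le_sqrt
      have : ((M + n + 1 : ℕ) : ℝ) ≤ ((2 * M : ℕ) : ℝ) := by exact_mod_cast (by omega)
      push_cast at this ⊢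
      linarith
  rw [← Finset.sum_div] at h6
  have h7 : (∑ n ∈ range M, (1 - rho (M + n))) / Real.sqrt (2 * M) ≤
      C * ((2 * M : ℕ) : ℝ) ^ (1 / 2 - c : ℝ) := h6.trans h5
  have h8 : (0 : ℝ) < 2 * M := by positivity
  rw [div_le_iff₀ (Real.sqrt_pos.2 h8)] at h7
  refine h7.trans (le_of_eq ?_)
  push_cast
  rw [Real.sqrt_eq_rpow, mul_assoc, ← Real.rpow_add h8]
  congr 2
  ring

theorem addr_addr (l : ℕ →₀ ℕ) (i j : ℕ) : addr (addr l i) j = addr l (i + j) := by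
  unfold addr
  rw [Finsupp.single_add, add_assoc]

theorem addr_inj (i : ℕ) : Function.Injective (fun l : ℕ →₀ ℕ => addr l i) := by
  intro l l' h
  exact add_right_cancel h

theorem sum_addr_le (n i : ℕ) (φ : (ℕ →₀ ℕ) → ℝ) (hφ : ∀ l, 0 ≤ φ l) :
    ∑ l ∈ Shp n, φ (addr l i) ≤ ∑ l ∈ Shp (n + i), φ l := by
  classical
  rw [← Finset.sum_image (f := φ) (g := fun l => addr l i) (fun x _ y _ h => addr_inj i h)]
  apply Finset.sum_le_sum_of_subset_of_nonneg
  · intro l hl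
    obtain ⟨l', hl', rfl⟩ := Finset.mem_image.1 hl
    exact addr_mem n i l' hl'
  · intro l _ _
    exact hφ l

theorem sum_sq_real (n : ℕ) :
    ∑ l ∈ Shp n, ((fN n l : ℝ) / Real.sqrt n.factorial) ^ 2 = 1 := by
  have h := sum_sq n
  have h' : ∑ l ∈ Shp n, (fN n l : ℝ) ^ 2 = n.factorial := by exact_mod_cast h
  have hp : (0 : ℝ) < n.factorial := by exact_mod_cast n.factorial_pos
  simp only [div_pow, Real.sq_sqrt hp.le]
  rw [← Finset.sum_div, h', div_self hp.ne']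

theorem diff_le (m : ℕ) :
    ∑ l ∈ Shp m, ((fN m l : ℝ) / Real.sqrt m.factorial -
      (fN (m + 1) (addr l 1) : ℝ) / Real.sqrt (m + 1).factorial) ^ 2 ≤ 2 * (1 - rho m) := by
  have h1 := sum_sq_real m
  have h2 : ∑ l ∈ Shp m, ((fN (m + 1) (addr l 1) : ℝ) / Real.sqrt (m + 1).factorial) ^ 2 ≤ 1 := by
    refine (sum_addr_le m 1 (fun l => ((fN (m + 1) l : ℝ) / Real.sqrt (m + 1).factorial) ^ 2)
      (fun l => by positivity)).trans (le_of_eq (sum_sq_real (m + 1)))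
  have h3 : ∑ l ∈ Shp m, ((fN m l : ℝ) / Real.sqrt m.factorial) *
      ((fN (m + 1) (addr l 1) : ℝ) / Real.sqrt (m + 1).factorial) = rho m := by
    unfold rho
    rw [Finset.sum_div]
    apply Finset.sum_congr rfl
    intro l _
    rw [Real.sqrt_mul (by positivity), div_mul_div_comm]
  have h4 : ∀ l, ((fN m l : ℝ) / Real.sqrt m.factorial -
      (fN (m + 1) (addr l 1) : ℝ) / Real.sqrt (m + 1).factorial) ^ 2 =
      ((fN m l : ℝ) / Real.sqrt m.factorial) ^ 2 +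
      ((fN (m + 1) (addr l 1) : ℝ) / Real.sqrt (m + 1).factorial) ^ 2 -
      2 * (((fN m l : ℝ) / Real.sqrt m.factorial) *
      ((fN (m + 1) (addr l 1) : ℝ) / Real.sqrt (m + 1).factorial)) := by
    intro l; ring
  simp only [h4, Finset.sum_sub_distrib, Finset.sum_add_distrib, ← Finset.mul_sum, h3]
  linarith

/-- the vectors -/
noncomputable def av (n i : ℕ) : EuclideanSpace ℝ {l // l ∈ Shp n} :=
  WithLp.toLp 2 (fun l => (fN (n + i) (addr l.1 i) : ℝ) / Real.sqrt (n + i).factorial)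

theorem norm_av_zero (n : ℕ) : ‖av n 0‖ = 1 := by
  rw [EuclideanSpace.norm_eq]
  have : ∑ l : {l // l ∈ Shp n}, ‖(av n 0) l‖ ^ 2 = 1 := by
    rw [← sum_sq_real n]
    rw [← Finset.sum_coe_sort (Shp n)]
    apply Finset.sum_congr rfl
    intro l _
    rw [Real.norm_eq_abs, sq_abs]
    simp [av, addr]
  rw [this, Real.sqrt_one]

theorem dist_av (n i : ℕ) : dist (av n i) (av n (i + 1)) ≤ Real.sqrt (2 * (1 - rho (n + i))) := by
  rw [EuclideanSpace.dist_eq]
  apply Real.sqrt_le_sqrt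
  refine le_trans ?_ (diff_le (n + i))
  refine le_trans ?_ (sum_addr_le n i (fun l => ((fN (n + i) l : ℝ) / Real.sqrt (n + i).factorial -
      (fN (n + i + 1) (addr l 1) : ℝ) / Real.sqrt (n + i + 1).factorial) ^ 2)
      (fun l => by positivity))
  rw [← Finset.sum_coe_sort (Shp n)]
  apply le_of_eq
  apply Finset.sum_congr rfl
  intro l _
  rw [Real.dist_eq, sq_abs]
  simp [av, addr_addr, add_assoc]

theorem inner_av (n g q : ℕ) (hs : ∑ i ∈ range (g + q), Real.sqrt (2 * (1 - rho (n + i))) ≤ 1 / 8) :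
    1 / 2 ≤ inner ℝ (av n g) (av n (g + q)) := by
  have hd : ∀ k, k ≤ g + q → ‖av n k - av n 0‖ ≤ 1 / 8 := by
    intro k hk
    rw [← dist_eq_norm, dist_comm]
    refine (dist_le_range_sum_dist (av n) k).trans ?_
    refine (Finset.sum_le_sum (fun i _ => dist_av n i)).trans ?_
    refine le_trans ?_ hs
    apply Finset.sum_le_sum_of_subset_of_nonneg
    · exact Finset.range_subset_range.2 hk
    · intro i _ _
      exact Real.sqrt_nonneg _
  have h1 := hd g (by omega)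
  have h2 := hd (g + q) le_rfl
  set a := av n 0
  set u := av n g - a with hu
  set v := av n (g + q) - a with hv
  have e1 : av n g = a + u := by rw [hu]; abel
  have e2 : av n (g + q) = a + v := by rw [hv]; abel
  rw [e1, e2, inner_add_left, inner_add_right, inner_add_right, real_inner_self_eq_norm_sq,
    norm_av_zero]
  have ha : ‖a‖ = 1 := norm_av_zero n
  have i1 : |inner ℝ a v| ≤ ‖a‖ * ‖v‖ := abs_real_inner_le_norm a v
  have i2 : |inner ℝ u a| ≤ ‖u‖ * ‖a‖ := abs_real_inner_le_norm u a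
  have i3 : |inner ℝ u v| ≤ ‖u‖ * ‖v‖ := abs_real_inner_le_norm u v
  rw [ha] at i1 i2
  have i4 : ‖u‖ * ‖v‖ ≤ 1 / 8 * (1 / 8) := by
    apply mul_le_mul h1 h2 (norm_nonneg _) (by norm_num)
  have j1 := neg_abs_le (inner ℝ a v)
  have j2 := neg_abs_le (inner ℝ u a)
  have j3 := neg_abs_le (inner ℝ u v)
  linarith

end GapAux

open GapAux in
/-- from the mean of the first row to the gap -/
theorem gap_of_aM (h : ∃ C c : ℝ, 0 < C ∧ 0 < c ∧ ∀ n : ℕ, 1 ≤ n →
      2 * Real.sqrt n - C * (n : ℝ) ^ (1 / 2 - c : ℝ) ≤ aM n) :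
    ∃ δ : ℝ, 0 < δ ∧ ∃ M₀ : ℕ, ∀ M : ℕ, M₀ ≤ M → ∀ g q : ℕ, ((g + q : ℕ) : ℝ) ≤ (M : ℝ) ^ δ →
      ∃ n : ℕ, M ≤ n ∧ n ≤ 2 * M ∧
        (1 / 2) * Real.sqrt ((n + g).factorial * (n + g + q).factorial) ≤
          ∑ l ∈ Shp n, (fN (n + g) (addr l g) : ℝ) * fN (n + g + q) (addr l (g + q)) := by
  obtain ⟨C, c, hC, hc, h⟩ := h
  obtain ⟨δ, hδ, M₀, hM⟩ := exists_window (fun n => 1 - rho n) (fun n => by linarith [rho_le n])
    C c hC hc (fun M hM1 => sum_rho C c h M hM1)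
  refine ⟨δ, hδ, M₀, fun M hM0 g q hgq => ?_⟩
  obtain ⟨n, hn1, hn2, hn3⟩ := hM M hM0 (g + q) hgq
  refine ⟨n, hn1, by omega, ?_⟩
  have hi := inner_av n g q hn3
  have hpos : (0 : ℝ) < Real.sqrt ((n + g).factorial * (n + g + q).factorial) := by
    apply Real.sqrt_pos.2; positivity
  have he : inner ℝ (av n g) (av n (g + q)) =
      (∑ l ∈ Shp n, (fN (n + g) (addr l g) : ℝ) * fN (n + g + q) (addr l (g + q))) /
      Real.sqrt ((n + g).factorial * (n + g + q).factorial) := by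
    rw [Finset.sum_div, PiLp.inner_apply, ← Finset.sum_coe_sort (Shp n)]
    apply Finset.sum_congr rfl
    intro l _
    simp only [av]
    rw [Real.sqrt_mul (by positivity)]
    simp only [RCLike.inner_apply, conj_trivial, add_assoc]
    field_simp
  rw [he, le_div_iff₀ hpos] at hi
  exact hi

theorem gap : ∃ δ : ℝ, 0 < δ ∧ ∃ M₀ : ℕ, ∀ M : ℕ, M₀ ≤ M → ∀ g q : ℕ,
    ((g + q : ℕ) : ℝ) ≤ (M : ℝ) ^ δ →
      ∃ n : ℕ, M ≤ n ∧ n ≤ 2 * M ∧
        (1 / 2) * Real.sqrt ((n + g).factorial * (n + g + q).factorial) ≤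
          ∑ l ∈ Shp n, (fN (n + g) (addr l g) : ℝ) * fN (n + g + q) (addr l (g + q)) := by
  apply gap_of_aM
  obtain ⟨C, hC, h⟩ := aM_lower
  refine ⟨C, 1 / 16, hC, by norm_num, fun n hn => ?_⟩
  have h1 := h n hn
  have h3 : ((1 : ℝ) / 2 - 1 / 16) = 7 / 16 := by norm_num
  rw [h3]
  linarith

end Pool.Agent.Helper81.FZ
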