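import Pool.Agent.Helper81.FZ.Basic
import Pool.Agent.Helper41.FZ.Bridge

set_option autoImplicit false

namespace Pool.Agent.Helper81.FZ

open Finset

universe u v

open Classical in
/-- honest signed measures on bijections -/
noncomputable def hon {K : Type*} [Field K] {α : Type*} {β : Type*} [Fintype α] [Fintype β]
    (nu : (α ≃ β) → K) : Finset (α × β) → K :=
  fun σ : Finset (α × β) => ∑ g : α ≃ β, (if ∀ e ∈ σ, g e.1 = e.2 then nu g else 0)

/-- honest signed measures on bijections are consistent to every order -/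
theorem hon_mem_Co {K : Type*} [Field K] {α : Type*} {β : Type*} [Fintype α] [Fintype β]
    (nu : (α ≃ β) → K) (S : ℕ) (hS : Fintype.card α ≤ S) : hon nu ∈ Co K α β S := by
  classical
  rw [← H41.FZ.co_iff]
  have hM : ∀ (g : α ≃ β) (σ : Finset (α × β)), (∀ e ∈ σ, g e.1 = e.2) → IsM σ := by
    intro g σ hσ e he e' he' hh
    have h1 := hσ e he
    have h2 := hσ e' he'
    rcases hh with hh | hh
    · exact Prod.ext hh (by rw [← h1, ← h2, hh])
    · refine Prod.ext (g.injective ?_) hh
      rw [h1, h2, hh]
  refine ⟨fun σ hσ => ?_, fun σ hσ => ?_, fun σ hσ hc a ha => ?_, fun σ hσ hc b hb => ?_⟩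
  · refine Finset.sum_eq_zero fun g _ => ?_
    rw [if_neg]
    exact fun h => hσ (hM g σ h)
  · refine Finset.sum_eq_zero fun g _ => ?_
    rw [if_neg]
    intro h
    have := (hM g σ h).card_le_left
    omega
  · unfold hon
    rw [Finset.sum_comm]
    refine Finset.sum_congr rfl fun g _ => ?_
    by_cases hg : ∀ e ∈ σ, g e.1 = e.2
    · rw [if_pos hg, Finset.sum_eq_single (g a)]
      · rw [if_pos]
        rw [Finset.forall_mem_insert]
        exact ⟨rfl, hg⟩
      · intro b _ hb
        rw [if_neg]
        rw [Finset.forall_mem_insert]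
        rintro ⟨h1, -⟩
        exact hb h1.symm
      · intro h
        exact absurd (Finset.mem_univ _) h
    · rw [if_neg hg]
      refine Finset.sum_eq_zero fun b _ => ?_
      rw [if_neg]
      rw [Finset.forall_mem_insert]
      exact fun h => hg h.2
  · unfold hon
    rw [Finset.sum_comm]
    refine Finset.sum_congr rfl fun g _ => ?_
    by_cases hg : ∀ e ∈ σ, g e.1 = e.2
    · rw [if_pos hg, Finset.sum_eq_single (g.symm b)]
      · rw [if_pos]
        rw [Finset.forall_mem_insert]
        exact ⟨by simp, hg⟩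
      · intro a _ ha
        rw [if_neg]
        rw [Finset.forall_mem_insert]
        rintro ⟨h1, -⟩
        exact ha ((Equiv.eq_symm_apply g).2 h1)
      · intro h
        exact absurd (Finset.mem_univ _) h
    · rw [if_neg hg]
      refine Finset.sum_eq_zero fun b _ => ?_
      rw [if_neg]
      rw [Finset.forall_mem_insert]
      exact fun h => hg h.2

variable {α : Type u} {β : Type v} [Fintype α] [Fintype β]

theorem mem_gr {α : Type u} {β : Type v} {X : Finset α} {Y : Finset β}
    (g : {x // x ∈ X} ≃ {y // y ∈ Y}) (e : α × β) :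
    e ∈ gr g ↔ ∃ x : {x // x ∈ X}, (x : α) = e.1 ∧ ((g x : {y // y ∈ Y}) : β) = e.2 := by
  classical
  obtain ⟨a, b⟩ := e
  unfold gr
  simp only [Finset.mem_image, Finset.mem_univ, true_and, Prod.mk.injEq]

open Classical in
/-- hosting: a measure on bijections `X ≃ Y`, null below size `t`, times a degree `D` function on
the complement -/
theorem host (K : Type*) [Field K] (X : Finset α) (Y : Finset β)
    (nu : ({x // x ∈ X} ≃ {y // y ∈ Y}) → K) (t D : ℕ)
    (hnull : ∀ τ : Finset (α × β), τ.card < t → mass nu τ = 0)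
    (h : Finset ({a // a ∉ X} × {b // b ∉ Y}) → K)
    (hh : h ∈ Co K {a // a ∉ X} {b // b ∉ Y} D) (h1 : h ∅ = 1) :
    ∃ F ∈ Co K α β (t + D), ∀ σ : Finset (α × β), σ.card ≤ t →
      (σ.card = t → F σ = mass nu σ) ∧ (σ.card ≠ t → F σ = 0) := by
  set c : α → Bool := fun a => decide (a ∈ X) with hc
  set c' : β → Bool := fun b => decide (b ∈ Y) with hc'
  set G1 : Finset ({x // x ∈ X} × {y // y ∈ Y}) → K := hon nu with hG1
  set S : ℕ := Fintype.card {x // x ∈ X} + (t + D + 1) with hS
  have hG1Co : G1 ∈ H41.FZ.Co K {x // x ∈ X} {y // y ∈ Y} S :=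
    (H41.FZ.co_iff _ _).2 (hon_mem_Co nu S (Nat.le_add_right _ _))
  have hhCo := (H41.FZ.co_iff D h).2 hh
  set vX : {x // x ∈ X} → α := fun x => x.1 with hvX
  set vY : {y // y ∈ Y} → β := fun y => y.1 with hvY
  set wX : {x // x ∉ X} → α := fun x => x.1 with hwX
  set wY : {y // y ∉ Y} → β := fun y => y.1 with hwY
  set hl : Bool → Finset (α × β) → K := fun l τ =>
    if l = true then G1 (H41.FZ.pull vX vY τ) else h (H41.FZ.pull wX wY τ) with hhl
  have hvXi : vX.Injective := Subtype.val_injective
  have hvYi : vY.Injective := Subtype.val_injective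
  have hwXi : wX.Injective := Subtype.val_injective
  have hwYi : wY.Injective := Subtype.val_injective
  have rX : ∀ x, c x = true ↔ ∃ a, vX a = x := fun x => by
    simp only [hc, hvX, decide_eq_true_eq]
    exact ⟨fun h => ⟨⟨x, h⟩, rfl⟩, by rintro ⟨a, rfl⟩; exact a.2⟩
  have rY : ∀ x, c' x = true ↔ ∃ a, vY a = x := fun x => by
    simp only [hc', hvY, decide_eq_true_eq]
    exact ⟨fun h => ⟨⟨x, h⟩, rfl⟩, by rintro ⟨a, rfl⟩; exact a.2⟩
  have sX : ∀ x, c x = false ↔ ∃ a, wX a = x := fun x => by
    simp only [hc, hwX, decide_eq_false_iff_not]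
    exact ⟨fun h => ⟨⟨x, h⟩, rfl⟩, by rintro ⟨a, rfl⟩; exact a.2⟩
  have sY : ∀ x, c' x = false ↔ ∃ a, wY a = x := fun x => by
    simp only [hc', hwY, decide_eq_false_iff_not]
    exact ⟨fun h => ⟨⟨x, h⟩, rfl⟩, by rintro ⟨a, rfl⟩; exact a.2⟩
  have locT : H41.FZ.LocCo c c' true S (hl true) :=
    H41.FZ.LocCo.of_Co (K := K) hvXi hvYi rX rY hG1Co
  have locF : H41.FZ.LocCo c c' false D (hl false) :=
    H41.FZ.LocCo.of_Co (K := K) hwXi hwYi sX sY hhCo
  -- the block function is the mass
  have hmass : ∀ τ : Finset (α × β), (∀ e ∈ τ, c e.1 = true ∧ c' e.2 = true) →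
      hl true τ = mass nu τ := by
    intro τ hτ
    change G1 (H41.FZ.pull vX vY τ) = mass nu τ
    rw [hG1]
    unfold mass hon
    refine Finset.sum_congr (by ext g; simp only [Finset.mem_univ]) fun g _ => ?_
    have : (∀ e ∈ H41.FZ.pull vX vY τ, g e.1 = e.2) ↔ τ ⊆ gr g := by
      constructor
      · rintro h2 ⟨a, b⟩ he
        obtain ⟨h3, h4⟩ := hτ _ he
        obtain ⟨x, hx⟩ := (rX _).1 h3
        obtain ⟨y, hy⟩ := (rY _).1 h4
        simp only at hx hy
        rw [mem_gr]
        refine ⟨x, hx, ?_⟩
        have := h2 (x, y) (H41.FZ.mem_pull.2 (by simpa [hx, hy] using he))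
        simp only at this
        rw [this]
        exact hy
      · rintro h2 ⟨x, y⟩ he
        have h3 := h2 (H41.FZ.mem_pull.1 he)
        rw [mem_gr] at h3
        obtain ⟨x', hx', hy'⟩ := h3
        have hx'' : x' = x := Subtype.ext hx'
        rw [hx''] at hy'
        exact Subtype.ext hy'
    by_cases hg : τ ⊆ gr g
    · rw [if_pos hg, if_pos (this.2 hg)]
    · rw [if_neg hg, if_neg (fun h => hg (this.1 h))]
  have hsmall : ∀ σ : Finset (α × β), (H41.FZ.blk c c' true σ).card < t →
      hl true (H41.FZ.blk c c' true σ) = 0 := by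
    intro σ hσ
    rw [hmass _ (fun e he => (H41.FZ.mem_blk.1 he).2)]
    exact hnull _ hσ
  have hnon : ∀ σ, ¬ IsM σ → H41.FZ.prodF c c' hl σ = 0 := fun σ hσ => by
    refine H41.FZ.prodF_nonM (fun l τ hτ hM => ?_) hσ
    cases l
    · exact locF.nonM τ hτ hM
    · exact locT.nonM τ hτ hM
  refine ⟨fun σ => if σ.card ≤ t + D then H41.FZ.prodF c c' hl σ else 0, ?_, ?_⟩
  · rw [← H41.FZ.co_iff]
    have hcards : ∀ σ : Finset (α × β), (H41.FZ.blk c c' true σ).card +
        (H41.FZ.blk c c' false σ).card ≤ σ.card :=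
      fun σ => H41.FZ.card_blk_add c c' (by simp) σ
    refine ⟨fun σ hσ => ?_, fun σ hσ => ?_, fun σ hσ hc1 a ha => ?_, fun σ hσ hc1 b hb => ?_⟩
    · beta_reduce
      rw [hnon σ hσ, ite_self]
    · beta_reduce
      rw [if_neg (not_le.2 hσ)]
    · beta_reduce
      have e1 : ∀ b : β, (if (insert (a, b) σ).card ≤ t + D then
          H41.FZ.prodF c c' hl (insert (a, b) σ) else 0) =
          H41.FZ.prodF c c' hl (insert (a, b) σ) := fun b => by
        rw [if_pos ((Finset.card_insert_le _ _).trans hc1)]
      rw [if_pos hc1.le, Finset.sum_congr rfl (fun b _ => e1 b)]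
      cases hca : c a
      · by_cases hD : (H41.FZ.blk c c' false σ).card < D
        · refine H41.FZ.prodF_margL_eq σ a ?_
          rw [hca]
          exact locF.margL _ (fun e he => (H41.FZ.mem_blk.1 he).2)
            (IsM.mono hσ H41.FZ.blk_subset) hD a hca (ha.subset H41.FZ.blk_subset)
        · have ht : (H41.FZ.blk c c' true σ).card < t := by
            have := hcards σ; omega
          rw [H41.FZ.prodF_eq_zero σ true (hsmall σ ht)]
          refine Finset.sum_eq_zero fun b _ => ?_
          refine H41.FZ.prodF_eq_zero _ true ?_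
          rw [H41.FZ.blk_insert_ne (by rw [hca]; simp)]
          exact hsmall σ ht
      · refine H41.FZ.prodF_margL_eq σ a ?_
        rw [hca]
        refine locT.margL _ (fun e he => (H41.FZ.mem_blk.1 he).2)
            (IsM.mono hσ H41.FZ.blk_subset) ?_ a hca (ha.subset H41.FZ.blk_subset)
        have := hcards σ
        omega
    · beta_reduce
      have e1 : ∀ a : α, (if (insert (a, b) σ).card ≤ t + D then
          H41.FZ.prodF c c' hl (insert (a, b) σ) else 0) =
          H41.FZ.prodF c c' hl (insert (a, b) σ) := fun a => by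
        rw [if_pos ((Finset.card_insert_le _ _).trans hc1)]
      rw [if_pos hc1.le, Finset.sum_congr rfl (fun b _ => e1 b)]
      cases hcb : c' b
      · by_cases hD : (H41.FZ.blk c c' false σ).card < D
        · refine H41.FZ.prodF_margR_eq σ b ?_
          rw [hcb]
          exact locF.margR _ (fun e he => (H41.FZ.mem_blk.1 he).2)
            (IsM.mono hσ H41.FZ.blk_subset) hD b hcb (hb.subset H41.FZ.blk_subset)
        · have ht : (H41.FZ.blk c c' true σ).card < t := by
            have := hcards σ; omega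
          rw [H41.FZ.prodF_eq_zero σ true (hsmall σ ht)]
          refine Finset.sum_eq_zero fun a _ => ?_
          refine H41.FZ.prodF_eq_zero _ true ?_
          rw [H41.FZ.blk_insert_ne (by rw [hcb]; simp)]
          exact hsmall σ ht
      · refine H41.FZ.prodF_margR_eq σ b ?_
        rw [hcb]
        refine locT.margR _ (fun e he => (H41.FZ.mem_blk.1 he).2)
            (IsM.mono hσ H41.FZ.blk_subset) ?_ b hcb (hb.subset H41.FZ.blk_subset)
        have := hcards σ
        omega
  · intro σ hσ
    beta_reduce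
    rw [if_pos (hσ.trans (Nat.le_add_right _ _))]
    constructor
    · intro hσt
      by_cases hall : ∀ e ∈ σ, c e.1 = true ∧ c' e.2 = true
      · have hb1 : H41.FZ.blk c c' true σ = σ := by
          ext e
          rw [H41.FZ.mem_blk]
          exact ⟨fun h => h.1, fun h => ⟨h, hall e h⟩⟩
        have hb2 : H41.FZ.blk c c' false σ = ∅ := by
          ext e
          rw [H41.FZ.mem_blk]
          constructor
          · rintro ⟨h2, h3, -⟩
            rw [(hall e h2).1] at h3
            exact absurd h3 (by simp)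
          · intro h2
            simp at h2
        have hGood : H41.FZ.Good c c' σ := fun e he => by rw [(hall e he).1, (hall e he).2]
        unfold H41.FZ.prodF
        rw [if_pos hGood, Fintype.prod_bool, hb1, hb2, hmass σ hall]
        change mass nu σ * h (H41.FZ.pull wX wY ∅) = mass nu σ
        rw [H41.FZ.pull_empty, h1, mul_one]
      · have h2 : mass nu σ = 0 := by
          unfold mass
          refine Finset.sum_eq_zero fun g _ => ?_
          rw [if_neg]
          intro hsub
          apply hall
          intro e he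
          have := (mem_gr g e).1 (hsub he)
          obtain ⟨x, hx, hy⟩ := this
          exact ⟨(rX _).2 ⟨x, hx⟩, (rY _).2 ⟨g x, hy⟩⟩
        rw [h2]
        refine H41.FZ.prodF_eq_zero σ true (hsmall σ ?_)
        rw [← hσt]
        apply Finset.card_lt_card
        refine ⟨H41.FZ.blk_subset, fun hsub => hall fun e he => (H41.FZ.mem_blk.1 (hsub he)).2⟩
    · intro hσt
      refine H41.FZ.prodF_eq_zero σ true (hsmall σ ?_)
      exact lt_of_le_of_lt (Finset.card_le_card H41.FZ.blk_subset) (lt_of_le_of_ne hσ hσt)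

end Pool.Agent.Helper81.FZ
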