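import Pool.Agent.Helper81.FZ.Basic

set_option autoImplicit false

namespace Pool.Agent.Helper81.FZ

open Finset

universe u v

section Null

variable {α : Type u} {β : Type v} [Fintype α] [Fintype β] [DecidableEq α] [DecidableEq β]
variable {K : Type*} [AddCommGroup K]

/-- functions supported on matchings of size `s` with zero marginals -/
structure NMp14 (s : ℕ) (F : Finset (α × β) → K) : Prop where
  supp : ∀ σ, F σ ≠ 0 → IsM σ ∧ σ.card = s
  margA : ∀ σ : Finset (α × β), IsM σ → σ.card + 1 = s → ∀ a, (∀ b, (a, b) ∉ σ) →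
    ∑ b, F (insert (a, b) σ) = 0
  margB : ∀ σ : Finset (α × β), IsM σ → σ.card + 1 = s → ∀ b, (∀ a, (a, b) ∉ σ) →
    ∑ a, F (insert (a, b) σ) = 0

/-- holes covered -/
def hol14 (σ : Finset (α × β)) : Finset β := σ.image Prod.snd
/-- pigeons covered -/
def pig14 (σ : Finset (α × β)) : Finset α := σ.image Prod.fst

omit [Fintype α] [Fintype β] [DecidableEq α] in
theorem mem_hol14 {σ : Finset (α × β)} {b : β} : b ∈ hol14 σ ↔ ∃ a, (a, b) ∈ σ := by
  simp [hol14]

omit [Fintype α] [Fintype β] [DecidableEq β] in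
theorem mem_pig14 {σ : Finset (α × β)} {a : α} : a ∈ pig14 σ ↔ ∃ b, (a, b) ∈ σ := by
  simp [pig14]

omit [Fintype α] [Fintype β] [DecidableEq α] [DecidableEq β] in
theorem IsM.eqA14 {σ : Finset (α × β)} (h : IsM σ) {a a' : α} {b : β} (h1 : (a, b) ∈ σ)
    (h2 : (a', b) ∈ σ) : a = a' := by
  have := h _ h1 _ h2 (Or.inr rfl)
  simpa using this

omit [Fintype α] [Fintype β] [DecidableEq α] [DecidableEq β] in
theorem IsM.eqB14 {σ : Finset (α × β)} (h : IsM σ) {a : α} {b b' : β} (h1 : (a, b) ∈ σ)
    (h2 : (a, b') ∈ σ) : b = b' := by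
  have := h _ h1 _ h2 (Or.inl rfl)
  simpa using this

omit [Fintype α] [Fintype β] [DecidableEq α] in
theorem IsM.card_hol14 {σ : Finset (α × β)} (h : IsM σ) : (hol14 σ).card = σ.card :=
  Finset.card_image_of_injOn (fun e he e' he' hee => h e he e' he' (Or.inr hee))

omit [Fintype α] [Fintype β] [DecidableEq β] in
theorem IsM.card_pig14 {σ : Finset (α × β)} (h : IsM σ) : (pig14 σ).card = σ.card :=
  Finset.card_image_of_injOn (fun e he e' he' hee => h e he e' he' (Or.inl hee))

omit [Fintype α] [Fintype β] [DecidableEq α] in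
theorem insert_filter_hole14 {σ : Finset (α × β)} (h : IsM σ) {a : α} {b : β} [DecidableEq (α × β)]
    (hab : (a, b) ∈ σ) : insert (a, b) (σ.filter (fun e => e.2 ≠ b)) = σ := by
  ext e
  simp only [mem_insert, mem_filter]
  constructor
  · rintro (rfl | h)
    · exact hab
    · exact h.1
  · intro he
    by_cases hb : e.2 = b
    · left
      exact h _ he _ hab (Or.inr hb)
    · right
      exact ⟨he, hb⟩

open Classical in
/-- The null identity. -/
theorem null_identity14 (s : ℕ) (F : Finset (α × β) → K) (hF : NMp14 s F) (H : Finset β)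
    (hH : H.card = s) :
    ∀ (Y : Finset α) (γ : Finset (α × β)), Y.card + γ.card < s →
      ∑ σ ∈ (univ : Finset (Finset (α × β))).filter
        (fun σ => IsM σ ∧ γ ⊆ σ ∧ hol14 σ = H ∧ ∀ y ∈ Y, y ∉ pig14 σ), F σ = 0 := by
  intro Y
  induction Y using Finset.induction_on with
  | empty =>
    intro γ hγ
    -- a hole of `H` not covered by `γ`
    have hlt : (hol14 γ).card < H.card := by
      have : (hol14 γ).card ≤ γ.card := card_image_le
      simp only [card_empty, zero_add] at hγ
      omega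
    obtain ⟨b, hbH, hbγ⟩ : ∃ b ∈ H, b ∉ hol14 γ := by
      by_contra hcon
      push Not at hcon
      exact absurd (card_le_card hcon) (by omega)
    set 𝒮 := (univ : Finset (Finset (α × β))).filter
        (fun σ => IsM σ ∧ γ ⊆ σ ∧ hol14 σ = H ∧ ∀ y ∈ (∅ : Finset α), y ∉ pig14 σ) with h𝒮
    set g : Finset (α × β) → Finset (α × β) := fun σ => σ.filter (fun e => e.2 ≠ b) with hg
    rw [← Finset.sum_fiberwise_of_maps_to (g := g) (t := 𝒮.image g)
      (fun σ hσ => mem_image_of_mem g hσ)]
    apply Finset.sum_eq_zero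
    intro τ hτ
    obtain ⟨σ0, hσ0, rfl⟩ := mem_image.mp hτ
    have h0 := (mem_filter.mp hσ0).2
    obtain ⟨hM0, hγ0, hH0, -⟩ := h0
    set τ := g σ0 with hτdef
    have hτM : IsM τ := hM0.mono (filter_subset _ _)
    have hτfree : ∀ a, (a, b) ∉ τ := by
      intro a ha
      exact (mem_filter.mp ha).2 rfl
    have hγτ : γ ⊆ τ := by
      intro e he
      refine mem_filter.mpr ⟨hγ0 he, ?_⟩
      intro hb
      apply hbγ
      rw [mem_hol14]
      exact ⟨e.1, by rw [← hb]; exact he⟩
    obtain ⟨a0, ha0⟩ : ∃ a0, (a0, b) ∈ σ0 := by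
      rw [← mem_hol14, hH0]; exact hbH
    have hins0 : insert (a0, b) τ = σ0 := insert_filter_hole14 hM0 ha0
    have hcard : τ.card + 1 = s := by
      have h1 : σ0.card = s := by rw [← hM0.card_hol14, hH0, hH]
      rw [← hins0, card_insert_of_notMem (hτfree a0)] at h1
      exact h1
    have hholτ : insert b (hol14 τ) = H := by
      rw [← hH0, ← hins0]
      simp [hol14, image_insert]
    rw [← hF.margB τ hτM hcard b hτfree]
    -- the sum over the fibre is the sum over the partner of `b`
    have key : ∑ a, F (insert (a, b) τ)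
        = ∑ a ∈ univ.filter (fun a => IsM (insert (a, b) τ)), F (insert (a, b) τ) := by
      rw [Finset.sum_filter]
      apply Finset.sum_congr rfl
      intro a _
      split_ifs with h
      · rfl
      · by_contra hne
        exact h (hF.supp _ hne).1
    rw [key]
    symm
    apply Finset.sum_bij (fun a _ => insert (a, b) τ)
    · intro a ha
      have haM := (mem_filter.mp ha).2
      simp only [h𝒮, mem_filter, mem_univ, true_and]
      refine ⟨⟨haM, ?_, ?_, ?_⟩, ?_⟩
      · exact hγτ.trans (subset_insert _ _)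
      · rw [← hholτ]; simp [hol14, image_insert]
      · intro y hy; exact absurd hy (notMem_empty y)
      · rw [hg]
        ext e
        simp only [mem_filter, mem_insert]
        constructor
        · rintro ⟨rfl | h, h2⟩
          · exact absurd rfl h2
          · exact h
        · intro he
          refine ⟨Or.inr he, ?_⟩
          intro h2
          exact hτfree e.1 (by rw [← h2]; exact he)
    · intro a ha a' ha' heq
      have haM := (mem_filter.mp ha').2
      have h1 : (a, b) ∈ insert (a', b) τ := by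
        rw [← heq]; exact mem_insert_self _ _
      exact haM.eqA14 h1 (mem_insert_self _ _)
    · intro σ hσ
      simp only [h𝒮, mem_filter, mem_univ, true_and] at hσ
      obtain ⟨⟨hM, hγσ, hHσ, -⟩, hgσ⟩ := hσ
      obtain ⟨a, ha⟩ : ∃ a, (a, b) ∈ σ := by
        rw [← mem_hol14, hHσ]; exact hbH
      have : insert (a, b) τ = σ := by
        rw [← hgσ]; exact insert_filter_hole14 hM ha
      refine ⟨a, ?_, this⟩
      simp only [mem_filter, mem_univ, true_and]
      rw [this]; exact hM
    · intro a ha; rfl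
  | insert y Y hy ih =>
    intro γ hγ
    rw [card_insert_of_notMem hy] at hγ
    by_cases hyγ : y ∈ pig14 γ
    · -- empty sum
      apply Finset.sum_eq_zero
      intro σ hσ
      simp only [mem_filter, mem_univ, true_and] at hσ
      obtain ⟨hM, hγσ, hHσ, hY⟩ := hσ
      exfalso
      apply hY y (mem_insert_self _ _)
      rw [mem_pig14] at hyγ ⊢
      obtain ⟨b, hb⟩ := hyγ
      exact ⟨b, hγσ hb⟩
    · have h1 := ih γ (by omega)
      rw [← Finset.sum_filter_add_sum_filter_not _ (fun σ => y ∉ pig14 σ)] at h1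
      have e1 : (univ.filter (fun σ : Finset (α × β) =>
          IsM σ ∧ γ ⊆ σ ∧ hol14 σ = H ∧ ∀ y ∈ Y, y ∉ pig14 σ)).filter (fun σ => y ∉ pig14 σ)
          = univ.filter (fun σ : Finset (α × β) =>
          IsM σ ∧ γ ⊆ σ ∧ hol14 σ = H ∧ ∀ y' ∈ insert y Y, y' ∉ pig14 σ) := by
        ext σ
        simp only [mem_filter, mem_univ, true_and, mem_insert, forall_eq_or_imp]
        tauto
      rw [e1] at h1
      have e2 : ∑ σ ∈ (univ.filter (fun σ : Finset (α × β) =>
          IsM σ ∧ γ ⊆ σ ∧ hol14 σ = H ∧ ∀ y ∈ Y, y ∉ pig14 σ)).filter (fun σ => ¬ y ∉ pig14 σ), F σ = 0 := by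
        have e3 : (univ.filter (fun σ : Finset (α × β) =>
          IsM σ ∧ γ ⊆ σ ∧ hol14 σ = H ∧ ∀ y ∈ Y, y ∉ pig14 σ)).filter (fun σ => ¬ y ∉ pig14 σ)
          = (univ : Finset β).biUnion (fun b => univ.filter (fun σ : Finset (α × β) =>
          IsM σ ∧ insert (y, b) γ ⊆ σ ∧ hol14 σ = H ∧ ∀ y ∈ Y, y ∉ pig14 σ)) := by
          ext σ
          simp only [mem_filter, mem_univ, true_and, mem_biUnion, not_not, mem_pig14,
            insert_subset_iff]
          constructor
          · rintro ⟨⟨h1, h2, h3, h4⟩, b, hb⟩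
            exact ⟨b, h1, ⟨hb, h2⟩, h3, h4⟩
          · rintro ⟨b, h1, ⟨hb, h2⟩, h3, h4⟩
            exact ⟨⟨h1, h2, h3, h4⟩, b, hb⟩
        rw [e3, Finset.sum_biUnion]
        · apply Finset.sum_eq_zero
          intro b _
          apply ih
          rw [card_insert_of_notMem]
          · omega
          · intro hmem
            exact hyγ (mem_pig14.mpr ⟨b, hmem⟩)
        · intro b _ b' _ hbb'
          rw [Function.onFun, Finset.disjoint_left]
          intro σ hσ hσ'
          simp only [mem_filter, mem_univ, true_and, insert_subset_iff] at hσ hσ'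
          exact hbb' (hσ.1.eqB14 hσ.2.1.1 hσ'.2.1.1)
      rw [e2, add_zero] at h1
      exact h1

end Null


variable {α : Type u} {β : Type v} [Fintype α] [Fintype β]

theorem NM_NMp14 [DecidableEq α] [DecidableEq β] {K : Type*} [Field K] {s : ℕ}
    {F : Finset (α × β) → K} (hF : F ∈ NM K α β s) : NMp14 s F := by
  classical
  obtain ⟨⟨h1, h2⟩, h3⟩ := hF
  have hsupp : ∀ σ, F σ ≠ 0 → IsM σ ∧ σ.card = s := by
    intro σ hσ
    have h4 : IsM σ ∧ σ.card ≤ s := by
      by_contra hcon
      exact hσ (h1 σ hcon)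
    have h5 : ¬ σ.card < s := fun h => hσ (h3 σ h)
    exact ⟨h4.1, by omega⟩
  refine ⟨hsupp, ?_, ?_⟩
  · intro σ hM hc a ha
    have h4 := (h2 σ hM (by omega)).1 a (fun e he hea => ha e.2 (by rw [← hea]; exact he))
    rw [h3 σ (by omega)] at h4
    rw [← h4]
    rw [Finset.sum_filter]
    apply Finset.sum_congr rfl
    intro b _
    split_ifs with hb
    · congr 1
      ext e; simp
    · by_contra hne
      obtain ⟨h5, -⟩ := hsupp _ hne
      apply hb
      intro e he heb
      have h6 : e = (a, b) := h5 e (mem_insert_of_mem he) (a, b) (mem_insert_self _ _) (Or.inr heb)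
      exact ha b (by rw [← h6]; exact he)
  · intro σ hM hc b hb
    have h4 := (h2 σ hM (by omega)).2 b (fun e he hea => hb e.1 (by rw [← hea]; exact he))
    rw [h3 σ (by omega)] at h4
    rw [← h4]
    rw [Finset.sum_filter]
    apply Finset.sum_congr rfl
    intro a _
    split_ifs with ha
    · congr 1
      ext e; simp
    · by_contra hne
      obtain ⟨h5, -⟩ := hsupp _ hne
      apply ha
      intro e he hea
      have h6 : e = (a, b) := h5 e (mem_insert_of_mem he) (a, b) (mem_insert_self _ _) (Or.inl hea)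
      exact hb a (by rw [← h6]; exact he)

omit [Fintype α] [Fintype β] in
theorem not_FrA_iff14 [DecidableEq α] {σ : Finset (α × β)} {a : α} : ¬ FrA σ a ↔ a ∈ pig14 σ := by
  rw [mem_pig14]
  unfold FrA
  push Not
  constructor
  · rintro ⟨e, he, rfl⟩
    exact ⟨e.2, he⟩
  · rintro ⟨b, hb⟩
    exact ⟨(a, b), hb, rfl⟩

omit [Fintype α] [Fintype β] in
theorem not_FrB_iff14 [DecidableEq β] {σ : Finset (α × β)} {b : β} : ¬ FrB σ b ↔ b ∈ hol14 σ := by
  rw [mem_hol14]
  unfold FrB
  push Not
  constructor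
  · rintro ⟨e, he, rfl⟩
    exact ⟨e.1, he⟩
  · rintro ⟨a, hb⟩
    exact ⟨(a, b), hb, rfl⟩

open Classical in
/-- null identity: the holes of `S` are matched to free pigeons outside `Y`, `|Y| < |S|` -/
theorem null_id (K : Type*) [Field K] (s : ℕ) (F : Finset (α × β) → K) (hF : F ∈ NM K α β s)
    (γ : Finset (α × β)) (hγ : IsM γ) (S : Finset β) (Y : Finset α) (hS : ∀ b ∈ S, FrB γ b)
    (hY : ∀ a ∈ Y, FrA γ a) (hYS : Y.card < S.card) (hs : γ.card + S.card = s) :
    ∑ σ with (IsM σ ∧ γ ⊆ σ ∧ (∀ e ∈ σ, e ∉ γ → e.2 ∈ S ∧ e.1 ∉ Y) ∧ ∀ b ∈ S, ¬ FrB σ b),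
      F σ = 0 := by
  have hdis : Disjoint (hol14 γ) S := by
    rw [Finset.disjoint_left]
    intro b hb hbS
    exact (not_FrB_iff14.mpr hb) (hS b hbS)
  have hcard : (hol14 γ ∪ S).card = s := by
    rw [card_union_of_disjoint hdis, hγ.card_hol14, hs]
  rw [← null_identity14 s F (NM_NMp14 hF) (hol14 γ ∪ S) hcard Y γ (by omega)]
  apply Finset.sum_congr _ (fun _ _ => rfl)
  ext σ
  simp only [mem_filter, mem_univ, true_and]
  constructor
  · rintro ⟨h1, h2, h3, h4⟩
    refine ⟨h1, h2, ?_, ?_⟩
    · ext b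
      rw [mem_union]
      constructor
      · intro hb
        obtain ⟨a, ha⟩ := mem_hol14.mp hb
        by_cases hg : (a, b) ∈ γ
        · left; exact mem_hol14.mpr ⟨a, hg⟩
        · right; exact (h3 _ ha hg).1
      · rintro (hb | hb)
        · obtain ⟨a, ha⟩ := mem_hol14.mp hb
          exact mem_hol14.mpr ⟨a, h2 ha⟩
        · exact not_FrB_iff14.mp (h4 b hb)
    · intro y hy hyp
      obtain ⟨b, hb⟩ := mem_pig14.mp hyp
      by_cases hg : (y, b) ∈ γ
      · exact hY y hy _ hg rfl
      · exact (h3 _ hb hg).2 hy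
  · rintro ⟨h1, h2, h3, h4⟩
    refine ⟨h1, h2, ?_, ?_⟩
    · intro e he heγ
      constructor
      · have h5 : e.2 ∈ hol14 σ := mem_hol14.mpr ⟨e.1, he⟩
        rw [h3, mem_union] at h5
        rcases h5 with h5 | h5
        · exfalso
          obtain ⟨a, ha⟩ := mem_hol14.mp h5
          have h6 : e = (a, e.2) := h1 e he _ (h2 ha) (Or.inr rfl)
          exact heγ (by rw [h6]; exact ha)
        · exact h5
      · intro hy
        exact h4 e.1 hy (mem_pig14.mpr ⟨e.2, he⟩)
    · intro b hb
      rw [not_FrB_iff14, h3, mem_union]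
      right; exact hb

end Pool.Agent.Helper81.FZ
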