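import Pool.Agent.Helper81.FZ.StepDefs
import Pool.Agent.Helper81.FZ.NullId

/-!
Induced words, the weight comparison and supports (tools for the straightening steps).
-/

set_option autoImplicit false
set_option linter.unusedSectionVars false

namespace Pool.Agent.Helper81.FZ

open Finset

universe u v

variable {α : Type u} {β : Type v} [Fintype α] [Fintype β]

open Classical in
/-- the word on the pigeons induced by a word on the holes and a matching -/
noncomputable def ind14 (s : β → ℕ) (σ : Finset (α × β)) (a : α) : ℕ :=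
  ∑ b with (a, b) ∈ σ, s b

/-- support of a word -/
def sup14 (s : β → ℕ) : Finset β := univ.filter (fun b => 1 ≤ s b)

theorem mem_sup14 {s : β → ℕ} {b : β} : b ∈ sup14 s ↔ 1 ≤ s b := by simp [sup14]

theorem ind14_of_mem {s : β → ℕ} {σ : Finset (α × β)} (h : IsM σ) {a : α} {b : β}
    (hab : (a, b) ∈ σ) : ind14 s σ a = s b := by
  classical
  unfold ind14
  have : (univ.filter fun b' => (a, b') ∈ σ) = {b} := by
    ext b'
    simp only [mem_filter, mem_univ, true_and, mem_singleton]
    constructor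
    · intro h'; exact h.eqB14 h' hab
    · rintro rfl; exact hab
  rw [this, sum_singleton]

theorem ind14_of_notMem {s : β → ℕ} {σ : Finset (α × β)} {a : α}
    (ha : ∀ b, (a, b) ∉ σ) : ind14 s σ a = 0 := by
  classical
  unfold ind14
  apply Finset.sum_eq_zero
  intro b hb
  exact absurd (mem_filter.mp hb).2 (ha b)

theorem RM_iff14 [DecidableEq β] {rA : α → ℕ} {rB : β → ℕ} {σ : Finset (α × β)} :
    RM rA rB σ ↔ IsM σ ∧ hol14 σ = sup14 rB ∧ ind14 rB σ = rA := by
  classical
  constructor
  · rintro ⟨h1, h2, h3, h4⟩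
    refine ⟨h1, ?_, ?_⟩
    · ext b
      rw [mem_sup14, mem_hol14]
      constructor
      · rintro ⟨a, ha⟩
        obtain ⟨h5, h6⟩ := h2 _ ha
        simp only at h5 h6
        omega
      · intro hb
        have := h4 b hb
        rw [not_FrB_iff14, mem_hol14] at this
        exact this
    · funext a
      by_cases ha : a ∈ pig14 σ
      · obtain ⟨b, hb⟩ := mem_pig14.mp ha
        rw [ind14_of_mem h1 hb]
        exact (h2 _ hb).1.symm
      · rw [ind14_of_notMem (fun b hb => ha (mem_pig14.mpr ⟨b, hb⟩))]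
        by_contra hne
        apply ha
        rw [← not_FrA_iff14]
        apply h3
        omega
  · rintro ⟨h1, h2, h3⟩
    refine ⟨h1, ?_, ?_, ?_⟩
    · intro e he
      have h4 : ind14 rB σ e.1 = rB e.2 := ind14_of_mem h1 he
      rw [h3] at h4
      refine ⟨h4, ?_⟩
      rw [h4, ← mem_sup14 (s := rB), ← h2, mem_hol14]
      exact ⟨e.1, he⟩
    · intro a ha
      rw [not_FrA_iff14]
      by_contra hne
      have := ind14_of_notMem (s := rB) (σ := σ) (a := a)
        (fun b hb => hne (mem_pig14.mpr ⟨b, hb⟩))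
      rw [h3] at this
      omega
    · intro b hb
      rw [not_FrB_iff14, h2, mem_sup14]
      exact hb

open Classical in
/-- sum of `ev` over a finite set of words -/
theorem sum_ev14 {K : Type*} [Field K] (F : Finset (α × β) → K) (rB : β → ℕ)
    (R : Finset (α → ℕ)) :
    ∑ r' ∈ R, ev r' rB F
      = ∑ σ with (IsM σ ∧ hol14 σ = sup14 rB ∧ ind14 rB σ ∈ R), F σ := by
  rw [← Finset.sum_fiberwise_of_maps_to (s := univ.filter
    (fun σ : Finset (α × β) => IsM σ ∧ hol14 σ = sup14 rB ∧ ind14 rB σ ∈ R)) (t := R)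
    (g := fun σ => ind14 rB σ) (fun σ hσ => (mem_filter.mp hσ).2.2.2)]
  apply Finset.sum_congr rfl
  intro r' hr'
  unfold ev
  apply Finset.sum_congr _ (fun _ _ => rfl)
  ext σ
  simp only [mem_filter, mem_univ, true_and]
  rw [RM_iff14]
  constructor
  · rintro ⟨h1, h2, h3⟩
    exact ⟨⟨h1, h2, by rw [h3]; exact hr'⟩, h3⟩
  · rintro ⟨⟨h1, h2, -⟩, h3⟩
    exact ⟨h1, h2, h3⟩

/-- a non-vanishing `ev` gives a row matching in the support -/
theorem exists_of_ev_ne14 {K : Type*} [Field K] {F : Finset (α × β) → K} {rA : α → ℕ}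
    {rB : β → ℕ} (h : ev rA rB F ≠ 0) : ∃ σ, RM rA rB σ ∧ F σ ≠ 0 := by
  classical
  unfold ev at h
  obtain ⟨σ, hσ, hne⟩ := Finset.exists_ne_zero_of_sum_ne_zero h
  exact ⟨σ, (mem_filter.mp hσ).2, hne⟩

/-- row matchings transport the counts -/
theorem RM_cnt14 {rA : α → ℕ} {rB : β → ℕ} {σ : Finset (α × β)} (h : RM rA rB σ) (j : ℕ)
    (hj : 1 ≤ j) : cnt rA j = cnt rB j := by
  classical
  obtain ⟨h1, h2, h3, h4⟩ := h
  have hA : (univ.filter fun a => rA a = j) = pig14 (σ.filter fun e => rA e.1 = j) := by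
    ext a
    simp only [mem_filter, mem_univ, true_and, mem_pig14]
    constructor
    · intro ha
      have := h3 a (by omega)
      rw [not_FrA_iff14, mem_pig14] at this
      obtain ⟨b, hb⟩ := this
      exact ⟨b, hb, ha⟩
    · rintro ⟨b, hb, ha⟩; exact ha
  have hB : (univ.filter fun b => rB b = j) = hol14 (σ.filter fun e => rA e.1 = j) := by
    ext b
    simp only [mem_filter, mem_univ, true_and, mem_hol14]
    constructor
    · intro hb
      have := h4 b (by omega)
      rw [not_FrB_iff14, mem_hol14] at this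
      obtain ⟨a, ha⟩ := this
      exact ⟨a, ha, by rw [(h2 _ ha).1]; exact hb⟩
    · rintro ⟨a, ha, hb⟩
      rw [← (h2 _ ha).1]; exact hb
  have hM : IsM (σ.filter fun e => rA e.1 = j) := h1.mono (filter_subset _ _)
  have e1 : cnt rA j = (univ.filter fun a => rA a = j).card := by
    unfold cnt; congr
  have e2 : cnt rB j = (univ.filter fun a => rB a = j).card := by
    unfold cnt; congr
  rw [e1, e2, hA, hB, hM.card_pig14, hM.card_hol14]

theorem RM_pig14 [DecidableEq α] {rA : α → ℕ} {rB : β → ℕ} {σ : Finset (α × β)}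
    (h : RM rA rB σ) : pig14 σ = sup14 rA := by
  ext a
  rw [mem_sup14]
  constructor
  · intro ha
    obtain ⟨b, hb⟩ := mem_pig14.mp ha
    exact (h.2.1 _ hb).2
  · intro ha
    rw [← not_FrA_iff14]
    exact h.2.2.1 a ha

omit [Fintype β] in
theorem cnt_eq14 (r : α → ℕ) (j : ℕ) :
    cnt r j = (univ.filter fun a => r a = j).card := by
  unfold cnt; congr

theorem card_sup14 (r : α → ℕ) : cnt r 0 + (sup14 r).card = Fintype.card α := by
  rw [cnt_eq14, sup14, ← Finset.card_univ (α := α),
    ← Finset.card_filter_add_card_filter_not (s := (univ : Finset α)) (fun a => r a = 0)]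
  congr 2
  ext a
  simp only [mem_filter, mem_univ, true_and]
  omega

theorem map_eq_of_cnt14 {r r' : α → ℕ} (h : ∀ j, cnt r' j = cnt r j) :
    (univ.val.map r' : Multiset ℕ) = univ.val.map r := by
  classical
  ext j
  have := h j
  rw [cnt_eq14, cnt_eq14] at this
  rw [Multiset.count_map, Multiset.count_map]
  have e1 : ∀ r : α → ℕ, (Multiset.filter (fun a => j = r a) (univ : Finset α).val).card
      = (univ.filter fun a => r a = j).card := by
    intro r
    rw [← Finset.filter_val, Finset.card_val]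
    congr 1
    ext a
    simp [eq_comm]
  rw [e1, e1, this]

theorem sum_eq_of_cnt14 {r r' : α → ℕ} (h : ∀ j, cnt r' j = cnt r j) :
    ∑ a, r' a = ∑ a, r a := by
  exact congrArg Multiset.sum (map_eq_of_cnt14 h)

/-- weight comparison -/
theorem wt_lt14 {m : ℕ} {r r' : Fin m → ℕ} (h : ∀ j, cnt r' j = cnt r j) (k : ℕ)
    (h1 : ∀ a : Fin m, (a : ℕ) < k → r' a ≤ r a) (h2 : ∀ a : Fin m, k ≤ (a : ℕ) → r a ≤ r' a)
    (hne : r' ≠ r) : wt r < wt r' := by
  have hsum := sum_eq_of_cnt14 h
  have hz : ∑ a : Fin m, ((r' a : ℤ) - r a) = 0 := by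
    rw [Finset.sum_sub_distrib]
    have : (∑ a, (r' a : ℤ)) = ∑ a, (r a : ℤ) := by exact_mod_cast hsum
    omega
  have hkey : ((wt r' : ℤ) - wt r) = ∑ a : Fin m, ((a : ℤ) - k) * ((r' a : ℤ) - r a) := by
    have : ∑ a : Fin m, ((a : ℤ) - k) * ((r' a : ℤ) - r a)
        = (∑ a : Fin m, (a : ℤ) * ((r' a : ℤ) - r a)) - k * ∑ a : Fin m, ((r' a : ℤ) - r a) := by
      rw [Finset.mul_sum, ← Finset.sum_sub_distrib]
      apply Finset.sum_congr rfl
      intro a _
      ring
    rw [this, hz]
    simp only [wt]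
    push_cast
    rw [mul_zero, sub_zero, ← Finset.sum_sub_distrib]
    apply Finset.sum_congr rfl
    intro a _
    ring
  have hnonneg : ∀ a : Fin m, 0 ≤ ((a : ℤ) - k) * ((r' a : ℤ) - r a) := by
    intro a
    by_cases ha : (a : ℕ) < k
    · have := h1 a ha
      nlinarith [mul_nonneg (show (0:ℤ) ≤ k - a by omega) (show (0:ℤ) ≤ (r a : ℤ) - r' a by omega)]
    · have := h2 a (by omega)
      exact mul_nonneg (by omega) (by omega)
  by_contra hcon
  have hle : (wt r' : ℤ) - wt r ≤ 0 := by omega
  have hzero : ∑ a : Fin m, ((a : ℤ) - k) * ((r' a : ℤ) - r a) = 0 :=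
    le_antisymm (by rw [← hkey]; exact hle) (Finset.sum_nonneg (fun a _ => hnonneg a))
  rw [Finset.sum_eq_zero_iff_of_nonneg (fun a _ => hnonneg a)] at hzero
  -- all differences vanish away from `k`
  have hoff : ∀ a : Fin m, (a : ℕ) ≠ k → r' a = r a := by
    intro a ha
    have h3 := hzero a (mem_univ _)
    rcases mul_eq_zero.mp h3 with h4 | h4
    · omega
    · omega
  apply hne
  funext a
  by_cases ha : (a : ℕ) = k
  · have h5 : ∑ b : Fin m, ((r' b : ℤ) - r b) = (r' a : ℤ) - r a := by
      apply Finset.sum_eq_single a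
      · intro b _ hb
        have : (b : ℕ) ≠ k := by
          intro hbk
          apply hb
          apply Fin.ext
          omega
        rw [hoff b this]; ring
      · intro h; exact absurd (mem_univ a) h
    rw [hz] at h5
    omega
  · exact hoff a ha

end Pool.Agent.Helper81.FZ
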