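import Mathlib

set_option autoImplicit false

namespace Pool.Agent.Helper81.FZ

open Finset

/-- last passage values with boundary values `I` (bottom axis) and `J` (left axis) -/
def LP (ω : ℕ → ℕ → ℕ) (I J : ℕ → ℕ) : ℕ → ℕ → ℕ
  | 0, 0 => 0
  | i + 1, 0 => LP ω I J i 0 + I i
  | 0, j + 1 => LP ω I J 0 j + J j
  | i + 1, j + 1 => max (max (LP ω I J i (j + 1)) (LP ω I J (i + 1) j)) (LP ω I J i j + ω i j)
termination_by i j => i + j

/-- strict chains -/
def SChain (S : Finset (ℕ × ℕ)) : Prop :=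
  ∀ x ∈ S, ∀ y ∈ S, x ≠ y → (x.1 < y.1 ∧ x.2 < y.2) ∨ (y.1 < x.1 ∧ y.2 < x.2)

open Classical in
/-- length of the longest strict chain in a finite set of cells -/
noncomputable def L0 (Z : Finset (ℕ × ℕ)) : ℕ := (Z.powerset.filter SChain).sup Finset.card

/-- expectation over a random subset of `C`, each element with probability `x` -/
noncomputable def EB {ι : Type*} (x : ℝ) (C : Finset ι) (φ : Finset ι → ℝ) : ℝ :=
  ∑ Z ∈ C.powerset, x ^ Z.card * (1 - x) ^ (C.card - Z.card) * φ Z

open Classical in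
/-- indicator functions as natural numbers -/
noncomputable def ind1 (Z : Finset ℕ) (i : ℕ) : ℕ := if i ∈ Z then 1 else 0

open Classical in
noncomputable def ind2 (Z : Finset (ℕ × ℕ)) (i j : ℕ) : ℕ := if (i, j) ∈ Z then 1 else 0

end Pool.Agent.Helper81.FZ
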