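import Pool.Agent.Helper81.FZ.Lower
import Pool.Agent.Helper81.FZ.Host
import Pool.Agent.Helper81.FZ.DesC

set_option autoImplicit false

namespace Pool.Agent.Helper81.FZ

open Finset

private theorem cnt_total {α : Type*} [Fintype α] (r : α → ℕ) (M : ℕ) (hM : ∀ a, r a < M + 1) :
    Fintype.card α = cnt r 0 + ∑ i ∈ range M, cnt r (i + 1) := by
  classical
  have h := Finset.card_eq_sum_card_fiberwise (f := r) (s := (univ : Finset α))
    (t := range (M + 1)) (fun a _ => by simpa using hM a)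
  rw [Finset.card_univ, Finset.sum_range_succ'] at h
  rw [h, add_comm]
  have e1 : (Finset.filter (fun a => r a = 0) (univ : Finset α)).card = cnt r 0 := by
    unfold cnt
    congr 1
  have e2 : ∀ i, (Finset.filter (fun a => r a = i + 1) (univ : Finset α)).card = cnt r (i + 1) := by
    intro i
    unfold cnt
    congr 1
  rw [e1, Finset.sum_congr rfl (fun i _ => e2 i)]

private theorem std_cnt {m n s : ℕ} {rA : Fin m → ℕ} {rB : Fin n → ℕ} (h : StdPair m n s rA rB) :
    cnt rB 0 + s = n := by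
  obtain ⟨-, -, h1, h2⟩ := h
  set M := (univ.sup rA) + (univ.sup rB) with hM
  have hA : ∀ a, rA a < M + 1 := fun a => by
    have := Finset.le_sup (f := rA) (Finset.mem_univ a)
    omega
  have hB : ∀ a, rB a < M + 1 := fun a => by
    have := Finset.le_sup (f := rB) (Finset.mem_univ a)
    omega
  have e1 := cnt_total rA M hA
  have e2 := cnt_total rB M hB
  have e3 : ∑ i ∈ range M, cnt rA (i + 1) = ∑ i ∈ range M, cnt rB (i + 1) :=
    Finset.sum_congr rfl fun i _ => h1 (i + 1) (by omega)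
  simp only [Fintype.card_fin] at e1 e2
  omega

private theorem Co_inst {K : Type*} [Field K] {α β : Type*} (i1 i2 : Fintype α)
    (j1 j2 : Fintype β) (s : ℕ) (f : Finset (α × β) → K) (h : f ∈ @Co K _ α β i1 j1 s) :
    f ∈ @Co K _ α β i2 j2 s := by
  rw [Subsingleton.elim i2 i1, Subsingleton.elim j2 j1]
  exact h

private theorem card_inst {α : Type*} (i1 i2 : Fintype α) :
    @Fintype.card α i1 = @Fintype.card α i2 := by
  rw [Subsingleton.elim i1 i2]

/-- the rank of the truncation `Co_{t+B} → Co_t` -/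
theorem low_ge (p k N t : ℕ) [Fact p.Prime] :
    nSPg (N + p ^ k) N t (mk p k) ≤
      Module.finrank (ZMod p) (Submodule.map
        (trunc (ZMod p) (Fin (N + p ^ k)) (Fin N) t)
        (Co (ZMod p) (Fin (N + p ^ k)) (Fin N) (t + (2 ^ k - 1)))) := by
  classical
  obtain ⟨X, Y, nu, Fs, hcard, hnull, hF1, hF2, hlin⟩ :=
    exists_columns (ZMod p) (N + p ^ k) N t
  set V := Submodule.map (trunc (ZMod p) (Fin (N + p ^ k)) (Fin N) t)
        (Co (ZMod p) (Fin (N + p ^ k)) (Fin N) (t + (2 ^ k - 1))) with hV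
  have key : ∀ P : (Fin (N + p ^ k) → ℕ) × (Fin N → ℕ),
      StdPair (N + p ^ k) N t P.1 P.2 → cnt P.2 1 + mk p k ≤ cnt P.2 0 → Fs P ∈ V := by
    intro P hP hg
    have hc := std_cnt hP
    obtain ⟨hX, hY⟩ := hcard P hP
    obtain ⟨h, hh, h1⟩ := Des_mk p k (cnt P.2 0 - cnt P.2 1) (by omega)
    have cA : Fintype.card {a // a ∉ X P} = cnt P.2 0 - cnt P.2 1 + p ^ k := by
      rw [Fintype.card_subtype_compl (fun a => a ∈ X P)]
      simp only [Fintype.card_fin, Fintype.card_coe, hX]
      omega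
    have cB : Fintype.card {b // b ∉ Y P} = cnt P.2 0 - cnt P.2 1 := by
      rw [Fintype.card_subtype_compl (fun b => b ∈ Y P)]
      simp only [Fintype.card_fin, Fintype.card_coe, hY]
      omega
    let e : {a // a ∉ X P} ≃ Fin (cnt P.2 0 - cnt P.2 1 + p ^ k) := Fintype.equivFinOfCardEq cA
    let f : {b // b ∉ Y P} ≃ Fin (cnt P.2 0 - cnt P.2 1) := Fintype.equivFinOfCardEq cB
    have hh' := (Co_equiv (ZMod p) e f (2 ^ k - 1) h).2 hh
    obtain ⟨F, hF, hFt⟩ := host (ZMod p) (X P) (Y P) (nu P) t (2 ^ k - 1) (hnull P hP)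
      (fun σ => h (σ.map (Equiv.prodCongr e f).toEmbedding)) (Co_inst _ _ _ _ _ _ hh')
      (by simpa using h1)
    refine ⟨F, hF, ?_⟩
    funext σ
    change (if σ.card ≤ t then F σ else 0) = Fs P σ
    split_ifs with hs
    · by_cases hst : σ.card = t
      · rw [(hFt σ hs).1 hst, hF1 P σ hst]
      · rw [(hFt σ hs).2 hst, hF2 P σ hst]
    · rw [hF2 P σ (by omega)]
  have hfin := finite_StdPair (N + p ^ k) N t
  let ι := {P : (Fin (N + p ^ k) → ℕ) × (Fin N → ℕ) //
    StdPair (N + p ^ k) N t P.1 P.2 ∧ cnt P.2 1 + mk p k ≤ cnt P.2 0}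
  let j : ι → {P : (Fin (N + p ^ k) → ℕ) × (Fin N → ℕ) // StdPair (N + p ^ k) N t P.1 P.2} :=
    fun P => ⟨P.1, P.2.1⟩
  have hj : Function.Injective j := by
    intro P Q h
    apply Subtype.ext
    have := congrArg Subtype.val h
    exact this
  have : Finite ι := Finite.of_injective j hj
  have : Fintype ι := Fintype.ofFinite ι
  have hl1 : LinearIndependent (ZMod p) (fun P : ι => Fs P.1) := hlin.comp j hj
  let G : ι → V := fun P => ⟨Fs P.1, key P.1 P.2.1 P.2.2⟩
  have hl2 : LinearIndependent (ZMod p) G :=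
    LinearIndependent.of_comp V.subtype (by exact hl1)
  have := hl2.fintype_card_le_finrank
  unfold nSPg
  rw [Nat.card_eq_fintype_card]
  refine le_trans (le_of_eq ?_) this
  exact card_inst _ _

end Pool.Agent.Helper81.FZ
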