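import Pool.Agent.Helper81.FZ.Upper

set_option autoImplicit false

namespace Pool.Agent.Helper81.FZ

open Finset

namespace LowerAux

/-- column of a letter -/
def colw {n : ℕ} (r : Fin n → ℕ) (a : Fin n) : ℕ := pre r a (r a)

theorem pre_zero {n : ℕ} (r : Fin n → ℕ) (i : ℕ) : pre r 0 i = 0 := by
  simp [pre]

theorem pre_succ {n : ℕ} (r : Fin n → ℕ) (k : Fin n) (i : ℕ) :
    pre r ((k : ℕ) + 1) i = pre r k i + if r k = i then 1 else 0 := by
  classical
  unfold pre
  by_cases h : r k = i
  · have : (univ.filter fun a : Fin n => (a : ℕ) < (k : ℕ) + 1 ∧ r a = i) =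
        insert k (univ.filter fun a : Fin n => (a : ℕ) < (k : ℕ) ∧ r a = i) := by
      ext a
      simp only [mem_filter, mem_univ, true_and, mem_insert]
      constructor
      · rintro ⟨h1, h2⟩
        rcases Nat.lt_succ_iff_lt_or_eq.1 h1 with h3 | h3
        · exact Or.inr ⟨h3, h2⟩
        · exact Or.inl (Fin.ext h3)
      · rintro (h1 | ⟨h1, h2⟩)
        · subst h1; exact ⟨Nat.lt_succ_self _, h⟩
        · exact ⟨Nat.lt_succ_of_lt h1, h2⟩
    rw [this, card_insert_of_notMem (by simp), if_pos h]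
  · have : (univ.filter fun a : Fin n => (a : ℕ) < (k : ℕ) + 1 ∧ r a = i) =
        (univ.filter fun a : Fin n => (a : ℕ) < (k : ℕ) ∧ r a = i) := by
      ext a
      simp only [mem_filter, mem_univ, true_and]
      constructor
      · rintro ⟨h1, h2⟩
        rcases Nat.lt_succ_iff_lt_or_eq.1 h1 with h3 | h3
        · exact ⟨h3, h2⟩
        · exact absurd (by rw [← Fin.ext h3]; exact h2) h
      · rintro ⟨h1, h2⟩
        exact ⟨Nat.lt_succ_of_lt h1, h2⟩
    rw [this, if_neg h, Nat.add_zero]

theorem pre_mono {n : ℕ} (r : Fin n → ℕ) {k l : ℕ} (h : k ≤ l) (i : ℕ) :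
    pre r k i ≤ pre r l i := by
  apply card_le_card
  intro a
  simp only [mem_filter, mem_univ, true_and]
  rintro ⟨h1, h2⟩
  exact ⟨lt_of_lt_of_le h1 h, h2⟩

theorem pre_eq_cnt {n : ℕ} (r : Fin n → ℕ) {k : ℕ} (h : n ≤ k) (i : ℕ) :
    pre r k i = cnt r i := by
  classical
  unfold pre cnt
  congr 1
  ext a
  simp only [mem_filter, mem_univ, true_and]
  exact ⟨fun h => h.2, fun h1 => ⟨lt_of_lt_of_le a.2 h, h1⟩⟩

theorem pre_le_cnt {n : ℕ} (r : Fin n → ℕ) (k i : ℕ) : pre r k i ≤ cnt r i := by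
  rcases le_total n k with h | h
  · exact (pre_eq_cnt r h i).le
  · exact (pre_mono r h i).trans (pre_eq_cnt r le_rfl i).le

theorem exists_cell {n : ℕ} (r : Fin n → ℕ) (i c : ℕ) :
    ∀ k : ℕ, c < pre r k i → ∃ a : Fin n, (a : ℕ) < k ∧ r a = i ∧ pre r a i = c := by
  intro k
  induction k with
  | zero => intro h; rw [pre_zero] at h; omega
  | succ k ih =>
    intro h
    by_cases h1 : c < pre r k i
    · obtain ⟨a, h2, h3⟩ := ih h1
      exact ⟨a, Nat.lt_succ_of_lt h2, h3⟩
    · by_cases hk : k < n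
      · have h2 := pre_succ r ⟨k, hk⟩ i
        simp only at h2
        rw [h2] at h
        by_cases h3 : r ⟨k, hk⟩ = i
        · rw [if_pos h3] at h
          exact ⟨⟨k, hk⟩, Nat.lt_succ_self _, h3, by simp only; omega⟩
        · rw [if_neg h3] at h
          omega
      · rw [pre_eq_cnt r (by omega)] at h h1
        omega

theorem pre_lt {n : ℕ} (r : Fin n → ℕ) {a b : Fin n} (h : a < b) :
    pre r a (r a) < pre r b (r a) := by
  have h1 := pre_succ r a (r a)
  rw [if_pos rfl] at h1
  have h2 := pre_mono r (show (a : ℕ) + 1 ≤ (b : ℕ) from h) (r a)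
  omega

theorem colw_lt_cnt {n : ℕ} (r : Fin n → ℕ) (a : Fin n) : colw r a < cnt r (r a) := by
  have h1 := pre_succ r a (r a)
  rw [if_pos rfl] at h1
  have h2 := pre_le_cnt r ((a : ℕ) + 1) (r a)
  unfold colw
  omega

theorem cell_unique {n : ℕ} (r : Fin n → ℕ) {a b : Fin n} (h1 : r a = r b)
    (h2 : colw r a = colw r b) : a = b := by
  rcases lt_trichotomy a b with h | h | h
  · have := pre_lt r h
    unfold colw at h2
    rw [h1] at h2 this
    omega
  · exact h
  · have := pre_lt r h
    unfold colw at h2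
    rw [h1] at h2
    omega

theorem cnt_anti {n : ℕ} {r : Fin n → ℕ} (hr : Ballot r) : Antitone (cnt r) := by
  apply antitone_nat_of_succ_le
  intro i
  have := hr n i
  rwa [pre_eq_cnt r le_rfl, pre_eq_cnt r le_rfl] at this

/-- the letters in the first `cnt r 1` columns -/
noncomputable def XX {n : ℕ} (r : Fin n → ℕ) : Finset (Fin n) :=
  univ.filter (fun a => colw r a < cnt r 1)

theorem mem_XX {n : ℕ} {r : Fin n → ℕ} {a : Fin n} : a ∈ XX r ↔ colw r a < cnt r 1 := by
  simp [XX]

theorem zero_of_notMem {n : ℕ} {r : Fin n → ℕ} (hr : Ballot r) {a : Fin n} (h : a ∉ XX r) :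
    r a = 0 := by
  by_contra h0
  apply h
  rw [mem_XX]
  exact lt_of_lt_of_le (colw_lt_cnt r a) (cnt_anti hr (by omega))

theorem card_XX {n : ℕ} {r : Fin n → ℕ} (hr : Ballot r) :
    (XX r).card = (univ.filter fun a => 1 ≤ r a).card + cnt r 1 := by
  classical
  have h1 : XX r = (univ.filter fun a => 1 ≤ r a) ∪
      (univ.filter fun a => r a = 0 ∧ colw r a < cnt r 1) := by
    ext a
    simp only [mem_XX, mem_union, mem_filter, mem_univ, true_and]
    constructor
    · intro h
      by_cases h0 : r a = 0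
      · exact Or.inr ⟨h0, h⟩
      · exact Or.inl (by omega)
    · rintro (h | h)
      · by_contra h2
        have := zero_of_notMem hr (a := a) (by rwa [mem_XX])
        omega
      · exact h.2
  have h2 : Disjoint (univ.filter fun a => 1 ≤ r a)
      (univ.filter fun a => r a = 0 ∧ colw r a < cnt r 1) := by
    rw [disjoint_left]
    intro a
    simp only [mem_filter, mem_univ, true_and]
    omega
  have h3 : (univ.filter fun a => r a = 0 ∧ colw r a < cnt r 1).card = cnt r 1 := by
    have h3' : (univ.filter fun a => r a = 0 ∧ colw r a < cnt r 1).card =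
        (range (cnt r 1)).card := by
     apply card_bij (fun a _ => colw r a)
     · intro a ha
       simp only [mem_filter, mem_univ, true_and] at ha
       exact mem_range.2 ha.2
     · intro a ha b hb hab
       simp only [mem_filter, mem_univ, true_and] at ha hb
       exact cell_unique r (by rw [ha.1, hb.1]) hab
     · intro c hc
       rw [mem_range] at hc
       obtain ⟨a, -, h4, h5⟩ := exists_cell r 0 c n
         (by rw [pre_eq_cnt r le_rfl]; exact lt_of_lt_of_le hc (cnt_anti hr (by omega)))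
       have h6 : colw r a = c := by unfold colw; rw [h4, h5]
       refine ⟨a, ?_, h6⟩
       simp only [mem_filter, mem_univ, true_and]
       exact ⟨h4, by rw [h6]; exact hc⟩
    rw [h3', card_range]
  rw [h1, card_union_of_disjoint h2, h3]

theorem card_pos_eq {n : ℕ} (r : Fin n → ℕ) {M : ℕ} (hM : ∀ a, r a ≤ M) :
    (univ.filter fun a => 1 ≤ r a).card = ∑ i ∈ Icc 1 M, cnt r i := by
  classical
  rw [card_eq_sum_card_fiberwise (f := r) (t := Icc 1 M)]
  · apply sum_congr rfl
    intro i hi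
    rw [mem_Icc] at hi
    unfold cnt
    congr 1
    ext a
    simp only [mem_filter, mem_univ, true_and]
    constructor
    · exact fun h => h.2
    · intro h; exact ⟨by omega, h⟩
  · intro a ha
    simp only [coe_filter, mem_univ, true_and, Set.mem_ofPred_eq] at ha
    simp only [coe_Icc, Set.mem_Icc]
    exact ⟨ha, hM a⟩

theorem card_pos_StdPair {m n s : ℕ} {rA : Fin m → ℕ} {rB : Fin n → ℕ}
    (h : StdPair m n s rA rB) :
    (univ.filter fun a => 1 ≤ rA a).card = s ∧ (univ.filter fun a => 1 ≤ rB a).card = s := by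
  classical
  obtain ⟨-, -, h3, h4⟩ := h
  have h5 : (univ.filter fun a => 1 ≤ rA a).card = s := by
    have h6 := card_filter_add_card_filter_not (s := (univ : Finset (Fin m)))
      (p := fun a => rA a = 0)
    have h7 : (univ.filter fun a => ¬ rA a = 0) = (univ.filter fun a => 1 ≤ rA a) := by
      ext a
      simp only [mem_filter, mem_univ, true_and]
      omega
    rw [h7, card_univ, Fintype.card_fin] at h6
    have h8 : (univ.filter fun a => rA a = 0).card = cnt rA 0 := by
      unfold cnt; congr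
    omega
  refine ⟨h5, ?_⟩
  rw [← h5]
  rw [card_pos_eq rA (M := (univ.sup rA) ⊔ (univ.sup rB)),
    card_pos_eq rB (M := (univ.sup rA) ⊔ (univ.sup rB))]
  · apply sum_congr rfl
    intro i hi
    rw [mem_Icc] at hi
    exact (h3 i hi.1).symm
  · intro a
    exact (le_sup (mem_univ a)).trans le_sup_right
  · intro a
    exact (le_sup (mem_univ a)).trans le_sup_left

theorem card_XX_std {m n s : ℕ} {rA : Fin m → ℕ} {rB : Fin n → ℕ}
    (h : StdPair m n s rA rB) :
    (XX rA).card = s + cnt rB 1 ∧ (XX rB).card = s + cnt rB 1 := by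
  have h1 := card_pos_StdPair h
  rw [card_XX h.1, card_XX h.2.1, h1.1, h1.2, h.2.2.1 1 le_rfl]
  exact ⟨rfl, rfl⟩

theorem exists_id {m n s : ℕ} {rA : Fin m → ℕ} {rB : Fin n → ℕ}
    (h : StdPair m n s rA rB) :
    ∃ e : {x // x ∈ XX rA} ≃ {y // y ∈ XX rB},
      ∀ x, rB (e x) = rA x ∧ colw rB (e x) = colw rA x := by
  classical
  have h0 := card_XX_std h
  obtain ⟨h1, h2, h3, h4⟩ := h
  have h5 : ∀ x : {x // x ∈ XX rA}, ∃ y : {y // y ∈ XX rB},
      rB y = rA x ∧ colw rB y = colw rA x := by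
    rintro ⟨x, hx⟩
    have hx' := mem_XX.1 hx
    have h6 : colw rA x < cnt rB (rA x) := by
      by_cases h7 : rA x = 0
      · rw [h7]
        rw [h3 1 le_rfl] at hx'
        exact lt_of_lt_of_le hx' (cnt_anti h2 (by omega))
      · rw [← h3 (rA x) (by omega)]
        exact colw_lt_cnt rA x
    obtain ⟨y, -, h8, h9⟩ := exists_cell rB (rA x) (colw rA x) n
      (by rwa [pre_eq_cnt rB le_rfl])
    have h10 : colw rB y = colw rA x := by unfold colw at *; rw [h8, h9]
    refine ⟨⟨y, ?_⟩, h8, h10⟩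
    rw [mem_XX, h10, ← h3 1 le_rfl]
    exact hx'
  choose f hf using h5
  have h6 : Function.Bijective f := by
    rw [Fintype.bijective_iff_injective_and_card]
    constructor
    · intro x x' hxx
      apply Subtype.ext
      apply cell_unique rA
      · rw [← (hf x).1, ← (hf x').1, hxx]
      · rw [← (hf x).2, ← (hf x').2, hxx]
    · rw [Fintype.card_coe, Fintype.card_coe, h0.1, h0.2]
  exact ⟨Equiv.ofBijective f h6, hf⟩

theorem sum_range_card_le (T : Finset ℕ) : ∑ i ∈ range T.card, i ≤ ∑ x ∈ T, x := by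
  induction T using Finset.induction_on_max with
  | empty => simp
  | insert a T h ih =>
    have h1 : a ∉ T := fun h2 => lt_irrefl _ (h a h2)
    rw [card_insert_of_notMem h1, sum_range_succ, sum_insert h1]
    have h2 : T.card ≤ a := by
      have : T ⊆ range a := fun x hx => mem_range.2 (h x hx)
      simpa using card_le_card this
    omega

theorem sum_ge_of_injOn {n : ℕ} (S : Finset (Fin n)) (v : Fin n → ℕ)
    (h : ∀ a ∈ S, ∀ b ∈ S, v a = v b → a = b) : ∑ i ∈ range S.card, i ≤ ∑ a ∈ S, v a := by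
  classical
  have h1 : (S.image v).card = S.card := card_image_of_injOn (fun a ha b hb => h a ha b hb)
  have h2 := sum_range_card_le (S.image v)
  rw [h1, sum_image (fun a ha b hb => h a ha b hb)] at h2
  exact h2

theorem eq_range_of_down (T : Finset ℕ) (h : ∀ i, i + 1 ∈ T → i ∈ T) : T = range T.card := by
  classical
  have h1 : ∀ i j, i ≤ j → j ∈ T → i ∈ T := by
    intro i j hij
    induction hij with
    | refl => exact fun h => h
    | step _ ih => exact fun h2 => ih (h _ h2)
  symm
  apply eq_of_subset_of_card_le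
  · intro i hi
    rw [mem_range] at hi
    by_contra h2
    have h3 : T ⊆ range i := by
      intro j hj
      rw [mem_range]
      by_contra h4
      exact h2 (h1 i j (by omega) hj)
    have h4 := card_le_card h3
    rw [card_range] at h4
    omega
  · rw [card_range]

theorem sum_col {n : ℕ} {r : Fin n → ℕ} (hr : Ballot r) (k c : ℕ) (S : Finset (Fin n))
    (hS : ∀ a, a ∈ S ↔ (a : ℕ) < k ∧ colw r a = c) :
    ∑ a ∈ S, r a = ∑ i ∈ range S.card, i := by
  classical
  have h1 : ∀ a ∈ S, ∀ b ∈ S, r a = r b → a = b := by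
    intro a ha b hb hab
    exact cell_unique r hab (by rw [((hS a).1 ha).2, ((hS b).1 hb).2])
  have h2 : (S.image r).card = S.card := card_image_of_injOn (fun a ha b hb => h1 a ha b hb)
  have h3 : S.image r = range (S.image r).card := by
    apply eq_range_of_down
    intro i hi
    rw [mem_image] at hi ⊢
    obtain ⟨a, ha, hai⟩ := hi
    obtain ⟨hak, hac⟩ := (hS a).1 ha
    have h4 : c < pre r a i := by
      have h5 := hr ((a : ℕ) + 1) i
      rw [pre_succ, pre_succ, if_pos hai, if_neg (by omega)] at h5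
      unfold colw at hac
      rw [hai] at hac
      omega
    obtain ⟨b, h6, h7, h8⟩ := exists_cell r i c a h4
    refine ⟨b, (hS b).2 ⟨by omega, ?_⟩, h7⟩
    unfold colw
    rw [h7, h8]
  calc ∑ a ∈ S, r a = ∑ x ∈ S.image r, x := by
        rw [sum_image (fun a ha b hb => h1 a ha b hb)]
    _ = ∑ i ∈ range S.card, i := by rw [h3, h2]

/-- partial sums -/
def ps {n : ℕ} (r : Fin n → ℕ) (k : ℕ) : ℕ := ∑ a ∈ univ.filter (fun a : Fin n => (a : ℕ) < k), r a

theorem ps_le {n : ℕ} {r r' : Fin n → ℕ} (hr : Ballot r)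
    (h : ∀ a ∈ XX r, ∀ b ∈ XX r, colw r a = colw r b → r' a = r' b → a = b) (k : ℕ) :
    ps r k ≤ ps r' k := by
  classical
  unfold ps
  have h1 : ∑ a ∈ univ.filter (fun a : Fin n => (a : ℕ) < k), r a =
      ∑ a ∈ (XX r).filter (fun a : Fin n => (a : ℕ) < k), r a := by
    symm
    apply sum_subset
    · intro a ha
      rw [mem_filter] at ha ⊢
      exact ⟨mem_univ _, ha.2⟩
    · intro a ha hna
      apply zero_of_notMem hr
      intro h2
      rw [mem_filter] at ha hna
      exact hna ⟨h2, ha.2⟩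
  have h2 : ∑ a ∈ (XX r).filter (fun a : Fin n => (a : ℕ) < k), r' a ≤
      ∑ a ∈ univ.filter (fun a : Fin n => (a : ℕ) < k), r' a := by
    apply sum_le_sum_of_subset
    intro a ha
    rw [mem_filter] at ha ⊢
    exact ⟨mem_univ _, ha.2⟩
  rw [h1]
  refine le_trans ?_ h2
  have h3 : ∀ v : Fin n → ℕ, ∑ a ∈ (XX r).filter (fun a : Fin n => (a : ℕ) < k), v a =
      ∑ c ∈ range (cnt r 1), ∑ a ∈ ((XX r).filter (fun a : Fin n => (a : ℕ) < k)).filter
        (fun a => colw r a = c), v a := by
    intro v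
    symm
    apply sum_fiberwise_of_maps_to
    intro a ha
    rw [mem_filter] at ha
    exact mem_range.2 (mem_XX.1 ha.1)
  rw [h3, h3]
  apply sum_le_sum
  intro c hc
  rw [mem_range] at hc
  rw [sum_col hr k c]
  · apply sum_ge_of_injOn
    intro a ha b hb hab
    rw [mem_filter, mem_filter] at ha hb
    exact h a ha.1.1 b hb.1.1 (by rw [ha.2, hb.2]) hab
  · intro a
    rw [mem_filter, mem_filter, mem_XX]
    constructor
    · rintro ⟨⟨h4, h5⟩, h6⟩
      exact ⟨h5, h6⟩
    · rintro ⟨h4, h5⟩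
      exact ⟨⟨by omega, h4⟩, h5⟩

theorem eq_of_ps {n : ℕ} {r r' : Fin n → ℕ} (h : ∀ k ≤ n, ps r k = ps r' k) : r = r' := by
  classical
  funext a
  have h1 := h a a.2.le
  have h2 := h ((a : ℕ) + 1) a.2
  have h3 : ∀ v : Fin n → ℕ, ps v ((a : ℕ) + 1) = ps v a + v a := by
    intro v
    unfold ps
    have : (univ.filter fun b : Fin n => (b : ℕ) < (a : ℕ) + 1) =
        insert a (univ.filter fun b : Fin n => (b : ℕ) < (a : ℕ)) := by
      ext b
      simp only [mem_filter, mem_univ, true_and, mem_insert]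
      constructor
      · intro h4
        rcases Nat.lt_succ_iff_lt_or_eq.1 h4 with h5 | h5
        · exact Or.inr h5
        · exact Or.inl (Fin.ext h5)
      · rintro (h4 | h4)
        · rw [h4]; exact Nat.lt_succ_self _
        · exact Nat.lt_succ_of_lt h4
    rw [this, sum_insert (by simp), add_comm]
  rw [h3, h3] at h2
  omega


section meas

variable {m n : ℕ} (K : Type*) [Field K]

/-- same row and column -/
def IsId (rA : Fin m → ℕ) (rB : Fin n → ℕ) (e : {x // x ∈ XX rA} ≃ {y // y ∈ XX rB}) : Prop :=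
  ∀ x, rB (e x) = rA x ∧ colw rB (e x) = colw rA x

/-- column preserving -/
def CP (rA : Fin m → ℕ) (rB : Fin n → ℕ) (g : {x // x ∈ XX rA} ≃ {y // y ∈ XX rB}) : Prop :=
  ∀ x, colw rB (g x) = colw rA x

open Classical in
/-- signed measure on column preserving bijections -/
noncomputable def nuC (rA : Fin m → ℕ) (rB : Fin n → ℕ)
    (g : {x // x ∈ XX rA} ≃ {y // y ∈ XX rB}) : K :=
  if h : ∃ e : {x // x ∈ XX rA} ≃ {y // y ∈ XX rB}, IsId rA rB e then
    if CP rA rB g then (((Equiv.Perm.sign (g.trans h.choose.symm) : ℤˣ) : ℤ) : K) else 0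
  else 0

variable {K}
variable {rA : Fin m → ℕ} {rB : Fin n → ℕ}

theorem CP_swap {g : {x // x ∈ XX rA} ≃ {y // y ∈ XX rB}} {x x' : {x // x ∈ XX rA}}
    (hc : colw rA x = colw rA x') (hg : CP rA rB g) :
    CP rA rB ((Equiv.swap x x').trans g) := by
  intro z
  rw [Equiv.trans_apply, hg]
  rcases eq_or_ne z x with h | h
  · rw [h, Equiv.swap_apply_left, hc]
  · rcases eq_or_ne z x' with h' | h'
    · rw [h', Equiv.swap_apply_right, hc]
    · rw [Equiv.swap_apply_of_ne_of_ne h h']

theorem swap_swap {g : {x // x ∈ XX rA} ≃ {y // y ∈ XX rB}} {x x' : {x // x ∈ XX rA}} :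
    (Equiv.swap x x').trans ((Equiv.swap x x').trans g) = g := by
  ext z
  simp [Equiv.swap_apply_self]

theorem nuC_swap {g : {x // x ∈ XX rA} ≃ {y // y ∈ XX rB}} {x x' : {x // x ∈ XX rA}}
    (hne : x ≠ x') (hc : colw rA x = colw rA x') :
    nuC K rA rB ((Equiv.swap x x').trans g) = - nuC K rA rB g := by
  classical
  unfold nuC
  by_cases h : ∃ e : {x // x ∈ XX rA} ≃ {y // y ∈ XX rB}, IsId rA rB e
  · rw [dif_pos h, dif_pos h]
    have h1 : CP rA rB ((Equiv.swap x x').trans g) ↔ CP rA rB g := by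
      constructor
      · intro h2
        have h3 := CP_swap hc h2
        rwa [swap_swap] at h3
      · exact CP_swap hc
    by_cases h2 : CP rA rB g
    · rw [if_pos (h1.2 h2), if_pos h2]
      have h3 : ((Equiv.swap x x').trans g).trans h.choose.symm =
          (g.trans h.choose.symm) * (Equiv.swap x x') := by
        ext z; simp
      rw [h3, Equiv.Perm.sign_mul, Equiv.Perm.sign_swap hne]
      simp
    · rw [if_neg (fun h3 => h2 (h1.1 h3)), if_neg h2, neg_zero]
  · rw [dif_neg h, dif_neg h, neg_zero]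

theorem sum_cancel (Q : ({x // x ∈ XX rA} ≃ {y // y ∈ XX rB}) → Prop) [DecidablePred Q]
    {x x' : {x // x ∈ XX rA}} (hne : x ≠ x') (hc : colw rA x = colw rA x')
    (hQ : ∀ g, Q g → Q ((Equiv.swap x x').trans g)) :
    ∑ g, (if Q g then nuC K rA rB g else 0) = 0 := by
  have hQ' : ∀ g, Q ((Equiv.swap x x').trans g) ↔ Q g := by
    intro g
    constructor
    · intro h
      have := hQ _ h
      rwa [swap_swap] at this
    · exact hQ g
  refine sum_involution (fun g _ => (Equiv.swap x x').trans g) ?_ ?_ ?_ ?_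
  · intro g _
    by_cases h : Q g
    · rw [if_pos h, if_pos ((hQ' g).2 h), nuC_swap hne hc, add_neg_cancel]
    · rw [if_neg h, if_neg (fun h2 => h ((hQ' g).1 h2)), add_zero]
  · intro g _ _ h
    apply hne
    have h1 := congrArg (fun f : {x // x ∈ XX rA} ≃ {y // y ∈ XX rB} => f x) h
    simp only [Equiv.trans_apply, Equiv.swap_apply_left] at h1
    exact (g.injective h1).symm
  · intro g _
    exact mem_univ _
  · intro g _
    exact swap_swap

theorem mem_gr {X : Finset (Fin m)} {Y : Finset (Fin n)} {g : {x // x ∈ X} ≃ {y // y ∈ Y}}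
    {e : Fin m × Fin n} : e ∈ gr g ↔ ∃ x : {x // x ∈ X}, ((x : Fin m), ((g x : {y // y ∈ Y}) : Fin n)) = e := by
  unfold gr
  simp only [mem_image, mem_univ, true_and]

private theorem sum_univ_inst {ι M : Type*} [AddCommMonoid M] (i1 i2 : Fintype ι) (f g : ι → M)
    (h : ∀ x, f x = g x) : @Finset.sum ι M _ (@Finset.univ ι i1) f =
      @Finset.sum ι M _ (@Finset.univ ι i2) g := by
  rw [Subsingleton.elim i1 i2]
  exact Finset.sum_congr rfl fun x _ => h x

theorem mass_zero {s : ℕ} (h : StdPair m n s rA rB) (τ : Finset (Fin m × Fin n))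
    (hτ : τ.card < s) : mass (nuC K rA rB) τ = 0 := by
  classical
  have h0 := card_XX_std h
  let S : Finset {x // x ∈ XX rA} := univ.filter fun x => ∀ e ∈ τ, e.1 ≠ (x : Fin m)
  have h1 : (univ \ S).card ≤ τ.card := by
    have h2 : (univ \ S).image (fun x : {x // x ∈ XX rA} => (x : Fin m)) ⊆ τ.image Prod.fst := by
      intro a ha
      rw [mem_image] at ha
      obtain ⟨d, hd, rfl⟩ := ha
      simp only [S, mem_sdiff, mem_univ, true_and, mem_filter, ne_eq,
        not_forall, not_not] at hd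
      obtain ⟨e, he, h3⟩ := hd
      exact mem_image.2 ⟨e, he, h3⟩
    calc (univ \ S).card = ((univ \ S).image (fun x : {x // x ∈ XX rA} => (x : Fin m))).card :=
          (card_image_of_injective _ Subtype.val_injective).symm
      _ ≤ (τ.image Prod.fst).card := card_le_card h2
      _ ≤ τ.card := card_image_le
  have h2 : (univ \ S).card + S.card = s + cnt rB 1 := by
    rw [card_sdiff_add_card_eq_card (subset_univ _), card_univ, Fintype.card_coe, h0.1]
  have h3 : (range (cnt rA 1)).card < S.card := by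
    rw [card_range, h.2.2.1 1 le_rfl]
    omega
  obtain ⟨x, hx, x', hx', hne, hcol⟩ := exists_ne_map_eq_of_card_lt_of_maps_to h3
    (f := fun x : {x // x ∈ XX rA} => colw rA x)
    (fun x _ => mem_coe.2 (mem_range.2 (mem_XX.1 x.2)))
  simp only [S, mem_filter, mem_univ, true_and] at hx hx'
  have h4 : mass (nuC K rA rB) τ = ∑ g, (if τ ⊆ gr g then nuC K rA rB g else 0) := by
    unfold mass
    apply sum_univ_inst
    intro g
    by_cases hg : τ ⊆ gr g
    · rw [if_pos hg, if_pos hg]
    · rw [if_neg hg, if_neg hg]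
  rw [h4]
  apply sum_cancel _ hne hcol
  intro g hg e he
  obtain ⟨z, hz⟩ := mem_gr.1 (hg he)
  have h5 : z ≠ x := by
    rintro rfl
    exact hx e he (by rw [← hz])
  have h6 : z ≠ x' := by
    rintro rfl
    exact hx' e he (by rw [← hz])
  rw [mem_gr]
  exact ⟨z, by rw [Equiv.trans_apply, Equiv.swap_apply_of_ne_of_ne h5 h6, hz]⟩

/-- compatibility condition -/
def Cond (rA' : Fin m → ℕ) (rB' : Fin n → ℕ) (g : {x // x ∈ XX rA} ≃ {y // y ∈ XX rB}) : Prop :=
  (∀ a, a ∉ XX rA → rA' a = 0) ∧ (∀ b, b ∉ XX rB → rB' b = 0) ∧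
    ∀ x : {x // x ∈ XX rA}, rB' (g x) = rA' x

theorem RM_card {s : ℕ} {rA' : Fin m → ℕ} {rB' : Fin n → ℕ} (h : StdPair m n s rA' rB')
    {σ : Finset (Fin m × Fin n)} (hσ : RM rA' rB' σ) : σ.card = s := by
  classical
  rw [← (card_pos_StdPair h).1]
  obtain ⟨h1, h2, h3, h4⟩ := hσ
  have h5 : σ.image Prod.fst = univ.filter fun a => 1 ≤ rA' a := by
    ext a
    simp only [mem_image, mem_filter, mem_univ, true_and]
    constructor
    · rintro ⟨e, he, rfl⟩
      exact (h2 e he).2
    · intro ha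
      have := h3 a ha
      unfold FrA at this
      push Not at this
      exact this
  rw [← h5, card_image_of_injOn]
  intro e he e' he' hee
  exact h1 e he e' he' (Or.inl hee)

theorem RM_sub_iff {rA' : Fin m → ℕ} {rB' : Fin n → ℕ}
    (g : {x // x ∈ XX rA} ≃ {y // y ∈ XX rB}) (σ : Finset (Fin m × Fin n)) :
    (RM rA' rB' σ ∧ σ ⊆ gr g) ↔
      (σ = (gr g).filter (fun e => 1 ≤ rA' e.1) ∧ Cond rA' rB' g) := by
  classical
  constructor
  · rintro ⟨⟨h1, h2, h3, h4⟩, h5⟩
    unfold FrA at h3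
    unfold FrB at h4
    push Not at h3 h4
    constructor
    · ext e
      rw [mem_filter]
      constructor
      · intro he
        exact ⟨h5 he, (h2 e he).2⟩
      · rintro ⟨he, he1⟩
        obtain ⟨e', he', h6⟩ := h3 e.1 he1
        obtain ⟨x, hx⟩ := mem_gr.1 he
        obtain ⟨x', hx'⟩ := mem_gr.1 (h5 he')
        have h7 : x' = x := by
          apply Subtype.ext
          have h8 : (x' : Fin m) = e'.1 := by rw [← hx']
          have h9 : (x : Fin m) = e.1 := by rw [← hx]
          rw [h8, h9, h6]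
        rw [← hx, ← h7, hx']
        exact he'
    · refine ⟨?_, ?_, ?_⟩
      · intro a ha
        by_contra h0
        obtain ⟨e, he, h6⟩ := h3 a (by omega)
        obtain ⟨x, hx⟩ := mem_gr.1 (h5 he)
        apply ha
        rw [← h6, ← hx]
        exact x.2
      · intro b hb
        by_contra h0
        obtain ⟨e, he, h6⟩ := h4 b (by omega)
        obtain ⟨x, hx⟩ := mem_gr.1 (h5 he)
        apply hb
        rw [← h6, ← hx]
        exact (g x).2
      · intro x
        by_cases h0 : rA' x = 0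
        · by_contra h6
          obtain ⟨e, he, h7⟩ := h4 (g x) (by omega)
          obtain ⟨x', hx'⟩ := mem_gr.1 (h5 he)
          have h8 : g x' = g x := by
            apply Subtype.ext
            have : ((g x' : {y // y ∈ XX rB}) : Fin n) = e.2 := by rw [← hx']
            rw [this, h7]
          have h9 := (h2 e he).2
          rw [← hx', g.injective h8] at h9
          simp only at h9
          omega
        · obtain ⟨e, he, h7⟩ := h3 x (by omega)
          obtain ⟨x', hx'⟩ := mem_gr.1 (h5 he)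
          have h8 : x' = x := by
            apply Subtype.ext
            have : (x' : Fin m) = e.1 := by rw [← hx']
            rw [this, h7]
          have h9 := (h2 e he).1
          rw [← hx', h8] at h9
          exact h9.symm
  · rintro ⟨rfl, h1, h2, h3⟩
    refine ⟨⟨?_, ?_, ?_, ?_⟩, filter_subset _ _⟩
    · intro e he e' he' hee
      rw [mem_filter] at he he'
      obtain ⟨x, hx⟩ := mem_gr.1 he.1
      obtain ⟨x', hx'⟩ := mem_gr.1 he'.1
      have h4 : x = x' := by
        rw [← hx, ← hx'] at hee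
        rcases hee with h5 | h5
        · exact Subtype.ext h5
        · exact g.injective (Subtype.ext h5)
      rw [← hx, ← hx', h4]
    · intro e he
      rw [mem_filter] at he
      obtain ⟨x, hx⟩ := mem_gr.1 he.1
      refine ⟨?_, he.2⟩
      rw [← hx]
      exact (h3 x).symm
    · intro a ha hf
      have h4 : a ∈ XX rA := by
        by_contra h5
        rw [h1 a h5] at ha
        omega
      exact hf (a, ((g ⟨a, h4⟩ : {y // y ∈ XX rB}) : Fin n))
        (mem_filter.2 ⟨mem_gr.2 ⟨⟨a, h4⟩, rfl⟩, ha⟩) rfl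
    · intro b hb hf
      have h4 : b ∈ XX rB := by
        by_contra h5
        rw [h2 b h5] at hb
        omega
      have h6 : g (g.symm ⟨b, h4⟩) = ⟨b, h4⟩ := g.apply_symm_apply _
      have h5 := h3 (g.symm ⟨b, h4⟩)
      rw [h6] at h5
      refine hf (((g.symm ⟨b, h4⟩ : {x // x ∈ XX rA}) : Fin m), b) (mem_filter.2 ⟨mem_gr.2
        ⟨g.symm ⟨b, h4⟩, by rw [h6]⟩, ?_⟩) rfl
      simp only at h5 ⊢
      omega

open Classical in
theorem ev_eq {s : ℕ} {rA' : Fin m → ℕ} {rB' : Fin n → ℕ} (h : StdPair m n s rA' rB') :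
    ev rA' rB' (fun τ => if τ.card = s then mass (nuC K rA rB) τ else 0) =
      ∑ g : {x // x ∈ XX rA} ≃ {y // y ∈ XX rB},
        (if Cond rA' rB' g then nuC K rA rB g else 0) := by
  classical
  have h1 : ev rA' rB' (fun τ => if τ.card = s then mass (nuC K rA rB) τ else 0) =
      ∑ σ : Finset (Fin m × Fin n), ∑ g : {x // x ∈ XX rA} ≃ {y // y ∈ XX rB},
        (if RM rA' rB' σ ∧ σ ⊆ gr g then nuC K rA rB g else 0) := by
    unfold ev
    rw [sum_filter]
    apply sum_congr rfl
    intro σ _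
    by_cases h2 : RM rA' rB' σ
    · rw [if_pos h2, if_pos (RM_card h h2)]
      unfold mass
      apply sum_univ_inst
      intro g
      by_cases h3 : σ ⊆ gr g
      · rw [if_pos h3, if_pos ⟨h2, h3⟩]
      · rw [if_neg h3, if_neg (fun h4 => h3 h4.2)]
    · rw [if_neg h2]
      symm
      apply sum_eq_zero
      intro g _
      rw [if_neg (fun h4 => h2 h4.1)]
  rw [h1, sum_comm]
  apply sum_congr rfl
  intro g _
  simp only [RM_sub_iff]
  by_cases h2 : Cond rA' rB' g
  · rw [if_pos h2]
    simp [h2]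
  · rw [if_neg h2]
    simp [h2]

theorem ps_of_ev {s : ℕ} {rA' : Fin m → ℕ} {rB' : Fin n → ℕ} (h : StdPair m n s rA rB)
    (h' : StdPair m n s rA' rB')
    (hev : ev rA' rB' (fun τ => if τ.card = s then mass (nuC K rA rB) τ else 0) ≠ 0) :
    (∀ k, ps rA k ≤ ps rA' k) ∧ (∀ k, ps rB k ≤ ps rB' k) := by
  classical
  rw [ev_eq h'] at hev
  -- a column preserving compatible bijection
  obtain ⟨g, hgc, hg⟩ : ∃ g : {x // x ∈ XX rA} ≃ {y // y ∈ XX rB}, CP rA rB g ∧
      Cond rA' rB' g := by
    obtain ⟨g, -, hg⟩ := exists_ne_zero_of_sum_ne_zero hev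
    by_cases h1 : Cond rA' rB' g
    · rw [if_pos h1] at hg
      refine ⟨g, ?_, h1⟩
      by_contra h2
      apply hg
      unfold nuC
      split_ifs
      all_goals rfl
    · rw [if_neg h1] at hg
      exact absurd rfl hg
  have h1 : ∀ a ∈ XX rA, ∀ b ∈ XX rA, colw rA a = colw rA b → rA' a = rA' b → a = b := by
    intro a ha b hb hab hab'
    by_contra hne
    apply hev
    refine sum_cancel _ (x := ⟨a, ha⟩) (x' := ⟨b, hb⟩) (fun h2 => hne (congrArg Subtype.val h2))
      hab ?_
    rintro g ⟨h2, h3, h4⟩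
    refine ⟨h2, h3, fun x => ?_⟩
    rw [Equiv.trans_apply, h4]
    rcases eq_or_ne x ⟨a, ha⟩ with h5 | h5
    · rw [h5, Equiv.swap_apply_left, hab']
    · rcases eq_or_ne x ⟨b, hb⟩ with h6 | h6
      · rw [h6, Equiv.swap_apply_right, hab']
      · rw [Equiv.swap_apply_of_ne_of_ne h5 h6]
  refine ⟨ps_le h.1 h1, ps_le h.2.1 ?_⟩
  intro a ha b hb hab hab'
  have h2 : ∀ (y : Fin n) (hy : y ∈ XX rB), rB' y = rA' (g.symm ⟨y, hy⟩) ∧
      colw rB y = colw rA (g.symm ⟨y, hy⟩) := by
    intro y hy
    have h3 := hg.2.2 (g.symm ⟨y, hy⟩)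
    have h4 := hgc (g.symm ⟨y, hy⟩)
    rw [g.apply_symm_apply] at h3 h4
    exact ⟨h3, h4⟩
  have h3 := h1 _ (g.symm ⟨a, ha⟩).2 _ (g.symm ⟨b, hb⟩).2
    (by rw [← (h2 a ha).2, ← (h2 b hb).2, hab]) (by rw [← (h2 a ha).1, ← (h2 b hb).1, hab'])
  have h4 := g.symm.injective (Subtype.ext h3)
  exact congrArg Subtype.val h4

theorem ev_diag {s : ℕ} (h : StdPair m n s rA rB) :
    ev rA rB (fun τ => if τ.card = s then mass (nuC K rA rB) τ else 0) ≠ 0 := by
  classical
  rw [ev_eq h]
  have h0 := exists_id h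
  rw [sum_eq_single h0.choose]
  · have h1 : Cond rA rB h0.choose := by
      refine ⟨fun a ha => zero_of_notMem h.1 ha, fun b hb => zero_of_notMem h.2.1 hb, fun x => ?_⟩
      exact (h0.choose_spec x).1
    rw [if_pos h1]
    unfold nuC
    have h2 : ∃ e : {x // x ∈ XX rA} ≃ {y // y ∈ XX rB}, IsId rA rB e := h0
    have h3 : CP rA rB h0.choose := fun x => (h0.choose_spec x).2
    rw [dif_pos h2, if_pos h3]
    rcases Int.units_eq_one_or (Equiv.Perm.sign (h0.choose.trans h2.choose.symm)) with h4 | h4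
    · rw [h4]; simp
    · rw [h4]; simp
  · intro g _ hne
    by_cases h1 : Cond rA rB g
    · rw [if_pos h1]
      by_cases h2 : CP rA rB g
      · exfalso
        apply hne
        ext x
        apply congrArg Fin.val
        apply cell_unique rB
        · rw [h1.2.2 x, (h0.choose_spec x).1]
        · rw [h2 x, (h0.choose_spec x).2]
      · unfold nuC
        split_ifs
        all_goals rfl
    · rw [if_neg h1]
  · intro h1
    exact absurd (mem_univ _) h1

end meas

theorem ev_sum {K : Type*} [Field K] {m n : ℕ} (rA : Fin m → ℕ) (rB : Fin n → ℕ) {ι : Type*}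
    (t : Finset ι) (c : ι → K) (F : ι → Finset (Fin m × Fin n) → K) :
    ev rA rB (∑ i ∈ t, c i • F i) = ∑ i ∈ t, c i * ev rA rB (F i) := by
  unfold ev
  simp only [Finset.sum_apply, Pi.smul_apply, smul_eq_mul, mul_sum]
  rw [sum_comm]

/-- numeric key -/
def key {m n : ℕ} (p : (Fin m → ℕ) × (Fin n → ℕ)) : ℕ :=
  ∑ k ∈ range (m + 1), ps p.1 k + ∑ k ∈ range (n + 1), ps p.2 k

theorem key_lt {m n : ℕ} {p q : (Fin m → ℕ) × (Fin n → ℕ)} (h1 : ∀ k, ps p.1 k ≤ ps q.1 k)
    (h2 : ∀ k, ps p.2 k ≤ ps q.2 k) (h : key q ≤ key p) : p = q := by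
  unfold key at h
  have h3 : ∑ k ∈ range (m + 1), ps p.1 k ≤ ∑ k ∈ range (m + 1), ps q.1 k :=
    sum_le_sum fun k _ => h1 k
  have h4 : ∑ k ∈ range (n + 1), ps p.2 k ≤ ∑ k ∈ range (n + 1), ps q.2 k :=
    sum_le_sum fun k _ => h2 k
  have h5 : ∑ k ∈ range (m + 1), ps p.1 k = ∑ k ∈ range (m + 1), ps q.1 k := by omega
  have h6 : ∑ k ∈ range (n + 1), ps p.2 k = ∑ k ∈ range (n + 1), ps q.2 k := by omega
  rw [sum_eq_sum_iff_of_le fun k _ => h1 k] at h5
  rw [sum_eq_sum_iff_of_le fun k _ => h2 k] at h6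
  apply Prod.ext
  · exact eq_of_ps fun k hk => h5 k (mem_range.2 (by omega))
  · exact eq_of_ps fun k hk => h6 k (mem_range.2 (by omega))

end LowerAux

open LowerAux

/-- the column measures of the standard pairs: signed measures on bijections between the first
`cnt 1` columns, null below size `s`, whose size `s` parts are linearly independent. -/
theorem exists_columns (K : Type*) [Field K] (m n s : ℕ) :
    ∃ (X : (Fin m → ℕ) × (Fin n → ℕ) → Finset (Fin m))
      (Y : (Fin m → ℕ) × (Fin n → ℕ) → Finset (Fin n))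
      (nu : ∀ p : (Fin m → ℕ) × (Fin n → ℕ), ({x // x ∈ X p} ≃ {y // y ∈ Y p}) → K)
      (Fs : (Fin m → ℕ) × (Fin n → ℕ) → Finset (Fin m × Fin n) → K),
      (∀ p, StdPair m n s p.1 p.2 → (X p).card = s + cnt p.2 1 ∧ (Y p).card = s + cnt p.2 1) ∧
      (∀ p, StdPair m n s p.1 p.2 → ∀ τ : Finset (Fin m × Fin n), τ.card < s →
        mass (nu p) τ = 0) ∧
      (∀ p τ, τ.card = s → Fs p τ = mass (nu p) τ) ∧ (∀ p τ, τ.card ≠ s → Fs p τ = 0) ∧
      LinearIndependent K
        (fun p : {p : (Fin m → ℕ) × (Fin n → ℕ) // StdPair m n s p.1 p.2} => Fs p.1) := by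
  classical
  refine ⟨fun p => XX p.1, fun p => XX p.2, fun p => nuC K p.1 p.2,
    fun p τ => if τ.card = s then mass (nuC K p.1 p.2) τ else 0, ?_, ?_, ?_, ?_, ?_⟩
  · intro p hp
    exact card_XX_std hp
  · intro p hp τ hτ
    exact mass_zero hp τ hτ
  · intro p τ hτ
    exact if_pos hτ
  · intro p τ hτ
    exact if_neg hτ
  · rw [linearIndependent_iff']
    intro t c hsum
    by_contra hcon
    push Not at hcon
    obtain ⟨i0, hi0, hc0⟩ := hcon
    obtain ⟨p, hp, hmin⟩ := exists_min_image (t.filter fun i => c i ≠ 0)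
      (fun i => key i.1) ⟨i0, mem_filter.2 ⟨hi0, hc0⟩⟩
    rw [mem_filter] at hp
    have h1 := congrArg (ev p.1.1 p.1.2) hsum
    rw [ev_sum, sum_eq_single p] at h1
    · have h2 : ev p.1.1 p.1.2 (0 : Finset (Fin m × Fin n) → K) = 0 := by
        unfold ev; simp
      rw [h2, mul_eq_zero] at h1
      rcases h1 with h1 | h1
      · exact hp.2 h1
      · exact ev_diag p.2 h1
    · intro q hq hqp
      by_cases h2 : c q = 0
      · rw [h2, zero_mul]
      · rw [mul_eq_zero]
        right
        by_contra h3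
        have h4 := ps_of_ev q.2 p.2 h3
        apply hqp
        apply Subtype.ext
        exact key_lt h4.1 h4.2 (hmin q (mem_filter.2 ⟨hq, h2⟩))
    · intro h2
      exact absurd hp.1 h2

end Pool.Agent.Helper81.FZ
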