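import Pool.Agent.Helper81.FZ.EBbasic

set_option autoImplicit false

namespace Pool.Agent.Helper81.FZ

open Finset

namespace SampleAux

section EBaux

variable {ι : Type*} [DecidableEq ι]

omit [DecidableEq ι] in
theorem EB_sum {κ : Type*} (x : ℝ) (C : Finset ι) (s : Finset κ) (f : κ → Finset ι → ℝ) :
    EB x C (fun Z => ∑ e ∈ s, f e Z) = ∑ e ∈ s, EB x C (f e) := by
  classical
  induction s using Finset.induction_on with
  | empty => simp [EB]
  | insert a s ha ih =>
    simp_rw [Finset.sum_insert ha]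
    rw [EB_add, ih]

end EBaux

variable {ι : Type*} [Fintype ι] [DecidableEq ι]

/-- symmetrisation of a set function -/
noncomputable def L (φ : Finset ι → ℕ) (Z : Finset ι) : ℝ :=
  (∑ e : Equiv.Perm ι, (φ (Z.map e.toEmbedding) : ℝ)) / (Fintype.card (Equiv.Perm ι) : ℝ)

theorem cardPos : (0 : ℝ) < (Fintype.card (Equiv.Perm ι) : ℝ) := by
  exact_mod_cast Fintype.card_pos

theorem L_mono (φ : Finset ι → ℕ) (hmono : ∀ Z W, Z ⊆ W → φ Z ≤ φ W) {Z W : Finset ι}
    (h : Z ⊆ W) : L φ Z ≤ L φ W := by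
  unfold L
  apply div_le_div_of_nonneg_right _ cardPos.le
  apply Finset.sum_le_sum
  intro e _
  exact_mod_cast hmono _ _ (Finset.map_subset_map.2 h)

theorem L_lip1 (φ : Finset ι → ℕ) (hlip : ∀ Z c, φ (insert c Z) ≤ φ Z + 1) (Z : Finset ι)
    (c : ι) : L φ (insert c Z) ≤ L φ Z + 1 := by
  unfold L
  rw [div_add_one cardPos.ne']
  apply div_le_div_of_nonneg_right _ cardPos.le
  have h1 : (Fintype.card (Equiv.Perm ι) : ℝ) = ∑ e : Equiv.Perm ι, (1 : ℝ) := by
    simp
  rw [h1, ← Finset.sum_add_distrib]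
  apply Finset.sum_le_sum
  intro e _
  rw [Finset.map_insert]
  exact_mod_cast hlip _ _

theorem L_lip (φ : Finset ι → ℕ) (hlip : ∀ Z c, φ (insert c Z) ≤ φ Z + 1) {Z W : Finset ι}
    (h : Z ⊆ W) : L φ W ≤ L φ Z + ((W.card : ℝ) - Z.card) := by
  have key : ∀ D : Finset ι, Disjoint D Z → L φ (D ∪ Z) ≤ L φ Z + (D.card : ℝ) := by
    intro D
    induction D using Finset.induction_on with
    | empty => intro _; simp
    | insert a s ha ih =>
      intro hd
      rw [Finset.disjoint_insert_left] at hd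
      have h1 := ih hd.2
      have h2 := L_lip1 φ hlip (s ∪ Z) a
      rw [Finset.insert_union, Finset.card_insert_of_notMem ha]
      push_cast
      linarith
  have h1 := key (W \ Z) Finset.sdiff_disjoint
  rw [Finset.sdiff_union_of_subset h] at h1
  have h2 : ((W \ Z).card : ℝ) = (W.card : ℝ) - Z.card := by
    rw [Finset.card_sdiff_of_subset h, Nat.cast_sub (Finset.card_le_card h)]
  rw [h2] at h1
  exact h1

theorem L_perm (φ : Finset ι → ℕ) (σ : Equiv.Perm ι) (Z : Finset ι) :
    L φ (Z.map σ.toEmbedding) = L φ Z := by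
  unfold L
  congr 1
  apply Fintype.sum_equiv (Equiv.mulRight σ)
  intro e
  rw [Finset.map_map]
  rfl

theorem L_card (φ : Finset ι → ℕ) {Z W : Finset ι} (h : Z.card = W.card) : L φ Z = L φ W := by
  have e : {x // x ∈ Z} ≃ {x // x ∈ W} := Finset.equivOfCardEq h
  have h1 : Z.map (e.extendSubtype).toEmbedding = W := by
    apply Finset.eq_of_subset_of_card_le
    · intro x hx
      rw [Finset.mem_map] at hx
      obtain ⟨y, hy, rfl⟩ := hx
      exact Equiv.extendSubtype_mem e y hy
    · rw [Finset.card_map, h]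
  rw [← h1, L_perm]

theorem EB_L (x : ℝ) (φ : Finset ι → ℕ) :
    EB x univ (fun Z => (φ Z : ℝ)) = EB x univ (L φ) := by
  have h1 : ∀ e : Equiv.Perm ι, EB x univ (fun Z => (φ (Z.map e.toEmbedding) : ℝ)) =
      EB x univ (fun Z => (φ Z : ℝ)) := by
    intro e
    have h2 := EB_map x (univ : Finset ι) e.toEmbedding (fun Z => (φ Z : ℝ))
    rw [← h2]
    congr 1
    simp
  have h3 : L φ = fun Z => ((Fintype.card (Equiv.Perm ι) : ℝ))⁻¹ *
      ∑ e : Equiv.Perm ι, (φ (Z.map e.toEmbedding) : ℝ) := by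
    funext Z
    unfold L
    rw [div_eq_inv_mul]
  rw [h3, EB_mul, EB_sum, Finset.sum_congr rfl (fun e _ => h1 e)]
  rw [Finset.sum_const, Finset.card_univ, nsmul_eq_mul, ← mul_assoc,
    inv_mul_cancel₀ cardPos.ne', one_mul]

theorem sum_L (φ : Finset ι → ℕ) (k : ℕ) :
    ∑ z : Fin k → ι, (φ (univ.image z) : ℝ) = ∑ z : Fin k → ι, L φ (univ.image z) := by
  have h1 : ∀ e : Equiv.Perm ι, ∑ z : Fin k → ι, (φ ((univ.image z).map e.toEmbedding) : ℝ) =
      ∑ z : Fin k → ι, (φ (univ.image z) : ℝ) := by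
    intro e
    apply Fintype.sum_equiv (Equiv.arrowCongr (Equiv.refl (Fin k)) e)
    intro z
    congr 2
    ext y
    simp [Equiv.arrowCongr, Equiv.eq_symm_apply]
  have h2 : ∑ z : Fin k → ι, L φ (univ.image z) = (∑ e : Equiv.Perm ι, ∑ z : Fin k → ι,
      (φ ((univ.image z).map e.toEmbedding) : ℝ)) / (Fintype.card (Equiv.Perm ι) : ℝ) := by
    unfold L
    rw [← Finset.sum_div, Finset.sum_comm]
  rw [h2, Finset.sum_congr rfl (fun e _ => h1 e), Finset.sum_const, Finset.card_univ,
    nsmul_eq_mul, mul_div_cancel_left₀ _ cardPos.ne']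

omit [Fintype ι] in
/-- collisions of a sample -/
theorem card_le_collisions {k : ℕ} (z : Fin k → ι) :
    k ≤ (univ.image z).card + ∑ b : Fin k, ∑ a : Fin k with a < b, (if z a = z b then 1 else 0) := by
  classical
  have h1 : (univ.filter (fun b : Fin k => ∀ a < b, z a ≠ z b)).card ≤ (univ.image z).card := by
    apply Finset.card_le_card_of_injOn z
    · intro b _
      exact Finset.mem_coe.2 (Finset.mem_image_of_mem z (Finset.mem_univ b))
    · intro b hb b' hb' h
      simp only [Finset.coe_filter, Finset.mem_univ, true_and, Set.mem_ofPred_eq] at hb hb'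
      rcases lt_trichotomy b b' with h2 | h2 | h2
      · exact absurd h (hb' b h2)
      · exact h2
      · exact absurd h.symm (hb b' h2)
  have h2 : (univ.filter (fun b : Fin k => ¬ ∀ a < b, z a ≠ z b)).card ≤
      ∑ b : Fin k, ∑ a : Fin k with a < b, (if z a = z b then 1 else 0) := by
    rw [Finset.card_filter]
    apply Finset.sum_le_sum
    intro b _
    by_cases h : ∀ a < b, z a ≠ z b
    · rw [if_neg (by simpa using h)]
      exact Nat.zero_le _
    · rw [if_pos h]
      push Not at h
      obtain ⟨a, ha, hab⟩ := h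
      calc 1 = (if z a = z b then 1 else 0) := by rw [if_pos hab]
        _ ≤ _ := Finset.single_le_sum (f := fun a => if z a = z b then 1 else 0)
            (fun _ _ => Nat.zero_le _) (by simp [ha])
  have h3 := Finset.card_filter_add_card_filter_not (s := (univ : Finset (Fin k)))
    (fun b : Fin k => ∀ a < b, z a ≠ z b)
  rw [Finset.card_univ, Fintype.card_fin] at h3
  omega

theorem count_coll {k : ℕ} (a b : Fin k) (hab : a ≠ b) :
    ∑ z : Fin k → ι, (if z a = z b then 1 else 0) = Fintype.card ι ^ (k - 1) := by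
  classical
  rw [← Equiv.sum_comp (Equiv.funSplitAt a ι).symm, Fintype.sum_prod_type_right]
  have h1 : ∀ w : {j // j ≠ a} → ι, ∑ i : ι, (if (Equiv.funSplitAt a ι).symm (i, w) a =
      (Equiv.funSplitAt a ι).symm (i, w) b then 1 else 0) = 1 := by
    intro w
    have h2 : ∀ i : ι, (Equiv.funSplitAt a ι).symm (i, w) a = i := by
      intro i; simp [Equiv.funSplitAt, Equiv.piSplitAt]
    have h3 : ∀ i : ι, (Equiv.funSplitAt a ι).symm (i, w) b = w ⟨b, hab.symm⟩ := by
      intro i
      simp [Equiv.funSplitAt, Equiv.piSplitAt, hab.symm]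
    simp_rw [h2, h3]
    rw [Finset.sum_ite_eq']
    simp
  rw [Finset.sum_congr rfl (fun w _ => h1 w)]
  simp

theorem sum_collisions (k : ℕ) :
    ∑ z : Fin k → ι, ((k : ℝ) - (univ.image z).card) ≤
      (k : ℝ) ^ 2 / 2 * (Fintype.card ι : ℝ) ^ (k - 1) := by
  have h1 : ∀ z : Fin k → ι, (k : ℝ) - (univ.image z).card ≤
      ∑ b : Fin k, ∑ a : Fin k with a < b, (if z a = z b then (1 : ℝ) else 0) := by
    intro z
    have h := card_le_collisions z
    have h2 : (k : ℝ) ≤ (univ.image z).card +
        ∑ b : Fin k, ∑ a : Fin k with a < b, (if z a = z b then (1 : ℝ) else 0) := by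
      exact_mod_cast h
    linarith
  calc ∑ z : Fin k → ι, ((k : ℝ) - (univ.image z).card)
      ≤ ∑ z : Fin k → ι, ∑ b : Fin k, ∑ a : Fin k with a < b,
          (if z a = z b then (1 : ℝ) else 0) := Finset.sum_le_sum (fun z _ => h1 z)
    _ = ∑ b : Fin k, ∑ a : Fin k with a < b, (Fintype.card ι : ℝ) ^ (k - 1) := by
        rw [Finset.sum_comm]
        apply Finset.sum_congr rfl
        intro b _
        rw [Finset.sum_comm]
        apply Finset.sum_congr rfl
        intro a ha
        simp only [Finset.mem_filter, Finset.mem_univ, true_and] at ha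
        have := count_coll (ι := ι) a b ha.ne
        exact_mod_cast this
    _ = (∑ b : Fin k, (b : ℝ)) * (Fintype.card ι : ℝ) ^ (k - 1) := by
        rw [Finset.sum_mul]
        apply Finset.sum_congr rfl
        intro b _
        rw [Finset.sum_const, nsmul_eq_mul]
        congr 2
        have : (univ.filter (fun a : Fin k => a < b)) = Finset.Iio b := by
          ext a; simp
        rw [this, Fin.card_Iio]
    _ ≤ (k : ℝ) ^ 2 / 2 * (Fintype.card ι : ℝ) ^ (k - 1) := by
        apply mul_le_mul_of_nonneg_right _ (by positivity)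
        rw [Fin.sum_univ_eq_sum_range (fun i => (i : ℝ)) k]
        have h3 : (∑ i ∈ Finset.range k, i) * 2 = k * (k - 1) := Finset.sum_range_id_mul_two k
        have h4 : (∑ i ∈ Finset.range k, i) * 2 ≤ k * k := by
          rw [h3]; exact Nat.mul_le_mul_left _ (Nat.sub_le _ _)
        have h5 : (∑ i ∈ Finset.range k, (i : ℝ)) * 2 ≤ (k : ℝ) * k := by
          have h6 := (Nat.cast_le (α := ℝ)).2 h4
          push_cast at h6
          exact h6
        nlinarith

end SampleAux

open SampleAux in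
/-- Bernoulli subsets against i.i.d. samples, for monotone functions with increments `≤ 1` -/
theorem sample_le {ι : Type*} [Fintype ι] [DecidableEq ι] [Nonempty ι] (x : ℝ) (hx : 0 ≤ x)
    (hx1 : x ≤ 1) (φ : Finset ι → ℕ) (hmono : ∀ Z W, Z ⊆ W → φ Z ≤ φ W)
    (hlip : ∀ Z c, φ (insert c Z) ≤ φ Z + 1) (k : ℕ) (hk : x * Fintype.card ι < k) :
    EB x univ (fun Z => (φ Z : ℝ)) ≤
      (∑ z : Fin k → ι, (φ (univ.image z) : ℝ)) / (Fintype.card ι : ℝ) ^ k +
      x * Fintype.card ι / (4 * (k - x * Fintype.card ι)) +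
      (k : ℝ) ^ 2 / (2 * Fintype.card ι) := by
  have hn : (0 : ℝ) < (Fintype.card ι : ℝ) := by exact_mod_cast Fintype.card_pos
  have hk1 : 0 < k := by
    have : (0 : ℝ) < k := lt_of_le_of_lt (by positivity) hk
    exact_mod_cast this
  obtain ⟨T, hT⟩ : ∃ T : Finset ι, T.card = min k (Fintype.card ι) := by
    obtain ⟨T, _, hT⟩ := Finset.exists_subset_card_eq (s := (univ : Finset ι))
      (n := min k (Fintype.card ι)) (by rw [Finset.card_univ]; exact min_le_right _ _)
    exact ⟨T, hT⟩
  -- upper side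
  have hup : ∀ Z : Finset ι, L φ Z ≤ L φ T + (1 / (4 * (k - x * Fintype.card ι))) *
      ((Z.card : ℝ) - x * Fintype.card ι) ^ 2 := by
    intro Z
    set m : ℝ := x * Fintype.card ι with hm
    have hkm : 0 < (k : ℝ) - m := by linarith
    by_cases h : Z.card ≤ min k (Fintype.card ι)
    · obtain ⟨T', hZT, _, hT'⟩ := Finset.exists_subsuperset_card_eq (Finset.subset_univ Z) h
        (by rw [Finset.card_univ]; exact min_le_right _ _)
      have h1 := L_mono φ hmono hZT
      rw [L_card φ (hT'.trans hT.symm)] at h1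
      have h2 : 0 ≤ (1 / (4 * ((k : ℝ) - m))) * ((Z.card : ℝ) - m) ^ 2 := by positivity
      linarith
    · push Not at h
      have hZn : Z.card ≤ Fintype.card ι := Finset.card_le_univ Z
      have hkZ : k < Z.card := by
        rcases le_total k (Fintype.card ι) with h3 | h3
        · rwa [min_eq_left h3] at h
        · rw [min_eq_right h3] at h; omega
      have hmin : min k (Fintype.card ι) = k := min_eq_left (by omega)
      obtain ⟨T', hTZ, hT'⟩ := Finset.exists_subset_card_eq (s := Z) (n := k) hkZ.le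
      have h1 := L_lip φ hlip hTZ
      rw [L_card φ (hT'.trans (hmin ▸ hT.symm)), hT'] at h1
      have h2 : ((Z.card : ℝ) - k) ≤ (1 / (4 * ((k : ℝ) - m))) * ((Z.card : ℝ) - m) ^ 2 := by
        rw [one_div, inv_mul_eq_div, le_div_iff₀ (by positivity)]
        nlinarith [sq_nonneg (((Z.card : ℝ) - m) - 2 * ((k : ℝ) - m))]
      linarith
  have hE : EB x univ (fun Z => (φ Z : ℝ)) ≤ L φ T +
      x * Fintype.card ι / (4 * (k - x * Fintype.card ι)) := by
    rw [EB_L]
    have h1 := EB_mono x hx hx1 (univ : Finset ι) (L φ) (fun Z => L φ T +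
      (1 / (4 * (k - x * Fintype.card ι))) * ((Z.card : ℝ) - x * Fintype.card ι) ^ 2)
      (fun Z _ => hup Z)
    rw [EB_add, EB_const, EB_mul] at h1
    have h2 := EB_var_card x (univ : Finset ι)
    rw [Finset.card_univ] at h2
    rw [h2] at h1
    refine h1.trans ?_
    have hkm : 0 < (k : ℝ) - x * Fintype.card ι := by linarith
    have h3 : 1 / (4 * (k - x * Fintype.card ι)) * (x * (1 - x) * Fintype.card ι) ≤
        x * Fintype.card ι / (4 * (k - x * Fintype.card ι)) := by
      rw [one_div, inv_mul_eq_div]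
      apply div_le_div_of_nonneg_right _ (by positivity)
      nlinarith [mul_nonneg (mul_nonneg hx hx) hn.le]
    linarith
  -- lower side
  have hlow : ∀ z : Fin k → ι, L φ T ≤ L φ (univ.image z) + ((k : ℝ) - (univ.image z).card) := by
    intro z
    have hc : (univ.image z).card ≤ min k (Fintype.card ι) := by
      apply le_min
      · exact Finset.card_image_le.trans (by simp)
      · exact Finset.card_le_univ _
    obtain ⟨T', hZT, _, hT'⟩ := Finset.exists_subsuperset_card_eq
      (Finset.subset_univ (univ.image z)) hc (by rw [Finset.card_univ]; exact min_le_right _ _)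
    have h1 := L_lip φ hlip hZT
    rw [L_card φ (hT'.trans hT.symm)] at h1
    have h2 : (T'.card : ℝ) ≤ k := by
      rw [hT']; exact_mod_cast min_le_left _ _
    linarith
  have hlow2 : L φ T * (Fintype.card ι : ℝ) ^ k ≤
      (∑ z : Fin k → ι, (φ (univ.image z) : ℝ)) +
        (k : ℝ) ^ 2 / 2 * (Fintype.card ι : ℝ) ^ (k - 1) := by
    rw [sum_L]
    have h1 : L φ T * (Fintype.card ι : ℝ) ^ k = ∑ z : Fin k → ι, L φ T := by
      rw [Finset.sum_const, Finset.card_univ, Fintype.card_fun, Fintype.card_fin, nsmul_eq_mul]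
      push_cast
      ring
    rw [h1]
    refine (Finset.sum_le_sum (fun z _ => hlow z)).trans ?_
    rw [Finset.sum_add_distrib]
    linarith [sum_collisions (ι := ι) k]
  have hlow3 : L φ T ≤ (∑ z : Fin k → ι, (φ (univ.image z) : ℝ)) / (Fintype.card ι : ℝ) ^ k +
      (k : ℝ) ^ 2 / (2 * Fintype.card ι) := by
    have h1 : (k : ℝ) ^ 2 / (2 * Fintype.card ι) =
        ((k : ℝ) ^ 2 / 2 * (Fintype.card ι : ℝ) ^ (k - 1)) / (Fintype.card ι : ℝ) ^ k := by
      obtain ⟨j, rfl⟩ : ∃ j, k = j + 1 := ⟨k - 1, by omega⟩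
      rw [Nat.add_sub_cancel, pow_succ (Fintype.card ι : ℝ) j]
      field_simp
    rw [h1, ← add_div, le_div_iff₀ (by positivity)]
    exact hlow2
  linarith

end Pool.Agent.Helper81.FZ
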