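import Pool.Agent.Helper81.FZ.Defs

set_option autoImplicit false

namespace Pool.Agent.Helper81.FZ

open Finset

/-- weight of a word -/
def wt {n : ℕ} (r : Fin n → ℕ) : ℕ := ∑ a : Fin n, (a : ℕ) * r a

open Classical in
/-- shape potential -/
noncomputable def pot {n : ℕ} (r : Fin n → ℕ) : ℕ :=
  ∑ i ∈ (univ.image r).erase 0, 3 ^ (cnt r i)

end Pool.Agent.Helper81.FZ
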