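import Pool.Agent.Helper81.FZ.StepDefs

set_option autoImplicit false
set_option linter.unusedSectionVars false

namespace Pool.Agent.Helper81.FZ

open Finset

namespace SP

variable {α β : Type*} [Fintype α] [Fintype β]

theorem notFrA {σ : Finset (α × β)} {a : α} : ¬ FrA σ a ↔ ∃ b, (a, b) ∈ σ := by
  unfold FrA
  push Not
  constructor
  · rintro ⟨⟨x, y⟩, he, rfl⟩
    exact ⟨y, he⟩
  · rintro ⟨b, hb⟩
    exact ⟨(a, b), hb, rfl⟩

theorem notFrB {σ : Finset (α × β)} {b : β} : ¬ FrB σ b ↔ ∃ a, (a, b) ∈ σ := by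
  unfold FrB
  push Not
  constructor
  · rintro ⟨⟨x, y⟩, he, rfl⟩
    exact ⟨x, he⟩
  · rintro ⟨a, ha⟩
    exact ⟨(a, b), ha, rfl⟩

theorem RM_iff {r : α → ℕ} {s : β → ℕ} {σ : Finset (α × β)} :
    RM r s σ ↔ IsM σ ∧ (∀ a b, (a, b) ∈ σ → r a = s b ∧ 1 ≤ r a) ∧
      (∀ a, 1 ≤ r a → ∃ b, (a, b) ∈ σ) ∧ (∀ b, 1 ≤ s b → ∃ a, (a, b) ∈ σ) := by
  unfold RM
  constructor
  · rintro ⟨h1, h2, h3, h4⟩
    exact ⟨h1, fun a b h => h2 (a, b) h, fun a ha => notFrA.1 (h3 a ha),
      fun b hb => notFrB.1 (h4 b hb)⟩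
  · rintro ⟨h1, h2, h3, h4⟩
    exact ⟨h1, fun e h => h2 e.1 e.2 h, fun a ha => notFrA.2 (h3 a ha),
      fun b hb => notFrB.2 (h4 b hb)⟩

theorem uniqB {σ : Finset (α × β)} (h : IsM σ) {a : α} {b b' : β} (h1 : (a, b) ∈ σ)
    (h2 : (a, b') ∈ σ) : b = b' := by
  have := h _ h1 _ h2 (Or.inl rfl)
  exact (Prod.mk.inj this).2

theorem uniqA {σ : Finset (α × β)} (h : IsM σ) {a a' : α} {b : β} (h1 : (a, b) ∈ σ)
    (h2 : (a', b) ∈ σ) : a = a' := by
  have := h _ h1 _ h2 (Or.inr rfl)
  exact (Prod.mk.inj this).1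

open Classical in
/-- image of a set under a matching -/
noncomputable def im (σ : Finset (α × β)) (A : Finset α) : Finset β :=
  univ.filter (fun b => ∃ a ∈ A, (a, b) ∈ σ)

open Classical in
/-- preimage of a set under a matching -/
noncomputable def preim (σ : Finset (α × β)) (B : Finset β) : Finset α :=
  univ.filter (fun a => ∃ b ∈ B, (a, b) ∈ σ)

theorem mem_im {σ : Finset (α × β)} {A : Finset α} {b : β} :
    b ∈ im σ A ↔ ∃ a ∈ A, (a, b) ∈ σ := by
  classical
  simp [im]

theorem mem_preim {σ : Finset (α × β)} {B : Finset β} {a : α} :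
    a ∈ preim σ B ↔ ∃ b ∈ B, (a, b) ∈ σ := by
  classical
  simp [preim]

theorem card_im {σ : Finset (α × β)} (h : IsM σ) {A : Finset α}
    (hA : ∀ a ∈ A, ∃ b, (a, b) ∈ σ) : (im σ A).card = A.card := by
  classical
  symm
  refine Finset.card_bij (fun a ha => Classical.choose (hA a ha)) ?_ ?_ ?_
  · intro a ha
    exact mem_im.2 ⟨a, ha, Classical.choose_spec (hA a ha)⟩
  · intro a ha a' ha' he
    have h1 := Classical.choose_spec (hA a ha)
    have h2 := Classical.choose_spec (hA a' ha')
    rw [he] at h1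
    exact uniqA h h1 h2
  · intro b hb
    obtain ⟨a, ha, hab⟩ := mem_im.1 hb
    exact ⟨a, ha, uniqB h (Classical.choose_spec (hA a ha)) hab⟩

theorem card_preim {σ : Finset (α × β)} (h : IsM σ) {B : Finset β}
    (hB : ∀ b ∈ B, ∃ a, (a, b) ∈ σ) : (preim σ B).card = B.card := by
  classical
  symm
  refine Finset.card_bij (fun b hb => Classical.choose (hB b hb)) ?_ ?_ ?_
  · intro b hb
    exact mem_preim.2 ⟨b, hb, Classical.choose_spec (hB b hb)⟩
  · intro b hb b' hb' he
    have h1 := Classical.choose_spec (hB b hb)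
    have h2 := Classical.choose_spec (hB b' hb')
    rw [he] at h1
    exact uniqB h h1 h2
  · intro a ha
    obtain ⟨b, hb, hab⟩ := mem_preim.1 ha
    exact ⟨b, hb, uniqA h (Classical.choose_spec (hB b hb)) hab⟩

theorem cnt_eq_of_RM {r : α → ℕ} {s : β → ℕ} {σ : Finset (α × β)} (h : RM r s σ) {j : ℕ}
    (hj : 1 ≤ j) : cnt r j = cnt s j := by
  classical
  obtain ⟨h1, h2, h3, h4⟩ := RM_iff.1 h
  unfold cnt
  rw [← card_im h1 (A := univ.filter fun a => r a = j)
    (fun a ha => h3 a (by rw [(mem_filter.1 ha).2]; exact hj))]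
  congr 1
  ext b
  rw [mem_im]
  simp only [mem_filter, mem_univ, true_and]
  constructor
  · rintro ⟨a, ha, hab⟩
    rw [← (h2 a b hab).1, ha]
  · intro hb
    obtain ⟨a, ha⟩ := h4 b (by rw [hb]; exact hj)
    exact ⟨a, by rw [(h2 a b ha).1, hb], ha⟩

theorem ev_eq_zero_of_not {K : Type*} [Field K] {r : α → ℕ} {s : β → ℕ}
    (F : Finset (α × β) → K) (h : ∀ σ, ¬ RM r s σ) : ev r s F = 0 := by
  classical
  unfold ev
  apply Finset.sum_eq_zero
  intro σ hσ
  exact absurd (mem_filter.1 hσ).2 (h σ)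

section regroup

variable (rA : α → ℕ) (rB : β → ℕ) (i M : ℕ) (V Y : Finset α)

open Classical in
/-- the word with row `i+1` replaced by `W` -/
noncomputable def rW (W : Finset α) : α → ℕ :=
  fun a => if rA a = i ∨ rA a = i + 1 then (if a ∈ W then i + 1 else i) else rA a

open Classical in
/-- the word with rows `V`, `Y`, rest -/
noncomputable def r2 : α → ℕ :=
  fun a => if a ∈ V then i + 1 else if a ∈ Y then M else if rA a = i ∨ rA a = i + 1 then i
    else rA a

open Classical in
/-- the word with rows `V0`, `Y0`, rest -/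
noncomputable def s2 (V0 Y0 : Finset β) : β → ℕ :=
  fun b => if b ∈ V0 then i + 1 else if b ∈ Y0 then M else if rB b = i ∨ rB b = i + 1 then i
    else rB b

variable {rA rB i M V Y}

theorem rW_off {W : Finset α} {a : α} (h : ¬ (rA a = i ∨ rA a = i + 1)) : rW rA i W a = rA a := by
  simp [rW, h]

theorem rW_in {W : Finset α} {a : α} (h : rA a = i ∨ rA a = i + 1) (hW : a ∈ W) :
    rW rA i W a = i + 1 := by
  simp [rW, h, hW]

theorem rW_out {W : Finset α} {a : α} (h : rA a = i ∨ rA a = i + 1) (hW : a ∉ W) :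
    rW rA i W a = i := by
  simp [rW, h, hW]

theorem forward (hi : 1 ≤ i) (hV : ∀ a ∈ V, rA a = i ∨ rA a = i + 1)
    (hY : ∀ a ∈ Y, rA a = i ∨ rA a = i + 1) {W : Finset α}
    (hM : i + 1 < M)
    (hWU : ∀ a ∈ W, rA a = i ∨ rA a = i + 1) (hVW : V ⊆ W) (hWY : Disjoint W Y)
    {σ : Finset (α × β)} (h : RM (rW rA i W) rB σ) :
    (∀ b ∈ im σ V, rB b = i + 1) ∧ (im σ V).card = V.card ∧ (∀ b ∈ im σ Y, rB b = i) ∧
      (im σ Y).card = Y.card ∧ RM (r2 rA i M V Y) (s2 rB i M (im σ V) (im σ Y)) σ ∧
      ∀ B : Finset β, (∀ b, b ∈ B ↔ rB b = i + 1) → preim σ B = W := by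
  classical
  obtain ⟨h1, h2, h3, h4⟩ := RM_iff.1 h
  have hWY' : ∀ a ∈ Y, a ∉ W := fun a ha hW => Finset.disjoint_left.1 hWY hW ha
  have hcovU : ∀ a, (rA a = i ∨ rA a = i + 1) → ∃ b, (a, b) ∈ σ := by
    intro a ha
    apply h3
    by_cases hW : a ∈ W
    · rw [rW_in ha hW]; omega
    · rw [rW_out ha hW]; omega
  have hVmem : ∀ a b, (a, b) ∈ σ → (b ∈ im σ V ↔ a ∈ V) := by
    intro a b hab
    rw [mem_im]
    constructor
    · rintro ⟨a', ha', hab'⟩
      rwa [uniqA h1 hab hab']
    · intro ha
      exact ⟨a, ha, hab⟩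
  have hYmem : ∀ a b, (a, b) ∈ σ → (b ∈ im σ Y ↔ a ∈ Y) := by
    intro a b hab
    rw [mem_im]
    constructor
    · rintro ⟨a', ha', hab'⟩
      rwa [uniqA h1 hab hab']
    · intro ha
      exact ⟨a, ha, hab⟩
  have hUmem : ∀ a b, (a, b) ∈ σ → ((rB b = i ∨ rB b = i + 1) ↔ (rA a = i ∨ rA a = i + 1)) := by
    intro a b hab
    rw [← (h2 a b hab).1]
    by_cases hU : rA a = i ∨ rA a = i + 1
    · by_cases hW : a ∈ W
      · rw [rW_in hU hW]; simp [hU]
      · rw [rW_out hU hW]; simp [hU]
    · rw [rW_off hU]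
  refine ⟨?_, card_im h1 fun a ha => hcovU a (hV a ha), ?_,
    card_im h1 fun a ha => hcovU a (hY a ha), ?_, ?_⟩
  · intro b hb
    obtain ⟨a, ha, hab⟩ := mem_im.1 hb
    rw [← (h2 a b hab).1, rW_in (hV a ha) (hVW ha)]
  · intro b hb
    obtain ⟨a, ha, hab⟩ := mem_im.1 hb
    rw [← (h2 a b hab).1, rW_out (hY a ha) (hWY' a ha)]
  · rw [RM_iff]
    refine ⟨h1, ?_, ?_, ?_⟩
    · intro a b hab
      have e1 := hVmem a b hab
      have e2 := hYmem a b hab
      have e3 := hUmem a b hab
      have e4 := h2 a b hab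
      unfold r2 s2
      by_cases c1 : a ∈ V
      · rw [if_pos c1, if_pos (e1.2 c1)]
        omega
      · rw [if_neg c1, if_neg (fun hh => c1 (e1.1 hh))]
        by_cases c2 : a ∈ Y
        · rw [if_pos c2, if_pos (e2.2 c2)]
          omega
        · rw [if_neg c2, if_neg (fun hh => c2 (e2.1 hh))]
          by_cases c3 : rA a = i ∨ rA a = i + 1
          · rw [if_pos c3, if_pos (e3.2 c3)]
            omega
          · rw [if_neg c3, if_neg (fun hh => c3 (e3.1 hh))]
            rw [rW_off c3] at e4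
            exact e4
    · intro a ha
      by_cases c3 : rA a = i ∨ rA a = i + 1
      · exact hcovU a c3
      · have c1 : a ∉ V := fun hh => c3 (hV a hh)
        have c2 : a ∉ Y := fun hh => c3 (hY a hh)
        unfold r2 at ha
        rw [if_neg c1, if_neg c2, if_neg c3] at ha
        apply h3
        rw [rW_off c3]
        exact ha
    · intro b hb
      by_cases c1 : b ∈ im σ V
      · obtain ⟨a, _, hab⟩ := mem_im.1 c1
        exact ⟨a, hab⟩
      · by_cases c2 : b ∈ im σ Y
        · obtain ⟨a, _, hab⟩ := mem_im.1 c2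
          exact ⟨a, hab⟩
        · unfold s2 at hb
          rw [if_neg c1, if_neg c2] at hb
          apply h4
          by_cases c3 : rB b = i ∨ rB b = i + 1
          · omega
          · rw [if_neg c3] at hb
            exact hb
  · intro B hB
    ext a
    rw [mem_preim]
    constructor
    · rintro ⟨b, hb, hab⟩
      have hb' := (hB b).1 hb
      have e3 := (hUmem a b hab).1 (Or.inr hb')
      by_contra hW
      have e4 := (h2 a b hab).1
      rw [rW_out e3 hW] at e4
      omega
    · intro ha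
      obtain ⟨b, hab⟩ := hcovU a (hWU a ha)
      refine ⟨b, (hB b).2 ?_, hab⟩
      rw [← (h2 a b hab).1, rW_in (hWU a ha) ha]

theorem backward (hi : 1 ≤ i) (hV : ∀ a ∈ V, rA a = i ∨ rA a = i + 1)
    (hY : ∀ a ∈ Y, rA a = i ∨ rA a = i + 1) (hVY : Disjoint V Y)
    (hM : i + 1 < M) (hMA : ∀ a, rA a < M) (hMB : ∀ b, rB b < M)
    {V0 Y0 B : Finset β} (hV0 : ∀ b ∈ V0, rB b = i + 1) (hY0 : ∀ b ∈ Y0, rB b = i)
    (hB : ∀ b, b ∈ B ↔ rB b = i + 1)
    {σ : Finset (α × β)} (h : RM (r2 rA i M V Y) (s2 rB i M V0 Y0) σ) :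
    (∀ a ∈ preim σ B, rA a = i ∨ rA a = i + 1) ∧ (preim σ B).card = B.card ∧ V ⊆ preim σ B ∧
      Disjoint (preim σ B) Y ∧ RM (rW rA i (preim σ B)) rB σ ∧ im σ V = V0 ∧ im σ Y = Y0 := by
  classical
  obtain ⟨h1, h2, h3, h4⟩ := RM_iff.1 h
  have hY' : ∀ a ∈ Y, a ∉ V := fun a ha hW => Finset.disjoint_left.1 hVY hW ha
  have hY0' : ∀ b ∈ Y0, b ∉ V0 := by
    intro b hb hb'
    have := hV0 b hb'
    have := hY0 b hb
    omega
  -- values of the words
  have rV : ∀ a ∈ V, r2 rA i M V Y a = i + 1 := fun a ha => by unfold r2; rw [if_pos ha]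
  have rY : ∀ a ∈ Y, r2 rA i M V Y a = M := fun a ha => by
    unfold r2; rw [if_neg (hY' a ha), if_pos ha]
  have rU : ∀ a, a ∉ V → a ∉ Y → (rA a = i ∨ rA a = i + 1) → r2 rA i M V Y a = i :=
    fun a c1 c2 c3 => by unfold r2; rw [if_neg c1, if_neg c2, if_pos c3]
  have rO : ∀ a, ¬ (rA a = i ∨ rA a = i + 1) → r2 rA i M V Y a = rA a :=
    fun a c3 => by
      unfold r2
      rw [if_neg (fun hh => c3 (hV a hh)), if_neg (fun hh => c3 (hY a hh)), if_neg c3]
  have sV : ∀ b ∈ V0, s2 rB i M V0 Y0 b = i + 1 := fun a ha => by unfold s2; rw [if_pos ha]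
  have sY : ∀ b ∈ Y0, s2 rB i M V0 Y0 b = M := fun a ha => by
    unfold s2; rw [if_neg (hY0' a ha), if_pos ha]
  have sU : ∀ b, b ∉ V0 → b ∉ Y0 → (rB b = i ∨ rB b = i + 1) → s2 rB i M V0 Y0 b = i :=
    fun a c1 c2 c3 => by unfold s2; rw [if_neg c1, if_neg c2, if_pos c3]
  have sO : ∀ b, ¬ (rB b = i ∨ rB b = i + 1) → s2 rB i M V0 Y0 b = rB b :=
    fun a c3 => by
      unfold s2
      rw [if_neg (fun hh => c3 (Or.inr (hV0 a hh))), if_neg (fun hh => c3 (Or.inl (hY0 a hh))),
        if_neg c3]
  -- membership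
  have key : ∀ a b, (a, b) ∈ σ → (a ∈ V ↔ b ∈ V0) ∧ (a ∈ Y ↔ b ∈ Y0) ∧
      ((rA a = i ∨ rA a = i + 1) ↔ (rB b = i ∨ rB b = i + 1)) ∧
      (¬ (rA a = i ∨ rA a = i + 1) → rA a = rB b) := by
    intro a b hab
    have e := (h2 a b hab).1
    have hMa := hMA a
    have hMb := hMB b
    by_cases c1 : a ∈ V
    · have hc := hV a c1
      have hy : a ∉ Y := fun hh => hY' a hh c1
      rw [rV a c1] at e
      by_cases d1 : b ∈ V0
      · have hd := hV0 b d1
        have hy0 : b ∉ Y0 := fun hh => hY0' b hh d1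
        refine ⟨by simp [c1, d1], by simp [hy, hy0], ?_, fun hn => absurd hc hn⟩
        constructor
        · intro _; exact Or.inr hd
        · intro _; exact hc
      · by_cases d2 : b ∈ Y0
        · rw [sY b d2] at e; omega
        · by_cases d3 : rB b = i ∨ rB b = i + 1
          · rw [sU b d1 d2 d3] at e; omega
          · rw [sO b d3] at e; omega
    · by_cases c2 : a ∈ Y
      · have hc := hY a c2
        rw [rY a c2] at e
        by_cases d1 : b ∈ V0
        · rw [sV b d1] at e; omega
        · by_cases d2 : b ∈ Y0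
          · have hd := hY0 b d2
            refine ⟨by simp [c1, d1], by simp [c2, d2], ?_, fun hn => absurd hc hn⟩
            constructor
            · intro _; exact Or.inl hd
            · intro _; exact hc
          · by_cases d3 : rB b = i ∨ rB b = i + 1
            · rw [sU b d1 d2 d3] at e; omega
            · rw [sO b d3] at e; omega
      · by_cases c3 : rA a = i ∨ rA a = i + 1
        · rw [rU a c1 c2 c3] at e
          by_cases d1 : b ∈ V0
          · rw [sV b d1] at e; omega
          · by_cases d2 : b ∈ Y0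
            · rw [sY b d2] at e; omega
            · by_cases d3 : rB b = i ∨ rB b = i + 1
              · refine ⟨by simp [c1, d1], by simp [c2, d2], by simp [c3, d3],
                  fun hn => absurd c3 hn⟩
              · rw [sO b d3] at e; omega
        · rw [rO a c3] at e
          by_cases d1 : b ∈ V0
          · rw [sV b d1] at e; omega
          · by_cases d2 : b ∈ Y0
            · rw [sY b d2] at e; omega
            · by_cases d3 : rB b = i ∨ rB b = i + 1
              · rw [sU b d1 d2 d3] at e; omega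
              · rw [sO b d3] at e
                refine ⟨by simp [c1, d1], by simp [c2, d2], by simp [c3, d3],
                  fun hn => e⟩
  have hcovB : ∀ b, 1 ≤ rB b → ∃ a, (a, b) ∈ σ := by
    intro b hb
    apply h4
    by_cases d1 : b ∈ V0
    · rw [sV b d1]; omega
    · by_cases d2 : b ∈ Y0
      · rw [sY b d2]; omega
      · by_cases d3 : rB b = i ∨ rB b = i + 1
        · rw [sU b d1 d2 d3]; omega
        · rw [sO b d3]; exact hb
  have hcovA : ∀ a, 1 ≤ rA a → ∃ b, (a, b) ∈ σ := by
    intro a ha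
    apply h3
    by_cases d1 : a ∈ V
    · rw [rV a d1]; omega
    · by_cases d2 : a ∈ Y
      · rw [rY a d2]; omega
      · by_cases d3 : rA a = i ∨ rA a = i + 1
        · rw [rU a d1 d2 d3]; omega
        · rw [rO a d3]; exact ha
  have hpre : ∀ a b, (a, b) ∈ σ → (a ∈ preim σ B ↔ rB b = i + 1) := by
    intro a b hab
    rw [mem_preim]
    constructor
    · rintro ⟨b', hb', hab'⟩
      rw [uniqB h1 hab hab']
      exact (hB b').1 hb'
    · intro hb
      exact ⟨b, (hB b).2 hb, hab⟩
  refine ⟨?_, ?_, ?_, ?_, ?_, ?_, ?_⟩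
  · intro a ha
    obtain ⟨b, hb, hab⟩ := mem_preim.1 ha
    exact ((key a b hab).2.2.1).2 (Or.inr ((hB b).1 hb))
  · exact card_preim h1 fun b hb => hcovB b (by have := (hB b).1 hb; omega)
  · intro a ha
    obtain ⟨b, hab⟩ := hcovA a (by have := hV a ha; omega)
    exact (hpre a b hab).2 (hV0 b (((key a b hab).1).1 ha))
  · rw [Finset.disjoint_left]
    intro a ha haY
    obtain ⟨b, hb, hab⟩ := mem_preim.1 ha
    have e1 := (hB b).1 hb
    have e2 := hY0 b (((key a b hab).2.1).1 haY)
    omega
  · rw [RM_iff]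
    refine ⟨h1, ?_, ?_, ?_⟩
    · intro a b hab
      obtain ⟨k1, k2, k3, k4⟩ := key a b hab
      by_cases c3 : rA a = i ∨ rA a = i + 1
      · rcases k3.1 c3 with d | d
        · have hn : a ∉ preim σ B := by
            rw [hpre a b hab]; omega
          rw [rW_out c3 hn]
          omega
        · have hn : a ∈ preim σ B := by
            rw [hpre a b hab]; exact d
          rw [rW_in c3 hn]
          omega
      · rw [rW_off c3]
        have e4 := h2 a b hab
        rw [rO a c3] at e4
        exact ⟨k4 c3, e4.2⟩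
    · intro a ha
      apply hcovA
      by_cases c3 : rA a = i ∨ rA a = i + 1
      · omega
      · rw [rW_off c3] at ha
        exact ha
    · exact hcovB
  · ext b
    rw [mem_im]
    constructor
    · rintro ⟨a, ha, hab⟩
      exact ((key a b hab).1).1 ha
    · intro hb
      obtain ⟨a, hab⟩ := hcovB b (by have := hV0 b hb; omega)
      exact ⟨a, ((key a b hab).1).2 hb, hab⟩
  · ext b
    rw [mem_im]
    constructor
    · rintro ⟨a, ha, hab⟩
      exact ((key a b hab).2.1).1 ha
    · intro hb
      obtain ⟨a, hab⟩ := hcovB b (by have := hY0 b hb; omega)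
      exact ⟨a, ((key a b hab).2.1).2 hb, hab⟩

open Classical in
theorem regroup (K : Type*) [Field K] (F : Finset (α × β) → K) (hi : 1 ≤ i)
    (hV : ∀ a ∈ V, rA a = i ∨ rA a = i + 1)
    (hY : ∀ a ∈ Y, rA a = i ∨ rA a = i + 1) (hVY : Disjoint V Y)
    (hM : i + 1 < M) (hMA : ∀ a, rA a < M) (hMB : ∀ b, rB b < M) :
    ∑ W ∈ (powersetCard (cnt rB (i + 1)) (univ.filter fun a => rA a = i ∨ rA a = i + 1)).filter
        (fun W => V ⊆ W ∧ Disjoint W Y), ev (rW rA i W) rB F =
      ∑ p ∈ powersetCard V.card (univ.filter fun b => rB b = i + 1) ×ˢ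
        powersetCard Y.card (univ.filter fun b => rB b = i),
        ev (r2 rA i M V Y) (s2 rB i M p.1 p.2) F := by
  unfold ev
  rw [Finset.sum_sigma', Finset.sum_sigma']
  have hB : ∀ b, b ∈ (univ.filter fun b => rB b = i + 1) ↔ rB b = i + 1 := by
    intro b; simp
  refine Finset.sum_bij' (fun x _ => ⟨(im x.2 V, im x.2 Y), x.2⟩)
    (fun x _ => ⟨preim x.2 (univ.filter fun b => rB b = i + 1), x.2⟩) ?_ ?_ ?_ ?_ ?_
  · rintro ⟨W, σ⟩ hx
    simp only [mem_sigma, mem_filter, mem_powersetCard, mem_univ, true_and] at hx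
    obtain ⟨⟨⟨hWU, hWc⟩, hVW, hWY⟩, hR⟩ := hx
    obtain ⟨f1, f2, f3, f4, f5, f6⟩ := forward (β := β) (rB := rB) hi hV hY hM
      (fun a ha => by have := hWU ha; simpa using this) hVW hWY hR
    simp only [mem_sigma, mem_filter, mem_powersetCard, mem_univ, true_and, mem_product]
    refine ⟨⟨⟨fun b hb => by simpa using f1 b hb, f2⟩, ⟨fun b hb => by simpa using f3 b hb, f4⟩⟩,
      f5⟩
  · rintro ⟨⟨V0, Y0⟩, σ⟩ hx
    simp only [mem_sigma, mem_filter, mem_powersetCard, mem_univ, true_and, mem_product] at hx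
    obtain ⟨⟨⟨hV0, hV0c⟩, hY0, hY0c⟩, hR⟩ := hx
    obtain ⟨f1, f2, f3, f4, f5, f6, f7⟩ := backward hi hV hY hVY hM hMA hMB
      (fun b hb => by have := hV0 hb; simpa using this)
      (fun b hb => by have := hY0 hb; simpa using this) hB hR
    simp only [mem_sigma, mem_filter, mem_powersetCard, mem_univ, true_and]
    refine ⟨⟨⟨fun a ha => by simpa using f1 a ha, ?_⟩, f3, f4⟩, f5⟩
    rw [f2]
    unfold cnt
    congr
  · rintro ⟨W, σ⟩ hx
    simp only [mem_sigma, mem_filter, mem_powersetCard, mem_univ, true_and] at hx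
    obtain ⟨⟨⟨hWU, hWc⟩, hVW, hWY⟩, hR⟩ := hx
    obtain ⟨f1, f2, f3, f4, f5, f6⟩ := forward (β := β) (rB := rB) hi hV hY hM
      (fun a ha => by have := hWU ha; simpa using this) hVW hWY hR
    simp only
    rw [f6 _ hB]
  · rintro ⟨⟨V0, Y0⟩, σ⟩ hx
    simp only [mem_sigma, mem_filter, mem_powersetCard, mem_univ, true_and, mem_product] at hx
    obtain ⟨⟨⟨hV0, hV0c⟩, hY0, hY0c⟩, hR⟩ := hx
    obtain ⟨f1, f2, f3, f4, f5, f6, f7⟩ := backward hi hV hY hVY hM hMA hMB
      (fun b hb => by have := hV0 hb; simpa using this)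
      (fun b hb => by have := hY0 hb; simpa using this) hB hR
    simp only
    rw [f6, f7]
  · rintro ⟨W, σ⟩ hx
    rfl

end regroup

/-- weights increase when the letters of the violated prefix are moved down -/
theorem wt_lt {m : ℕ} (rA : Fin m → ℕ) (i k : ℕ) (W W0 : Finset (Fin m))
    (hW0 : ∀ a, a ∈ W0 ↔ rA a = i + 1)
    (hW : ∀ a ∈ W, rA a = i ∨ rA a = i + 1) (hcard : W.card = W0.card)
    (h1 : ∀ a ∈ W, a ∉ W0 → k ≤ (a : ℕ)) (h2 : ∀ a ∈ W0, a ∉ W → (a : ℕ) < k)
    (hne : W ≠ W0) : wt rA < wt (rW rA i W) := by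
  classical
  have e : wt (rW rA i W) + ∑ a ∈ W0 \ W, (a : ℕ) = wt rA + ∑ a ∈ W \ W0, (a : ℕ) := by
    unfold wt
    have s1 : ∑ a ∈ W0 \ W, (a : ℕ) = ∑ a : Fin m, if a ∈ W0 \ W then (a : ℕ) else 0 := by
      rw [Finset.sum_ite_mem, Finset.univ_inter]
    have s2 : ∑ a ∈ W \ W0, (a : ℕ) = ∑ a : Fin m, if a ∈ W \ W0 then (a : ℕ) else 0 := by
      rw [Finset.sum_ite_mem, Finset.univ_inter]
    rw [s1, s2, ← Finset.sum_add_distrib, ← Finset.sum_add_distrib]
    apply Finset.sum_congr rfl
    intro a _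
    by_cases c : rA a = i ∨ rA a = i + 1
    · by_cases d : a ∈ W
      · rw [rW_in c d]
        by_cases e : a ∈ W0
        · have := (hW0 a).1 e
          simp [d, e, this]
        · have : rA a = i := by
            rcases c with c | c
            · exact c
            · exact absurd ((hW0 a).2 c) e
          simp [d, e, this]
          ring
      · rw [rW_out c d]
        by_cases e : a ∈ W0
        · have := (hW0 a).1 e
          simp [d, e, this]
          ring
        · have : rA a = i := by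
            rcases c with c | c
            · exact c
            · exact absurd ((hW0 a).2 c) e
          simp [d, e, this]
    · rw [rW_off c]
      have d : a ∉ W := fun hh => c (hW a hh)
      have e : a ∉ W0 := fun hh => c (Or.inr ((hW0 a).1 hh))
      simp [d, e]
  have hc2 : (W0 \ W).card = (W \ W0).card := by
    have := Finset.card_sdiff_add_card_inter W0 W
    have h' := Finset.card_sdiff_add_card_inter W W0
    rw [Finset.inter_comm] at h'
    omega
  have hne2 : (W0 \ W).Nonempty := by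
    rw [Finset.nonempty_iff_ne_empty]
    intro h0
    have hsub : W0 ⊆ W := Finset.sdiff_eq_empty_iff_subset.1 h0
    exact hne (Finset.eq_of_subset_of_card_le hsub hcard.le).symm
  have lt1 : ∑ a ∈ W0 \ W, (a : ℕ) < ∑ a ∈ W0 \ W, k :=
    Finset.sum_lt_sum_of_nonempty hne2 fun a ha =>
      h2 a (Finset.mem_sdiff.1 ha).1 (Finset.mem_sdiff.1 ha).2
  have le2 : ∑ a ∈ W \ W0, k ≤ ∑ a ∈ W \ W0, (a : ℕ) :=
    Finset.sum_le_sum fun a ha => h1 a (Finset.mem_sdiff.1 ha).1 (Finset.mem_sdiff.1 ha).2
  rw [Finset.sum_const, smul_eq_mul] at lt1 le2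
  rw [hc2] at lt1
  omega

theorem cnt_rW {m : ℕ} (rA : Fin m → ℕ) (i : ℕ) (W W0 : Finset (Fin m))
    (hW0 : ∀ a, a ∈ W0 ↔ rA a = i + 1)
    (hW : ∀ a ∈ W, rA a = i ∨ rA a = i + 1) (hcard : W.card = W0.card) (j : ℕ) :
    cnt (rW rA i W) j = cnt rA j := by
  classical
  unfold cnt
  have e1 : (univ.filter fun a => rA a = i + 1) = W0 := by
    ext a; simp [hW0]
  by_cases j1 : j = i + 1
  · subst j1
    rw [e1, ← hcard]
    congr 1
    ext a
    simp only [mem_filter, mem_univ, true_and]
    constructor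
    · intro h
      by_contra hn
      by_cases c : rA a = i ∨ rA a = i + 1
      · rw [rW_out c hn] at h; omega
      · rw [rW_off c] at h; omega
    · intro h
      exact rW_in (hW a h) h
  · by_cases j2 : j = i
    · subst j2
      have e2 : (univ.filter fun a => rW rA j W a = j) =
          (univ.filter fun a => rA a = j ∨ rA a = j + 1) \ W := by
        ext a
        simp only [mem_filter, mem_univ, true_and, mem_sdiff]
        constructor
        · intro h
          by_cases c : rA a = j ∨ rA a = j + 1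
          · refine ⟨c, fun hn => ?_⟩
            rw [rW_in c hn] at h; omega
          · rw [rW_off c] at h; omega
        · rintro ⟨h, hn⟩
          exact rW_out h hn
      have e3 : (univ.filter fun a => rA a = j) =
          (univ.filter fun a => rA a = j ∨ rA a = j + 1) \ W0 := by
        ext a
        simp only [mem_filter, mem_univ, true_and, mem_sdiff, hW0]
        omega
      rw [e2, e3, Finset.card_sdiff_of_subset, Finset.card_sdiff_of_subset, hcard]
      · intro a ha
        simp only [mem_filter, mem_univ, true_and]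
        exact Or.inr ((hW0 a).1 ha)
      · intro a ha
        simp only [mem_filter, mem_univ, true_and]
        exact hW a ha
    · congr 1
      ext a
      simp only [mem_filter, mem_univ, true_and]
      by_cases c : rA a = i ∨ rA a = i + 1
      · by_cases d : a ∈ W
        · rw [rW_in c d]; omega
        · rw [rW_out c d]; omega
      · rw [rW_off c]

end SP

/-- straightening step, rows `i, i+1` with `i ≥ 1` -/
theorem step_pos (K : Type*) [Field K] (m n s : ℕ) (F : Finset (Fin m × Fin n) → K)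
    (hF : F ∈ NM K (Fin m) (Fin n) s) (rA : Fin m → ℕ) (rB : Fin n → ℕ)
    (hc : ∀ i, 1 ≤ i → cnt rA i = cnt rB i) (hs : cnt rA 0 + s = m)
    (i k : ℕ) (hi : 1 ≤ i) (hsort : cnt rA (i + 1) ≤ cnt rA i)
    (hviol : pre rA k i < pre rA k (i + 1))
    (IHw : ∀ r' : Fin m → ℕ, (∀ j, cnt r' j = cnt rA j) → wt rA < wt r' → ev r' rB F = 0)
    (IHs : ∀ (r' : Fin m → ℕ) (s' : Fin n → ℕ), (∀ j, 1 ≤ j → cnt r' j = cnt s' j) →
      cnt r' 0 + s = m → pot rA < pot r' → ev r' s' F = 0) :
    ev rA rB F = 0 := by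
  classical
  let V : Finset (Fin m) := univ.filter (fun a : Fin m => k ≤ (a : ℕ) ∧ rA a = i + 1)
  let Y : Finset (Fin m) := univ.filter (fun a : Fin m => (a : ℕ) < k ∧ rA a = i)
  let W0 : Finset (Fin m) := univ.filter (fun a : Fin m => rA a = i + 1)
  let M : ℕ := i + 2 + ∑ a, rA a + ∑ b, rB b
  have hVm : ∀ a, a ∈ V ↔ k ≤ (a : ℕ) ∧ rA a = i + 1 := fun a => by simp [V]
  have hYm : ∀ a, a ∈ Y ↔ (a : ℕ) < k ∧ rA a = i := fun a => by simp [Y]
  have hW0m : ∀ a, a ∈ W0 ↔ rA a = i + 1 := fun a => by simp [W0]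
  have hV : ∀ a ∈ V, rA a = i ∨ rA a = i + 1 := fun a ha => Or.inr ((hVm a).1 ha).2
  have hY : ∀ a ∈ Y, rA a = i ∨ rA a = i + 1 := fun a ha => Or.inl ((hYm a).1 ha).2
  have hVY : Disjoint V Y := by
    rw [Finset.disjoint_left]
    intro a ha ha'
    have := ((hVm a).1 ha).2
    have := ((hYm a).1 ha').2
    omega
  have hM : i + 1 < M := by simp only [M]; omega
  have hMA : ∀ a, rA a < M := by
    intro a
    have : rA a ≤ ∑ a, rA a := Finset.single_le_sum (f := rA) (fun _ _ => Nat.zero_le _)
      (mem_univ a)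
    simp only [M]; omega
  have hMB : ∀ a, rB a < M := by
    intro a
    have : rB a ≤ ∑ a, rB a := Finset.single_le_sum (f := rB) (fun _ _ => Nat.zero_le _)
      (mem_univ a)
    simp only [M]; omega
  have hW0c : W0.card = cnt rB (i + 1) := by
    rw [← hc (i + 1) (by omega)]
    rfl
  have hreg := SP.regroup (rA := rA) (rB := rB) (i := i) (M := M) (V := V) (Y := Y) K F hi hV hY
    hVY hM hMA hMB
  have hL : ∑ W ∈ (powersetCard (cnt rB (i + 1))
      (univ.filter fun a => rA a = i ∨ rA a = i + 1)).filter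
        (fun W => V ⊆ W ∧ Disjoint W Y), ev (SP.rW rA i W) rB F = ev rA rB F := by
    rw [Finset.sum_eq_single W0]
    · congr 1
      funext a
      by_cases c : rA a = i ∨ rA a = i + 1
      · by_cases d : a ∈ W0
        · rw [SP.rW_in c d, (hW0m a).1 d]
        · rw [SP.rW_out c d]
          rw [hW0m] at d
          omega
      · rw [SP.rW_off c]
    · intro W hW hne
      simp only [mem_filter, mem_powersetCard] at hW
      obtain ⟨⟨hWU, hWc⟩, hVW, hWY⟩ := hW
      have hWU' : ∀ a ∈ W, rA a = i ∨ rA a = i + 1 := fun a ha => by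
        have := hWU ha
        simpa using this
      have hcard : W.card = W0.card := by rw [hWc, hW0c]
      apply IHw
      · exact SP.cnt_rW rA i W W0 hW0m hWU' hcard
      · refine SP.wt_lt rA i k W W0 hW0m hWU' hcard ?_ ?_ hne
        · intro a ha hna
          by_contra hlt
          push Not at hlt
          have h1 : rA a = i := by
            rcases hWU' a ha with h | h
            · exact h
            · exact absurd ((hW0m a).2 h) hna
          exact Finset.disjoint_left.1 hWY ha ((hYm a).2 ⟨hlt, h1⟩)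
        · intro a ha hna
          by_contra hge
          push Not at hge
          exact hna (hVW ((hVm a).2 ⟨hge, (hW0m a).1 ha⟩))
    · intro hn
      exfalso
      apply hn
      simp only [mem_filter, mem_powersetCard]
      refine ⟨⟨?_, hW0c⟩, ?_, ?_⟩
      · intro a ha
        simp only [mem_filter, mem_univ, true_and]
        exact Or.inr ((hW0m a).1 ha)
      · intro a ha
        exact (hW0m a).2 ((hVm a).1 ha).2
      · rw [Finset.disjoint_left]
        intro a ha ha'
        have := (hW0m a).1 ha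
        have := ((hYm a).1 ha').2
        omega
  rw [← hL]
  refine (Eq.trans ?_ hreg).trans ?_
  · congr!
  apply Finset.sum_eq_zero
  rintro ⟨V0, Y0⟩ hp
  by_cases hex : ∃ σ, RM (SP.r2 rA i M V Y) (SP.s2 rB i M V0 Y0) σ
  · obtain ⟨σ, hσ⟩ := hex
    have r2V : ∀ a ∈ V, SP.r2 rA i M V Y a = i + 1 := fun a ha => by
      unfold SP.r2; rw [if_pos ha]
    have r2Y : ∀ a ∈ Y, SP.r2 rA i M V Y a = M := fun a ha => by
      unfold SP.r2
      rw [if_neg (fun hh => Finset.disjoint_left.1 hVY hh ha), if_pos ha]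
    have r2U : ∀ a, a ∉ V → a ∉ Y → (rA a = i ∨ rA a = i + 1) → SP.r2 rA i M V Y a = i :=
      fun a c1 c2 c3 => by unfold SP.r2; rw [if_neg c1, if_neg c2, if_pos c3]
    have r2O : ∀ a, ¬ (rA a = i ∨ rA a = i + 1) → SP.r2 rA i M V Y a = rA a :=
      fun a c3 => by
        unfold SP.r2
        rw [if_neg (fun hh => c3 (hV a hh)), if_neg (fun hh => c3 (hY a hh)), if_neg c3]
    have cntO : ∀ j, j ≠ i → j ≠ i + 1 → j ≠ M → cnt (SP.r2 rA i M V Y) j = cnt rA j := by
      intro j j1 j2 j3
      unfold cnt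
      congr 1
      ext a
      simp only [mem_filter, mem_univ, true_and]
      by_cases c : rA a = i ∨ rA a = i + 1
      · by_cases d : a ∈ V
        · rw [r2V a d]; omega
        · by_cases e : a ∈ Y
          · rw [r2Y a e]; omega
          · rw [r2U a d e c]; omega
      · rw [r2O a c]
    have cntI : cnt rA i + 1 ≤ cnt (SP.r2 rA i M V Y) i := by
      have e1 : cnt (SP.r2 rA i M V Y) i =
          (univ.filter fun a : Fin m => k ≤ (a : ℕ) ∧ rA a = i).card +
            (univ.filter fun a : Fin m => (a : ℕ) < k ∧ rA a = i + 1).card := by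
        rw [← Finset.card_union_of_disjoint]
        · unfold cnt
          congr 1
          ext a
          simp only [mem_filter, mem_univ, true_and, mem_union]
          by_cases c : rA a = i ∨ rA a = i + 1
          · by_cases d : a ∈ V
            · rw [r2V a d]
              rw [hVm] at d
              omega
            · by_cases e : a ∈ Y
              · rw [r2Y a e]
                rw [hYm] at e
                omega
              · rw [r2U a d e c]
                rw [hVm] at d
                rw [hYm] at e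
                omega
          · rw [r2O a c]
            omega
        · rw [Finset.disjoint_left]
          intro a ha ha'
          simp only [mem_filter, mem_univ, true_and] at ha ha'
          omega
      have e2 : cnt rA i = (univ.filter fun a : Fin m => k ≤ (a : ℕ) ∧ rA a = i).card +
          (univ.filter fun a : Fin m => (a : ℕ) < k ∧ rA a = i).card := by
        rw [← Finset.card_union_of_disjoint]
        · unfold cnt
          congr 1
          ext a
          simp only [mem_filter, mem_univ, true_and, mem_union]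
          omega
        · rw [Finset.disjoint_left]
          intro a ha ha'
          simp only [mem_filter, mem_univ, true_and] at ha ha'
          omega
      have e3 : (univ.filter fun a : Fin m => (a : ℕ) < k ∧ rA a = i).card <
          (univ.filter fun a : Fin m => (a : ℕ) < k ∧ rA a = i + 1).card := hviol
      omega
    apply IHs
    · intro j hj
      exact SP.cnt_eq_of_RM hσ hj
    · rw [cntO 0 (by omega) (by omega) (by omega), hs]
    · -- potentials
      unfold pot
      set A := (univ.image rA).erase 0 with hA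
      set A' := (univ.image (SP.r2 rA i M V Y)).erase 0 with hA'
      have hsub : insert i ((A.erase i).erase (i + 1)) ⊆ A' := by
        intro j hj
        rw [Finset.mem_insert] at hj
        rcases hj with rfl | hj
        · rw [hA', Finset.mem_erase, Finset.mem_image]
          refine ⟨by omega, ?_⟩
          have hpos : 0 < cnt (SP.r2 rA j M V Y) j := by omega
          unfold cnt at hpos
          rw [Finset.card_pos] at hpos
          obtain ⟨a, ha⟩ := hpos
          exact ⟨a, mem_univ _, (mem_filter.1 ha).2⟩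
        · rw [Finset.mem_erase, Finset.mem_erase, hA, Finset.mem_erase, Finset.mem_image] at hj
          obtain ⟨j1, j2, j0, a, _, ha⟩ := hj
          rw [hA', Finset.mem_erase, Finset.mem_image]
          refine ⟨j0, a, mem_univ _, ?_⟩
          rw [r2O a (by omega), ha]
      have hsub2 : A ⊆ insert (i + 1) (insert i ((A.erase i).erase (i + 1))) := by
        intro j hj
        rw [Finset.mem_insert, Finset.mem_insert, Finset.mem_erase, Finset.mem_erase]
        by_cases j1 : j = i + 1
        · exact Or.inl j1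
        · by_cases j2 : j = i
          · exact Or.inr (Or.inl j2)
          · exact Or.inr (Or.inr ⟨j1, j2, hj⟩)
      have hni : i ∉ (A.erase i).erase (i + 1) := by
        rw [Finset.mem_erase, Finset.mem_erase]
        tauto
      have hni1 : i + 1 ∉ insert i ((A.erase i).erase (i + 1)) := by
        rw [Finset.mem_insert, Finset.mem_erase]
        intro h
        rcases h with h | h
        · omega
        · exact h.1 rfl
      have hcomm : ∑ j ∈ (A.erase i).erase (i + 1), 3 ^ cnt (SP.r2 rA i M V Y) j =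
          ∑ j ∈ (A.erase i).erase (i + 1), 3 ^ cnt rA j := by
        apply Finset.sum_congr rfl
        intro j hj
        rw [Finset.mem_erase, Finset.mem_erase, hA, Finset.mem_erase, Finset.mem_image] at hj
        obtain ⟨j1, j2, j0, a, _, ha⟩ := hj
        have := hMA a
        rw [cntO j j2 j1 (by omega)]
      calc ∑ j ∈ A, 3 ^ cnt rA j
          ≤ ∑ j ∈ insert (i + 1) (insert i ((A.erase i).erase (i + 1))), 3 ^ cnt rA j :=
            Finset.sum_le_sum_of_subset hsub2
        _ = 3 ^ cnt rA (i + 1) + (3 ^ cnt rA i +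
              ∑ j ∈ (A.erase i).erase (i + 1), 3 ^ cnt rA j) := by
            rw [Finset.sum_insert hni1, Finset.sum_insert hni]
        _ < 3 ^ cnt (SP.r2 rA i M V Y) i +
              ∑ j ∈ (A.erase i).erase (i + 1), 3 ^ cnt rA j := by
            have h1 : 3 ^ cnt rA (i + 1) ≤ 3 ^ cnt rA i := Nat.pow_le_pow_right (by norm_num) hsort
            have h2 : 3 ^ (cnt rA i + 1) ≤ 3 ^ cnt (SP.r2 rA i M V Y) i :=
              Nat.pow_le_pow_right (by norm_num) cntI
            have h3 : 0 < 3 ^ cnt rA i := by positivity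
            rw [pow_succ] at h2
            omega
        _ = ∑ j ∈ insert i ((A.erase i).erase (i + 1)), 3 ^ cnt (SP.r2 rA i M V Y) j := by
            rw [Finset.sum_insert hni, hcomm]
        _ ≤ ∑ j ∈ A', 3 ^ cnt (SP.r2 rA i M V Y) j := Finset.sum_le_sum_of_subset hsub
  · exact SP.ev_eq_zero_of_not F (fun σ hσ => hex ⟨σ, hσ⟩)

end Pool.Agent.Helper81.FZ
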