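import Pool.Agent.Helper81.FZ.StepDefs
import Pool.Agent.Helper81.FZ.NullId
import Pool.Agent.Helper81.FZ.Ind14

set_option autoImplicit false
set_option linter.unusedSectionVars false

namespace Pool.Agent.Helper81.FZ

open Finset

/-- the words reached from `rA` in the straightening step for the rows `0, 1` -/
def R0s14 {m : ℕ} (rA : Fin m → ℕ) (k : ℕ) : Finset (Fin m → ℕ) :=
  Fintype.piFinset (fun a : Fin m =>
    if rA a = 0 then (if (a : ℕ) < k then {0} else {0, 1})
    else if rA a = 1 then (if (a : ℕ) < k then {0, 1} else {1}) else {rA a})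

theorem mem_R0s14 {m : ℕ} {rA : Fin m → ℕ} {k : ℕ} {r' : Fin m → ℕ} :
    r' ∈ R0s14 rA k ↔ ∀ a : Fin m, (rA a = 0 → (a : ℕ) < k → r' a = 0) ∧
      (rA a = 0 → k ≤ (a : ℕ) → r' a ≤ 1) ∧ (rA a = 1 → (a : ℕ) < k → r' a ≤ 1) ∧
      (rA a = 1 → k ≤ (a : ℕ) → r' a = 1) ∧ (2 ≤ rA a → r' a = rA a) := by
  unfold R0s14
  rw [Fintype.mem_piFinset]
  apply forall_congr'
  intro a
  by_cases h0 : rA a = 0
  · by_cases hk : (a : ℕ) < k
    · simp [h0, hk]
    · simp [h0, hk]; omega
  · by_cases h1 : rA a = 1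
    · by_cases hk : (a : ℕ) < k
      · simp [h1, hk]; omega
      · simp [h1, hk]; omega
    · simp [h0, h1]; omega

open Classical in
theorem null_sum_zero14 (K : Type*) [Field K] (m n s : ℕ) (F : Finset (Fin m × Fin n) → K)
    (hF : F ∈ NM K (Fin m) (Fin n) s) (rA : Fin m → ℕ) (rB : Fin n → ℕ)
    (hB : (sup14 rB).card = s) (hA : (sup14 rA).card = s)
    (k : ℕ) (hviol : pre rA k 0 < pre rA k 1) :
    ∑ σ with (IsM σ ∧ hol14 σ = sup14 rB ∧ ind14 rB σ ∈ R0s14 rA k), F σ = 0 := by
  set 𝒯 := (univ : Finset (Finset (Fin m × Fin n))).filter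
    (fun σ => IsM σ ∧ hol14 σ = sup14 rB ∧ ind14 rB σ ∈ R0s14 rA k) with h𝒯
  set fix : Fin m → Prop := fun a => 2 ≤ rA a ∨ (rA a = 1 ∧ k ≤ (a : ℕ)) with hfix
  set g : Finset (Fin m × Fin n) → Finset (Fin m × Fin n) :=
    fun σ => σ.filter (fun e => fix e.1) with hg
  rw [← Finset.sum_fiberwise_of_maps_to (g := g) (t := 𝒯.image g)
      (fun σ hσ => mem_image_of_mem g hσ)]
  apply Finset.sum_eq_zero
  intro γ hγ
  obtain ⟨σ0, hσ0, rfl⟩ := mem_image.mp hγ
  obtain ⟨hM0, hH0, hR0⟩ := (mem_filter.mp hσ0).2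
  set γ := g σ0 with hγdef
  rw [mem_R0s14] at hR0
  have hγM : IsM γ := hM0.mono (filter_subset _ _)
  set Y : Finset (Fin m) := univ.filter (fun a : Fin m => (a : ℕ) < k ∧ rA a = 0) with hY
  have hYcard : Y.card = pre rA k 0 := by rw [hY]; rfl
  -- the size of `γ`
  have hγcard : γ.card ≤ (univ.filter (fun a : Fin m => fix a)).card := by
    rw [← hγM.card_pig14]
    apply card_le_card
    intro a ha
    obtain ⟨b, hb⟩ := mem_pig14.mp ha
    exact mem_filter.mpr ⟨mem_univ _, (mem_filter.mp hb).2⟩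
  have hsplit : (univ.filter (fun a : Fin m => fix a)).card + pre rA k 1 = s := by
    rw [← hA]
    unfold pre sup14
    rw [← card_union_of_disjoint]
    · congr 1
      ext a
      simp only [mem_union, mem_filter, mem_univ, true_and, hfix]
      omega
    · rw [Finset.disjoint_left]
      intro a ha ha'
      simp only [mem_filter, mem_univ, true_and, hfix] at ha ha'
      omega
  have hnull := null_identity14 s F (NM_NMp14 hF) (sup14 rB) hB Y γ (by omega)
  rw [← hnull]
  apply Finset.sum_congr _ (fun _ _ => rfl)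
  ext σ
  simp only [h𝒯, mem_filter, mem_univ, true_and]
  -- a pigeon fixed is matched in `σ0`
  have hfixm : ∀ a : Fin m, fix a → ∃ b, (a, b) ∈ γ := by
    intro a ha
    have h1 := hR0 a
    have h2 : ind14 rB σ0 a ≠ 0 := by
      rcases ha with ha | ⟨ha, hk⟩
      · rw [h1.2.2.2.2 ha]; omega
      · rw [h1.2.2.2.1 ha hk]; omega
    have h3 : ∃ b, (a, b) ∈ σ0 := by
      by_contra hcon
      push Not at hcon
      exact h2 (ind14_of_notMem hcon)
    obtain ⟨b, hb⟩ := h3
    exact ⟨b, mem_filter.mpr ⟨hb, ha⟩⟩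
  constructor
  · rintro ⟨⟨hM, hH, hR⟩, hgσ⟩
    rw [mem_R0s14] at hR
    refine ⟨hM, ?_, hH, ?_⟩
    · rw [← hgσ]; exact filter_subset _ _
    · intro y hy hyp
      simp only [hY, mem_filter, mem_univ, true_and] at hy
      have h1 := (hR y).1 hy.2 hy.1
      obtain ⟨b, hb⟩ := mem_pig14.mp hyp
      rw [ind14_of_mem hM hb] at h1
      have h2 : b ∈ hol14 σ := mem_hol14.mpr ⟨y, hb⟩
      rw [hH, mem_sup14] at h2
      omega
  · rintro ⟨hM, hγσ, hH, hYσ⟩
    have hγeq : g σ = γ := by
      ext e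
      constructor
      · intro he
        obtain ⟨he1, he2⟩ := mem_filter.mp he
        obtain ⟨b, hb⟩ := hfixm e.1 he2
        have := hM e he1 _ (hγσ hb) (Or.inl rfl)
        rw [this]; exact hb
      · intro he
        exact mem_filter.mpr ⟨hγσ he, (mem_filter.mp he).2⟩
    refine ⟨⟨hM, hH, ?_⟩, hγeq⟩
    rw [mem_R0s14]
    -- for fixed pigeons the induced letters agree with those of `σ0`
    have hfixv : ∀ a : Fin m, fix a → ind14 rB σ a = ind14 rB σ0 a := by
      intro a ha
      obtain ⟨b, hb⟩ := hfixm a ha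
      rw [ind14_of_mem hM (hγσ hb), ind14_of_mem hM0 (mem_filter.mp hb).1]
    -- for the other pigeons the induced letter is `≤ 1`
    have hother : ∀ a : Fin m, ¬ fix a → ind14 rB σ a ≤ 1 := by
      intro a ha
      by_cases hex : ∃ b, (a, b) ∈ σ
      · obtain ⟨b, hb⟩ := hex
        rw [ind14_of_mem hM hb]
        by_contra hcon
        have h2 : b ∈ hol14 σ0 := by
          rw [hH0, ← hH]; exact mem_hol14.mpr ⟨a, hb⟩
        obtain ⟨a0, ha0⟩ := mem_hol14.mp h2
        have h3 := ind14_of_mem (s := rB) hM0 ha0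
        have h4 := hR0 a0
        have h5 : fix a0 := by
          left
          by_contra h6
          by_cases hk : (a0 : ℕ) < k
          · have := h4.1; have := h4.2.2.1; omega
          · have := h4.2.1; have := h4.2.2.2.1; omega
        have h6 : (a0, b) ∈ γ := mem_filter.mpr ⟨ha0, h5⟩
        have h7 := hM.eqA14 hb (hγσ h6)
        exact ha (by rw [h7]; exact h5)
      · push Not at hex
        rw [ind14_of_notMem hex]; omega
    intro a
    refine ⟨?_, ?_, ?_, ?_, ?_⟩
    · intro h0 hk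
      apply ind14_of_notMem
      intro b hb
      apply hYσ a _ (mem_pig14.mpr ⟨b, hb⟩)
      simp only [hY, mem_filter, mem_univ, true_and]
      exact ⟨hk, h0⟩
    · intro h0 hk
      apply hother
      simp only [hfix]; omega
    · intro h0 hk
      apply hother
      simp only [hfix]; omega
    · intro h0 hk
      rw [hfixv a (Or.inr ⟨h0, hk⟩)]
      exact (hR0 a).2.2.2.1 h0 hk
    · intro h0
      rw [hfixv a (Or.inl h0)]
      exact (hR0 a).2.2.2.2 h0

theorem sup_card_eq14 {m n : ℕ} {rA : Fin m → ℕ} {rB : Fin n → ℕ}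
    (hc : ∀ i, 1 ≤ i → cnt rA i = cnt rB i) : (sup14 rA).card = (sup14 rB).card := by
  classical
  set J := (sup14 rA).image rA ∪ (sup14 rB).image rB with hJ
  have hJ1 : ∀ j ∈ J, 1 ≤ j := by
    intro j hj
    rw [hJ, mem_union, mem_image, mem_image] at hj
    rcases hj with ⟨a, ha, rfl⟩ | ⟨a, ha, rfl⟩
    · exact mem_sup14.mp ha
    · exact mem_sup14.mp ha
  rw [Finset.card_eq_sum_card_fiberwise (f := rA) (t := J)
      (fun a ha => mem_union_left _ (mem_image_of_mem _ ha)),
    Finset.card_eq_sum_card_fiberwise (f := rB) (t := J)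
      (fun a ha => mem_union_right _ (mem_image_of_mem _ ha))]
  apply Finset.sum_congr rfl
  intro j hj
  have h1 := hJ1 j hj
  have e1 : (sup14 rA).filter (fun a => rA a = j) = univ.filter (fun a => rA a = j) := by
    ext a
    simp only [sup14, mem_filter, mem_univ, true_and]
    omega
  have e2 : (sup14 rB).filter (fun a => rB a = j) = univ.filter (fun a => rB a = j) := by
    ext a
    simp only [sup14, mem_filter, mem_univ, true_and]
    omega
  rw [e1, e2, ← cnt_eq14, ← cnt_eq14, hc j h1]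

private theorem hol14_inst {m n : ℕ} (i1 i2 : DecidableEq (Fin n)) (σ : Finset (Fin m × Fin n)) :
    @hol14 (Fin m) (Fin n) i1 σ = @hol14 (Fin m) (Fin n) i2 σ := by
  rw [Subsingleton.elim i1 i2]

/-- straightening step, rows `0, 1` -/
theorem step_zero (K : Type*) [Field K] (m n s : ℕ) (F : Finset (Fin m × Fin n) → K)
    (hF : F ∈ NM K (Fin m) (Fin n) s) (rA : Fin m → ℕ) (rB : Fin n → ℕ)
    (hc : ∀ i, 1 ≤ i → cnt rA i = cnt rB i) (hs : cnt rA 0 + s = m)
    (k : ℕ) (hviol : pre rA k 0 < pre rA k 1)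
    (IHw : ∀ r' : Fin m → ℕ, (∀ j, cnt r' j = cnt rA j) → wt rA < wt r' → ev r' rB F = 0) :
    ev rA rB F = 0 := by
  classical
  have hcA := card_sup14 rA
  rw [Fintype.card_fin] at hcA
  have hA : (sup14 rA).card = s := by omega
  have hB : (sup14 rB).card = s := by rw [← sup_card_eq14 hc]; exact hA
  have hT : ∑ r' ∈ R0s14 rA k, ev r' rB F = 0 := by
    rw [sum_ev14, ← null_sum_zero14 K m n s F hF rA rB hB hA k hviol]
    apply Finset.sum_congr _ (fun _ _ => rfl)
    ext σ
    simp only [mem_filter, mem_univ, true_and]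
    constructor
    · rintro ⟨h1, h2, h3⟩
      refine ⟨h1, ?_, h3⟩
      rw [← h2]
      exact hol14_inst _ _ _
    · rintro ⟨h1, h2, h3⟩
      refine ⟨h1, ?_, h3⟩
      rw [← h2]
      exact hol14_inst _ _ _
  have hmem : rA ∈ R0s14 rA k := by
    rw [mem_R0s14]
    intro a
    omega
  rw [← Finset.add_sum_erase _ _ hmem] at hT
  have hrest : ∑ r' ∈ (R0s14 rA k).erase rA, ev r' rB F = 0 := by
    apply Finset.sum_eq_zero
    intro r' hr'
    obtain ⟨hne, hr'⟩ := mem_erase.mp hr'
    rw [mem_R0s14] at hr'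
    by_contra hev
    obtain ⟨σ, hσ, hFσ⟩ := exists_of_ev_ne14 hev
    have hcnt : ∀ j, 1 ≤ j → cnt r' j = cnt rA j := by
      intro j hj
      rw [RM_cnt14 hσ j hj, hc j hj]
    have hcnt' : ∀ j, cnt r' j = cnt rA j := by
      intro j
      by_cases hj : 1 ≤ j
      · exact hcnt j hj
      · have hj0 : j = 0 := by omega
        subst hj0
        have h1 := card_sup14 r'
        have h2 := sup_card_eq14 hcnt
        rw [Fintype.card_fin] at h1
        omega
    apply hev
    apply IHw r' hcnt'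
    apply wt_lt14 hcnt' k
    · intro a ha
      have := hr' a
      omega
    · intro a ha
      have := hr' a
      omega
    · exact hne
  rw [hrest, add_zero] at hT
  exact hT

end Pool.Agent.Helper81.FZ
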