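import Pool.Agent.Helper81.FZ.StepPos
import Pool.Agent.Helper81.FZ.StepZero

set_option autoImplicit false
set_option linter.unusedSectionVars false

namespace Pool.Agent.Helper81.FZ

open Finset

universe u v

section general

variable {α : Type u} {β : Type v} [Fintype α] [Fintype β]

theorem RM_relabel14 {rA : α → ℕ} {rB : β → ℕ} (π : ℕ → ℕ) (hinj : Function.Injective π)
    (h0 : ∀ i, 1 ≤ π i ↔ 1 ≤ i) (σ : Finset (α × β)) :
    RM (fun a => π (rA a)) (fun b => π (rB b)) σ ↔ RM rA rB σ := by
  unfold RM
  simp only [h0, hinj.eq_iff]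

theorem ev_relabel14 {K : Type*} [Field K] (F : Finset (α × β) → K) {rA : α → ℕ} {rB : β → ℕ}
    (π : ℕ → ℕ) (hinj : Function.Injective π) (h0 : ∀ i, 1 ≤ π i ↔ 1 ≤ i) :
    ev (fun a => π (rA a)) (fun b => π (rB b)) F = ev rA rB F := by
  unfold ev
  apply Finset.sum_congr _ (fun _ _ => rfl)
  ext σ
  simp only [mem_filter, mem_univ, true_and]
  exact RM_relabel14 π hinj h0 σ

theorem RM_swap14 {rA : α → ℕ} {rB : β → ℕ} (τ : Finset (β × α)) :
    RM rB rA τ ↔ RM rA rB (τ.map (Equiv.prodComm β α).toEmbedding) := by
  have hmem : ∀ (a : α) (b : β), (a, b) ∈ τ.map (Equiv.prodComm β α).toEmbedding ↔ (b, a) ∈ τ := by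
    intro a b
    rw [Finset.mem_map_equiv]
    rfl
  unfold RM IsM FrA FrB
  constructor
  · rintro ⟨h1, h2, h3, h4⟩
    refine ⟨?_, ?_, ?_, ?_⟩
    · rintro ⟨a, b⟩ he ⟨a', b'⟩ he' h
      rw [hmem] at he he'
      have := h1 _ he _ he' (h.symm)
      simp only [Prod.mk.injEq] at this ⊢
      exact ⟨this.2, this.1⟩
    · rintro ⟨a, b⟩ he
      rw [hmem] at he
      have := h2 _ he
      simp only at this ⊢
      omega
    · intro a ha hcon
      refine h4 a ha ?_
      rintro ⟨b, a'⟩ he haa
      exact hcon (a', b) ((hmem _ _).mpr he) haa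
    · intro b hb hcon
      refine h3 b hb ?_
      rintro ⟨b', a'⟩ he hbb
      exact hcon (a', b') ((hmem _ _).mpr he) hbb
  · rintro ⟨h1, h2, h3, h4⟩
    refine ⟨?_, ?_, ?_, ?_⟩
    · rintro ⟨b, a⟩ he ⟨b', a'⟩ he' h
      have := h1 (a, b) ((hmem _ _).mpr he) (a', b') ((hmem _ _).mpr he') (h.symm)
      simp only [Prod.mk.injEq] at this ⊢
      exact ⟨this.2, this.1⟩
    · rintro ⟨b, a⟩ he
      have := h2 (a, b) ((hmem _ _).mpr he)
      simp only at this ⊢
      omega
    · intro b hb hcon
      refine h4 b hb ?_
      rintro ⟨a, b'⟩ he hbb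
      exact hcon (b', a) ((hmem _ _).mp he) hbb
    · intro a ha hcon
      refine h3 a ha ?_
      rintro ⟨a', b'⟩ he haa
      exact hcon (b', a') ((hmem _ _).mp he) haa

theorem ev_swap14 {K : Type*} [Field K] (F : Finset (α × β) → K) (rA : α → ℕ) (rB : β → ℕ) :
    ev rB rA (fun τ : Finset (β × α) => F (τ.map (Equiv.prodComm β α).toEmbedding))
      = ev rA rB F := by
  classical
  unfold ev
  rw [Finset.sum_filter, Finset.sum_filter]
  refine Fintype.sum_equiv (Equiv.finsetCongr (Equiv.prodComm β α)) _ _ ?_
  intro τ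
  rw [Equiv.finsetCongr_apply]
  by_cases h : RM rB rA τ
  · rw [if_pos h, if_pos ((RM_swap14 τ).mp h)]
  · rw [if_neg h, if_neg (fun h' => h ((RM_swap14 τ).mpr h'))]

theorem NM_swap14 {K : Type*} [Field K] {s : ℕ} {F : Finset (α × β) → K} (hF : F ∈ NM K α β s) :
    (fun τ : Finset (β × α) => F (τ.map (Equiv.prodComm β α).toEmbedding)) ∈ NM K β α s := by
  obtain ⟨h1, h2⟩ := hF
  refine ⟨(Co_swap K s F).mpr h1, ?_⟩
  intro τ hτ
  apply h2
  rw [card_map]; exact hτ

theorem cnt_relabel14 (r : α → ℕ) (π : ℕ ≃ ℕ) (j : ℕ) :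
    cnt (fun a => π (r a)) j = cnt r (π.symm j) := by
  rw [cnt_eq14, cnt_eq14]
  congr 1
  ext a
  simp only [mem_filter, mem_univ, true_and]
  rw [Equiv.eq_symm_apply]

end general

theorem pot_eq14 {n : ℕ} {r r' : Fin n → ℕ} (h : ∀ j, cnt r' j = cnt r j) : pot r' = pot r := by
  classical
  have himg : ∀ (q : Fin n → ℕ) (j : ℕ), j ∈ univ.image q ↔ cnt q j ≠ 0 := by
    intro q j
    rw [cnt_eq14, mem_image, Finset.card_ne_zero]
    constructor
    · rintro ⟨a, -, ha⟩
      exact ⟨a, mem_filter.mpr ⟨mem_univ _, ha⟩⟩
    · rintro ⟨a, ha⟩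
      exact ⟨a, mem_univ _, (mem_filter.mp ha).2⟩
  have hi : univ.image r' = univ.image r := by
    ext j; rw [himg, himg, h j]
  have e1 : pot r' = ∑ i ∈ (univ.image r').erase 0, 3 ^ (cnt r' i) := by
    unfold pot; congr!
  have e2 : pot r = ∑ i ∈ (univ.image r).erase 0, 3 ^ (cnt r i) := by
    unfold pot; congr!
  rw [e1, e2, hi]
  apply Finset.sum_congr rfl
  intro i _
  rw [h i]

theorem pot_relabel14 {n : ℕ} (r : Fin n → ℕ) (π : ℕ ≃ ℕ) (h0 : π 0 = 0) :
    pot (fun a => π (r a)) = pot r := by
  classical
  have e1 : pot (fun a => π (r a))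
      = ∑ i ∈ (univ.image (fun a => π (r a))).erase 0, 3 ^ (cnt (fun a => π (r a)) i) := by
    unfold pot; congr!
  have e2 : pot r = ∑ i ∈ (univ.image r).erase 0, 3 ^ (cnt r i) := by
    unfold pot; congr!
  rw [e1, e2]
  symm
  apply Finset.sum_bij (fun i _ => π i)
  · intro i hi
    rw [mem_erase, mem_image] at hi ⊢
    obtain ⟨hi0, a, -, ha⟩ := hi
    refine ⟨?_, a, mem_univ _, by rw [ha]⟩
    intro hc
    apply hi0
    rw [← h0] at hc
    exact π.injective hc
  · intro i _ j _ hij
    exact π.injective hij
  · intro j hj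
    rw [mem_erase, mem_image] at hj
    obtain ⟨hj0, a, -, ha⟩ := hj
    refine ⟨r a, ?_, ha⟩
    rw [mem_erase, mem_image]
    refine ⟨?_, a, mem_univ _, rfl⟩
    intro hc
    rw [hc, h0] at ha
    exact hj0 ha.symm
  · intro i _
    rw [cnt_relabel14, Equiv.symm_apply_apply]

theorem pot_le14 {n : ℕ} (r : Fin n → ℕ) : pot r ≤ n * 3 ^ n := by
  classical
  have e2 : pot r = ∑ i ∈ (univ.image r).erase 0, 3 ^ (cnt r i) := by
    unfold pot; congr!
  rw [e2]
  calc ∑ i ∈ (univ.image r).erase 0, 3 ^ (cnt r i)
      ≤ ∑ i ∈ (univ.image r).erase 0, 3 ^ n := by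
        apply Finset.sum_le_sum
        intro i _
        apply Nat.pow_le_pow_right (by norm_num)
        rw [cnt_eq14]
        calc (univ.filter fun a => r a = i).card ≤ (univ : Finset (Fin n)).card :=
              card_le_card (filter_subset _ _)
          _ = n := by simp
    _ = ((univ.image r).erase 0).card * 3 ^ n := by rw [sum_const, smul_eq_mul]
    _ ≤ n * 3 ^ n := by
        apply Nat.mul_le_mul_right
        calc ((univ.image r).erase 0).card ≤ (univ.image r).card := card_le_card (erase_subset _ _)
          _ ≤ (univ : Finset (Fin n)).card := card_image_le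
          _ = n := by simp

theorem wt_le14 {n : ℕ} (r : Fin n → ℕ) : wt r ≤ n * ∑ a, r a := by
  unfold wt
  rw [Finset.mul_sum]
  apply Finset.sum_le_sum
  intro a _
  exact Nat.mul_le_mul_right _ (le_of_lt a.2)

/-- all `ev` vanish -/
theorem ev_zero14 (K : Type*) [Field K] (m n s : ℕ) (F : Finset (Fin m × Fin n) → K)
    (hF : F ∈ NM K (Fin m) (Fin n) s)
    (h : ∀ rA rB, StdPair m n s rA rB → ev rA rB F = 0) :
    ∀ d : ℕ, ∀ (rA : Fin m → ℕ) (rB : Fin n → ℕ), (∀ i, 1 ≤ i → cnt rA i = cnt rB i) →
      cnt rA 0 + s = m → m * 3 ^ m - pot rA = d → ev rA rB F = 0 := by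
  intro d
  induction d using Nat.strong_induction_on with
  | _ d IH1 =>
  have IHs : ∀ (rA : Fin m → ℕ), m * 3 ^ m - pot rA = d →
      ∀ (r' : Fin m → ℕ) (s' : Fin n → ℕ), (∀ j, 1 ≤ j → cnt r' j = cnt s' j) →
      cnt r' 0 + s = m → pot rA < pot r' → ev r' s' F = 0 := by
    intro rA hrA r' s' h1 h2 h3
    have h4 := pot_le14 r'
    exact IH1 (m * 3 ^ m - pot r') (by omega) r' s' h1 h2 rfl
  -- induction on the sum of the letters
  have H2 : ∀ e : ℕ, ∀ (rA : Fin m → ℕ) (rB : Fin n → ℕ), (∀ i, 1 ≤ i → cnt rA i = cnt rB i) →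
      cnt rA 0 + s = m → m * 3 ^ m - pot rA = d → (∑ a, rA a) + (∑ b, rB b) = e →
      ev rA rB F = 0 := by
    intro e
    induction e using Nat.strong_induction_on with
    | _ e IH2 =>
    have H3 : ∀ w : ℕ, ∀ (rA : Fin m → ℕ) (rB : Fin n → ℕ), (∀ i, 1 ≤ i → cnt rA i = cnt rB i) →
      cnt rA 0 + s = m → m * 3 ^ m - pot rA = d → (∑ a, rA a) + (∑ b, rB b) = e →
      (m + n) * e - (wt rA + wt rB) = w → ev rA rB F = 0 := by
      intro w
      induction w using Nat.strong_induction_on with
      | _ w IH3 =>
      intro rA rB hc hs hpot hsum hw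
      have hwA := wt_le14 rA
      have hwB := wt_le14 rB
      have hbound : ∀ (x : Fin m → ℕ) (y : Fin n → ℕ), (∑ a, x a) + (∑ b, y b) = e →
          wt x + wt y ≤ (m + n) * e := by
        intro x y hxy
        have h1 := wt_le14 x
        have h2 := wt_le14 y
        have h3 : m * (∑ a, x a) ≤ m * e := Nat.mul_le_mul_left _ (by omega)
        have h4 : n * (∑ a, y a) ≤ n * e := Nat.mul_le_mul_left _ (by omega)
        rw [add_mul]; omega
      have hcA := card_sup14 rA
      have hcB := card_sup14 rB
      have hcAB := sup_card_eq14 hc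
      rw [Fintype.card_fin] at hcA hcB
      by_cases hsorted : ∀ i, 1 ≤ i → cnt rA (i + 1) ≤ cnt rA i
      · by_cases hbA : Ballot rA
        · by_cases hbB : Ballot rB
          · exact h rA rB ⟨hbA, hbB, hc, hs⟩
          · -- violate on the side of the holes
            unfold Ballot at hbB
            push Not at hbB
            obtain ⟨k, i, hki⟩ := hbB
            have hF' := NM_swap14 hF
            rw [← ev_swap14 F rA rB]
            have hc' : ∀ i, 1 ≤ i → cnt rB i = cnt rA i := fun i hi => (hc i hi).symm
            have hs' : cnt rB 0 + s = n := by omega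
            have IHw' : ∀ r' : Fin n → ℕ, (∀ j, cnt r' j = cnt rB j) → wt rB < wt r' →
                ev r' rA (fun τ : Finset (Fin n × Fin m) =>
                  F (τ.map (Equiv.prodComm (Fin n) (Fin m)).toEmbedding)) = 0 := by
              intro r' hr' hwt
              rw [ev_swap14 F rA r']
              have h5 := sum_eq_of_cnt14 hr'
              have h6 := hbound rA r' (by omega)
              refine IH3 ((m + n) * e - (wt rA + wt r')) (by omega) rA r' ?_ hs hpot (by omega) rfl
              intro i hi
              rw [hr' i, hc i hi]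
            rcases Nat.eq_zero_or_pos i with hi | hi
            · subst hi
              exact step_zero K n m s _ hF' rB rA hc' hs' k hki IHw'
            · refine step_pos K n m s _ hF' rB rA hc' hs' i k hi ?_ hki IHw' ?_
              · rw [← hc i hi, ← hc (i + 1) (by omega)]
                exact hsorted i hi
              · intro r' s' h1 h2 h3
                rw [ev_swap14 F s' r']
                -- potentials agree when the counts agree
                have hpp : ∀ (x : Fin m → ℕ) (y : Fin n → ℕ), (∀ i, 1 ≤ i → cnt x i = cnt y i) →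
                    pot x = pot y := by
                  classical
                  intro x y hxy
                  have himg : ∀ {N : ℕ} (q : Fin N → ℕ) (j : ℕ), j ∈ univ.image q ↔ cnt q j ≠ 0 := by
                    intro N q j
                    rw [cnt_eq14, mem_image, Finset.card_ne_zero]
                    constructor
                    · rintro ⟨a, -, ha⟩
                      exact ⟨a, mem_filter.mpr ⟨mem_univ _, ha⟩⟩
                    · rintro ⟨a, ha⟩
                      exact ⟨a, mem_univ _, (mem_filter.mp ha).2⟩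
                  have e1 : pot x = ∑ i ∈ (univ.image x).erase 0, 3 ^ (cnt x i) := by
                    unfold pot; congr!
                  have e2 : pot y = ∑ i ∈ (univ.image y).erase 0, 3 ^ (cnt y i) := by
                    unfold pot; congr!
                  rw [e1, e2]
                  apply Finset.sum_congr
                  · ext j
                    rw [mem_erase, mem_erase, himg, himg]
                    constructor
                    · rintro ⟨hj, hj2⟩
                      exact ⟨hj, by rw [← hxy j (by omega)]; exact hj2⟩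
                    · rintro ⟨hj, hj2⟩
                      exact ⟨hj, by rw [hxy j (by omega)]; exact hj2⟩
                  · intro j hj
                    rw [mem_erase] at hj
                    rw [hxy j (by omega)]
                have h1' : ∀ i, 1 ≤ i → cnt s' i = cnt r' i := fun i hi => (h1 i hi).symm
                have h4 := card_sup14 s'
                have h5 := card_sup14 r'
                have h6 := sup_card_eq14 h1
                rw [Fintype.card_fin] at h4 h5
                refine IHs rA hpot s' r' h1' (by omega) ?_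
                rw [hpp rA rB hc, hpp s' r' h1']
                exact h3
        · -- violate on the side of the pigeons
          unfold Ballot at hbA
          push Not at hbA
          obtain ⟨k, i, hki⟩ := hbA
          have IHw' : ∀ r' : Fin m → ℕ, (∀ j, cnt r' j = cnt rA j) → wt rA < wt r' →
              ev r' rB F = 0 := by
            intro r' hr' hwt
            have h5 := sum_eq_of_cnt14 hr'
            have h6 := hbound r' rB (by omega)
            refine IH3 ((m + n) * e - (wt r' + wt rB)) (by omega) r' rB ?_ ?_ ?_ (by omega) rfl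
            · intro i hi
              rw [hr' i, hc i hi]
            · rw [hr' 0]; exact hs
            · rw [pot_eq14 hr']; exact hpot
          rcases Nat.eq_zero_or_pos i with hi | hi
          · subst hi
            exact step_zero K m n s _ hF rA rB hc hs k hki IHw'
          · exact step_pos K m n s _ hF rA rB hc hs i k hi (hsorted i hi) hki IHw'
              (IHs rA hpot)
      · -- sort the rows
        push Not at hsorted
        obtain ⟨i, hi, hlt⟩ := hsorted
        set π : ℕ ≃ ℕ := Equiv.swap i (i + 1) with hπ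
        have hπ0 : π 0 = 0 := Equiv.swap_apply_of_ne_of_ne (by omega) (by omega)
        have hπpos : ∀ j, 1 ≤ π j ↔ 1 ≤ j := by
          intro j
          constructor
          · intro hj
            by_contra hcon
            have : j = 0 := by omega
            rw [this, hπ0] at hj
            omega
          · intro hj
            by_contra hcon
            have h1 : π j = 0 := by omega
            rw [← hπ0] at h1
            have := π.injective h1
            omega
        rw [← ev_relabel14 F (rA := rA) (rB := rB) π π.injective hπpos]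
        have hπsymm : π.symm = π := by rw [hπ, Equiv.symm_swap]
        -- the sum decreases
        have hsumr : ∀ {N : ℕ} (r : Fin N → ℕ), (∑ a, π (r a)) + cnt r (i + 1)
            = (∑ a, r a) + cnt r i := by
          intro N r
          rw [cnt_eq14, cnt_eq14, Finset.card_filter, Finset.card_filter,
            ← Finset.sum_add_distrib, ← Finset.sum_add_distrib]
          apply Finset.sum_congr rfl
          intro a _
          by_cases h1 : r a = i
          · rw [h1, hπ, Equiv.swap_apply_left]
            simp
          · by_cases h2 : r a = i + 1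
            · rw [h2, hπ, Equiv.swap_apply_right]
              simp
            · rw [hπ, Equiv.swap_apply_of_ne_of_ne h1 h2]
              simp [h1, h2]
        have h1 := hsumr rA
        have h2 := hsumr rB
        have h3 : cnt rB i < cnt rB (i + 1) := by
          rw [← hc i hi, ← hc (i + 1) (by omega)]; exact hlt
        refine IH2 ((∑ a, π (rA a)) + (∑ b, π (rB b))) (by omega) _ _ ?_ ?_ ?_ rfl
        · intro j hj
          rw [cnt_relabel14, cnt_relabel14]
          apply hc
          rw [hπsymm, hπpos]; exact hj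
        · rw [cnt_relabel14, hπsymm, hπ0]; exact hs
        · rw [pot_relabel14 rA π hπ0]; exact hpot
    intro rA rB hc hs hpot hsum
    exact H3 _ rA rB hc hs hpot hsum rfl
  intro rA rB hc hs hpot
  exact H2 _ rA rB hc hs hpot rfl

/-- straightening: a null function killed by all standard pairs is zero -/
theorem NM_eq_zero (K : Type*) [Field K] (m n s : ℕ) (F : Finset (Fin m × Fin n) → K)
    (hF : F ∈ NM K (Fin m) (Fin n) s)
    (h : ∀ rA rB, StdPair m n s rA rB → ev rA rB F = 0) : F = 0 := by
  classical
  funext σ0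
  by_contra hne
  obtain ⟨hM, hcard⟩ := (NM_NMp14 hF).supp σ0 hne
  set rB : Fin n → ℕ := fun b => if b ∈ hol14 σ0 then (b : ℕ) + 1 else 0 with hrB
  set rA : Fin m → ℕ := ind14 rB σ0 with hrA
  have hsup : hol14 σ0 = sup14 rB := by
    ext b
    rw [mem_sup14]
    simp only [hrB]
    split_ifs with hb
    · simp [hb]
    · simp [hb]
  have hRM : RM rA rB σ0 := RM_iff14.mpr ⟨hM, hsup, rfl⟩
  have huniq : ∀ σ, RM rA rB σ → σ = σ0 := by
    intro σ hσ
    obtain ⟨h1, h2, h3⟩ := RM_iff14.mp hσ
    have hsub : σ ⊆ σ0 := by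
      rintro ⟨a, b⟩ he
      have h4 : ind14 rB σ a = rB b := ind14_of_mem h1 he
      have hb : b ∈ hol14 σ0 := by
        rw [hsup, ← h2]; exact mem_hol14.mpr ⟨a, he⟩
      have h5 : rB b = (b : ℕ) + 1 := by simp only [hrB]; rw [if_pos hb]
      rw [h3, h5] at h4
      have h6 : ∃ b', (a, b') ∈ σ0 := by
        by_contra hcon
        push Not at hcon
        rw [hrA, ind14_of_notMem hcon] at h4
        omega
      obtain ⟨b', hb'⟩ := h6
      rw [hrA, ind14_of_mem hM hb'] at h4
      have h7 : b' ∈ hol14 σ0 := mem_hol14.mpr ⟨a, hb'⟩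
      simp only [hrB] at h4
      rw [if_pos h7] at h4
      have h8 : b' = b := Fin.ext (by omega)
      rw [← h8]; exact hb'
    apply Finset.eq_of_subset_of_card_le hsub
    rw [← h1.card_hol14, ← hM.card_hol14, h2, hsup]
  have hev : ev rA rB F = F σ0 := by
    unfold ev
    rw [Finset.sum_eq_single σ0]
    · intro σ hσ hne
      exact absurd (huniq σ (mem_filter.mp hσ).2) hne
    · intro hcon
      exact absurd (mem_filter.mpr ⟨mem_univ _, hRM⟩) hcon
  apply hne
  rw [← hev]
  have hcA := card_sup14 rA
  rw [Fintype.card_fin, ← RM_pig14 hRM, hM.card_pig14, hcard] at hcA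
  exact ev_zero14 K m n s F hF h _ rA rB (RM_cnt14 hRM) hcA rfl

theorem ballot_le14 {n : ℕ} {r : Fin n → ℕ} (h : Ballot r) : ∀ a : Fin n, r a ≤ a := by
  intro a
  obtain ⟨a, ha⟩ := a
  induction a using Nat.strong_induction_on with
  | _ a ih =>
  rcases Nat.eq_zero_or_pos (r ⟨a, ha⟩) with h0 | h0
  · omega
  · obtain ⟨i, hi⟩ : ∃ i, r ⟨a, ha⟩ = i + 1 := ⟨r ⟨a, ha⟩ - 1, by omega⟩
    have h1 := h (a + 1) i
    have h2 : 0 < pre r (a + 1) (i + 1) := by
      unfold pre
      rw [Finset.card_pos]
      exact ⟨⟨a, ha⟩, by simp [hi]⟩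
    have h3 : 0 < pre r (a + 1) i := by omega
    unfold pre at h3
    rw [Finset.card_pos] at h3
    obtain ⟨⟨a', ha'⟩, h4⟩ := h3
    simp only [mem_filter, mem_univ, true_and] at h4
    have h5 : a' ≠ a := by
      intro hh
      subst hh
      rw [h4.2] at hi
      omega
    have h6 := ih a' (by omega) ha'
    rw [h4.2] at h6
    simp only at h6 ⊢
    omega

theorem finite_StdPair (m n s : ℕ) :
    Finite {p : (Fin m → ℕ) × (Fin n → ℕ) // StdPair m n s p.1 p.2} := by
  let f : {p : (Fin m → ℕ) × (Fin n → ℕ) // StdPair m n s p.1 p.2} →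
      (Fin m → Fin (m + 1)) × (Fin n → Fin (n + 1)) := fun p =>
    (fun a => ⟨p.1.1 a, by have := ballot_le14 p.2.1 a; omega⟩,
     fun b => ⟨p.1.2 b, by have := ballot_le14 p.2.2.1 b; omega⟩)
  apply Finite.of_injective f
  intro p q hpq
  apply Subtype.ext
  apply Prod.ext
  · funext a
    have h1 := congrFun (congrArg Prod.fst hpq) a
    exact congrArg Fin.val h1
  · funext b
    have h1 := congrFun (congrArg Prod.snd hpq) b
    exact congrArg Fin.val h1

theorem ev_add14 {α : Type u} {β : Type v} [Fintype α] [Fintype β] {K : Type*} [Field K]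
    (rA : α → ℕ) (rB : β → ℕ) (F G : Finset (α × β) → K) :
    ev rA rB (F + G) = ev rA rB F + ev rA rB G := by
  unfold ev
  rw [← Finset.sum_add_distrib]
  rfl

theorem ev_smul14 {α : Type u} {β : Type v} [Fintype α] [Fintype β] {K : Type*} [Field K]
    (rA : α → ℕ) (rB : β → ℕ) (c : K) (F : Finset (α × β) → K) :
    ev rA rB (c • F) = c * ev rA rB F := by
  unfold ev
  rw [Finset.mul_sum]
  rfl

theorem finrank_NM_le (K : Type*) [Field K] (m n s : ℕ) :
    Module.finrank K (NM K (Fin m) (Fin n) s) ≤ nSP m n s := by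
  haveI := finite_StdPair m n s
  haveI := Fintype.ofFinite {p : (Fin m → ℕ) × (Fin n → ℕ) // StdPair m n s p.1 p.2}
  let E : NM K (Fin m) (Fin n) s →ₗ[K]
      ({p : (Fin m → ℕ) × (Fin n → ℕ) // StdPair m n s p.1 p.2} → K) :=
    { toFun := fun F p => ev p.1.1 p.1.2 (F : Finset (Fin m × Fin n) → K)
      map_add' := by
        intro F G
        funext p
        exact ev_add14 _ _ _ _
      map_smul' := by
        intro c F
        funext p
        exact ev_smul14 _ _ _ _ }
  have hinj : Function.Injective E := by
    rw [injective_iff_map_eq_zero]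
    intro F hF
    apply Subtype.ext
    apply NM_eq_zero K m n s _ F.2
    intro rA rB hr
    exact congrFun hF ⟨(rA, rB), hr⟩
  have h1 := LinearMap.finrank_le_finrank_of_injective hinj
  rw [Module.finrank_fintype_fun_eq_card] at h1
  unfold nSP
  rw [Nat.card_eq_fintype_card]
  exact h1

end Pool.Agent.Helper81.FZ
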