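import Pool.Agent.Helper81.FZ.LowGe
import Pool.Agent.Helper81.FZ.CountY
import Pool.Agent.Helper29.Frege.Win

set_option autoImplicit false

namespace Pool.Agent.Helper81.FZ

open Finset Helper29.Yng

/-- every partition has a standard tableau -/
theorem f_pos : ∀ (n : ℕ) (l : ℕ →₀ ℕ), Prt l → sz l = n → 0 < f l := by
  intro n
  induction n with
  | zero =>
    intro l hl h
    rw [prt_eq_zero h, f_zero]
    exact Nat.one_pos
  | succ n ih =>
    intro l hl h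
    rw [f_rec hl (by omega)]
    obtain ⟨i, hi⟩ : ∃ i, i ∈ R l := by
      by_contra hcon
      have hcon : ∀ i, i ∉ R l := fun i hi => hcon ⟨i, hi⟩
      have h1 : ∀ i, l (i + 1) = l i := by
        intro i
        have h2 := hcon i
        rw [mem_R hl] at h2
        have h3 := hl i
        omega
      have h2 : ∀ i, l i = l 0 := by
        intro i
        induction i with
        | zero => rfl
        | succ i ihi => rw [h1, ihi]
      have h3 : l (sz l) = 0 := hl.zero_of_ge le_rfl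
      have h4 : l = 0 := by
        ext i
        rw [h2 i, ← h2 (sz l), h3]
        rfl
      rw [h4] at h
      simp [sz] at h
    refine Finset.sum_pos' (fun _ _ => Nat.zero_le _) ⟨i, hi, ?_⟩
    refine ih (l - e i) (hl.down hi) ?_
    have := sz_down hl hi
    omega

/-- the dimension of `Co` in terms of tableaux -/
theorem high_le (p q N s t B : ℕ) [Fact p.Prime] (hsB : s + t ≤ N + B) :
    Module.finrank (ZMod p) (Co (ZMod p) (Fin (N + q)) (Fin N) s) ≤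
      ∑ l ∈ (Y N).filter (fun l => t ≤ l 0 + B), f l * f (l + Finsupp.single 0 q) := by
  classical
  refine (finrank_Co_le (ZMod p) s).trans ?_
  refine (Finset.sum_le_sum (fun j _ => finrank_NM_le (ZMod p) (N + q) N j)).trans ?_
  simp_rw [nSP_eqY, Finset.sum_filter]
  rw [Finset.sum_comm]
  refine Finset.sum_le_sum (fun l hl => ?_)
  have hl0 : l 0 ≤ N := by
    have := mem_Y.1 hl
    have h2 := le_sz l 0
    omega
  rw [← Finset.sum_filter]
  by_cases h : t ≤ l 0 + B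
  · rw [if_pos h]
    have h3 : ((range (s + 1)).filter (fun i => l 0 + i = N)) ⊆ {N - l 0} := by
      intro i hi
      rw [Finset.mem_filter] at hi
      rw [Finset.mem_singleton]
      omega
    refine (Finset.sum_le_sum_of_subset h3).trans ?_
    rw [Finset.sum_singleton]
  · rw [if_neg h]
    have h3 : ((range (s + 1)).filter (fun i => l 0 + i = N)) = ∅ := by
      ext i
      rw [Finset.mem_filter, Finset.mem_range]
      simp only [Finset.notMem_empty, iff_false]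
      omega
    rw [h3, Finset.sum_empty]

/-- lower bound for the rank of the truncation -/
theorem low_ge' (p k N t : ℕ) [Fact p.Prime] (ht : t ≤ N) :
    ∑ l ∈ (Y N).filter (fun l => l 0 = t ∧ l 1 + mk p k ≤ l 0),
      f l * f (l + Finsupp.single 0 (p ^ k)) ≤
      Module.finrank (ZMod p) (Submodule.map
        (trunc (ZMod p) (Fin (N + p ^ k)) (Fin N) (N - t))
        (Co (ZMod p) (Fin (N + p ^ k)) (Fin N) (N - t + (2 ^ k - 1)))) := by
  classical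
  refine le_trans (le_of_eq ?_) (low_ge p k N (N - t))
  rw [nSPg_eqY]
  refine Finset.sum_congr (Finset.filter_congr (fun l hl => ?_)) (fun _ _ => rfl)
  have hl0 : l 0 ≤ N := by
    have := mem_Y.1 hl
    have h2 := le_sz l 0
    omega
  constructor
  · rintro ⟨h1, h2⟩
    exact ⟨by omega, h2⟩
  · rintro ⟨h1, h2⟩
    exact ⟨by omega, h2⟩

/-- growth of the parameter `k` -/
theorem choose_k (p C : ℕ) (hC : 0 < C) : ∃ ε : ℝ, 0 < ε ∧ ∃ M₀ : ℕ, ∀ M : ℕ, M₀ ≤ M →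
    ∃ k : ℕ, 1 ≤ k ∧ C * (3 * (p + 2) ^ k) ^ 8 ≤ M ∧
      (M : ℝ) ^ ε ≤ ((2 ^ k - 1 : ℕ) : ℝ) := by
  set L : ℕ := p + 2 with hL
  set P : ℕ := (p + 2) ^ 8 with hP
  set E : ℕ := C * 3 ^ 8 with hE
  have hE0 : 0 < E := by positivity
  have hP1 : 1 < P := by
    rw [hP]
    exact Nat.one_lt_pow (by norm_num) (by omega)
  refine ⟨1 / (16 * L : ℕ), by positivity, E * P ^ (E + 4), fun M hM => ?_⟩
  have hME : M / E ≠ 0 := by
    have h1 : E * 1 ≤ E * P ^ (E + 4) := Nat.mul_le_mul_left _ (Nat.one_le_pow _ _ (by omega))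
    have : 1 ≤ M / E := by
      rw [Nat.le_div_iff_mul_le hE0]
      linarith
    omega
  obtain ⟨k, hk4, hlow, hhigh⟩ : ∃ k, E + 4 ≤ k ∧ P ^ k ≤ M / E ∧ M / E < P ^ (k + 1) := by
    refine ⟨Nat.log P (M / E), ?_, Nat.pow_log_le_self P hME, Nat.lt_pow_succ_log_self hP1 _⟩
    apply Nat.le_log_of_pow_le hP1
    rw [Nat.le_div_iff_mul_le hE0]
    linarith
  refine ⟨k, by omega, ?_, ?_⟩
  · have h1 : E * P ^ k ≤ M := by
      calc E * P ^ k ≤ E * (M / E) := Nat.mul_le_mul_left _ hlow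
        _ ≤ M := Nat.mul_div_le M E
    calc C * (3 * (p + 2) ^ k) ^ 8 = E * P ^ k := by
          rw [hE, hP, mul_pow, ← pow_mul, ← pow_mul]
          ring
      _ ≤ M := h1
  · have h1 : M ≤ E * P ^ (k + 1) := by
      have h2 : M < E * (M / E + 1) := by
        have := Nat.lt_mul_div_succ M hE0
        exact this
      have h3 : E * (M / E + 1) ≤ E * P ^ (k + 1) := Nat.mul_le_mul_left _ hhigh
      omega
    have hLp : p + 2 ≤ 2 ^ L := by
      rw [hL]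
      exact Nat.lt_two_pow_self.le
    have h2 : P ^ (k + 1) ≤ 2 ^ (8 * L * (k + 1)) := by
      rw [hP, ← pow_mul]
      calc (p + 2) ^ (8 * (k + 1)) ≤ (2 ^ L) ^ (8 * (k + 1)) := Nat.pow_le_pow_left hLp _
        _ = 2 ^ (8 * L * (k + 1)) := by rw [← pow_mul]; ring_nf
    have h3 : E ≤ 2 ^ E := Nat.lt_two_pow_self.le
    have h4 : M ≤ (2 ^ (k - 1)) ^ (16 * L) := by
      calc M ≤ E * P ^ (k + 1) := h1
        _ ≤ 2 ^ E * 2 ^ (8 * L * (k + 1)) := Nat.mul_le_mul h3 h2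
        _ = 2 ^ (E + 8 * L * (k + 1)) := by rw [pow_add]
        _ ≤ 2 ^ ((k - 1) * (16 * L)) := by
          apply Nat.pow_le_pow_right (by norm_num)
          obtain ⟨j, rfl⟩ : ∃ j, k = j + 1 := ⟨k - 1, by omega⟩
          simp only [Nat.add_sub_cancel]
          have hL1 : 1 ≤ L := by omega
          obtain ⟨i, rfl⟩ : ∃ i, j = E + 3 + i := ⟨j - (E + 3), by omega⟩
          obtain ⟨L', hL'⟩ : ∃ L', L = L' + 1 := ⟨L - 1, by omega⟩
          rw [hL']
          have h0 : (E + 3 + i) * (16 * (L' + 1)) =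
            (E + 8 * (L' + 1) * (E + 3 + i + 1 + 1)) + (8 * L' * (E + 1 + i) + 7 * E + 8 * i + 8) := by
            ring
          rw [h0]
          exact Nat.le_add_right _ _
        _ = (2 ^ (k - 1)) ^ (16 * L) := by rw [← pow_mul]
    have h5 : 2 ^ (k - 1) ≤ 2 ^ k - 1 := by
      obtain ⟨j, rfl⟩ : ∃ j, k = j + 1 := ⟨k - 1, by omega⟩
      simp only [Nat.add_sub_cancel]
      have : 1 ≤ 2 ^ j := Nat.one_le_two_pow
      rw [pow_succ]
      omega
    have h6 : M ≤ (2 ^ k - 1) ^ (16 * L) := h4.trans (Nat.pow_le_pow_left h5 _)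
    have h7 : (M : ℝ) ≤ ((2 ^ k - 1 : ℕ) : ℝ) ^ (16 * L) := by exact_mod_cast h6
    calc (M : ℝ) ^ (1 / (16 * L : ℕ) : ℝ)
        ≤ (((2 ^ k - 1 : ℕ) : ℝ) ^ (16 * L)) ^ (1 / (16 * L : ℕ) : ℝ) :=
          Real.rpow_le_rpow (by positivity) h7 (by positivity)
      _ = ((2 ^ k - 1 : ℕ) : ℝ) := by
          rw [one_div]
          exact Real.pow_rpow_inv_natCast (by positivity) (by positivity)

/-- MAIN THEOREM of the algebraic part, from the counting statement -/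
theorem window_of_C (hC : ∃ C : ℕ, 0 < C ∧ ∀ n0 q B N : ℕ, 1 ≤ B → B ≤ n0 → 1 ≤ q →
      C * (n0 + q + B) ^ 8 ≤ N → ∃ n t : ℕ, N ≤ 2 * n ∧ n ≤ N ∧ n0 ≤ t ∧ t ≤ n ∧
        ∑ l ∈ (Y n).filter (fun l => t ≤ l 0 + B), f l * f (l + Finsupp.single 0 q) ≤
          6 * n * ∑ l ∈ (Y n).filter (fun l => l 0 = t ∧ l 1 + n0 ≤ l 0),
            f l * f (l + Finsupp.single 0 q))
    (p : ℕ) [Fact p.Prime] :
    ∃ ε : ℝ, 0 < ε ∧ ∃ M₀ : ℕ, ∀ M : ℕ, M₀ ≤ M → ∃ N k t : ℕ,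
      M ≤ N ∧ N ≤ 2 * M ∧ 1 ≤ k ∧ t + (2 ^ k - 1) ≤ N ∧ p ^ k ≤ N ∧
      (M : ℝ) ^ ε ≤ ((2 ^ k - 1 : ℕ) : ℝ) ∧
      0 < Module.finrank (ZMod p) (Submodule.map
          (trunc (ZMod p) (Fin (N + p ^ k)) (Fin N) t)
          (Co (ZMod p) (Fin (N + p ^ k)) (Fin N) (t + (2 ^ k - 1)))) ∧
      ∀ j ≤ 2 ^ k - 1, Module.finrank (ZMod p) (Co (ZMod p) (Fin (N + p ^ k)) (Fin N) (t + j)) ≤
        6 * N * Module.finrank (ZMod p) (Submodule.map
          (trunc (ZMod p) (Fin (N + p ^ k)) (Fin N) t)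
          (Co (ZMod p) (Fin (N + p ^ k)) (Fin N) (t + (2 ^ k - 1)))) := by
  classical
  have hp : p.Prime := Fact.out
  obtain ⟨C, hC0, hC⟩ := hC
  obtain ⟨ε, hε, M₀, hM₀⟩ := choose_k p C hC0
  refine ⟨ε, hε, M₀, fun M hM => ?_⟩
  obtain ⟨k, hk1, hkM, hkε⟩ := hM₀ M hM
  have h2k : 1 ≤ 2 ^ k - 1 := by
    have : 2 ^ 1 ≤ 2 ^ k := Nat.pow_le_pow_right (by norm_num) hk1
    omega
  have hBm : 2 ^ k - 1 ≤ mk p k := le_mk p k hp.two_le
  have hq1 : 1 ≤ p ^ k := Nat.one_le_pow _ _ hp.pos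
  have hmk : mk p k ≤ (p + 2) ^ k := mk_le p k
  have hpk : p ^ k ≤ (p + 2) ^ k := Nat.pow_le_pow_left (by omega) _
  have h2pk : 2 ^ k ≤ (p + 2) ^ k := Nat.pow_le_pow_left (by omega) _
  have hsum : mk p k + p ^ k + (2 ^ k - 1) ≤ 3 * (p + 2) ^ k := by omega
  have hle : C * (mk p k + p ^ k + (2 ^ k - 1)) ^ 8 ≤ 2 * M := by
    calc C * (mk p k + p ^ k + (2 ^ k - 1)) ^ 8 ≤ C * (3 * (p + 2) ^ k) ^ 8 :=
          Nat.mul_le_mul_left _ (Nat.pow_le_pow_left hsum _)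
      _ ≤ M := hkM
      _ ≤ 2 * M := by omega
  obtain ⟨N, t, hN1, hN2, ht1, ht2, hmain⟩ := hC (mk p k) (p ^ k) (2 ^ k - 1) (2 * M) h2k hBm hq1 hle
  have hlow := low_ge' p k N t ht2
  have hpkN : p ^ k ≤ N := by
    have h1 : (p + 2) ^ k ≤ C * (3 * (p + 2) ^ k) ^ 8 := by
      calc (p + 2) ^ k ≤ 3 * (p + 2) ^ k := by omega
        _ ≤ (3 * (p + 2) ^ k) ^ 8 := Nat.le_self_pow (by norm_num) _
        _ = 1 * (3 * (p + 2) ^ k) ^ 8 := by ring
        _ ≤ C * (3 * (p + 2) ^ k) ^ 8 := Nat.mul_le_mul_right _ hC0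
    omega
  refine ⟨N, k, N - t, by omega, hN2, hk1, by omega, hpkN, hkε, ?_, ?_⟩
  · rw [Nat.pos_iff_ne_zero]
    intro h0
    rw [h0, Nat.le_zero] at hlow
    rw [hlow, mul_zero, Nat.le_zero] at hmain
    have hN0 : 0 < N := by omega
    have hz : (Finsupp.single 0 N : ℕ →₀ ℕ) ∈ Y N := by
      have := add_s_mem (n := 0) (j := N) (l := 0) (by rw [Y_zero]; simp)
      simpa using this
    have hz0 : (Finsupp.single 0 N : ℕ →₀ ℕ) ∈ (Y N).filter (fun l => t ≤ l 0 + (2 ^ k - 1)) := by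
      rw [Finset.mem_filter]
      refine ⟨hz, ?_⟩
      rw [Finsupp.single_eq_same]
      omega
    have h1 := (Finset.sum_eq_zero_iff.1 hmain) _ hz0
    have h2 : 0 < f (Finsupp.single 0 N) := f_pos N _ (mem_Y.1 hz).1 (mem_Y.1 hz).2
    have h3 : 0 < f (Finsupp.single 0 N + Finsupp.single 0 (p ^ k)) := by
      have := add_s_mem (j := p ^ k) hz
      exact f_pos (N + p ^ k) _ (mem_Y.1 this).1 (mem_Y.1 this).2
    have := Nat.mul_pos h2 h3
    omega
  · intro j hj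
    calc Module.finrank (ZMod p) (Co (ZMod p) (Fin (N + p ^ k)) (Fin N) (N - t + j))
        ≤ ∑ l ∈ (Y N).filter (fun l => t ≤ l 0 + (2 ^ k - 1)), f l * f (l + Finsupp.single 0 (p ^ k)) :=
          high_le p (p ^ k) N _ t (2 ^ k - 1) (by omega)
      _ ≤ 6 * N * ∑ l ∈ (Y N).filter (fun l => l 0 = t ∧ l 1 + mk p k ≤ l 0),
            f l * f (l + Finsupp.single 0 (p ^ k)) := hmain
      _ ≤ _ := Nat.mul_le_mul_left _ hlow

/-- MAIN THEOREM of the algebraic part -/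
theorem window (p : ℕ) [Fact p.Prime] :
    ∃ ε : ℝ, 0 < ε ∧ ∃ M₀ : ℕ, ∀ M : ℕ, M₀ ≤ M → ∃ N k t : ℕ,
      M ≤ N ∧ N ≤ 2 * M ∧ 1 ≤ k ∧ t + (2 ^ k - 1) ≤ N ∧ p ^ k ≤ N ∧
      (M : ℝ) ^ ε ≤ ((2 ^ k - 1 : ℕ) : ℝ) ∧
      0 < Module.finrank (ZMod p) (Submodule.map
          (trunc (ZMod p) (Fin (N + p ^ k)) (Fin N) t)
          (Co (ZMod p) (Fin (N + p ^ k)) (Fin N) (t + (2 ^ k - 1)))) ∧
      ∀ j ≤ 2 ^ k - 1, Module.finrank (ZMod p) (Co (ZMod p) (Fin (N + p ^ k)) (Fin N) (t + j)) ≤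
        6 * N * Module.finrank (ZMod p) (Submodule.map
          (trunc (ZMod p) (Fin (N + p ^ k)) (Fin N) t)
          (Co (ZMod p) (Fin (N + p ^ k)) (Fin N) (t + (2 ^ k - 1)))) :=
  window_of_C window_C p

end Pool.Agent.Helper81.FZ
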