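import Pool.Agent.Helper81.FZ.Defs
import Pool.Agent.Helper68.FZ.Ballot

set_option autoImplicit false

namespace Pool.Agent.Helper81.FZ

open Finset

theorem prt_iff (l : ℕ →₀ ℕ) : Helper29.Yng.Prt l ↔ Antitone l :=
  ⟨fun h => antitone_nat_of_succ_le h, fun h i => h (Nat.le_succ i)⟩

theorem Shp_eq_Y (n : ℕ) : Shp n = Helper29.Yng.Y n := by
  classical
  ext l
  unfold Shp Helper29.Yng.Y
  rw [Finset.mem_filter, Finset.mem_filter, prt_iff]

theorem cnt_bridge {n : ℕ} (r : Fin n → ℕ) (i : ℕ) : cnt r i = Helper68.FZ.cnt r i := by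
  classical
  unfold cnt Helper68.FZ.cnt
  congr 1

theorem pre_of_le {n : ℕ} (r : Fin n → ℕ) {k : ℕ} (hk : n ≤ k) (i : ℕ) :
    pre r k i = Helper68.FZ.cnt r i := by
  unfold pre Helper68.FZ.cnt
  congr 1
  ext a
  simp only [Finset.mem_filter, Finset.mem_univ, true_and, and_iff_right_iff_imp]
  intro _
  have := a.2
  omega

theorem ballot_bridge {n : ℕ} (r : Fin n → ℕ) : Ballot r ↔ Helper68.FZ.Ballot r := by
  constructor
  · intro h k _ i
    exact h k i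
  · intro h k i
    rcases Nat.le_total n k with hk | hk
    · rw [pre_of_le r hk, pre_of_le r hk]
      exact h.prt i
    · exact h k hk i

theorem mem_BW_iff {n : ℕ} {l : ℕ →₀ ℕ} (hl : l ∈ Shp n) (r : Fin n → ℕ) :
    r ∈ Helper68.FZ.BW n l ↔ (Ballot r ∧ ∀ i, cnt r i = l i) := by
  rw [Shp_eq_Y] at hl
  rw [Helper68.FZ.mem_BW hl, ballot_bridge]
  simp only [cnt_bridge]

theorem fN_eq_card {n : ℕ} {l : ℕ →₀ ℕ} (hl : l ∈ Shp n) : fN n l = (Helper68.FZ.BW n l).card := by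
  unfold fN
  exact Nat.subtype_card _ (mem_BW_iff hl)

theorem fN_eq_f {n : ℕ} {l : ℕ →₀ ℕ} (hl : l ∈ Shp n) : fN n l = Helper29.Yng.f l := by
  rw [fN_eq_card hl, Helper68.FZ.card_BW (by rw [← Shp_eq_Y]; exact hl)]

theorem mem_Shp (n : ℕ) (l : ℕ →₀ ℕ) :
    l ∈ Shp n ↔ Antitone l ∧ (∑ i ∈ range n, l i) = n ∧ ∀ i, n ≤ i → l i = 0 := by
  classical
  unfold Shp
  rw [Finset.mem_filter, Finset.mem_finsuppAntidiag]
  constructor
  · rintro ⟨⟨h1, h2⟩, h3⟩
    refine ⟨h3, h1, fun i hi => ?_⟩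
    by_contra hne
    have := h2 (Finsupp.mem_support_iff.2 hne)
    rw [Finset.mem_range] at this
    omega
  · rintro ⟨h1, h2, h3⟩
    refine ⟨⟨h2, fun i hi => ?_⟩, h1⟩
    rw [Finset.mem_range]
    by_contra hne
    exact Finsupp.mem_support_iff.1 hi (h3 i (by omega))

theorem mem_Shp_of_ballot {n : ℕ} {l : ℕ →₀ ℕ} {r : Fin n → ℕ} (h : Ballot r)
    (hl : ∀ i, cnt r i = l i) : l ∈ Shp n := by
  rw [Shp_eq_Y]
  rw [ballot_bridge] at h
  have h1 : l = Helper68.FZ.content r := by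
    ext i
    rw [Helper68.FZ.content_apply, ← hl, cnt_bridge]
  rw [h1]
  exact h.content_mem

/-- the content of a ballot word is a partition -/
theorem fN_eq_zero (n : ℕ) (l : ℕ →₀ ℕ) (h : l ∉ Shp n) : fN n l = 0 := by
  unfold fN
  have : IsEmpty {r : Fin n → ℕ // Ballot r ∧ ∀ i, cnt r i = l i} :=
    ⟨fun r => h (mem_Shp_of_ballot r.2.1 r.2.2)⟩
  exact Nat.card_of_isEmpty

theorem finite_ballot (n : ℕ) (l : ℕ →₀ ℕ) :
    Finite {r : Fin n → ℕ // Ballot r ∧ ∀ i, cnt r i = l i} := by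
  classical
  by_cases hl : l ∈ Shp n
  · have : {r : Fin n → ℕ | Ballot r ∧ ∀ i, cnt r i = l i} = (Helper68.FZ.BW n l : Set (Fin n → ℕ)) := by
      ext r
      rw [Finset.mem_coe, mem_BW_iff hl]
      rfl
    have h2 : Set.Finite {r : Fin n → ℕ | Ballot r ∧ ∀ i, cnt r i = l i} := by
      rw [this]
      exact Finset.finite_toSet _
    exact h2
  · have : IsEmpty {r : Fin n → ℕ // Ballot r ∧ ∀ i, cnt r i = l i} :=
      ⟨fun r => hl (mem_Shp_of_ballot r.2.1 r.2.2)⟩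
    infer_instance

theorem zero_mem_Shp : (0 : ℕ →₀ ℕ) ∈ Shp 0 := by
  rw [mem_Shp]
  exact ⟨fun _ _ _ => le_rfl, by simp, fun _ _ => rfl⟩

theorem fN_zero : fN 0 0 = 1 := by
  rw [fN_eq_f zero_mem_Shp, Helper29.Yng.f_zero]

/-- delete the last letter -/
theorem fN_succ (n : ℕ) (l : ℕ →₀ ℕ) (hl : l ∈ Shp (n + 1)) :
    fN (n + 1) l = ∑ i ∈ range (n + 1), if l (i + 1) < l i then
      fN n (l - Finsupp.single i 1) else 0 := by
  classical
  have hY : l ∈ Helper29.Yng.Y (n + 1) := by rw [← Shp_eq_Y]; exact hl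
  have hY' := Helper29.Yng.mem_Y.1 hY
  rw [fN_eq_f hl, Helper29.Yng.f_rec hY'.1 (by rw [hY'.2]; omega), ← Finset.sum_filter]
  have h1 : Helper29.Yng.R l = (range (n + 1)).filter (fun i => l (i + 1) < l i) := by
    unfold Helper29.Yng.R
    rw [hY'.2]
  rw [h1]
  refine Finset.sum_congr rfl fun i hi => ?_
  have hi' : i ∈ Helper29.Yng.R l := by rw [h1]; exact hi
  have h2 : l - Finsupp.single i 1 ∈ Shp n := by
    rw [Shp_eq_Y, Helper29.Yng.mem_Y]
    have h3 := Helper29.Yng.sz_down hY'.1 hi'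
    have h4 := hY'.2
    refine ⟨hY'.1.down hi', ?_⟩
    show Helper29.Yng.sz (l - Helper29.Yng.e i) = n
    omega
  rw [fN_eq_f h2]

end Pool.Agent.Helper81.FZ
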