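import Pool.Agent.Helper81.FZ.YoungA

set_option autoImplicit false

namespace Pool.Agent.Helper81.FZ

open Finset

theorem add_single_mem_Shp {n : ℕ} {l : ℕ →₀ ℕ} (hl : l ∈ Shp n) {i : ℕ}
    (hi : i ∈ Helper29.Yng.A l) : l + Finsupp.single i 1 ∈ Shp (n + 1) := by
  rw [Shp_eq_Y, Helper29.Yng.mem_Y] at *
  refine ⟨hl.1.up hi, ?_⟩
  show Helper29.Yng.sz (l + Helper29.Yng.e i) = n + 1
  rw [Helper29.Yng.sz_add_e, hl.2]

/-- upward identity -/
theorem fN_up (n : ℕ) (l : ℕ →₀ ℕ) (hl : l ∈ Shp n) :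
    (n + 1) * fN n l = ∑ i ∈ range (n + 1), fN (n + 1) (l + Finsupp.single i 1) := by
  classical
  have hY : l ∈ Helper29.Yng.Y n := by rw [← Shp_eq_Y]; exact hl
  have hY' := Helper29.Yng.mem_Y.1 hY
  have h1 : Helper29.Yng.A l ⊆ range (n + 1) := by
    unfold Helper29.Yng.A
    rw [hY'.2]
    exact Finset.filter_subset _ _
  have h2 : ∑ i ∈ Helper29.Yng.A l, fN (n + 1) (l + Finsupp.single i 1) =
      ∑ i ∈ range (n + 1), fN (n + 1) (l + Finsupp.single i 1) := by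
    refine Finset.sum_subset h1 fun i hi hni => ?_
    apply fN_eq_zero
    intro hmem
    apply hni
    rw [Helper29.Yng.mem_A hY'.1]
    rw [Shp_eq_Y, Helper29.Yng.mem_Y] at hmem
    by_contra hcon
    push Not at hcon
    obtain ⟨hc1, hc2⟩ := hcon
    have h3 : (l + Finsupp.single i 1 : ℕ →₀ ℕ) (i - 1 + 1) ≤
        (l + Finsupp.single i 1 : ℕ →₀ ℕ) (i - 1) := hmem.1 (i - 1)
    have h4 : i - 1 + 1 = i := by omega
    rw [h4] at h3
    have h5 : i ≠ i - 1 := by omega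
    rw [Finsupp.add_apply, Finsupp.add_apply, Finsupp.single_eq_same,
      Finsupp.single_eq_of_ne (by omega)] at h3
    omega
  rw [← h2]
  have h3 := Helper29.Yng.up_sum n l hY'.1 hY'.2
  have h4 : ∑ i ∈ Helper29.Yng.A l, (Helper29.Yng.f (l + Helper29.Yng.e i) : ℝ) =
      ((∑ i ∈ Helper29.Yng.A l, fN (n + 1) (l + Finsupp.single i 1) : ℕ) : ℝ) := by
    rw [Nat.cast_sum]
    refine Finset.sum_congr rfl fun i hi => ?_
    rw [fN_eq_f (add_single_mem_Shp hl hi)]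
  rw [h4] at h3
  rw [fN_eq_f hl]
  exact_mod_cast h3.symm

end Pool.Agent.Helper81.FZ
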